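import Pool.Agent.H974R3.Defs

/-!
# Alternants: existence of the Schur type polynomials

`g` is defined by the Jacobi-Trudi determinant `det (h_{a_j - k})`, over any commutative ring, so
that no division is needed; the bialternant formula is proved over every commutative ring.
-/

namespace Pool.Agent.H974R3
open Equiv

noncomputable section

/-- the Schur type polynomials `det (u_i ^ aexp r j) / Vandermonde`, as functions of lists -/
structure GSpec (q : ℂ) (r : ℕ) (g : List ℂ → ℂ) : Prop where
  perm : ∀ l l' : List ℂ, l.Perm l' → g l = g l'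
  nil : g [] = 1
  single : ∀ x, g [x] = 1
  recur : ∀ (t : ℂ) (l : List ℂ), g (t :: (q * t) :: l)
    = (if r = 1 then 1 else -q ^ 2 * t) * (l.map (fun u => u - q ^ 2 * t)).prod * g l
  deg : ∀ l : List ℂ, (r = 1 ∨ Even l.length) →
    ∃ P : Polynomial ℂ, P.natDegree ≤ l.length / 2 ∧ ∀ x, P.eval x = g (x :: l)
  cont : ∀ N : ℕ, Continuous (fun z : Fin N → ℂ => g (List.ofFn z))
  ones : ∀ N : ℕ, (∏ j ∈ Finset.range N, ∏ i ∈ Finset.range j, ((j - i : ℕ) : ℂ))
      * g (List.replicate N 1)
    = ∏ j ∈ Finset.range N, ∏ i ∈ Finset.range j, ((aexp r j - aexp r i : ℕ) : ℂ)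

namespace AltAux

section general
variable {R S : Type*} [CommRing R] [CommRing S]

/-- the geometric series `1/(1-us)` -/
def geo (u : R) : PowerSeries R := PowerSeries.mk fun n => u ^ n

lemma geo_mul (u : R) : geo u * (1 - PowerSeries.C u * PowerSeries.X) = 1 := by
  ext n
  rw [mul_sub, mul_one, map_sub]
  cases n with
  | zero =>
    rw [← mul_assoc]
    simp [geo]
  | succ n =>
    rw [← mul_assoc, PowerSeries.coeff_succ_mul_X, PowerSeries.coeff_mul_C]
    simp [geo, PowerSeries.coeff_one, pow_succ]

/-- generating function of the complete homogeneous symmetric functions of a list -/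
def Hs (l : List R) : PowerSeries R := (l.map geo).prod

lemma Hs_cons (u : R) (l : List R) : Hs (u :: l) = geo u * Hs l := by simp [Hs]

lemma Hs_perm {l l' : List R} (h : l.Perm l') : Hs l = Hs l' := (h.map geo).prod_eq

lemma Hs_map (f : R →+* S) (l : List R) : Hs (l.map f) = PowerSeries.map f (Hs l) := by
  unfold Hs
  rw [map_list_prod, List.map_map, List.map_map]
  congr 1
  apply List.map_congr_left
  intro u _
  ext n
  simp [geo]

/-- Jacobi-Trudi determinant -/
def Dm (a : ℕ → ℕ) (N : ℕ) (F : PowerSeries R) : R :=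
  Matrix.det (Matrix.of fun k j : Fin N =>
    if (k : ℕ) ≤ a j then PowerSeries.coeff (a j - k) F else 0)

lemma Dm_map (f : R →+* S) (a : ℕ → ℕ) (N : ℕ) (F : PowerSeries R) :
    Dm a N (PowerSeries.map f F) = f (Dm a N F) := by
  unfold Dm
  rw [RingHom.map_det]
  congr 1
  ext k j
  simp only [Matrix.of_apply, RingHom.mapMatrix_apply, Matrix.map_apply]
  split_ifs
  · simp
  · simp

/-- the symmetric function `g` -/
def gg (r : ℕ) (l : List R) : R := Dm (aexp r) l.length (Hs l)

lemma gg_map (f : R →+* S) (r : ℕ) (l : List R) : gg r (l.map f) = f (gg r l) := by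
  unfold gg
  rw [Hs_map, List.length_map, Dm_map]

lemma gg_perm (r : ℕ) {l l' : List R} (h : l.Perm l') : gg r l = gg r l' := by
  unfold gg
  rw [Hs_perm h, h.length_eq]

/-- the bialternant formula -/
theorem bialt (a : ℕ → ℕ) {N : ℕ} (v : Fin N → R) :
    Matrix.det (Matrix.of fun i j : Fin N => v i ^ a j)
      = (Matrix.vandermonde v).det * Dm a N (Hs (List.ofFn v)) := by
  classical
  set P : Fin N → Polynomial R := fun i => ∏ j ∈ Finset.univ.erase i,
    (1 - Polynomial.C (v j) * Polynomial.X) with hP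
  have hPdeg : ∀ i, (P i).natDegree < N := by
    intro i
    have h1 : (P i).natDegree ≤ ∑ j ∈ Finset.univ.erase i, 1 := by
      refine (Polynomial.natDegree_prod_le _ _).trans (Finset.sum_le_sum ?_)
      intro j _
      compute_degree
    have h2 : ∑ j ∈ Finset.univ.erase i, 1 = N - 1 := by simp
    have h3 : 0 < N := i.pos
    omega
  have hH : Hs (List.ofFn v) = ∏ j, geo (v j) := by
    unfold Hs
    rw [List.map_ofFn, List.prod_ofFn]
    rfl
  have hPH : ∀ i, (P i : PowerSeries R) * Hs (List.ofFn v) = geo (v i) := by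
    intro i
    rw [hH, ← Finset.mul_prod_erase _ _ (Finset.mem_univ i)]
    have h1 : (P i : PowerSeries R) * ∏ j ∈ Finset.univ.erase i, geo (v j) = 1 := by
      have h2 : (P i : PowerSeries R) = ∏ j ∈ Finset.univ.erase i,
          (1 - PowerSeries.C (v j) * PowerSeries.X) := by
        rw [hP]
        change Polynomial.coeToPowerSeries.ringHom (R := R) (∏ j ∈ Finset.univ.erase i,
          (1 - Polynomial.C (v j) * Polynomial.X)) = _
        rw [map_prod]
        apply Finset.prod_congr rfl
        intro j _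
        simp
      rw [h2, ← Finset.prod_mul_distrib]
      apply Finset.prod_eq_one
      intro j _
      rw [mul_comm, geo_mul]
    calc (P i : PowerSeries R) * (geo (v i) * ∏ j ∈ Finset.univ.erase i, geo (v j))
        = geo (v i) * ((P i : PowerSeries R) * ∏ j ∈ Finset.univ.erase i, geo (v j)) := by ring
      _ = geo (v i) := by rw [h1, mul_one]
  have hent : ∀ (i : Fin N) (n : ℕ), v i ^ n = ∑ k : Fin N, (P i).coeff k *
      (if (k : ℕ) ≤ n then PowerSeries.coeff (n - k) (Hs (List.ofFn v)) else 0) := by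
    intro i n
    have h1 : v i ^ n = PowerSeries.coeff n ((P i : PowerSeries R) * Hs (List.ofFn v)) := by
      rw [hPH]; simp [geo]
    rw [h1, PowerSeries.coeff_mul, Finset.Nat.sum_antidiagonal_eq_sum_range_succ
      (fun x y => PowerSeries.coeff x (P i : PowerSeries R) *
        PowerSeries.coeff y (Hs (List.ofFn v)))]
    have h2 : ∑ k : Fin N, (P i).coeff k *
      (if (k : ℕ) ≤ n then PowerSeries.coeff (n - k) (Hs (List.ofFn v)) else 0)
      = ∑ k ∈ Finset.range N, (P i).coeff k *
      (if k ≤ n then PowerSeries.coeff (n - k) (Hs (List.ofFn v)) else 0) := by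
      rw [Finset.sum_range]
    rw [h2]
    -- both sums equal the sum over range (max N (n+1))
    set T := max N (n + 1) with hT
    have e1 : ∑ k ∈ Finset.range N, (P i).coeff k *
      (if k ≤ n then PowerSeries.coeff (n - k) (Hs (List.ofFn v)) else 0)
      = ∑ k ∈ Finset.range T, (P i).coeff k *
      (if k ≤ n then PowerSeries.coeff (n - k) (Hs (List.ofFn v)) else 0) := by
      apply Finset.sum_subset
      · intro k hk
        rw [Finset.mem_range] at hk ⊢
        omega
      · intro k _ hk
        rw [Finset.mem_range] at hk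
        rw [Polynomial.coeff_eq_zero_of_natDegree_lt (by have := hPdeg i; omega), zero_mul]
    have e2 : ∑ k ∈ Finset.range n.succ, PowerSeries.coeff k (P i : PowerSeries R) *
        PowerSeries.coeff (n - k) (Hs (List.ofFn v))
      = ∑ k ∈ Finset.range T, (P i).coeff k *
      (if k ≤ n then PowerSeries.coeff (n - k) (Hs (List.ofFn v)) else 0) := by
      have e3 : ∑ k ∈ Finset.range n.succ, PowerSeries.coeff k (P i : PowerSeries R) *
        PowerSeries.coeff (n - k) (Hs (List.ofFn v))
        = ∑ k ∈ Finset.range n.succ, (P i).coeff k *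
      (if k ≤ n then PowerSeries.coeff (n - k) (Hs (List.ofFn v)) else 0) := by
        apply Finset.sum_congr rfl
        intro k hk
        rw [Finset.mem_range] at hk
        rw [if_pos (by omega), Polynomial.coeff_coe]
      rw [e3]
      apply Finset.sum_subset
      · intro k hk
        rw [Finset.mem_range] at hk ⊢
        omega
      · intro k _ hk
        rw [Finset.mem_range] at hk
        rw [if_neg (by omega), mul_zero]
    rw [e1, e2]
  have hmat : ∀ b : ℕ → ℕ, Matrix.det (Matrix.of fun i j : Fin N => v i ^ b j)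
      = (Matrix.of fun i k : Fin N => (P i).coeff k).det * Dm b N (Hs (List.ofFn v)) := by
    intro b
    unfold Dm
    rw [← Matrix.det_mul]
    congr 1
    ext i j
    rw [Matrix.mul_apply]
    simp only [Matrix.of_apply]
    exact hent i (b j)
  have hv : (Matrix.vandermonde v).det = (Matrix.of fun i k : Fin N => (P i).coeff k).det := by
    have h1 := hmat id
    have h2 : Dm id N (Hs (List.ofFn v)) = 1 := by
      unfold Dm
      rw [Matrix.det_of_isUpperTriangular]
      · apply Finset.prod_eq_one
        intro k _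
        simp only [Matrix.of_apply, id, le_refl, if_true, Nat.sub_self]
        rw [hH, PowerSeries.coeff_zero_eq_constantCoeff_apply, map_prod]
        apply Finset.prod_eq_one
        intro j _
        simp [geo]
      · intro k j hkj
        simp only [Matrix.of_apply, id]
        rw [if_neg]
        have : (j : ℕ) < k := hkj
        omega
    rw [h2, mul_one] at h1
    rw [← h1]
    rfl
  rw [hmat a, hv]

/-- unitriangular shift matrix -/
def Us (N d : ℕ) (x : R) : Matrix (Fin N) (Fin N) R :=
  Matrix.of fun i j => if i = j then 1 else if (j : ℕ) = i + d then -x else 0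

lemma Us_det (N d : ℕ) (hd : 1 ≤ d) (x : R) : (Us N d x).det = 1 := by
  unfold Us
  rw [Matrix.det_of_isUpperTriangular]
  · apply Finset.prod_eq_one
    intro k _
    simp
  · intro k j hkj
    have : (j : ℕ) < k := hkj
    simp only [Matrix.of_apply]
    rw [if_neg (by intro h; rw [h] at this; omega), if_neg (by omega)]

lemma Us_mul (N d : ℕ) (hd : 1 ≤ d) (x : R) (M : Matrix (Fin N) (Fin N) R) (k j : Fin N) :
    (Us N d x * M) k j = M k j - x * (if h : (k : ℕ) + d < N then M ⟨k + d, h⟩ j else 0) := by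
  classical
  rw [Matrix.mul_apply]
  have h1 : ∀ l : Fin N, Us N d x k l * M l j
      = (if k = l then M l j else 0) - x * (if (l : ℕ) = k + d then M l j else 0) := by
    intro l
    unfold Us
    simp only [Matrix.of_apply]
    split_ifs with h1 h2
    · exfalso; rw [h1] at h2; omega
    · ring
    · ring
    · ring
  rw [Finset.sum_congr rfl (fun l _ => h1 l), Finset.sum_sub_distrib, Finset.sum_ite_eq,
    if_pos (Finset.mem_univ k), ← Finset.mul_sum]
  congr 2
  split_ifs with h
  · rw [Finset.sum_eq_single ⟨k + d, h⟩]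
    · simp
    · intro l _ hl
      rw [if_neg]
      intro h2
      exact hl (Fin.ext h2)
    · simp
  · apply Finset.sum_eq_zero
    intro l _
    rw [if_neg]
    have := l.isLt
    omega

lemma mul_Us (N d : ℕ) (hd : 1 ≤ d) (x : R) (M : Matrix (Fin N) (Fin N) R) (i j : Fin N) :
    (M * Us N d x) i j = M i j - x * (if h : d ≤ (j : ℕ) then M i ⟨j - d, by omega⟩ else 0) := by
  classical
  rw [Matrix.mul_apply]
  have h1 : ∀ l : Fin N, M i l * Us N d x l j
      = (if l = j then M i l else 0) - x * (if (j : ℕ) = l + d then M i l else 0) := by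
    intro l
    unfold Us
    simp only [Matrix.of_apply]
    split_ifs with h1 h2
    · exfalso; rw [h1] at h2; omega
    · ring
    · ring
    · ring
  rw [Finset.sum_congr rfl (fun l _ => h1 l), Finset.sum_sub_distrib, Finset.sum_ite_eq',
    if_pos (Finset.mem_univ j), ← Finset.mul_sum]
  congr 2
  split_ifs with h
  · rw [Finset.sum_eq_single ⟨j - d, by omega⟩]
    · rw [if_pos]
      simp only
      omega
    · intro l _ hl
      rw [if_neg]
      intro h2
      exact hl (Fin.ext (by simp only; omega))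
    · simp
  · apply Finset.sum_eq_zero
    intro l _
    rw [if_neg]
    omega

/-! ### degree -/

lemma aexp_bound {r M j : ℕ} (hr : r = 1 ∨ r = 2) (h : r = 1 ∨ Even M) (hj : j ≤ M) :
    aexp r j - M ≤ M / 2 := by
  unfold aexp
  rcases hr with rfl | rfl
  · omega
  · rcases h with h | h
    · omega
    · obtain ⟨s, hs⟩ := h
      omega

open Polynomial in
lemma gg_deg (r : ℕ) (hr : r = 1 ∨ r = 2) (l : List R) (h : r = 1 ∨ Even l.length) :
    (gg r ((X : R[X]) :: l.map C)).natDegree ≤ l.length / 2 := by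
  classical
  set F : PowerSeries R[X] := Hs (l.map C) with hF
  have hFC : F = PowerSeries.map C (Hs l) := by rw [hF, Hs_map]
  set G : PowerSeries R[X] := geo X * F with hG
  have hG0 : PowerSeries.coeff 0 G = PowerSeries.coeff 0 F := by
    rw [hG, PowerSeries.coeff_mul]
    simp [geo]
  have hGs : ∀ n, PowerSeries.coeff (n + 1) G - X * PowerSeries.coeff n G
      = PowerSeries.coeff (n + 1) F := by
    intro n
    have h1 : G * (1 - PowerSeries.C X * PowerSeries.X) = F := by
      rw [hG]
      calc geo X * F * (1 - PowerSeries.C X * PowerSeries.X)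
          = (geo X * (1 - PowerSeries.C X * PowerSeries.X)) * F := by ring
        _ = F := by rw [geo_mul, one_mul]
    rw [← h1, mul_sub, mul_one, map_sub, ← mul_assoc, PowerSeries.coeff_succ_mul_X,
      PowerSeries.coeff_mul_C]
    ring
  have hGdeg : ∀ n, (PowerSeries.coeff n G).natDegree ≤ n := by
    intro n
    rw [hG, PowerSeries.coeff_mul]
    apply Polynomial.natDegree_sum_le_of_forall_le
    intro p hp
    rw [Finset.HasAntidiagonal.mem_antidiagonal] at hp
    rw [hFC]
    simp only [geo, PowerSeries.coeff_mk, PowerSeries.coeff_map]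
    refine (Polynomial.natDegree_mul_C_le _ _).trans ?_
    refine (Polynomial.natDegree_X_pow_le _).trans ?_
    omega
  have hlen : (((X : R[X]) :: l.map C)).length = l.length + 1 := by simp
  unfold gg
  rw [Hs_cons, ← hF, ← hG, hlen]
  unfold Dm
  rw [← one_mul (Matrix.det _), ← Us_det (l.length + 1) 1 le_rfl (X : R[X]), ← Matrix.det_mul,
    Matrix.det_apply]
  apply Polynomial.natDegree_sum_le_of_forall_le
  intro σ _
  refine (Polynomial.natDegree_smul_le _ _).trans ?_
  refine (Polynomial.natDegree_prod_le _ _).trans ?_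
  have hterm : ∀ k ∈ (Finset.univ : Finset (Fin (l.length + 1))),
      ((Us (l.length + 1) 1 (X : R[X]) * Matrix.of fun k j : Fin (l.length + 1) =>
        if (k : ℕ) ≤ aexp r j then PowerSeries.coeff (aexp r j - k) G else 0) (σ k) k).natDegree
      ≤ if σ k = Fin.last l.length then l.length / 2 else 0 := by
    intro k _
    rw [Us_mul _ _ le_rfl]
    simp only [Matrix.of_apply]
    by_cases hlast : σ k = Fin.last l.length
    · rw [if_pos hlast, hlast]
      simp only [Fin.val_last]
      rw [dif_neg (by omega), mul_zero, sub_zero]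
      have hk : (k : ℕ) ≤ l.length := by have := k.isLt; omega
      have hb := aexp_bound hr h hk
      split_ifs with c
      · exact (hGdeg _).trans hb
      · simp
    · rw [if_neg hlast]
      have hlt : (σ k : ℕ) < l.length := by
        have h1 := (σ k).isLt
        have h2 : (σ k : ℕ) ≠ l.length := fun h3 => hlast (Fin.ext (by simp [h3]))
        omega
      rw [dif_pos (by omega)]
      have hval : (if (σ k : ℕ) ≤ aexp r k then PowerSeries.coeff (aexp r k - (σ k : ℕ)) G else 0)
          - X * (if (σ k : ℕ) + 1 ≤ aexp r k then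
              PowerSeries.coeff (aexp r k - ((σ k : ℕ) + 1)) G else 0)
          = if (σ k : ℕ) ≤ aexp r k then PowerSeries.coeff (aexp r k - (σ k : ℕ)) F else 0 := by
        rcases lt_trichotomy (σ k : ℕ) (aexp r k) with c | c | c
        · rw [if_pos c.le, if_pos (by omega), if_pos c.le]
          obtain ⟨n, hn⟩ : ∃ n, aexp r k - (σ k : ℕ) = n + 1 := ⟨aexp r k - (σ k : ℕ) - 1, by omega⟩
          have hn2 : aexp r k - ((σ k : ℕ) + 1) = n := by omega
          rw [hn, hn2, hGs]
        · rw [if_pos c.le, if_neg (by omega), if_pos c.le, mul_zero, sub_zero, c, Nat.sub_self, hG0]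
        · rw [if_neg (by omega), if_neg (by omega), if_neg (by omega), mul_zero, sub_zero]
      rw [hval]
      split_ifs with c
      · rw [hFC, PowerSeries.coeff_map]
        simp
      · simp
  refine (Finset.sum_le_sum hterm).trans ?_
  rw [Finset.sum_ite, Finset.sum_const_zero, add_zero, Finset.sum_const, smul_eq_mul]
  have : (Finset.univ.filter fun k => σ k = Fin.last l.length).card = 1 := by
    rw [Finset.card_eq_one]
    refine ⟨σ.symm (Fin.last l.length), ?_⟩
    ext k
    simp [Equiv.eq_symm_apply]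
  rw [this, one_mul]

/-! ### the recursion -/

lemma det_row0 {n : ℕ} (B : Matrix (Fin (n + 1)) (Fin (n + 1)) R)
    (h : ∀ j : Fin n, B 0 j.succ = 0) :
    B.det = B 0 0 * (B.submatrix Fin.succ Fin.succ).det := by
  rw [Matrix.det_succ_row_zero, Fin.sum_univ_succ]
  rw [Finset.sum_eq_zero (s := Finset.univ)]
  · simp
  · intro j _
    rw [h j]; ring

lemma det_block2 {M : ℕ} (A : Matrix (Fin (M + 2)) (Fin (M + 2)) R)
    (h0 : ∀ j : Fin M, A 0 j.succ.succ = 0) (h1 : ∀ j : Fin M, A 1 j.succ.succ = 0) :
    A.det = (A 0 0 * A 1 1 - A 0 1 * A 1 0) *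
      (A.submatrix (fun i : Fin M => i.succ.succ) (fun j : Fin M => j.succ.succ)).det := by
  rw [Matrix.det_succ_row_zero, Fin.sum_univ_succ, Fin.sum_univ_succ]
  rw [Finset.sum_eq_zero (s := Finset.univ) (f := fun j : Fin M => _)]
  · have e0 : (A.submatrix Fin.succ (Fin.succAbove 0)).det = A 1 1 *
        (A.submatrix (fun i : Fin M => i.succ.succ) (fun j : Fin M => j.succ.succ)).det := by
      rw [det_row0]
      · simp only [Matrix.submatrix_apply, Matrix.submatrix_submatrix]
        congr 1
      · intro j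
        simpa using h1 j
    have e1 : (A.submatrix Fin.succ (Fin.succAbove (Fin.succ 0))).det = A 1 0 *
        (A.submatrix (fun i : Fin M => i.succ.succ) (fun j : Fin M => j.succ.succ)).det := by
      rw [det_row0]
      · simp only [Matrix.submatrix_apply, Matrix.submatrix_submatrix]
        congr 1
      · intro j
        simpa using h1 j
    rw [e0, e1]
    simp
    ring
  · intro j _
    rw [h0 j]; ring

lemma aexp_add_two (r j : ℕ) : aexp r (j + 2) = aexp r j + 3 := by
  unfold aexp
  rw [Nat.add_mod_right]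
  have : (j + 2) / 2 = j / 2 + 1 := by omega
  rw [this]; ring

lemma alt_rec (q t : R) (hq : q ^ 2 + q + 1 = 0) (r : ℕ) {M : ℕ} (u : Fin M → R) :
    Matrix.det (Matrix.of fun i j : Fin (M + 2) =>
      (Fin.cons t (Fin.cons (q * t) u : Fin (M + 1) → R) : Fin (M + 2) → R) i ^ aexp r j)
    = ((q * t) ^ r - t ^ r) * ((∏ i, (u i ^ 3 - t ^ 3)) *
      Matrix.det (Matrix.of fun i j : Fin M => u i ^ aexp r j)) := by
  have hq3 : q ^ 3 = 1 := by linear_combination (q - 1) * hq
  rw [← mul_one (Matrix.det _), ← Us_det (M + 2) 2 (by norm_num) (t ^ 3), ← Matrix.det_mul,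
    det_block2]
  · have a00 : aexp r 0 = 0 := by simp [aexp]
    have a01 : aexp r 1 = r := by simp [aexp]
    have v1 : (Fin.cons t (Fin.cons (q * t) u : Fin (M + 1) → R) : Fin (M + 2) → R) 1 = q * t := rfl
    have hsub : (Matrix.submatrix ((Matrix.of fun i j : Fin (M + 2) =>
      (Fin.cons t (Fin.cons (q * t) u : Fin (M + 1) → R) : Fin (M + 2) → R) i ^ aexp r j)
        * Us (M + 2) 2 (t ^ 3)) (fun i : Fin M => i.succ.succ) (fun j : Fin M => j.succ.succ))
        = Matrix.of fun i j : Fin M => (u i ^ 3 - t ^ 3) * (Matrix.of fun i j : Fin M => u i ^ aexp r j) i j := by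
      ext i j
      rw [Matrix.submatrix_apply, mul_Us _ _ (by norm_num)]
      simp only [Matrix.of_apply, Fin.cons_succ, Fin.val_succ]
      rw [dif_pos (by omega)]
      have h1 : (j : ℕ) + 1 + 1 = j + 2 := rfl
      have h2 : (j : ℕ) + 1 + 1 - 2 = j := by omega
      simp only [h2]
      rw [h1, aexp_add_two, pow_add]
      ring
    rw [hsub, Matrix.det_mul_column, mul_Us _ _ (by norm_num), mul_Us _ _ (by norm_num),
      mul_Us _ _ (by norm_num), mul_Us _ _ (by norm_num)]
    simp only [Matrix.of_apply, Fin.cons_zero, v1, Fin.val_zero, Fin.val_one, a00, a01, pow_zero]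
    simp
  · intro j
    rw [mul_Us _ _ (by norm_num)]
    simp only [Matrix.of_apply, Fin.cons_zero, Fin.val_succ]
    rw [dif_pos (by omega)]
    have h1 : (j : ℕ) + 1 + 1 = j + 2 := rfl
    have h2 : (j : ℕ) + 1 + 1 - 2 = j := by omega
    simp only [h2]
    rw [h1, aexp_add_two, pow_add]
    ring
  · intro j
    have v1 : (Fin.cons t (Fin.cons (q * t) u : Fin (M + 1) → R) : Fin (M + 2) → R) 1 = q * t := rfl
    rw [mul_Us _ _ (by norm_num)]
    simp only [Matrix.of_apply, v1, Fin.val_succ]
    rw [dif_pos (by omega)]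
    have h1 : (j : ℕ) + 1 + 1 = j + 2 := rfl
    have h2 : (j : ℕ) + 1 + 1 - 2 = j := by omega
    simp only [h2]
    rw [h1, aexp_add_two, pow_add, mul_pow q t 3, hq3]
    ring

lemma vand_rec (q t : R) {M : ℕ} (u : Fin M → R) :
    (Matrix.vandermonde
      (Fin.cons t (Fin.cons (q * t) u : Fin (M + 1) → R) : Fin (M + 2) → R)).det
    = ((q - 1) * t * ∏ i, ((u i - t) * (u i - q * t))) * (Matrix.vandermonde u).det := by
  rw [Matrix.det_vandermonde, Matrix.det_vandermonde, Fin.prod_univ_succ, Fin.prod_univ_succ]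
  simp only [Fin.prod_Ioi_zero, Fin.prod_Ioi_succ, Fin.cons_zero, Fin.cons_succ]
  rw [Fin.prod_univ_succ, Finset.prod_mul_distrib]
  simp only [Fin.cons_zero, Fin.cons_succ]
  ring

lemma rec_ring (q t : R) (hq : q ^ 2 + q + 1 = 0) (r : ℕ) (hr : r = 1 ∨ r = 2) {M : ℕ}
    (u : Fin M → R) :
    (Matrix.vandermonde
      (Fin.cons t (Fin.cons (q * t) u : Fin (M + 1) → R) : Fin (M + 2) → R)).det *
      (gg r (t :: (q * t) :: List.ofFn u) - (if r = 1 then 1 else -q ^ 2 * t) *
        (∏ i, (u i - q ^ 2 * t)) * gg r (List.ofFn u)) = 0 := by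
  have h1 := bialt (aexp r) (Fin.cons t (Fin.cons (q * t) u : Fin (M + 1) → R) : Fin (M + 2) → R)
  have h2 := bialt (aexp r) u
  have h3 : List.ofFn (Fin.cons t (Fin.cons (q * t) u : Fin (M + 1) → R) : Fin (M + 2) → R)
      = t :: (q * t) :: List.ofFn u := by
    simp [List.ofFn_succ]
  rw [h3, alt_rec q t hq, h2] at h1
  have h4 : gg r (t :: (q * t) :: List.ofFn u) = Dm (aexp r) (M + 2) (Hs (t :: (q * t) :: List.ofFn u)) := by
    unfold gg
    simp
  have h5 : gg r (List.ofFn u) = Dm (aexp r) M (Hs (List.ofFn u)) := by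
    unfold gg
    simp
  rw [← h4, ← h5] at h1
  have h6 : (q * t) ^ r - t ^ r = ((q - 1) * t) * (if r = 1 then 1 else -q ^ 2 * t) := by
    rcases hr with rfl | rfl
    · simp; ring
    · simp only [OfNat.ofNat_ne_one, if_false]
      linear_combination (t ^ 2 * (q - 1)) * hq
  have h7 : ∏ i, (u i ^ 3 - t ^ 3) = (∏ i, ((u i - t) * (u i - q * t))) * ∏ i, (u i - q ^ 2 * t) := by
    rw [← Finset.prod_mul_distrib]
    apply Finset.prod_congr rfl
    intro i _
    linear_combination ((u i) ^ 2 * t - (u i) * q * t ^ 2 + (q - 1) * t ^ 3) * hq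
  rw [mul_sub, ← h1, vand_rec, h6, h7]
  ring

end general

lemma recur (q : ℂ) (hq : q ^ 2 + q + 1 = 0) (r : ℕ) (hr : r = 1 ∨ r = 2) (t : ℂ) (l : List ℂ) :
    gg r (t :: (q * t) :: l)
    = (if r = 1 then 1 else -q ^ 2 * t) * (l.map (fun u => u - q ^ 2 * t)).prod * gg r l := by
  classical
  set M := l.length with hM
  let T : MvPolynomial (Fin (M + 1)) ℂ := MvPolynomial.X 0
  let U : Fin M → MvPolynomial (Fin (M + 1)) ℂ := fun k => MvPolynomial.X k.succ
  let Q : MvPolynomial (Fin (M + 1)) ℂ := MvPolynomial.C q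
  have hQ : Q ^ 2 + Q + 1 = 0 := by
    have := congrArg (MvPolynomial.C (σ := Fin (M + 1))) hq
    simpa [Q] using this
  have hq1 : q ≠ 1 := by
    intro h; rw [h] at hq; norm_num at hq
  have hinj : Function.Injective
      (Fin.cons T (Fin.cons (Q * T) U : Fin (M + 1) → _) : Fin (M + 2) → _) := by
    rw [Fin.cons_injective_iff, Fin.cons_injective_iff]
    refine ⟨?_, ?_, ?_⟩
    · rintro ⟨i, hi⟩
      refine Fin.cases ?_ (fun j hj => ?_) i hi
      · intro h0
        rw [Fin.cons_zero] at h0
        have := congrArg (MvPolynomial.eval (fun _ => (1 : ℂ))) h0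
        simp [Q, T] at this
        exact hq1 this
      · rw [Fin.cons_succ] at hj
        have := MvPolynomial.X_injective hj
        exact absurd this (Fin.succ_ne_zero j)
    · rintro ⟨j, hj⟩
      have := congrArg (MvPolynomial.eval (fun i : Fin (M + 1) => if i = 0 then (0 : ℂ) else 1)) hj
      simp [Q, T, U] at this
    · intro i j hij
      have := MvPolynomial.X_injective hij
      exact Fin.succ_injective _ this
  have hV := (Matrix.det_vandermonde_ne_zero_iff (v := (Fin.cons T (Fin.cons (Q * T) U : Fin (M + 1) → _) : Fin (M + 2) → _))).mpr hinj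
  have h1 := rec_ring Q T hQ r hr U
  have h2 := (mul_eq_zero.mp h1).resolve_left hV
  have h3 := sub_eq_zero.mp h2
  -- evaluate
  let z : Fin (M + 1) → ℂ := Fin.cons t (fun k : Fin M => l.get k)
  have h4 := congrArg (MvPolynomial.eval z) h3
  have eT : MvPolynomial.eval z T = t := by simp [T, z]
  have eQ : MvPolynomial.eval z Q = q := by simp [Q]
  have eU : ∀ k, MvPolynomial.eval z (U k) = l.get k := by intro k; simp [U, z]
  have eL : (List.ofFn U).map (MvPolynomial.eval z) = l := by
    rw [List.map_ofFn]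
    have : (⇑(MvPolynomial.eval z) ∘ U) = l.get := by
      funext k; exact eU k
    rw [this, List.ofFn_get]
  have e1 : MvPolynomial.eval z (gg r (T :: (Q * T) :: List.ofFn U)) = gg r (t :: (q * t) :: l) := by
    rw [← gg_map]
    congr 1
    rw [List.map_cons, List.map_cons, eL, map_mul, eT, eQ]
  have e2 : MvPolynomial.eval z (gg r (List.ofFn U)) = gg r l := by
    rw [← gg_map, eL]
  have e3 : MvPolynomial.eval z (∏ i, (U i - Q ^ 2 * T)) = (l.map (fun u => u - q ^ 2 * t)).prod := by
    rw [map_prod]
    have : ∀ i, MvPolynomial.eval z (U i - Q ^ 2 * T) = l.get i - q ^ 2 * t := by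
      intro i; rw [map_sub, map_mul, map_pow, eU, eT, eQ]
    rw [Finset.prod_congr rfl (fun i _ => this i), ← List.prod_ofFn]
    congr 1
    rw [show (fun i : Fin M => l.get i - q ^ 2 * t) = (fun u => u - q ^ 2 * t) ∘ l.get from rfl,
      ← List.map_ofFn, List.ofFn_get]
  have e4 : MvPolynomial.eval z (if r = 1 then (1 : MvPolynomial (Fin (M + 1)) ℂ) else -Q ^ 2 * T)
      = if r = 1 then 1 else -q ^ 2 * t := by
    split_ifs
    · simp
    · rw [map_mul, map_neg, map_pow, eT, eQ]
  rw [e1, map_mul, map_mul, e2, e3, e4] at h4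
  exact h4

lemma cont (r N : ℕ) : Continuous (fun z : Fin N → ℂ => gg r (List.ofFn z)) := by
  have : (fun z : Fin N → ℂ => gg r (List.ofFn z))
      = fun z => MvPolynomial.eval z (gg r (List.ofFn fun i : Fin N => (MvPolynomial.X i :
        MvPolynomial (Fin N) ℂ))) := by
    funext z
    rw [← gg_map, List.map_ofFn]
    congr 2
    funext i
    simp
  rw [this]
  exact MvPolynomial.continuous_eval _

lemma deg (r : ℕ) (hr : r = 1 ∨ r = 2) (l : List ℂ) (h : r = 1 ∨ Even l.length) :
    ∃ P : Polynomial ℂ, P.natDegree ≤ l.length / 2 ∧ ∀ x, P.eval x = gg r (x :: l) := by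
  refine ⟨gg r (Polynomial.X :: l.map Polynomial.C), gg_deg r hr l h, ?_⟩
  intro x
  rw [← Polynomial.coe_evalRingHom, ← gg_map]
  congr 1
  rw [List.map_cons, List.map_map]
  congr 1
  · simp
  · have : (⇑(Polynomial.evalRingHom x) ∘ ⇑Polynomial.C) = id := by
      funext y; simp
    rw [this, List.map_id]

lemma prod_pairs {α : Type*} [CommMonoid α] (N : ℕ) (f : ℕ → ℕ → α) :
    ∏ i : Fin N, ∏ j ∈ Finset.Ioi i, f i j
      = ∏ j ∈ Finset.range N, ∏ i ∈ Finset.range j, f i j := by
  induction N with
  | zero => simp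
  | succ N ih =>
    rw [Fin.prod_univ_castSucc, Finset.prod_range_succ, ← ih]
    have h1 : ∀ i : Fin N, ∏ j ∈ Finset.Ioi i.castSucc, f i.castSucc j
        = (∏ j ∈ Finset.Ioi i, f i j) * f i N := by
      intro i
      have hI : Finset.Ioi i.castSucc
          = insert (Fin.last N) ((Finset.Ioi i).map Fin.castSuccEmb) := by
        ext j
        refine Fin.lastCases ?_ (fun j => ?_) j
        · simp [Fin.castSucc_lt_last]
        · simp
          intro _
          exact Fin.le_last _
      rw [hI, Finset.prod_insert]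
      · rw [Finset.prod_map]
        simp [mul_comm]
      · simp
    rw [Finset.prod_congr rfl (fun i _ => h1 i), Finset.prod_mul_distrib]
    have h2 : Finset.Ioi (Fin.last N) = ∅ := by
      apply Finset.eq_empty_of_forall_notMem
      intro x hx
      rw [Finset.mem_Ioi] at hx
      exact absurd (Fin.le_last x) (not_le.mpr hx)
    rw [h2, Finset.prod_empty, mul_one, Finset.prod_range]

lemma aexp_lt {r i j : ℕ} (hr : r = 1 ∨ r = 2) (h : i < j) : aexp r i < aexp r j := by
  unfold aexp
  rcases hr with rfl | rfl <;> omega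

lemma geo_fac {a b : ℕ} (h : a ≤ b) : (Polynomial.X : Polynomial ℂ) ^ b - Polynomial.X ^ a
    = (Polynomial.X - 1) * ∑ k ∈ Finset.range (b - a), Polynomial.X ^ (a + k) := by
  obtain ⟨c, rfl⟩ := Nat.exists_eq_add_of_le h
  rw [Nat.add_sub_cancel_left]
  have : ∑ k ∈ Finset.range c, (Polynomial.X : Polynomial ℂ) ^ (a + k)
      = Polynomial.X ^ a * ∑ k ∈ Finset.range c, Polynomial.X ^ k := by
    rw [Finset.mul_sum]
    apply Finset.sum_congr rfl
    intro k _
    rw [pow_add]
  rw [this, mul_left_comm, mul_geom_sum]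
  ring

lemma ones (r : ℕ) (hr : r = 1 ∨ r = 2) (N : ℕ) :
    (∏ j ∈ Finset.range N, ∏ i ∈ Finset.range j, ((j - i : ℕ) : ℂ)) * gg r (List.replicate N 1)
    = ∏ j ∈ Finset.range N, ∏ i ∈ Finset.range j, ((aexp r j - aexp r i : ℕ) : ℂ) := by
  let v : Fin N → Polynomial ℂ := fun i => Polynomial.X ^ (i : ℕ)
  have h1 := bialt (aexp r) v
  have h2 : Matrix.det (Matrix.of fun i j : Fin N => v i ^ aexp r j)
      = (Matrix.vandermonde (fun j : Fin N => (Polynomial.X : Polynomial ℂ) ^ (aexp r j))).det := by
    rw [← Matrix.det_transpose]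
    congr 1
    ext i j : 2
    simp only [Matrix.transpose_apply, Matrix.of_apply, Matrix.vandermonde_apply, v]
    rw [← pow_mul, ← pow_mul, mul_comm]
  rw [h2, Matrix.det_vandermonde, Matrix.det_vandermonde] at h1
  have h3 := prod_pairs N (fun i j => (Polynomial.X : Polynomial ℂ) ^ aexp r j - Polynomial.X ^ aexp r i)
  have h4 := prod_pairs N (fun i j => (Polynomial.X : Polynomial ℂ) ^ j - Polynomial.X ^ i)
  simp only [v] at h1
  rw [h3, h4] at h1
  have h5 : ∏ j ∈ Finset.range N, ∏ i ∈ Finset.range j,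
      ((Polynomial.X : Polynomial ℂ) ^ aexp r j - Polynomial.X ^ aexp r i)
      = (∏ j ∈ Finset.range N, ∏ i ∈ Finset.range j, ((Polynomial.X : Polynomial ℂ) - 1)) *
      ∏ j ∈ Finset.range N, ∏ i ∈ Finset.range j,
        ∑ k ∈ Finset.range (aexp r j - aexp r i), (Polynomial.X : Polynomial ℂ) ^ (aexp r i + k) := by
    rw [← Finset.prod_mul_distrib]
    apply Finset.prod_congr rfl
    intro j _
    rw [← Finset.prod_mul_distrib]
    apply Finset.prod_congr rfl
    intro i hi
    exact geo_fac (aexp_lt hr (Finset.mem_range.mp hi)).le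
  have h6 : ∏ j ∈ Finset.range N, ∏ i ∈ Finset.range j,
      ((Polynomial.X : Polynomial ℂ) ^ j - Polynomial.X ^ i)
      = (∏ j ∈ Finset.range N, ∏ i ∈ Finset.range j, ((Polynomial.X : Polynomial ℂ) - 1)) *
      ∏ j ∈ Finset.range N, ∏ i ∈ Finset.range j,
        ∑ k ∈ Finset.range (j - i), (Polynomial.X : Polynomial ℂ) ^ (i + k) := by
    rw [← Finset.prod_mul_distrib]
    apply Finset.prod_congr rfl
    intro j _
    rw [← Finset.prod_mul_distrib]
    apply Finset.prod_congr rfl
    intro i hi
    exact geo_fac (Finset.mem_range.mp hi).le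
  have h7 : (∏ j ∈ Finset.range N, ∏ i ∈ Finset.range j, ((Polynomial.X : Polynomial ℂ) - 1)) ≠ 0 := by
    rw [Finset.prod_ne_zero_iff]
    intro j _
    rw [Finset.prod_ne_zero_iff]
    intro i _
    have := Polynomial.X_sub_C_ne_zero (1 : ℂ)
    simpa using this
  rw [h5, h6, mul_assoc] at h1
  have h8 := mul_left_cancel₀ h7 h1
  have h9 := congrArg (Polynomial.eval 1) h8
  rw [Polynomial.eval_mul, Polynomial.eval_prod, Polynomial.eval_prod] at h9
  have h10 : Polynomial.eval 1 (Dm (aexp r) N (Hs (List.ofFn fun i : Fin N =>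
      (Polynomial.X : Polynomial ℂ) ^ (i : ℕ)))) = gg r (List.replicate N (1 : ℂ)) := by
    have : Dm (aexp r) N (Hs (List.ofFn fun i : Fin N => (Polynomial.X : Polynomial ℂ) ^ (i : ℕ)))
        = gg r (List.ofFn fun i : Fin N => (Polynomial.X : Polynomial ℂ) ^ (i : ℕ)) := by
      unfold gg; simp
    rw [this, ← Polynomial.coe_evalRingHom, ← gg_map, List.map_ofFn]
    congr 1
    have : (⇑(Polynomial.evalRingHom (1 : ℂ)) ∘ fun i : Fin N => (Polynomial.X : Polynomial ℂ) ^ (i : ℕ))
        = fun _ => 1 := by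
      funext i; simp
    rw [this, List.ofFn_const]
  rw [h10] at h9
  have h11 : ∀ (a b : ℕ), Polynomial.eval (1 : ℂ) (∑ k ∈ Finset.range a,
      (Polynomial.X : Polynomial ℂ) ^ (b + k)) = (a : ℂ) := by
    intro a b
    simp [Polynomial.eval_finsetSum]
  simp only [Polynomial.eval_prod, h11] at h9
  exact h9.symm

end AltAux

open AltAux in
theorem exists_G (q : ℂ) (hq : q ^ 2 + q + 1 = 0) (r : ℕ) (hr : r = 1 ∨ r = 2) :
    ∃ g : List ℂ → ℂ, GSpec q r g := by
  refine ⟨gg r, ?_⟩
  constructor
  · intro l l' h; exact gg_perm r h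
  · unfold gg Dm; simp
  · intro x
    unfold gg Dm
    simp only [List.length_singleton]
    rw [Matrix.det_fin_one]
    simp [Hs, geo, aexp]
  · exact recur q hq r hr
  · exact deg r hr
  · exact cont r
  · exact ones r hr

end

end Pool.Agent.H974R3
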