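import Pool.Agent.H974R3.Defs

/-! Module K: evaluation and lower bound. -/

namespace Pool.Agent.H974R3

/-- `∏_{i<j<N} (a_j - a_i)/(j-i)` -/
noncomputable def Dval (r N : ℕ) : ℝ :=
  ∏ j ∈ Finset.range N, ∏ i ∈ Finset.range j, ((aexp r j - aexp r i : ℕ) : ℝ) / ((j - i : ℕ) : ℝ)

/-- the value `A_L / A_HT(L)^2` -/
noncomputable def pval (n : ℕ) : ℝ :=
  Dval 1 (2 * (2 * n + 1)) / (3 ^ n * (Dval 1 (2 * n + 1) * Dval 2 (2 * n + 1)) ^ 2)

namespace Value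

/-- one step of `Dval` -/
noncomputable def ee (r N : ℕ) : ℝ :=
  ∏ i ∈ Finset.range N, ((aexp r N - aexp r i : ℕ) : ℝ) / ((N - i : ℕ) : ℝ)

theorem Dval_succ (r N : ℕ) : Dval r (N + 1) = Dval r N * ee r N := by
  unfold Dval ee
  rw [Finset.prod_range_succ]

theorem aexp_add2 (r j : ℕ) : aexp r (j + 2) = aexp r j + 3 := by
  unfold aexp
  have h1 : (j + 2) / 2 = j / 2 + 1 := by omega
  have h2 : (j + 2) % 2 = j % 2 := by omega
  rw [h1, h2]
  ring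

theorem aexp_even (r L : ℕ) : aexp r (2 * L) = 3 * L := by
  unfold aexp
  have h1 : 2 * L / 2 = L := by omega
  have h2 : 2 * L % 2 = 0 := by omega
  rw [h1, h2]
  ring

theorem aexp_odd (r L : ℕ) : aexp r (2 * L + 1) = 3 * L + r := by
  unfold aexp
  have h1 : (2 * L + 1) / 2 = L := by omega
  have h2 : (2 * L + 1) % 2 = 1 := by omega
  rw [h1, h2]
  ring

theorem aexp_lt (r : ℕ) (hr1 : 1 ≤ r) (hr2 : r ≤ 2) (i j : ℕ) (h : i < j) :
    aexp r i < aexp r j := by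
  have key : ∀ k, aexp r k < aexp r (k + 1) := by
    intro k
    rcases Nat.even_or_odd' k with ⟨L, rfl | rfl⟩
    · rw [aexp_even, aexp_odd]; omega
    · rw [aexp_odd]
      have : 2 * L + 1 + 1 = 2 * (L + 1) := by ring
      rw [this, aexp_even]; omega
  exact strictMono_nat_of_lt_succ key h

theorem ee_pos (r : ℕ) (hr1 : 1 ≤ r) (hr2 : r ≤ 2) (N : ℕ) : 0 < ee r N := by
  unfold ee
  refine Finset.prod_pos fun i hi => ?_
  rw [Finset.mem_range] at hi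
  have h1 := aexp_lt r hr1 hr2 i N hi
  have h2 : 0 < aexp r N - aexp r i := by omega
  have h3 : 0 < N - i := by omega
  positivity

theorem ee_add2 (r N : ℕ) (hr : r ≤ 2) : ee r (N + 2) =
    ee r N * (((aexp r N : ℝ) + 3) * ((aexp r N : ℝ) + 3 - r) / (((N : ℝ) + 1) * ((N : ℝ) + 2))) := by
  unfold ee
  rw [Finset.prod_range_succ', Finset.prod_range_succ']
  have h1 : ∏ k ∈ Finset.range N, ((aexp r (N + 2) - aexp r (k + 1 + 1) : ℕ) : ℝ) /
      ((N + 2 - (k + 1 + 1) : ℕ) : ℝ) =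
      ∏ i ∈ Finset.range N, ((aexp r N - aexp r i : ℕ) : ℝ) / ((N - i : ℕ) : ℝ) := by
    refine Finset.prod_congr rfl fun k _ => ?_
    have e1 : k + 1 + 1 = k + 2 := by ring
    have e2 : aexp r N + 3 - (aexp r k + 3) = aexp r N - aexp r k := by omega
    have e3 : N + 2 - (k + 2) = N - k := by omega
    rw [e1, aexp_add2, aexp_add2, e2, e3]
  rw [h1]
  have h2 : aexp r (0 + 1) = r := by simp [aexp]
  have h3 : aexp r 0 = 0 := by simp [aexp]
  have h4 : N + 2 - (0 + 1) = N + 1 := by omega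
  have h5 : N + 2 - 0 = N + 2 := by omega
  rw [h2, h3, h4, h5, aexp_add2]
  have h6 : ((aexp r N + 3 - r : ℕ) : ℝ) = (aexp r N : ℝ) + 3 - r := by
    rw [Nat.cast_sub (by omega)]
    push_cast
    ring
  rw [h6]
  push_cast
  field_simp

/-- two steps -/
noncomputable def ff (r N : ℕ) : ℝ := ee r N * ee r (N + 1)

theorem Dval_add2 (r N : ℕ) : Dval r (N + 2) = Dval r N * ff r N := by
  unfold ff
  rw [show N + 2 = N + 1 + 1 from rfl, Dval_succ, Dval_succ]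
  ring

theorem ff_pos (r : ℕ) (hr1 : 1 ≤ r) (hr2 : r ≤ 2) (N : ℕ) : 0 < ff r N :=
  mul_pos (ee_pos r hr1 hr2 N) (ee_pos r hr1 hr2 (N + 1))

theorem Dval_pos (r : ℕ) (hr1 : 1 ≤ r) (hr2 : r ≤ 2) (N : ℕ) : 0 < Dval r N := by
  induction N with
  | zero => simp [Dval]
  | succ N ih => rw [Dval_succ]; exact mul_pos ih (ee_pos r hr1 hr2 N)

theorem ff_even (L : ℕ) : ff 1 (2 * L + 2) = ff 1 (2 * L) *
    ((3 * (L : ℝ) + 3) ^ 2 * (3 * L + 2) * (3 * L + 4) /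
      ((2 * (L : ℝ) + 1) * (2 * L + 2) ^ 2 * (2 * L + 3))) := by
  unfold ff
  rw [show 2 * L + 2 + 1 = 2 * L + 1 + 2 from rfl, ee_add2 1 (2 * L) (by norm_num),
    ee_add2 1 (2 * L + 1) (by norm_num), aexp_even, aexp_odd]
  push_cast
  field_simp
  ring

theorem ff_odd (r : ℕ) (hr : r = 1 ∨ r = 2) (L : ℕ) : ff r (2 * L + 3) = ff r (2 * L + 1) *
    ((3 * (L : ℝ) + 3) * (3 * L + 4) * (3 * L + 5) * (3 * L + 6) /
      ((2 * (L : ℝ) + 2) * (2 * L + 3) ^ 2 * (2 * L + 4))) := by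
  unfold ff
  have hr2 : r ≤ 2 := by omega
  rw [show 2 * L + 3 + 1 = 2 * (L + 1) + 2 from by ring, show 2 * L + 3 = 2 * L + 1 + 2 from rfl,
    ee_add2 r (2 * (L + 1)) hr2, ee_add2 r (2 * L + 1) hr2, aexp_even, aexp_odd,
    show 2 * L + 1 + 1 = 2 * (L + 1) from by ring]
  rcases hr with rfl | rfl
  · push_cast
    field_simp
    ring
  · push_cast
    field_simp
    ring

/-- ratio of consecutive values -/
noncomputable def rho (n : ℕ) : ℝ :=
  ff 1 (4 * n + 2) * ff 1 (4 * n + 4) / (3 * (ff 1 (2 * n + 1) * ff 2 (2 * n + 1)) ^ 2)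

theorem pval_pos (n : ℕ) : 0 < pval n := by
  unfold pval
  have h1 := Dval_pos 1 le_rfl (by norm_num) (2 * (2 * n + 1))
  have h2 := Dval_pos 1 le_rfl (by norm_num) (2 * n + 1)
  have h3 := Dval_pos 2 (by norm_num) le_rfl (2 * n + 1)
  positivity

theorem rho_pos (n : ℕ) : 0 < rho n := by
  unfold rho
  have h1 := ff_pos 1 le_rfl (by norm_num) (4 * n + 2)
  have h2 := ff_pos 1 le_rfl (by norm_num) (4 * n + 4)
  have h3 := ff_pos 1 le_rfl (by norm_num) (2 * n + 1)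
  have h4 := ff_pos 2 (by norm_num) le_rfl (2 * n + 1)
  positivity

theorem pval_succ (n : ℕ) : pval (n + 1) = pval n * rho n := by
  unfold pval rho
  have h2 := Dval_pos 1 le_rfl (by norm_num) (2 * n + 1)
  have h3 := Dval_pos 2 (by norm_num) le_rfl (2 * n + 1)
  have h4 := ff_pos 1 le_rfl (by norm_num) (2 * n + 1)
  have h5 := ff_pos 2 (by norm_num) le_rfl (2 * n + 1)
  have e1 : Dval 1 (2 * (2 * (n + 1) + 1)) =
      Dval 1 (2 * (2 * n + 1)) * ff 1 (4 * n + 2) * ff 1 (4 * n + 4) := by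
    rw [show 2 * (2 * (n + 1) + 1) = (2 * (2 * n + 1) + 2) + 2 from by ring, Dval_add2, Dval_add2,
      show 2 * (2 * n + 1) + 2 = 4 * n + 4 from by ring, show 2 * (2 * n + 1) = 4 * n + 2 from by ring]
  have e2 : Dval 1 (2 * (n + 1) + 1) = Dval 1 (2 * n + 1) * ff 1 (2 * n + 1) := by
    rw [show 2 * (n + 1) + 1 = (2 * n + 1) + 2 from by ring, Dval_add2]
  have e3 : Dval 2 (2 * (n + 1) + 1) = Dval 2 (2 * n + 1) * ff 2 (2 * n + 1) := by
    rw [show 2 * (n + 1) + 1 = (2 * n + 1) + 2 from by ring, Dval_add2]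
  rw [e1, e2, e3, pow_succ]
  field_simp

theorem pval_zero : pval 0 = 1 := by
  unfold pval
  simp [Dval, Finset.prod_range_succ, aexp]

/-- ratio of consecutive ratios -/
noncomputable def rr (x : ℝ) : ℝ :=
  16 * (2 * x + 3) ^ 8 * ((6 * x + 5) * (6 * x + 7) * (6 * x + 11) * (6 * x + 13)) /
    ((3 * x + 4) ^ 2 * (3 * x + 5) ^ 2 * ((4 * x + 3) * (4 * x + 5) ^ 3 * (4 * x + 7) ^ 3 * (4 * x + 9)))

theorem rho_succ (n : ℕ) : rho (n + 1) = rho n * rr n := by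
  have h4 := ff_pos 1 le_rfl (by norm_num) (2 * n + 1)
  have h5 := ff_pos 2 (by norm_num) le_rfl (2 * n + 1)
  have g1 := ff_even (2 * n + 1)
  have g2 := ff_even (2 * n + 2)
  have g3 := ff_even (2 * n + 3)
  have k1 := ff_odd 1 (Or.inl rfl) n
  have k2 := ff_odd 2 (Or.inr rfl) n
  rw [show 2 * (2 * n + 1) + 2 = 4 * n + 4 from by ring,
    show 2 * (2 * n + 1) = 4 * n + 2 from by ring] at g1
  rw [show 2 * (2 * n + 2) + 2 = 4 * n + 6 from by ring,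
    show 2 * (2 * n + 2) = 4 * n + 4 from by ring] at g2
  rw [show 2 * (2 * n + 3) + 2 = 4 * n + 8 from by ring,
    show 2 * (2 * n + 3) = 4 * n + 6 from by ring] at g3
  unfold rho rr
  rw [show 4 * (n + 1) + 2 = 4 * n + 6 from by ring, show 4 * (n + 1) + 4 = 4 * n + 8 from by ring,
    show 2 * (n + 1) + 1 = 2 * n + 3 from by ring, g3, g2, g1, k1, k2]
  push_cast
  field_simp
  ring

theorem rr_bound (x : ℝ) (hx : 0 ≤ x) :
    rr x ^ 4 * ((2 * x + 5) * (2 * x + 1)) ≤ (2 * x + 3) ^ 2 := by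
  set M : ℝ := (2 * x + 3) ^ 2 with hM
  have hM9 : 9 ≤ M := by rw [hM]; nlinarith
  have hr0 : 0 ≤ rr x := by unfold rr; positivity
  have h1 : rr x * (M ^ 2 - M - 1) ≤ M ^ 2 := by
    have hrr : rr x = 256 * M ^ 4 * ((9 * M - 4) * (9 * M - 16)) /
        ((9 * M - 1) ^ 2 * ((4 * M - 1) ^ 3 * (4 * M - 9))) := by
      have hpos : (0 : ℝ) < (9 * M - 1) ^ 2 * ((4 * M - 1) ^ 3 * (4 * M - 9)) := by
        have a1 : 0 < 9 * M - 1 := by linarith
        have a2 : 0 < 4 * M - 1 := by linarith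
        have a3 : 0 < 4 * M - 9 := by linarith
        positivity
      unfold rr
      rw [div_eq_div_iff (by positivity) hpos.ne', hM]
      ring
    rw [hrr]
    have a1 : 0 < 9 * M - 1 := by linarith
    have a2 : 0 < 4 * M - 1 := by linarith
    have a3 : 0 < 4 * M - 9 := by linarith
    rw [div_mul_eq_mul_div, div_le_iff₀ (by positivity)]
    have h2 : 256 * M ^ 2 * ((9 * M - 4) * (9 * M - 16)) * (M ^ 2 - M - 1) ≤
        (9 * M - 1) ^ 2 * ((4 * M - 1) ^ 3 * (4 * M - 9)) := by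
      have e0 : (9 * M - 1) ^ 2 * ((4 * M - 1) ^ 3 * (4 * M - 9)) -
          256 * M ^ 2 * ((9 * M - 4) * (9 * M - 16)) * (M ^ 2 - M - 1) =
          M ^ 3 * (11232 * (M - 9) + 52912) + M * (19609 * M - 274) + 9 := by
        ring
      have h3 : 0 ≤ M ^ 3 * (11232 * (M - 9) + 52912) + M * (19609 * M - 274) + 9 := by
        have e1 : 0 ≤ 11232 * (M - 9) + 52912 := by linarith
        have e2 : 0 ≤ 19609 * M - 274 := by linarith
        have e3 : 0 ≤ M := by linarith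
        positivity
      linarith
    calc 256 * M ^ 4 * ((9 * M - 4) * (9 * M - 16)) * (M ^ 2 - M - 1) =
        M ^ 2 * (256 * M ^ 2 * ((9 * M - 4) * (9 * M - 16)) * (M ^ 2 - M - 1)) := by ring
      _ ≤ M ^ 2 * ((9 * M - 1) ^ 2 * ((4 * M - 1) ^ 3 * (4 * M - 9))) :=
        mul_le_mul_of_nonneg_left h2 (by positivity)
  have hq : 0 ≤ M ^ 2 - M - 1 := by nlinarith
  have h2 : rr x ^ 4 * (M ^ 2 - M - 1) ^ 4 ≤ M ^ 8 := by
    have := pow_le_pow_left₀ (mul_nonneg hr0 hq) h1 4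
    calc rr x ^ 4 * (M ^ 2 - M - 1) ^ 4 = (rr x * (M ^ 2 - M - 1)) ^ 4 := by ring
      _ ≤ (M ^ 2) ^ 4 := this
      _ = M ^ 8 := by ring
  have h3 : M ^ 7 * (M - 4) ≤ (M ^ 2 - M - 1) ^ 4 := by
    have : (M ^ 2 - M - 1) ^ 4 - M ^ 7 * (M - 4) =
      2 * M ^ 6 + 8 * M ^ 5 - 5 * M ^ 4 - 8 * M ^ 3 + 2 * M ^ 2 + 4 * M + 1 := by ring
    have h4 : 0 ≤ 2 * M ^ 6 + 8 * M ^ 5 - 5 * M ^ 4 - 8 * M ^ 3 + 2 * M ^ 2 + 4 * M + 1 := by
      have e : 2 * M ^ 6 + 8 * M ^ 5 - 5 * M ^ 4 - 8 * M ^ 3 + 2 * M ^ 2 + 4 * M + 1 =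
        M ^ 4 * (2 * M ^ 2 - 5) + 8 * M ^ 3 * (M ^ 2 - 1) + 2 * M ^ 2 + 4 * M + 1 := by ring
      rw [e]
      have e1 : 0 ≤ 2 * M ^ 2 - 5 := by nlinarith
      have e2 : 0 ≤ M ^ 2 - 1 := by nlinarith
      positivity
    linarith
  have h4 : (2 * x + 5) * (2 * x + 1) = M - 4 := by rw [hM]; ring
  rw [h4]
  have h5 : M ^ 7 * (rr x ^ 4 * (M - 4)) ≤ M ^ 7 * M := by
    calc M ^ 7 * (rr x ^ 4 * (M - 4)) = rr x ^ 4 * (M ^ 7 * (M - 4)) := by ring
      _ ≤ rr x ^ 4 * (M ^ 2 - M - 1) ^ 4 := mul_le_mul_of_nonneg_left h3 (by positivity)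
      _ ≤ M ^ 8 := h2
      _ = M ^ 7 * M := by ring
  exact le_of_mul_le_mul_left h5 (by positivity)

/-- the quantity `ρ_n^4 (2n+3)/(2n+1)` -/
noncomputable def tt (n : ℕ) : ℝ := rho n ^ 4 * (2 * (n : ℝ) + 3) / (2 * (n : ℝ) + 1)

theorem tt_succ_le (n : ℕ) : tt (n + 1) ≤ tt n := by
  unfold tt
  rw [rho_succ]
  have h1 := rr_bound n (Nat.cast_nonneg n)
  have h2 := rho_pos n
  push_cast
  rw [div_le_div_iff₀ (by positivity) (by positivity)]
  have h3 : (rho n * rr n) ^ 4 * (2 * ((n : ℝ) + 1) + 3) * (2 * (n : ℝ) + 1) =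
      rho n ^ 4 * (rr n ^ 4 * ((2 * (n : ℝ) + 5) * (2 * (n : ℝ) + 1))) := by ring
  rw [h3]
  calc rho n ^ 4 * (rr n ^ 4 * ((2 * (n : ℝ) + 5) * (2 * (n : ℝ) + 1))) ≤
      rho n ^ 4 * (2 * (n : ℝ) + 3) ^ 2 := mul_le_mul_of_nonneg_left h1 (by positivity)
    _ = _ := by ring

theorem tt_anti : Antitone tt := antitone_nat_of_succ_le tt_succ_le

theorem one_le_tt (h : ∀ n : ℕ, 1 / (2 * (n : ℝ) + 1) ≤ pval n) (k : ℕ) : 1 ≤ tt k := by
  by_contra hk
  rw [not_le] at hk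
  set T : ℝ := tt k with hT
  have hT0 : 0 ≤ T := by
    rw [hT]; unfold tt
    have := rho_pos k
    positivity
  -- rho_j^4 ≤ T for j ≥ k
  have h1 : ∀ j, k ≤ j → rho j ^ 4 ≤ T := by
    intro j hj
    have h2 : tt j ≤ T := tt_anti hj
    have h3 : rho j ^ 4 ≤ tt j := by
      unfold tt
      rw [le_div_iff₀ (by positivity)]
      have := rho_pos j
      have h4 : 0 ≤ rho j ^ 4 := by positivity
      nlinarith
    exact h3.trans h2
  have h2 : ∀ j : ℕ, pval (k + j) ^ 4 ≤ T ^ j * pval k ^ 4 := by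
    intro j
    induction j with
    | zero => simp
    | succ j ih =>
      rw [← add_assoc, pval_succ, mul_pow, pow_succ]
      have h3 := h1 (k + j) (by omega)
      have h4 : 0 ≤ pval (k + j) ^ 4 := by have := pval_pos (k + j); positivity
      have h5 : 0 ≤ rho (k + j) ^ 4 := by have := rho_pos (k + j); positivity
      calc pval (k + j) ^ 4 * rho (k + j) ^ 4 ≤ (T ^ j * pval k ^ 4) * T := by gcongr
        _ = _ := by ring
  -- contradiction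
  have h3 : ∀ j : ℕ, 1 ≤ T ^ j * ((2 * ((k : ℝ) + j) + 1) ^ 4 * pval k ^ 4) := by
    intro j
    have h4 := h (k + j)
    have h5 := h2 j
    push_cast at h4
    have h6 : (0 : ℝ) < 2 * ((k : ℝ) + j) + 1 := by positivity
    rw [div_le_iff₀ h6] at h4
    have h7 : 1 ≤ (pval (k + j) * (2 * ((k : ℝ) + j) + 1)) ^ 4 := one_le_pow₀ h4
    rw [mul_pow] at h7
    calc (1 : ℝ) ≤ pval (k + j) ^ 4 * (2 * ((k : ℝ) + j) + 1) ^ 4 := h7
      _ ≤ (T ^ j * pval k ^ 4) * (2 * ((k : ℝ) + j) + 1) ^ 4 := by gcongr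
      _ = _ := by ring
  have hT1 : ‖T‖ < 1 := by rw [Real.norm_of_nonneg hT0]; exact hk
  have h4 : Filter.Tendsto (fun j : ℕ => (j : ℝ) ^ 4 * T ^ j) Filter.atTop (nhds 0) :=
    (summable_pow_mul_geometric_of_norm_lt_one 4 hT1).tendsto_atTop_zero
  have hp := pval_pos k
  set c : ℝ := (2 * (k : ℝ) + 3) ^ 4 * pval k ^ 4 with hc
  have h5 : Filter.Tendsto (fun j : ℕ => c * ((j : ℝ) ^ 4 * T ^ j)) Filter.atTop (nhds (c * 0)) :=
    h4.const_mul c
  rw [mul_zero] at h5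
  have h6 := (h5.eventually (gt_mem_nhds (one_pos))).and (Filter.eventually_ge_atTop 1)
  obtain ⟨j, hj, hj1⟩ := h6.exists
  have h7 := h3 j
  have hj1' : (1 : ℝ) ≤ j := by exact_mod_cast hj1
  have hk0 : (0 : ℝ) ≤ k := Nat.cast_nonneg k
  have h8 : (2 * ((k : ℝ) + j) + 1) ≤ (2 * (k : ℝ) + 3) * j := by nlinarith
  have h9 : T ^ j * ((2 * ((k : ℝ) + j) + 1) ^ 4 * pval k ^ 4) ≤ c * ((j : ℝ) ^ 4 * T ^ j) := by
    calc T ^ j * ((2 * ((k : ℝ) + j) + 1) ^ 4 * pval k ^ 4) ≤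
        T ^ j * (((2 * (k : ℝ) + 3) * j) ^ 4 * pval k ^ 4) := by gcongr
      _ = c * ((j : ℝ) ^ 4 * T ^ j) := by rw [hc]; ring
  linarith

end Value

open Value in
/-- if in addition `pval n ≥ 1/(2n+1)`, then `pval n ≥ (2n+1)^{-1/4}` -/
theorem pval_lower (h : ∀ n : ℕ, 1 / (2 * (n : ℝ) + 1) ≤ pval n) (n : ℕ) :
    1 ≤ pval n ^ 4 * (2 * (n : ℝ) + 1) := by
  induction n with
  | zero => rw [pval_zero]; simp
  | succ n ih =>
    rw [pval_succ]
    have h1 := one_le_tt h n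
    unfold tt at h1
    rw [le_div_iff₀ (by positivity), one_mul] at h1
    have hp := pval_pos n
    push_cast
    calc (1 : ℝ) ≤ pval n ^ 4 * (2 * (n : ℝ) + 1) := ih
      _ ≤ pval n ^ 4 * (rho n ^ 4 * (2 * (n : ℝ) + 3)) := by gcongr
      _ = _ := by ring

end Pool.Agent.H974R3
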