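import Pool.Agent.H974R3.OneArm
import Pool.Agent.H974R2.Sus

/-!
Consequences: one-arm, two-arm and two-point lower bounds for critical bond percolation on `ℤ²`.
-/

namespace Pool.Agent.H974R3
open H974 Finset MeasureTheory

theorem rpow_of_pow {a b : ℝ} {k : ℕ} (hk : 0 < k) (ha : 0 ≤ a) (hb : 0 < b)
    (h : 1 ≤ a ^ k * b) : b ^ (-(1 / (k : ℝ))) ≤ a := by
  have hk' : (0:ℝ) < k := by exact_mod_cast hk
  have h1 : b⁻¹ ≤ a ^ k := by
    rw [inv_eq_one_div, div_le_iff₀ hb]; exact h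
  have h2 : (b⁻¹) ^ (1 / (k : ℝ)) ≤ (a ^ k) ^ (1 / (k : ℝ)) :=
    Real.rpow_le_rpow (by positivity) h1 (by positivity)
  rw [← Real.rpow_natCast a k, ← Real.rpow_mul ha, mul_one_div_cancel hk'.ne', Real.rpow_one] at h2
  rw [Real.rpow_neg hb.le, ← Real.inv_rpow hb.le]
  exact h2

theorem sup_sub_armE (n : ℕ) : {ω : sqLattice.edgeSet → Bool | ∃ w ∈ cluster0 ω,
    (n : ℤ) ≤ max |w.1| |w.2|} ⊆ ArmE n := by
  rintro ω ⟨w, h1, h2⟩
  rw [armE_iff]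
  have hr : Reach (opn ω) (0, 0) w := (open_reach ω _ _).mp h1
  obtain ⟨v, k1, k2, k3⟩ := first_exit (a := -(n:ℤ)) (b := n) (c := -(n:ℤ)) (d := n)
    (by unfold inR; simp) hr (by
      rcases le_max_iff.1 h2 with h | h
      · rcases le_abs'.1 h with h | h <;> omega
      · rcases le_abs'.1 h with h | h <;> omega)
  exact ⟨v, ⟨k1, k2⟩, k3⟩

theorem arm_half (n : ℕ) : 1 ≤ arm (1/2) n ^ 8 * (4 * (n : ℝ) + 1) := by
  refine le_trans (one_arm_sup n) ?_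
  apply mul_le_mul_of_nonneg_right _ (by positivity)
  apply pow_le_pow_left₀ measureReal_nonneg
  rw [show arm (1/2) n = (bondLaw hlf).real (ArmE n) from (law_armE hlf n).symm]
  exact measureReal_mono (sup_sub_armE n) (measure_ne_top _ _)

theorem arm_half_rpow (n : ℕ) : (4 * (n : ℝ) + 1) ^ (-(1/8 : ℝ)) ≤ arm (1/2) n := by
  have := rpow_of_pow (k := 8) (by norm_num) (arm_nonneg (by norm_num) (by norm_num) n)
    (by positivity) (arm_half n)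
  simpa using this

theorem tp_law (x : ℤ × ℤ) (S : Finset Edg) :
    Pr (fun _ => 1/2) S (TP x) ≤ (bondLaw hlf).real {ω | x ∈ cluster0 ω} := by
  have e := law_event hlf S (TP x)
  have e0 : (fun _ : Edg => ((hlf : unitInterval) : ℝ)) = fun _ => 1/2 := rfl
  rw [e0] at e
  rw [← e]
  apply measureReal_mono
  · intro ω k1
    have k2 : Reach (↑(FF S ω) : Set Edg) (0, 0) x := k1
    exact (open_reach ω _ _).2 (k2.mono (by rw [FF_coe]; exact Set.inter_subset_left))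
  · exact measure_ne_top _ _

theorem two_pt (x : ℤ × ℤ) (r : ℕ) (hr : 0 < r) (hx : max |x.1| |x.2| = (r : ℤ)) :
    (1/2 : ℝ) ^ 188 * (16 * (r : ℝ) + 1) ^ (-(1/4 : ℝ)) ≤
      (bondLaw hlf).real {ω | x ∈ cluster0 ω} := by
  have h0 : (0:ℝ) ≤ 1/2 := by norm_num
  have h1 : (1/2:ℝ) ≤ 1 := by norm_num
  refine le_trans ?_ (tp_law x (boxE (5 * r)))
  have hx' : inR (-(r:ℤ)) r (-(r:ℤ)) r (x.1, x.2) := by
    unfold inR
    have a1 : |x.1| ≤ r := by rw [← hx]; exact le_max_left _ _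
    have a2 : |x.2| ≤ r := by rw [← hx]; exact le_max_right _ _
    rw [abs_le] at a1 a2
    exact ⟨⟨a1.1, a1.2⟩, ⟨a2.1, a2.2⟩⟩
  have t := two_point h0 h1 hr hx' (Finset.Subset.refl (boxE (5 * r)))
  refine le_trans ?_ t
  have hr' : (0:ℤ) < r := by exact_mod_cast hr
  have g : (1/2:ℝ)^47 ≤ hh (1/2) ((6 * r : ℕ) : ℤ) ((2 * r : ℕ) : ℤ) :=
    rsw hr' (by push_cast; omega) (by push_cast; omega) (by push_cast; omega)
  have g4 : (1/2:ℝ)^188 ≤ (hh (1/2) ((6 * r : ℕ) : ℤ) ((2 * r : ℕ) : ℤ))^4 := by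
    calc (1/2:ℝ)^188 = ((1/2:ℝ)^47)^4 := by rw [← pow_mul]
      _ ≤ _ := pow_le_pow_left₀ (by positivity) g 4
  have a4 := arm_half_rpow (4 * r)
  have a3 : arm (1/2) (4 * r) ≤ arm (1/2) (3 * r) := arm_anti h0 h1 (by omega)
  have e4 : (4 * ((4 * r : ℕ) : ℝ) + 1) = 16 * (r:ℝ) + 1 := by push_cast; ring
  rw [e4] at a4
  have p0 : 0 ≤ (16 * (r:ℝ) + 1) ^ (-(1/8 : ℝ)) := by positivity
  have e5 : (16 * (r:ℝ) + 1) ^ (-(1/4 : ℝ))
      = (16 * (r:ℝ) + 1) ^ (-(1/8 : ℝ)) * (16 * (r:ℝ) + 1) ^ (-(1/8 : ℝ)) := by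
    rw [← Real.rpow_add (by positivity)]; norm_num
  rw [e5, mul_comm]
  apply mul_le_mul _ g4 (by positivity) (mul_nonneg (arm_nonneg h0 h1 _) (arm_nonneg h0 h1 _))
  exact mul_le_mul (a4.trans a3) a4 p0 (arm_nonneg h0 h1 _)

end Pool.Agent.H974R3
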