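import Pool.Agent.H974R3.Trans

/-!
# The inhomogeneous transfer operator
-/

namespace Pool.Agent.H974R3
open Equiv

theorem sum_push {X Y : Type*} [Fintype X] [Fintype Y] [DecidableEq Y] {R : Type*}
    [AddCommMonoid R] (f : X → Y) (v : X → R) : ∑ y, push f v y = ∑ x, v x := by
  unfold push
  rw [Finset.sum_comm]
  refine Finset.sum_congr rfl fun x _ => ?_
  simp

theorem TZ_push_comp {X Y Z : Type*} [Fintype X] [Fintype Y] [DecidableEq Y] [DecidableEq Z]
    {R : Type*} [AddCommMonoid R] (f : X → Y) (g : Y → Z) (v : X → R) :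
    push g (push f v) = push (g ∘ f) v := by
  funext z
  unfold push
  have h1 : ∀ y, (if g y = z then ∑ x, (if f x = y then v x else 0) else 0) =
      ∑ x, if f x = y then (if g y = z then v x else 0) else 0 := by
    intro y
    by_cases h : g y = z
    · simp [h]
    · simp [h]
  rw [Finset.sum_congr rfl fun y _ => h1 y, Finset.sum_comm]
  refine Finset.sum_congr rfl fun x _ => ?_
  simp

theorem TZ_push_sum {X Y ι : Type*} [Fintype X] [DecidableEq Y] {R : Type*} [CommRing R]
    (s : Finset ι) (a : ι → R) (w : ι → X → R) (f : X → Y) :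
    push f (fun x => ∑ i ∈ s, a i * w i x) = fun y => ∑ i ∈ s, a i * push f (w i) y := by
  funext y
  unfold push
  have h1 : ∀ x, (if f x = y then ∑ i ∈ s, a i * w i x else 0) =
      ∑ i ∈ s, a i * (if f x = y then w i x else 0) := by
    intro x
    by_cases h : f x = y
    · simp [h]
    · simp [h]
  rw [Finset.sum_congr rfl fun x _ => h1 x, Finset.sum_comm]
  refine Finset.sum_congr rfl fun i _ => ?_
  rw [Finset.mul_sum]

theorem TZ_push_lin {X Y : Type*} [Fintype X] [DecidableEq Y] {R : Type*} [CommRing R]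
    (a b : R) (w w' : X → R) (f : X → Y) (y : Y) :
    push f (fun x => a * w x + b * w' x) y = a * push f w y + b * push f w' y := by
  unfold push
  rw [Finset.mul_sum, Finset.mul_sum, ← Finset.sum_add_distrib]
  refine Finset.sum_congr rfl fun x _ => ?_
  by_cases h : f x = y
  · simp [h]
  · simp [h]

theorem TZ_wt_sum {R : Type*} [CommRing R] (q : R) (hq : q ^ 2 + q + 1 = 0) (x : R) :
    ∑ b : Bool, wt q b x = 1 + x := by
  rw [Fintype.sum_bool]
  simp only [wt, if_true, Bool.false_eq_true, if_false]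
  linear_combination (-(1 + x)) * hq

theorem sum_Tz {R : Type*} [CommRing R] {m : ℕ} (q : R) (hq : q ^ 2 + q + 1 = 0)
    (z : Fin (m + 1) → R) (v : Pat (m + 1) → R) :
    ∑ σ, Tz q z v σ = (∏ j, (1 + z j)) * ∑ σ, v σ := by
  unfold Tz
  rw [Finset.sum_comm]
  have h1 : ∀ c : Fin (m + 1) → Bool, ∑ σ, (∏ j, wt q (c j) (z j)) * push (Tc m c) v σ =
      (∏ j, wt q (c j) (z j)) * ∑ σ, v σ := by
    intro c
    rw [← Finset.mul_sum, sum_push]
  rw [Finset.sum_congr rfl fun c _ => h1 c, ← Finset.sum_mul]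
  congr 1
  have h2 := Finset.prod_univ_sum (fun _ : Fin (m + 1) => (Finset.univ : Finset Bool))
    (fun j b => wt q b (z j))
  rw [Fintype.piFinset_univ] at h2
  rw [← h2]
  exact Finset.prod_congr rfl fun j _ => TZ_wt_sum q hq (z j)

theorem push_rot_Tz {R : Type*} [CommRing R] {m : ℕ} (q : R) (z : Fin (m + 1) → R)
    (v : Pat (m + 1) → R) :
    push (rot m) (Tz q z v) = Tz q (fun j => z ((finRotate (m + 1)).symm j)) (push (rot m) v) := by
  unfold Tz
  rw [TZ_push_sum]
  funext τ
  set e : (Fin (m + 1) → Bool) ≃ (Fin (m + 1) → Bool) :=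
    Equiv.arrowCongr (finRotate (m + 1)) (Equiv.refl Bool) with he
  have hej : ∀ (c : Fin (m + 1) → Bool), e c = fun j => c ((finRotate (m + 1)).symm j) := by
    intro c
    rfl
  refine Fintype.sum_equiv e _ _ fun c => ?_
  rw [hej c]
  congr 1
  · exact Fintype.prod_equiv (finRotate (m + 1)) _ _ fun j => by
      simp only [Equiv.symm_apply_apply]
  · rw [TZ_push_comp, TZ_push_comp]
    congr 1
    funext σ
    simp only [Function.comp]
    exact (Tc_rot m c σ).symm

/-- summing over the values at one place counts everything twice -/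
theorem TZ_sum_update {ι : Type*} [Fintype ι] [DecidableEq ι] {R : Type*} [CommRing R] (p : ι)
    (F : (ι → Bool) → R) :
    ∑ c : ι → Bool, ∑ a : Bool, F (Function.update c p a) = 2 * ∑ c : ι → Bool, F c := by
  have hinv : Function.Involutive (fun c : ι → Bool => Function.update c p (!(c p))) := by
    intro c
    funext j
    by_cases h : j = p
    · subst h
      simp
    · simp [h]
  have h1 : ∀ c : ι → Bool, ∑ a : Bool, F (Function.update c p a) =
      F c + F (Function.update c p (!(c p))) := by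
    intro c
    rw [Fintype.sum_bool]
    rcases hc : c p with _ | _
    · rw [Bool.not_false, add_comm]
      congr 1
      rw [← hc, Function.update_eq_self]
    · rw [Bool.not_true]
      congr 1
      rw [← hc, Function.update_eq_self]
  rw [Finset.sum_congr rfl fun c _ => h1 c, Finset.sum_add_distrib, two_mul]
  congr 1
  exact Fintype.sum_equiv hinv.toPerm _ _ fun c => rfl

theorem TZ_sum_upd2 {R : Type*} [CommRing R] {m : ℕ} (i : ℕ)
    (F : (Fin (m + 1) → Bool) → R) :
    ∑ c : Fin (m + 1) → Bool, ∑ a : Bool, ∑ b : Bool, F (upd2 c i a b) =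
      4 * ∑ c : Fin (m + 1) → Bool, F c := by
  have h1 := TZ_sum_update (ix m i) (fun c : Fin (m + 1) → Bool =>
    ∑ b : Bool, F (Function.update c (ix m (i + 1)) b))
  have h2 := TZ_sum_update (ix m (i + 1)) F
  rw [h2] at h1
  unfold upd2
  rw [h1]
  ring

theorem TZ_ix_ne {m : ℕ} (hm : 2 ≤ m) (i : ℕ) : ix m i ≠ ix m (i + 1) := by
  intro h
  have h1 : i % (m + 1) = (i + 1) % (m + 1) := congrArg Fin.val h
  have h2 : i ≡ i + 1 [MOD (m + 1)] := h1
  have h3 : (m + 1) ∣ (i + 1) - i := (Nat.modEq_iff_dvd' (Nat.le_succ i)).1 h2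
  rw [Nat.add_sub_cancel_left] at h3
  have := Nat.le_of_dvd one_pos h3
  omega

theorem TZ_prod {R : Type*} [CommRing R] {m : ℕ} (hm : 2 ≤ m) (i : ℕ) (q : R)
    (z : Fin (m + 1) → R) (c : Fin (m + 1) → Bool) (a b : Bool) :
    ∏ j, wt q (upd2 c i a b j) (z j) = wt q a (z (ix m i)) * (wt q b (z (ix m (i + 1))) *
      ∏ j ∈ (Finset.univ.erase (ix m i)).erase (ix m (i + 1)), wt q (c j) (z j)) := by
  have hne := TZ_ix_ne hm i
  rw [← Finset.mul_prod_erase Finset.univ _ (Finset.mem_univ (ix m i)),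
    ← Finset.mul_prod_erase (Finset.univ.erase (ix m i)) _
      (Finset.mem_erase.2 ⟨hne.symm, Finset.mem_univ (ix m (i + 1))⟩)]
  have e1 : upd2 c i a b (ix m i) = a := by
    unfold upd2
    rw [Function.update_of_ne hne, Function.update_self]
  have e2 : upd2 c i a b (ix m (i + 1)) = b := by
    unfold upd2
    rw [Function.update_self]
  rw [e1, e2]
  congr 2
  refine Finset.prod_congr rfl fun j hj => ?_
  rw [Finset.mem_erase, Finset.mem_erase] at hj
  congr 1
  unfold upd2
  rw [Function.update_of_ne hj.1, Function.update_of_ne hj.2.1]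

theorem Rh_Tz {R : Type*} [CommRing R] [NoZeroDivisors R] [CharZero R] {m : ℕ} (hm : 2 ≤ m)
    (q : R) (hq : q ^ 2 + q + 1 = 0) (i : ℕ) (z : Fin (m + 1) → R) (v : Pat (m + 1) → R) :
    Rh q (z (ix m i)) (z (ix m (i + 1))) i (Tz q z v)
      = Tz q (fun j => z (swap (ix m i) (ix m (i + 1)) j))
          (Rh q (z (ix m i)) (z (ix m (i + 1))) i v) := by
  funext σ
  have hne := TZ_ix_ne hm i
  set x := z (ix m i) with hx
  set y := z (ix m (i + 1)) with hy
  set z' : Fin (m + 1) → R := fun j => z (swap (ix m i) (ix m (i + 1)) j) with hz'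
  have hz1 : z' (ix m i) = y := by
    rw [hz']
    simp only [swap_apply_left]
    rfl
  have hz2 : z' (ix m (i + 1)) = x := by
    rw [hz']
    simp only [swap_apply_right]
    rfl
  -- both sides as sums over `c`
  have hL : Rh q x y i (Tz q z v) σ = ∑ c : Fin (m + 1) → Bool,
      (∏ j, wt q (c j) (z j)) * ((q * x - q ^ 2 * y) * push (Tc m c) v σ +
        (x - y) * push (E m i ∘ Tc m c) v σ) := by
    unfold Rh Tz
    rw [TZ_push_sum, Finset.mul_sum, Finset.mul_sum, ← Finset.sum_add_distrib]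
    refine Finset.sum_congr rfl fun c _ => ?_
    rw [TZ_push_comp]
    ring
  have hR : Tz q z' (Rh q x y i v) σ = ∑ c : Fin (m + 1) → Bool,
      (∏ j, wt q (c j) (z' j)) * ((q * x - q ^ 2 * y) * push (Tc m c) v σ +
        (x - y) * push (Tc m c ∘ E m i) v σ) := by
    unfold Tz
    refine Finset.sum_congr rfl fun c _ => ?_
    congr 1
    have : Rh q x y i v = fun s => (q * x - q ^ 2 * y) * v s + (x - y) * push (E m i) v s := rfl
    rw [this, TZ_push_lin, TZ_push_comp]
  have h4 : (4 : R) ≠ 0 := by norm_num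
  apply mul_left_cancel₀ h4
  rw [hL, hR, ← TZ_sum_upd2 i, ← TZ_sum_upd2 i]
  refine Finset.sum_congr rfl fun c _ => ?_
  -- the relations
  have r00 : E m i ∘ Tc m (upd2 c i false false) = Tc m (upd2 c i true false) :=
    funext fun s => E_Tc00 hm i c s
  have r10 : E m i ∘ Tc m (upd2 c i true false) = Tc m (upd2 c i true false) :=
    funext fun s => E_Tc10 hm i c s
  have r11 : E m i ∘ Tc m (upd2 c i true true) = Tc m (upd2 c i true false) :=
    funext fun s => E_Tc11 hm i c s
  have r01 : E m i ∘ Tc m (upd2 c i false true) = Tc m (upd2 c i true false) ∘ E m i :=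
    funext fun s => E_Tc01 hm i c s
  have s00 : Tc m (upd2 c i false false) ∘ E m i = Tc m (upd2 c i false true) :=
    funext fun s => Tc_E00 hm i c s
  have s01 : Tc m (upd2 c i false true) ∘ E m i = Tc m (upd2 c i false true) :=
    funext fun s => Tc_E01 hm i c s
  have s11 : Tc m (upd2 c i true true) ∘ E m i = Tc m (upd2 c i false true) :=
    funext fun s => Tc_E11 hm i c s
  have hW : ∏ j ∈ (Finset.univ.erase (ix m i)).erase (ix m (i + 1)), wt q (c j) (z' j) =
      ∏ j ∈ (Finset.univ.erase (ix m i)).erase (ix m (i + 1)), wt q (c j) (z j) := by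
    refine Finset.prod_congr rfl fun j hj => ?_
    rw [Finset.mem_erase, Finset.mem_erase] at hj
    congr 1
    rw [hz']
    simp only
    rw [swap_apply_of_ne_of_ne hj.2.1 hj.1]
  simp only [Fintype.sum_bool, TZ_prod hm, r00, r10, r11, r01, s00, s01, s11, hW, hz1, hz2]
  rw [← hx, ← hy]
  set W := ∏ j ∈ (Finset.univ.erase (ix m i)).erase (ix m (i + 1)), wt q (c j) (z j)
  set T00 := push (Tc m (upd2 c i false false)) v σ
  set T01 := push (Tc m (upd2 c i false true)) v σ
  set T10 := push (Tc m (upd2 c i true false)) v σ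
  set T11 := push (Tc m (upd2 c i true true)) v σ
  set Ts := push (Tc m (upd2 c i true false) ∘ E m i) v σ
  simp only [wt, if_true, Bool.false_eq_true, if_false]
  linear_combination (W * (T01 - T10) * (q ^ 2 * y + q ^ 2 * y ^ 2 - q ^ 2 * x - q ^ 2 * x * y
    + q ^ 2 * x * y ^ 2 - q ^ 2 * x ^ 2 * y + q ^ 3 * y ^ 2 - q ^ 3 * x ^ 2 - q ^ 4 * y ^ 2
    + q ^ 4 * x * y)) * hq

end Pool.Agent.H974R3
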