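import Pool.Agent.H974R3.Rel

/-!
Module E (Tri): triangular structure.
-/

namespace Pool.Agent.H974R3
open Equiv MvPolynomial


/-- total length of the arcs -/
def len {L : ℕ} (σ : Pat L) : ℕ :=
  ∑ k : Fin L, (match σ.1 (some k) with
    | some l => (k.val - l.val) + (l.val - k.val)
    | none => 0)

namespace TriAux

/-! ### joins -/

section joins
variable {α : Type*} [DecidableEq α]

theorem join_ta {a b : α} {τ : Perm α} (_hinv : ∀ v, τ (τ v) = v) (hnf : ∀ v, τ v ≠ v)
    (hab : a ≠ b) (_h : τ a ≠ b) : join a b τ (τ a) = τ b := by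
  have h1 : τ b ≠ b := hnf b
  have h2 : τ b ≠ τ a := fun h => hab (τ.injective h).symm
  simp only [join, Perm.mul_apply, swap_apply_right]
  rw [swap_apply_of_ne_of_ne h1 h2]

theorem join_tb {a b : α} {τ : Perm α} (hinv : ∀ v, τ (τ v) = v) (hnf : ∀ v, τ v ≠ v)
    (hab : a ≠ b) (_h : τ a ≠ b) : join a b τ (τ b) = τ a := by
  have h1 : τ b ≠ b := hnf b
  have h2 : τ b ≠ τ a := fun h => hab (τ.injective h).symm
  simp only [join, Perm.mul_apply]
  rw [swap_apply_of_ne_of_ne h1 h2, hinv b, swap_apply_left]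

theorem join_other {a b : α} {τ : Perm α} (hinv : ∀ v, τ (τ v) = v) {v : α}
    (h1 : v ≠ a) (h2 : v ≠ b) (h3 : v ≠ τ a) (h4 : v ≠ τ b) : join a b τ v = τ v := by
  have h5 : τ v ≠ b := fun h => h4 (by rw [← h, hinv])
  have h6 : τ v ≠ τ a := fun h => h1 (τ.injective h)
  simp only [join, Perm.mul_apply]
  rw [swap_apply_of_ne_of_ne h2 h3, swap_apply_of_ne_of_ne h5 h6]

end joins

/-! ### arcs with natural numbers -/

/-- `k` and `l` are joined by an arc. -/
def arc {L : ℕ} (σ : Pat L) (k l : ℕ) : Prop :=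
  ∃ (hk : k < L) (hl : l < L), σ.1 (some ⟨k, hk⟩) = some ⟨l, hl⟩

theorem arc.symm {L : ℕ} {σ : Pat L} {k l : ℕ} (h : arc σ k l) : arc σ l k := by
  obtain ⟨hk, hl, h⟩ := h
  exact ⟨hl, hk, by rw [← h, σ.2.inv]⟩

theorem arc.unique {L : ℕ} {σ : Pat L} {k l l' : ℕ} (h : arc σ k l) (h' : arc σ k l') :
    l = l' := by
  obtain ⟨hk, hl, h⟩ := h
  obtain ⟨_, hl', h'⟩ := h'
  have := h.symm.trans h'
  simpa using this

theorem arc.ne {L : ℕ} {σ : Pat L} {k l : ℕ} (h : arc σ k l) : k ≠ l := by
  rintro rfl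
  obtain ⟨hk, hl, h⟩ := h
  exact σ.2.nofix _ h

theorem arc.nc {L : ℕ} {σ : Pat L} {k l x y : ℕ} (h : arc σ k l) (h' : arc σ x y)
    (hxk : x ≠ k) (hxl : x ≠ l) :
    ((k < x ∧ x < l) ∨ (l < x ∧ x < k)) ↔ ((k < y ∧ y < l) ∨ (l < y ∧ y < k)) := by
  obtain ⟨hk, hl, h⟩ := h
  obtain ⟨hx, hy, h'⟩ := h'
  have := σ.2.nc _ _ _ _ h h' (fun e => hxk (congrArg Fin.val e)) (fun e => hxl (congrArg Fin.val e))
  simpa only [Btw, Fin.lt_def] using this

theorem last_none {n : ℕ} {σ : Pat (2 * n + 1)} (hd : σ.1 none = some (Fin.last (2 * n))) :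
    σ.1 (some (Fin.last (2 * n))) = none := by
  rw [← hd, σ.2.inv]

theorem arc_exists {n : ℕ} {σ : Pat (2 * n + 1)} (hd : σ.1 none = some (Fin.last (2 * n)))
    {k : ℕ} (hk : k < 2 * n) : ∃ l, l < 2 * n ∧ arc σ k l := by
  have hk' : k < 2 * n + 1 := by omega
  rcases h : σ.1 (some ⟨k, hk'⟩) with _ | l
  · have h1 := σ.2.inv (some ⟨k, hk'⟩)
    rw [h, hd] at h1
    have := congrArg (fun o => (o.elim 0 Fin.val : ℕ)) h1
    simp at this
    omega
  · refine ⟨l.val, ?_, hk', l.2, h⟩
    by_contra hl
    have hl' : l = Fin.last (2 * n) := by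
      apply Fin.ext; simp only [Fin.val_last]; have := l.2; omega
    have h1 := σ.2.inv (some ⟨k, hk'⟩)
    rw [h, hl', last_none hd] at h1
    exact absurd h1 (by simp)

theorem arc_lt {n : ℕ} {σ : Pat (2 * n + 1)} (hd : σ.1 none = some (Fin.last (2 * n)))
    {k l : ℕ} (h : arc σ k l) : k < 2 * n ∧ l < 2 * n := by
  have key : ∀ {k l : ℕ}, arc σ k l → k < 2 * n := by
    intro k l h
    obtain ⟨hk, hl, h⟩ := h
    by_contra hk'
    have : (⟨k, hk⟩ : Fin (2 * n + 1)) = Fin.last (2 * n) := by
      apply Fin.ext; simp only [Fin.val_last]; omega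
    rw [this, last_none hd] at h
    exact absurd h (by simp)
  exact ⟨key h, key h.symm⟩

/-- two patterns with last defect with the same arcs are equal -/
theorem ext_arc {n : ℕ} {σ τ : Pat (2 * n + 1)} (hd : σ.1 none = some (Fin.last (2 * n)))
    (hd' : τ.1 none = some (Fin.last (2 * n))) (h : ∀ k l, arc σ k l → arc τ k l) : σ = τ := by
  apply Subtype.ext
  apply Equiv.ext
  intro v
  rcases v with _ | k
  · rw [hd, hd']
  · by_cases hk : k.val < 2 * n
    · obtain ⟨l, hl, ha⟩ := arc_exists hd hk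
      have hb := h _ _ ha
      obtain ⟨_, _, ha⟩ := ha
      obtain ⟨_, _, hb⟩ := hb
      exact ha.trans hb.symm
    · have : k = Fin.last (2 * n) := by
        apply Fin.ext; simp only [Fin.val_last]; have := k.2; omega
      rw [this, last_none hd, last_none hd']

/-! ### the rainbow -/

theorem base_none (n : ℕ) : (base n).1 none = some (Fin.last (2 * n)) := rfl

theorem base_arc {n k : ℕ} (hk : k < 2 * n) : arc (base n) k (2 * n - 1 - k) := by
  refine ⟨by omega, by omega, ?_⟩
  show baseFun n (some ⟨k, _⟩) = _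
  simp [baseFun, hk]

theorem eq_base {n : ℕ} {σ : Pat (2 * n + 1)} (hd : σ.1 none = some (Fin.last (2 * n)))
    (h : ∀ i, i + 1 < 2 * n → ∀ c c', arc σ i c → arc σ (i + 1) c' → ¬ (c < i ∧ i + 1 < c')) :
    σ = base n := by
  have key : ∀ k, k < n → arc σ k (2 * n - 1 - k) := by
    intro k
    induction k using Nat.strong_induction_on with
    | _ k ih =>
      intro hk
      -- the interval [k, 2n-1-k] is stable
      have hst : ∀ x y, arc σ x y → k ≤ x → x ≤ 2 * n - 1 - k → k ≤ y ∧ y ≤ 2 * n - 1 - k := by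
        intro x y hxy h1 h2
        have hy := (arc_lt hd hxy).2
        constructor
        · by_contra hc
          have hc' : y < k := by omega
          have h3 := ih y hc' (by omega)
          have := h3.unique hxy.symm
          omega
        · by_contra hc
          have hc' : 2 * n - 1 - y < k := by omega
          have h3 := ih (2 * n - 1 - y) hc' (by omega)
          have h4 := h3.symm
          rw [show 2 * n - 1 - (2 * n - 1 - y) = y by omega] at h4
          have := h4.unique hxy.symm
          omega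
      obtain ⟨l, hl, ha⟩ := arc_exists hd (show k < 2 * n by omega)
      obtain ⟨h1, h2⟩ := hst k l ha le_rfl (by omega)
      have hne := ha.ne
      by_cases hlk : l = 2 * n - 1 - k
      · rw [← hlk]; exact ha
      · exfalso
        obtain ⟨p, hp, hb⟩ := arc_exists hd (show l + 1 < 2 * n by omega)
        obtain ⟨h3, h4⟩ := hst (l + 1) p hb (by omega) (by omega)
        have h5 := h l (by omega) k p ha.symm hb
        have hne2 := hb.ne
        have hpl : p ≠ l := by
          intro e
          rw [e] at hb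
          have := hb.symm.unique ha.symm
          omega
        have hpk : p ≠ k := by
          intro e
          rw [e] at hb
          have := hb.symm.unique ha
          omega
        have := ha.nc hb (by omega) (by omega)
        omega
  have key2 : ∀ k, k < 2 * n → arc σ k (2 * n - 1 - k) := by
    intro k hk
    by_cases hkn : k < n
    · exact key k hkn
    · have := (key (2 * n - 1 - k) (by omega)).symm
      rwa [show 2 * n - 1 - (2 * n - 1 - k) = k by omega] at this
  refine ext_arc hd (base_none n) fun k l hkl => ?_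
  have h1 := (arc_lt hd hkl).1
  have h2 := hkl.unique (key2 k h1)
  rw [h2]
  exact base_arc h1

/-! ### the action of `E` in terms of arcs -/

theorem ix_eq {m i : ℕ} (hi : i < m + 1) : ix m i = ⟨i, hi⟩ := by
  apply Fin.ext
  simp [ix, Nat.mod_eq_of_lt hi]

/-- the summand of `len` -/
def ter {L : ℕ} (σ : Pat L) (k : Fin L) : ℕ :=
  match σ.1 (some k) with
    | some l => (k.val - l.val) + (l.val - k.val)
    | none => 0

theorem len_eq {L : ℕ} (σ : Pat L) : len σ = ∑ k : Fin L, ter σ k := rfl

theorem ter_arc {L : ℕ} {σ : Pat L} {k l : ℕ} (h : arc σ k l) (hk : k < L) :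
    ter σ ⟨k, hk⟩ = (k - l) + (l - k) := by
  obtain ⟨_, hl, h⟩ := h
  simp only [ter, h]

theorem ter_congr {L : ℕ} {σ τ : Pat L} {k : Fin L} (h : σ.1 (some k) = τ.1 (some k)) :
    ter σ k = ter τ k := by
  simp only [ter, h]

theorem len_lt_of {L : ℕ} {σ τ : Pat L} (S : Finset (Fin L))
    (h : ∀ k, k ∉ S → σ.1 (some k) = τ.1 (some k))
    (hS : ∑ k ∈ S, ter σ k < ∑ k ∈ S, ter τ k) : len σ < len τ := by
  rw [len_eq, len_eq, ← Finset.sum_add_sum_compl S, ← Finset.sum_add_sum_compl S (fun k => ter τ k)]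
  have : ∑ k ∈ Sᶜ, ter σ k = ∑ k ∈ Sᶜ, ter τ k :=
    Finset.sum_congr rfl fun k hk => ter_congr (h k (Finset.mem_compl.1 hk))
  omega

theorem dist_of_lt {a b : ℕ} (h : a < b) : (a - b) + (b - a) = b - a := by omega

theorem dist_of_gt {a b : ℕ} (h : b < a) : (a - b) + (b - a) = a - b := by omega

theorem arith1 {i a b c c' : ℕ} (h1 : c < b) (h2 : b < a) (h3 : a < i) (h4 : i + 1 < c') :
    (i - c) + (c - i) + (((i + 1 - c') + (c' - (i + 1))) + (((c - i) + (i - c)) +
      (((c' - (i + 1)) + (i + 1 - c')) + (((a - b) + (b - a)) + ((b - a) + (a - b)))))) <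
    (i - a) + (a - i) + (((i + 1 - b) + (b - (i + 1))) + (((c - c') + (c' - c)) +
      (((c' - c) + (c - c')) + (((a - i) + (i - a)) + ((b - (i + 1)) + (i + 1 - b)))))) := by
  rw [dist_of_gt (show c < i by omega), dist_of_lt (show i + 1 < c' by omega),
    dist_of_lt (show c < i by omega), dist_of_gt (show i + 1 < c' by omega),
    dist_of_gt h2, dist_of_lt h2, dist_of_gt h3, dist_of_gt (show b < i + 1 by omega),
    dist_of_lt (show c < c' by omega), dist_of_gt (show c < c' by omega), dist_of_lt h3,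
    dist_of_lt (show b < i + 1 by omega)]
  omega

theorem arith2 {i a b c c' : ℕ} (h1 : c < i) (h2 : i + 1 < b) (h3 : b < a) (h4 : a < c') :
    (i - c) + (c - i) + (((i + 1 - c') + (c' - (i + 1))) + (((c - i) + (i - c)) +
      (((c' - (i + 1)) + (i + 1 - c')) + (((a - b) + (b - a)) + ((b - a) + (a - b)))))) <
    (i - a) + (a - i) + (((i + 1 - b) + (b - (i + 1))) + (((c - c') + (c' - c)) +
      (((c' - c) + (c - c')) + (((a - i) + (i - a)) + ((b - (i + 1)) + (i + 1 - b)))))) := by
  rw [dist_of_gt h1, dist_of_lt (show i + 1 < c' by omega),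
    dist_of_lt h1, dist_of_gt (show i + 1 < c' by omega),
    dist_of_gt h3, dist_of_lt h3, dist_of_lt (show i < a by omega), dist_of_lt h2,
    dist_of_lt (show c < c' by omega), dist_of_gt (show c < c' by omega),
    dist_of_gt (show i < a by omega), dist_of_gt h2]
  omega

end TriAux

open TriAux

theorem tri_step (n : ℕ) (σ : Pat (2 * n + 1)) (hd : σ.1 none = some (Fin.last (2 * n)))
    (hσ : σ ≠ base n) : ∃ i, i + 1 < 2 * n ∧ E (2 * n) i σ ≠ σ ∧
      (E (2 * n) i σ).1 none = some (Fin.last (2 * n)) ∧ len σ < len (E (2 * n) i σ) ∧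
      ∀ τ, E (2 * n) i τ = E (2 * n) i σ → τ ≠ σ → τ ≠ E (2 * n) i σ →
        (τ.1 none = some (Fin.last (2 * n)) ∧ len σ < len τ) := by
  have hex : ∃ i, i + 1 < 2 * n ∧ ∃ c c', arc σ i c ∧ arc σ (i + 1) c' ∧ c < i ∧ i + 1 < c' := by
    by_contra hcon
    push Not at hcon
    refine hσ (eq_base hd fun i hi c c' h1 h2 h3 => ?_)
    have := hcon i hi c c' h1 h2 h3.1
    omega
  obtain ⟨i, hi, c, c', hc, hc', hci, hic'⟩ := hex
  have hc'2 : c' < 2 * n := (arc_lt hd hc').2
  refine ⟨i, hi, ?_⟩
  set ρ := E (2 * n) i σ with hρ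
  have ei : ix (2 * n) i = ⟨i, by omega⟩ := ix_eq (by omega)
  have ei1 : ix (2 * n) (i + 1) = ⟨i + 1, by omega⟩ := ix_eq (by omega)
  set A : Vx (2 * n + 1) := some ⟨i, by omega⟩ with hA
  set B : Vx (2 * n + 1) := some ⟨i + 1, by omega⟩ with hB
  have hAB : A ≠ B := by simp [hA, hB]
  have hval : ∀ τ : Pat (2 * n + 1), (E (2 * n) i τ).1 = join A B τ.1 := by
    intro τ; rw [E_val, ei, ei1]
  -- the values of σ
  have sA : σ.1 A = some ⟨c, by omega⟩ := by obtain ⟨_, _, h⟩ := hc; exact h
  have sB : σ.1 B = some ⟨c', by omega⟩ := by obtain ⟨_, _, h⟩ := hc'; exact h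
  have sAB : σ.1 A ≠ B := by rw [sA, hB]; simp; omega
  -- the values of ρ
  have rA : ρ.1 A = B := by
    have := E_arc (m := 2 * n) (by omega) i σ
    rwa [ei, ei1] at this
  have rB : ρ.1 B = A := by rw [← rA, ρ.2.inv]
  have rc : ρ.1 (some ⟨c, by omega⟩) = some ⟨c', by omega⟩ := by
    rw [hρ, hval, ← sA, ← sB]
    exact join_ta σ.2.inv σ.2.nofix hAB sAB
  have rc' : ρ.1 (some ⟨c', by omega⟩) = some ⟨c, by omega⟩ := by rw [← rc, ρ.2.inv]
  have roth : ∀ v, v ≠ A → v ≠ B → v ≠ some ⟨c, by omega⟩ → v ≠ some ⟨c', by omega⟩ →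
      ρ.1 v = σ.1 v := by
    intro v h1 h2 h3 h4
    rw [hρ, hval]
    exact join_other σ.2.inv h1 h2 (by rw [sA]; exact h3) (by rw [sB]; exact h4)
  have rnone : ρ.1 none = some (Fin.last (2 * n)) := by
    rw [roth none (by simp [hA]) (by simp [hB]) (by simp) (by simp), hd]
  have arcr1 : arc ρ i (i + 1) := ⟨by omega, by omega, rA⟩
  have arcr2 : arc ρ c c' := ⟨by omega, by omega, rc⟩
  refine ⟨?_, rnone, ?_, ?_⟩
  · intro h
    rw [h] at rA
    exact sAB rA
  · -- length of ρ
    refine len_lt_of {⟨i, by omega⟩, ⟨i + 1, by omega⟩, ⟨c, by omega⟩, ⟨c', by omega⟩} ?_ ?_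
    · intro k hk
      simp only [Finset.mem_insert, Finset.mem_singleton, not_or] at hk
      obtain ⟨h1, h2, h3, h4⟩ := hk
      refine (roth (some k) ?_ ?_ ?_ ?_).symm
      · simpa [hA] using h1
      · simpa [hB] using h2
      · simpa using h3
      · simpa using h4
    · rw [Finset.sum_insert, Finset.sum_insert, Finset.sum_insert, Finset.sum_singleton,
        Finset.sum_insert, Finset.sum_insert, Finset.sum_insert, Finset.sum_singleton]
      · rw [ter_arc hc, ter_arc hc', ter_arc hc.symm, ter_arc hc'.symm, ter_arc arcr1,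
          ter_arc arcr1.symm, ter_arc arcr2, ter_arc arcr2.symm]
        omega
      all_goals
        simp only [Finset.mem_insert, Finset.mem_singleton, Fin.mk.injEq, not_or]
        omega
  · intro τ hτ h1 h2
    -- τ i ≠ i+1
    have tAB : τ.1 A ≠ B := by
      intro h
      have : E (2 * n) i τ = τ := E_fix i τ (by rw [ei, ei1]; exact h)
      exact h2 (this.symm.trans hτ)
    have hρτ : ρ.1 = join A B τ.1 := by rw [← hτ, hval]
    have tA : ρ.1 (τ.1 A) = τ.1 B := by
      rw [hρτ]; exact join_ta τ.2.inv τ.2.nofix hAB tAB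
    have tB : ρ.1 (τ.1 B) = τ.1 A := by
      rw [hρτ]; exact join_tb τ.2.inv τ.2.nofix hAB tAB
    have toth : ∀ v, v ≠ A → v ≠ B → v ≠ τ.1 A → v ≠ τ.1 B → ρ.1 v = τ.1 v := by
      intro v h1 h2 h3 h4
      rw [hρτ]
      exact join_other τ.2.inv h1 h2 h3 h4
    have rlast : ρ.1 (some (Fin.last (2 * n))) = none := last_none rnone
    -- the partners of i, i+1 in τ are finite
    rcases hTA : τ.1 A with _ | a
    · exfalso
      rw [hTA, rnone] at tA
      have ht : τ.1 (some ⟨c, by omega⟩) = some ⟨c', by omega⟩ := by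
        rw [← rc]
        refine (toth _ ?_ ?_ ?_ ?_).symm
        · simp [hA]; omega
        · simp [hB]; omega
        · rw [hTA]; simp
        · rw [← tA]; simp [Fin.ext_iff]; omega
      have k1 : arc τ c c' := ⟨by omega, by omega, ht⟩
      have k2 : arc τ (i + 1) (2 * n) := ⟨by omega, by omega, tA.symm⟩
      have := k1.nc k2 (by omega) (by omega)
      omega
    rcases hTB : τ.1 B with _ | b
    · exfalso
      rw [hTB, rnone, hTA] at tB
      have ht : τ.1 (some ⟨c, by omega⟩) = some ⟨c', by omega⟩ := by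
        rw [← rc]
        refine (toth _ ?_ ?_ ?_ ?_).symm
        · simp [hA]; omega
        · simp [hB]; omega
        · rw [hTA, ← tB]; simp [Fin.ext_iff]; omega
        · rw [hTB]; simp
      have k1 : arc τ c c' := ⟨by omega, by omega, ht⟩
      have k2 : arc τ i (2 * n) := ⟨by omega, by omega, by rw [← hA, hTA, ← tB]; rfl⟩
      have := k1.nc k2 (by omega) (by omega)
      omega
    have tnone : τ.1 none = some (Fin.last (2 * n)) := by
      rw [← rnone]
      refine (toth _ ?_ ?_ ?_ ?_).symm
      · simp [hA]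
      · simp [hB]
      · rw [hTA]; simp
      · rw [hTB]; simp
    refine ⟨tnone, ?_⟩
    obtain ⟨a, ha0⟩ := a
    obtain ⟨b, hb0⟩ := b
    have ta : arc τ i a := ⟨by omega, ha0, hTA⟩
    have tb : arc τ (i + 1) b := ⟨by omega, hb0, hTB⟩
    have rab : arc ρ a b := ⟨ha0, hb0, by rw [← hTA, ← hTB]; exact tA⟩
    have ha1 := (arc_lt tnone ta).2
    have hb1 := (arc_lt tnone tb).2
    have nia := ta.ne
    have nib := tb.ne
    have nab := rab.ne
    have nai : a ≠ i + 1 := by
      intro e; subst e; exact tAB hTA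
    have nbi : b ≠ i := by
      intro e; subst e
      have := tb.symm.unique ta
      omega
    -- c is not one of a, b
    have hca : c ≠ a := by
      intro e
      subst e
      have hb' : b = c' := rab.unique arcr2
      subst hb'
      refine h1 (ext_arc tnone hd fun k l hkl => ?_)
      by_cases k1 : k = i
      · subst k1; rw [hkl.unique ta]; exact hc
      by_cases k2 : k = i + 1
      · subst k2; rw [hkl.unique tb]; exact hc'
      by_cases k3 : k = c
      · subst k3; rw [hkl.unique ta.symm]; exact hc.symm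
      by_cases k4 : k = b
      · subst k4; rw [hkl.unique tb.symm]; exact hc'.symm
      obtain ⟨hk, hl, hkl⟩ := hkl
      refine ⟨hk, hl, ?_⟩
      rw [← hkl, ← roth, ← toth]
      · simpa [hA] using k1
      · simpa [hB] using k2
      · rw [hTA]; simpa using k3
      · rw [hTB]; simpa using k4
      · simpa [hA] using k1
      · simpa [hB] using k2
      · simpa using k3
      · simpa using k4
    have hcb : c ≠ b := by
      intro e
      subst e
      have ha' : a = c' := rab.symm.unique arcr2
      subst ha'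
      have := ta.nc tb (by omega) (by omega)
      omega
    have hc'a : c' ≠ a := by
      intro e
      subst e
      exact hcb (rab.unique arcr2.symm).symm
    have hc'b : c' ≠ b := by
      intro e
      subst e
      exact hca (rab.symm.unique arcr2.symm).symm
    have tcc : arc τ c c' := by
      refine ⟨by omega, by omega, ?_⟩
      rw [← rc]
      refine (toth _ ?_ ?_ ?_ ?_).symm
      · simp [hA]; omega
      · simp [hB]; omega
      · rw [hTA]; simpa using hca
      · rw [hTB]; simpa using hcb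
    have g1 := tcc.nc ta (by omega) (by omega)
    have g2 := tcc.nc tb (by omega) (by omega)
    have sab : arc σ a b := by
      refine ⟨ha0, hb0, ?_⟩
      obtain ⟨_, _, h⟩ := rab
      rw [← h]
      refine (roth _ ?_ ?_ ?_ ?_).symm
      · simp [hA]; omega
      · simp [hB]; omega
      · simpa using fun e : a = c => hca e.symm
      · simpa using fun e : a = c' => hc'a e.symm
    have g3 := hc.nc sab (by omega) (by omega)
    have g4 := ta.nc tb (by omega) (by omega)
    have hcase : (c < b ∧ b < a ∧ a < i) ∨ (i + 1 < b ∧ b < a ∧ a < c') := by omega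
    clear g1 g2 g3 g4 nia nib nab nai nbi hca hcb hc'a hc'b
    refine len_lt_of {⟨i, by omega⟩, ⟨i + 1, by omega⟩, ⟨c, by omega⟩, ⟨c', by omega⟩,
      ⟨a, ha0⟩, ⟨b, hb0⟩} ?_ ?_
    · intro k hk
      simp only [Finset.mem_insert, Finset.mem_singleton, not_or] at hk
      obtain ⟨h1, h2, h3, h4, h5, h6⟩ := hk
      rw [← roth, ← toth]
      · simpa [hA] using h1
      · simpa [hB] using h2
      · rw [hTA]; simpa using h5
      · rw [hTB]; simpa using h6
      · simpa [hA] using h1
      · simpa [hB] using h2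
      · simpa using h3
      · simpa using h4
    · rw [Finset.sum_insert, Finset.sum_insert, Finset.sum_insert, Finset.sum_insert,
        Finset.sum_insert, Finset.sum_singleton,
        Finset.sum_insert, Finset.sum_insert, Finset.sum_insert, Finset.sum_insert,
        Finset.sum_insert, Finset.sum_singleton]
      · rw [ter_arc hc, ter_arc hc', ter_arc hc.symm, ter_arc hc'.symm, ter_arc sab,
          ter_arc sab.symm, ter_arc ta, ter_arc tb, ter_arc ta.symm, ter_arc tb.symm,
          ter_arc tcc, ter_arc tcc.symm]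
        rcases hcase with ⟨k1, k2, k3⟩ | ⟨k1, k2, k3⟩
        · exact arith1 k1 k2 k3 hic'
        · exact arith2 hci k1 k2 k3
      all_goals
        simp only [Finset.mem_insert, Finset.mem_singleton, Fin.mk.injEq, not_or]
        rcases hcase with ⟨k1, k2, k3⟩ | ⟨k1, k2, k3⟩
        all_goals first
          | (refine ⟨?_, ?_, ?_, ?_, ?_⟩ <;> omega)
          | (refine ⟨?_, ?_, ?_, ?_⟩ <;> omega)
          | (refine ⟨?_, ?_, ?_⟩ <;> omega)
          | (refine ⟨?_, ?_⟩ <;> omega)
          | omega

theorem len_le {L : ℕ} (σ : Pat L) : len σ ≤ L * L := by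
  rw [len_eq]
  calc ∑ k : Fin L, ter σ k ≤ ∑ _k : Fin L, L := by
        refine Finset.sum_le_sum fun k _ => ?_
        unfold ter
        have := k.2
        split
        · next l _ => have := l.2; omega
        · omega
    _ = L * L := by simp

theorem base_no_arc {n i : ℕ} (hi : i < 2 * n + 1) (hn : i + 1 ≠ n) (hn1 : 1 ≤ n)
    (τ : Pat (2 * n + 1)) : E (2 * n) i τ ≠ base n := by
  intro h
  have h1 := E_arc (m := 2 * n) (by omega) i τ
  rw [h, ix_eq hi] at h1
  change baseFun n (some ⟨i, hi⟩) = _ at h1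
  by_cases h2 : i < 2 * n
  · rw [ix_eq (by omega : i + 1 < 2 * n + 1)] at h1
    simp [baseFun, h2] at h1
    omega
  · simp [baseFun, h2] at h1

theorem rot_to_last (n : ℕ) (σ : Pat (2 * n + 1)) :
    ∃ k : ℕ, ((rot (2 * n))^[k] σ).1 none = some (Fin.last (2 * n)) := by
  -- σ none is finite
  rcases h : σ.1 none with _ | j
  · exact absurd h (σ.2.nofix none)
  have key : ∀ k, j.val + k < 2 * n + 1 → ∃ j' : Fin (2 * n + 1), j'.val = j.val + k ∧
      ((rot (2 * n))^[k] σ).1 none = some j' := by
    intro k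
    induction k with
    | zero => intro _; exact ⟨j, by simp, h⟩
    | succ k ih =>
      intro hk
      obtain ⟨j', hj', hk'⟩ := ih (by omega)
      refine ⟨finRotate (2 * n + 1) j', ?_, ?_⟩
      · have : j' ≠ Fin.last (2 * n) := by
          intro e
          rw [e] at hj'
          simp only [Fin.val_last] at hj'
          omega
        rw [coe_finRotate_of_ne_last this]
        omega
      · rw [Function.iterate_succ_apply', rot_val]
        have e1 : (rotV (2 * n))⁻¹ none = none := by
          rw [Perm.inv_eq_iff_eq]; simp [rotV]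
        simp only [Perm.mul_apply, e1, hk']
        simp [rotV]
  obtain ⟨j', hj', hk'⟩ := key (2 * n - j.val) (by have := j.2; omega)
  refine ⟨2 * n - j.val, ?_⟩
  rw [hk']
  congr 1
  apply Fin.ext
  rw [hj', Fin.val_last]
  have := j.2
  omega

end Pool.Agent.H974R3
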