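import Pool.Agent.H974R3.Rel
import Pool.Agent.H974R3.Tri
import Pool.Agent.H974R3.TransZ

/-!
# Module C : the homogeneous Markov chain (helper829)
-/

set_option autoImplicit false
set_option maxHeartbeats 400000

namespace Pool.Agent.H974R3
open Equiv

/-! ### words -/

/-- compositions of `K` transfer maps -/
inductive IsWord (m : ℕ) : ℕ → (Pat (m + 1) → Pat (m + 1)) → Prop
  | id : IsWord m 0 id
  | step (c : Fin (m + 1) → Bool) (w : Pat (m + 1) → Pat (m + 1)) (K : ℕ) :
      IsWord m K w → IsWord m (K + 1) (Tc m c ∘ w)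

namespace MK

theorem isWord_comp {m K K' : ℕ} {w w' : Pat (m + 1) → Pat (m + 1)} (h : IsWord m K w)
    (h' : IsWord m K' w') : IsWord m (K + K') (w' ∘ w) := by
  induction h' with
  | id => simpa using h
  | step c w1 K1 _ ih =>
    have := IsWord.step c _ _ ih
    simpa [Function.comp_assoc, Nat.add_assoc] using this

theorem ix_congr {m i j : ℕ} (h : i % (m + 1) = j % (m + 1)) : ix m i = ix m j := by
  simp [ix, h]

theorem E_congr {m i j : ℕ} (h : i % (m + 1) = j % (m + 1)) (σ : Pat (m + 1)) :
    E m i σ = E m j σ := by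
  apply Subtype.ext
  rw [E_val, E_val, ix_congr h, ix_congr (i := i + 1) (j := j + 1) (by
    rw [Nat.add_mod, h, ← Nat.add_mod])]

/-- a word all of whose letters are absent -/
theorem word_none (m : ℕ) (c : Fin (m + 1) → Bool) (k j : ℕ) (σ : Pat (m + 1))
    (h : ∀ t, t < j → c (ix m (k + t + 1)) = false) : word m c k j σ = σ := by
  induction j with
  | zero => rfl
  | succ j ih =>
    rw [word, ih (fun t ht => h t (by omega)), h j (by omega)]
    simp

theorem Tc_false (m : ℕ) (σ : Pat (m + 1)) : Tc m (fun _ => false) σ = rot m σ := by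
  classical
  have h : ∃ k : ℕ, k < m + 1 ∧ (fun _ : Fin (m + 1) => false) (ix m k) = false :=
    ⟨0, Nat.succ_pos m, rfl⟩
  rw [Tc, dif_pos h, word_none _ _ _ _ _ (fun _ _ => rfl)]

/-- a word with a single letter -/
theorem word_single (m : ℕ) (i k j : ℕ) (σ : Pat (m + 1)) (hj : j ≤ m) :
    word m (fun t => decide (t = ix m (i + 1))) k j σ
      = if ∃ t, t < j ∧ (k + t) % (m + 1) = i % (m + 1) then E m i σ else σ := by
  have key : ∀ t, (ix m (k + t + 1) = ix m (i + 1)) ↔ (k + t) % (m + 1) = i % (m + 1) := by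
    intro t
    constructor
    · intro h
      have h' : (k + t + 1) % (m + 1) = (i + 1) % (m + 1) := congrArg Fin.val h
      exact Nat.ModEq.add_right_cancel' 1 h'
    · intro h
      exact ix_congr (Nat.ModEq.add_right 1 h)
  induction j with
  | zero => simp [word]
  | succ j ih =>
    rw [word, ih (by omega)]
    by_cases h1 : (k + j) % (m + 1) = i % (m + 1)
    · have h2 : ¬ ∃ t, t < j ∧ (k + t) % (m + 1) = i % (m + 1) := by
        rintro ⟨t, ht, h3⟩
        have h4 : (k + t) ≡ (k + j) [MOD (m + 1)] := h3.trans h1.symm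
        have h5 : t ≡ j [MOD (m + 1)] := Nat.ModEq.add_left_cancel' k h4
        have h6 : t = j := by
          have a1 := Nat.mod_eq_of_lt (show t < m + 1 by omega)
          have a2 := Nat.mod_eq_of_lt (show j < m + 1 by omega)
          unfold Nat.ModEq at h5
          omega
        omega
      have h3 : ∃ t, t < j + 1 ∧ (k + t) % (m + 1) = i % (m + 1) := ⟨j, by omega, h1⟩
      rw [if_neg h2, if_pos h3, if_pos (by simpa using (key j).2 h1)]
      exact E_congr h1 σ
    · rw [if_neg (by simpa using fun h => h1 ((key j).1 h))]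
      congr 1
      apply propext
      constructor
      · rintro ⟨t, ht, h3⟩; exact ⟨t, by omega, h3⟩
      · rintro ⟨t, ht, h3⟩
        refine ⟨t, ?_, h3⟩
        by_contra hlt
        have : t = j := by omega
        subst this
        exact h1 h3

theorem Tc_single {m : ℕ} (hm : 1 ≤ m) (i : ℕ) (σ : Pat (m + 1)) :
    Tc m (fun t => decide (t = ix m (i + 1))) σ = rot m (E m i σ) := by
  classical
  have h : ∃ k : ℕ, k < m + 1 ∧ (fun t => decide (t = ix m (i + 1))) (ix m k) = false := by
    refine ⟨(i + 2) % (m + 1), Nat.mod_lt _ (by omega), ?_⟩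
    simp only [decide_eq_false_iff_not]
    intro h
    have h' : ((i + 2) % (m + 1)) % (m + 1) = (i + 1) % (m + 1) := congrArg Fin.val h
    rw [Nat.mod_mod] at h'
    have h2 : (1 + (i + 1)) ≡ (0 + (i + 1)) [MOD (m + 1)] := by
      have : 1 + (i + 1) = i + 2 := by ring
      rw [this, zero_add]; exact h'
    have h3 := Nat.ModEq.add_right_cancel' _ h2
    unfold Nat.ModEq at h3
    rw [Nat.mod_eq_of_lt (show 1 < m + 1 by omega), Nat.zero_mod] at h3
    omega
  rw [Tc, dif_pos h]
  congr 1
  obtain ⟨hk1, hk2⟩ := Nat.find_spec h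
  generalize Nat.find h = k at *
  rw [word_single m i k m σ le_rfl, if_pos]
  -- the position i+1 occurs
  have hk3 : (k : ℕ) % (m + 1) ≠ (i + 1) % (m + 1) := by
    intro h'
    have : ix m k = ix m (i + 1) := ix_congr h'
    simp [this] at hk2
  have hi := Nat.mod_lt i (show 0 < m + 1 by omega)
  by_cases hki : k ≤ i % (m + 1)
  · refine ⟨i % (m + 1) - k, ?_, ?_⟩
    · by_contra hlt
      have h0 : k = 0 := by omega
      have h1 : i % (m + 1) = m := by omega
      apply hk3
      rw [h0, Nat.add_mod, h1]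
      rcases Nat.lt_or_ge 1 (m + 1) with h2 | h2
      · rw [Nat.mod_eq_of_lt h2]; simp
      · omega
    · rw [Nat.add_sub_cancel' hki, Nat.mod_mod]
  · refine ⟨i % (m + 1) + (m + 1) - k, ?_, ?_⟩
    · by_contra hlt
      have h1 : k = i % (m + 1) + 1 := by omega
      apply hk3
      rw [h1, Nat.add_mod, Nat.mod_mod, ← Nat.add_mod]
    · have : k + (i % (m + 1) + (m + 1) - k) = i % (m + 1) + (m + 1) := by omega
      rw [this, Nat.add_mod_right, Nat.mod_mod]

/-- the rotation as a permutation of patterns -/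
noncomputable def rotP (m : ℕ) : Perm (Pat (m + 1)) :=
  ⟨rot m, rotInv m, rotInv_rot m, rot_rotInv m⟩

theorem isWord_rot (m : ℕ) : IsWord m 1 (rot m) := by
  have h := IsWord.step (fun _ => false) _ _ (IsWord.id (m := m))
  have h2 : Tc m (fun _ => false) ∘ (id : Pat (m + 1) → Pat (m + 1)) = rot m := by
    funext σ
    simp [Tc_false]
  rw [h2] at h
  simpa using h

theorem isWord_rot_iter (m k : ℕ) : IsWord m k ((rot m)^[k]) := by
  induction k with
  | zero => exact IsWord.id
  | succ k ih =>
    rw [Function.iterate_succ']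
    exact isWord_comp ih (isWord_rot m)

theorem rot_order (m : ℕ) : ∃ N, 0 < N ∧ (rot m)^[N] = id := by
  classical
  refine ⟨orderOf (rotP m), orderOf_pos _, ?_⟩
  have h : (rotP m) ^ (orderOf (rotP m)) = 1 := pow_orderOf_eq_one _
  funext σ
  have h2 := congrArg (fun g : Perm (Pat (m + 1)) => g σ) h
  simp only [Perm.coe_one, id_eq] at h2 ⊢
  rw [← Perm.iterate_eq_pow] at h2
  exact h2

theorem isWord_E {m : ℕ} (hm : 1 ≤ m) (i : ℕ) : ∃ K, IsWord m K (E m i) := by
  obtain ⟨N, hN, hrot⟩ := rot_order m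
  obtain ⟨N', rfl⟩ : ∃ N', N = N' + 1 := ⟨N - 1, by omega⟩
  have h1 : IsWord m 1 (rot m ∘ E m i) := by
    have h := IsWord.step (fun t => decide (t = ix m (i + 1))) _ _ (IsWord.id (m := m))
    have h2 : Tc m (fun t => decide (t = ix m (i + 1))) ∘ (id : Pat (m + 1) → Pat (m + 1))
        = rot m ∘ E m i := by
      funext σ
      simp [Tc_single hm]
    rw [h2] at h
    simpa using h
  refine ⟨1 + N', ?_⟩
  have h3 := isWord_comp h1 (isWord_rot_iter m N')
  have h4 : (rot m)^[N'] ∘ (rot m ∘ E m i) = E m i := by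
    rw [← Function.comp_assoc, ← Function.iterate_succ, hrot]; rfl
  rw [h4] at h3
  exact h3

/-- values of `join` away from the joined vertices -/
theorem join_far {α : Type*} [DecidableEq α] (a b v : α) (σ : Perm α) (h1 : v ≠ a) (h2 : v ≠ b)
    (h3 : v ≠ σ a) (h4 : σ v ≠ b) : join a b σ v = σ v := by
  simp only [join, Perm.mul_apply]
  rw [swap_apply_of_ne_of_ne h2 h3, swap_apply_of_ne_of_ne h4]
  intro h
  exact h1 (σ.injective h)

/-- phase 1: the pattern after `E 0, E 2, …, E (2k-2)` -/
theorem phase1 (n k : ℕ) (hk : k ≤ n) : ∃ K w, IsWord (2 * n) K w ∧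
    ∀ σ, ∀ j, j < k → (w σ).1 (some (ix (2 * n) (2 * j))) = some (ix (2 * n) (2 * j + 1)) := by
  induction k with
  | zero => exact ⟨0, id, IsWord.id, fun σ j hj => absurd hj (by omega)⟩
  | succ k ih =>
    obtain ⟨K, w, hw, h⟩ := ih (by omega)
    obtain ⟨K', hE⟩ := isWord_E (m := 2 * n) (by omega) (2 * k)
    refine ⟨_, _, isWord_comp hw hE, ?_⟩
    intro σ j hj
    by_cases hjk : j = k
    · subst hjk
      exact E_arc (by omega) _ _
    · have hj' : j < k := by omega
      have h0 := h σ j hj'
      have h0' : (w σ).1 (some (ix (2 * n) (2 * j + 1))) = some (ix (2 * n) (2 * j)) := by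
        rw [← h0, (w σ).2.inv]
      have hne : ∀ a b : ℕ, a < 2 * n + 1 → b < 2 * n + 1 → a ≠ b →
          (some (ix (2 * n) a) : Vx (2 * n + 1)) ≠ some (ix (2 * n) b) := by
        intro a b ha hb hab h
        have := congrArg Fin.val (Option.some.inj h)
        simp only [ix, Nat.mod_eq_of_lt ha, Nat.mod_eq_of_lt hb] at this
        exact hab this
      simp only [Function.comp_apply]
      rw [E_val, join_far, h0]
      · exact hne _ _ (by omega) (by omega) (by omega)
      · exact hne _ _ (by omega) (by omega) (by omega)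
      · intro h3
        have h4 : (w σ).1 (some (ix (2 * n) (2 * j))) = some (ix (2 * n) (2 * k)) := by
          rw [h3, (w σ).2.inv]
        rw [h0] at h4
        exact hne _ _ (by omega) (by omega) (by omega) h4
      · rw [h0]
        exact hne _ _ (by omega) (by omega) (by omega)

/-- a pattern with the arcs `(2j, 2j+1)` has its defect at the last strand -/
theorem std_last {n : ℕ} (σ : Pat (2 * n + 1))
    (h : ∀ j, j < n → σ.1 (some (ix (2 * n) (2 * j))) = some (ix (2 * n) (2 * j + 1))) :
    σ.1 (some (Fin.last (2 * n))) = none := by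
  rcases hl : σ.1 (some (Fin.last (2 * n))) with _ | l
  · rfl
  exfalso
  have hne : l ≠ Fin.last (2 * n) := by
    rintro rfl
    exact σ.2.nofix _ hl
  have hlt : l.val < 2 * n := by
    have h1 := l.isLt
    have h2 : l.val ≠ 2 * n := fun h => hne (Fin.ext h)
    omega
  have hback : σ.1 (some l) = some (Fin.last (2 * n)) := by
    rw [← hl, σ.2.inv]
  rcases Nat.even_or_odd' l.val with ⟨j, hj | hj⟩
  · have h1 := h j (by omega)
    have h2 : ix (2 * n) (2 * j) = l := by
      apply Fin.ext; simp only [ix]; rw [Nat.mod_eq_of_lt (by omega)]; omega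
    rw [h2, hback] at h1
    have h3 := congrArg Fin.val (Option.some.inj h1)
    simp only [ix, Fin.val_last] at h3
    rw [Nat.mod_eq_of_lt (by omega)] at h3
    omega
  · have h1 := h j (by omega)
    have h2 : ix (2 * n) (2 * j + 1) = l := by
      apply Fin.ext; simp only [ix]; rw [Nat.mod_eq_of_lt (by omega)]; omega
    have h1' : σ.1 (some (ix (2 * n) (2 * j + 1))) = some (ix (2 * n) (2 * j)) := by
      rw [← h1, σ.2.inv]
    rw [h2, hback] at h1'
    have h3 := congrArg Fin.val (Option.some.inj h1')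
    simp only [ix, Fin.val_last] at h3
    rw [Nat.mod_eq_of_lt (by omega)] at h3
    omega

theorem std_unique {n : ℕ} (σ τ : Pat (2 * n + 1))
    (h : ∀ j, j < n → σ.1 (some (ix (2 * n) (2 * j))) = some (ix (2 * n) (2 * j + 1)))
    (h' : ∀ j, j < n → τ.1 (some (ix (2 * n) (2 * j))) = some (ix (2 * n) (2 * j + 1))) :
    σ = τ := by
  have hs := std_last σ h
  have ht := std_last τ h'
  apply Subtype.ext
  apply Equiv.ext
  intro v
  rcases v with _ | k
  · rw [show (none : Vx (2 * n + 1)) = σ.1 (some (Fin.last (2 * n))) from hs.symm, σ.2.inv, hs,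
      show (none : Vx (2 * n + 1)) = τ.1 (some (Fin.last (2 * n))) from ht.symm, τ.2.inv]
  · by_cases hk : k.val < 2 * n
    · rcases Nat.even_or_odd' k.val with ⟨j, hj | hj⟩
      · have h2 : ix (2 * n) (2 * j) = k := by
          apply Fin.ext; simp only [ix]; rw [Nat.mod_eq_of_lt (by omega)]; omega
        rw [← h2, h j (by omega), h' j (by omega)]
      · have h2 : ix (2 * n) (2 * j + 1) = k := by
          apply Fin.ext; simp only [ix]; rw [Nat.mod_eq_of_lt (by omega)]; omega
        have h3 := h j (by omega)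
        have h3' := h' j (by omega)
        rw [← h2, ← h3, σ.2.inv, h3, ← h3', τ.2.inv]
    · have h2 : k = Fin.last (2 * n) := by
        apply Fin.ext; simp only [Fin.val_last]; have := k.isLt; omega
      rw [h2, hs, ht]

/-- phase 2: every pattern with defect at the last strand can be sent to the base pattern -/
theorem phase2 (n : ℕ) : ∀ (d : ℕ) (σ : Pat (2 * n + 1)),
    σ.1 none = some (Fin.last (2 * n)) → (2 * n + 1) * (2 * n + 1) - len σ ≤ d →
    ∃ K w, IsWord (2 * n) K w ∧ w σ = base n := by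
  intro d
  induction d with
  | zero =>
    intro σ hd hlen
    by_cases hσ : σ = base n
    · exact ⟨0, id, IsWord.id, hσ⟩
    · obtain ⟨i, hi, hne, hd', hl, -⟩ := tri_step n σ hd hσ
      have h1 := len_le (E (2 * n) i σ)
      omega
  | succ d ih =>
    intro σ hd hlen
    by_cases hσ : σ = base n
    · exact ⟨0, id, IsWord.id, hσ⟩
    · obtain ⟨i, hi, hne, hd', hl, -⟩ := tri_step n σ hd hσ
      have h1 := len_le (E (2 * n) i σ)
      obtain ⟨K, w, hw, h⟩ := ih (E (2 * n) i σ) hd' (by omega)
      obtain ⟨K', hE⟩ := isWord_E (m := 2 * n) (by omega) i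
      exact ⟨_, _, isWord_comp hE hw, h⟩

end MK

open MK in
theorem exists_word (n : ℕ) : ∃ K w, IsWord (2 * n) K w ∧ ∀ σ, w σ = base n := by
  obtain ⟨K, w, hw, h⟩ := phase1 n n le_rfl
  have h1 := std_last (w (base n)) (h (base n))
  have h2 : (w (base n)).1 none = some (Fin.last (2 * n)) := by
    rw [← h1, (w (base n)).2.inv]
  obtain ⟨K', w', hw', h'⟩ := phase2 n _ (w (base n)) h2 le_rfl
  refine ⟨_, _, isWord_comp hw hw', ?_⟩
  intro σ
  simp only [Function.comp_apply]
  rw [std_unique (w σ) (w (base n)) (h σ) (h (base n)), h']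

/-! ### contraction -/

namespace MK

section norm
variable {X : Type*} [Fintype X] [DecidableEq X]

theorem push_id (v : X → ℂ) : push id v = v := by
  funext y
  simp [push]

theorem push_comp (f g : X → X) (v : X → ℂ) : push (f ∘ g) v = push f (push g v) := by
  funext y
  simp only [push, Function.comp_apply]
  have h1 : ∀ x, (if f x = y then ∑ z, (if g z = x then v z else 0) else 0)
      = ∑ z, (if g z = x then (if f (g z) = y then v z else 0) else 0) := by
    intro x
    split_ifs with h
    · refine Finset.sum_congr rfl fun z _ => ?_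
      split_ifs with h1 h2 h2
      · rfl
      · rw [h1] at h2; exact absurd h h2
      · rfl
    · symm
      apply Finset.sum_eq_zero
      intro z _
      split_ifs with h1 h2
      · rw [h1] at h2; exact absurd h2 h
      · rfl
      · rfl
  rw [Finset.sum_congr rfl fun x _ => h1 x, Finset.sum_comm]
  refine Finset.sum_congr rfl fun z _ => ?_
  simp

theorem push_add (f : X → X) (v w : X → ℂ) : push f (v + w) = push f v + push f w := by
  funext y
  simp only [push, Pi.add_apply]
  rw [← Finset.sum_add_distrib]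
  refine Finset.sum_congr rfl fun x _ => ?_
  split_ifs <;> simp

/-- the `ℓ¹` norm -/
noncomputable def N1 (v : X → ℂ) : ℝ := ∑ x, ‖v x‖

omit [DecidableEq X] in
theorem N1_nonneg (v : X → ℂ) : 0 ≤ N1 v := Finset.sum_nonneg fun _ _ => norm_nonneg _

omit [DecidableEq X] in
theorem N1_add (v w : X → ℂ) : N1 (v + w) ≤ N1 v + N1 w := by
  unfold N1
  rw [← Finset.sum_add_distrib]
  exact Finset.sum_le_sum fun x _ => norm_add_le _ _

omit [DecidableEq X] in
theorem N1_sum {ι : Type*} (s : Finset ι) (g : ι → X → ℂ) :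
    N1 (∑ i ∈ s, g i) ≤ ∑ i ∈ s, N1 (g i) := by
  classical
  induction s using Finset.induction_on with
  | empty => simp [N1]
  | insert i s hi ih =>
    rw [Finset.sum_insert hi, Finset.sum_insert hi]
    exact (N1_add _ _).trans (add_le_add le_rfl ih)

theorem N1_push (f : X → X) (v : X → ℂ) : N1 (push f v) ≤ N1 v := by
  unfold N1
  have h : ∀ y, ‖push f v y‖ ≤ push f (fun x => ‖v x‖) y := by
    intro y
    simp only [push]
    refine (norm_sum_le _ _).trans (Finset.sum_le_sum fun x _ => ?_)
    split_ifs <;> simp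
  exact (Finset.sum_le_sum fun y _ => h y).trans (le_of_eq (sum_push f _))

end norm

/-- the homogeneous transfer operator -/
noncomputable def TT (m : ℕ) (v : Pat (m + 1) → ℂ) : Pat (m + 1) → ℂ :=
  ∑ c : Fin (m + 1) → Bool, push (Tc m c) v

theorem TT_add (m : ℕ) (v w : Pat (m + 1) → ℂ) : TT m (v + w) = TT m v + TT m w := by
  simp only [TT, push_add, Finset.sum_add_distrib]

theorem N1_TT (m : ℕ) (v : Pat (m + 1) → ℂ) : N1 (TT m v) ≤ 2 ^ (m + 1) * N1 v := by
  refine (N1_sum _ _).trans ?_
  refine (Finset.sum_le_sum fun c _ => N1_push _ _).trans ?_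
  simp [Finset.card_univ]

theorem TT_iter (m K : ℕ) (w : Pat (m + 1) → Pat (m + 1)) (hw : IsWord m K w)
    (v : Pat (m + 1) → ℂ) :
    ∃ r, (TT m)^[K] v = push w v + r ∧ N1 r ≤ ((2 ^ (m + 1)) ^ K - 1) * N1 v := by
  classical
  induction hw with
  | id => exact ⟨0, by simp [push_id], by simp [N1]⟩
  | step c w K hw ih =>
    obtain ⟨r, hr, hN⟩ := ih
    refine ⟨(∑ c' ∈ Finset.univ.erase c, push (Tc m c') (push w v)) + TT m r, ?_, ?_⟩
    · rw [Function.iterate_succ_apply', hr, TT_add, push_comp, ← add_assoc]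
      congr 1
      rw [TT, ← Finset.add_sum_erase _ _ (Finset.mem_univ c)]
    · refine (N1_add _ _).trans ?_
      have h1 : N1 (∑ c' ∈ Finset.univ.erase c, push (Tc m c') (push w v))
          ≤ (2 ^ (m + 1) - 1) * N1 v := by
        refine (N1_sum _ _).trans ?_
        refine (Finset.sum_le_sum fun c' _ => (N1_push _ _).trans (N1_push _ _)).trans ?_
        rw [Finset.sum_const, Finset.card_erase_of_mem (Finset.mem_univ c), nsmul_eq_mul]
        refine mul_le_mul_of_nonneg_right ?_ (N1_nonneg v)
        rw [Nat.cast_sub]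
        · simp [Finset.card_univ]
        · simp [Finset.card_univ, Nat.one_le_two_pow]
      have h2 : N1 (TT m r) ≤ 2 ^ (m + 1) * (((2 ^ (m + 1)) ^ K - 1) * N1 v) :=
        (N1_TT m r).trans (mul_le_mul_of_nonneg_left hN (by positivity))
      calc _ ≤ (2 ^ (m + 1) - 1) * N1 v + 2 ^ (m + 1) * (((2 ^ (m + 1)) ^ K - 1) * N1 v) :=
            add_le_add h1 h2
        _ = _ := by ring

end MK

open MK in
theorem markov_unique (n : ℕ) (v : Pat (2 * n + 1) → ℂ)
    (h : ∀ σ, ∑ c : Fin (2 * n + 1) → Bool, push (Tc (2 * n) c) v σ = 2 ^ (2 * n + 1) * v σ)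
    (hs : ∑ σ, v σ = 0) : v = 0 := by
  obtain ⟨K, w, hw, hbase⟩ := exists_word n
  have hT : ∀ t : ℂ, TT (2 * n) (t • v) = (2 ^ (2 * n + 1) * t) • v := by
    intro t
    funext σ
    have h1 : ∀ c : Fin (2 * n + 1) → Bool, push (Tc (2 * n) c) (t • v) σ
        = t * push (Tc (2 * n) c) v σ := by
      intro c
      simp only [push, Finset.mul_sum, Pi.smul_apply, smul_eq_mul, mul_ite, mul_zero]
    simp only [TT, Finset.sum_apply, h1, ← Finset.mul_sum, h, Pi.smul_apply, smul_eq_mul]
    ring
  have hTK : (TT (2 * n))^[K] v = ((2 ^ (2 * n + 1)) ^ K : ℂ) • v := by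
    have : ∀ k, (TT (2 * n))^[k] v = ((2 ^ (2 * n + 1)) ^ k : ℂ) • v := by
      intro k
      induction k with
      | zero => simp
      | succ k ih =>
        rw [Function.iterate_succ_apply', ih, hT]
        congr 1
        ring
    exact this K
  obtain ⟨r, hr, hN⟩ := TT_iter (2 * n) K w hw v
  have hp : push w v = 0 := by
    funext y
    simp only [push, hbase]
    split_ifs with hy
    · simpa using hs
    · simp
  rw [hp, zero_add, hTK] at hr
  have h1 : N1 r = (2 ^ (2 * n + 1)) ^ K * N1 v := by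
    rw [← hr]
    simp only [N1, Pi.smul_apply, smul_eq_mul, norm_mul, ← Finset.mul_sum]
    congr 1
    simp
  rw [h1] at hN
  have h2 : N1 v ≤ 0 := by nlinarith
  have h3 : N1 v = 0 := le_antisymm h2 (N1_nonneg v)
  funext x
  have h4 := (Finset.sum_eq_zero_iff_of_nonneg (fun x _ => norm_nonneg (v x))).1 h3 x
    (Finset.mem_univ x)
  simpa using h4

namespace MK

/-- real version of the uniqueness -/
theorem markov_unique_real (n : ℕ) (v : Pat (2 * n + 1) → ℝ)
    (h : ∀ σ, ∑ c : Fin (2 * n + 1) → Bool, push (Tc (2 * n) c) v σ = 2 ^ (2 * n + 1) * v σ)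
    (hs : ∑ σ, v σ = 0) : v = 0 := by
  have h1 := markov_unique n (fun σ => (v σ : ℂ)) ?_ ?_
  · funext σ
    have := congrFun h1 σ
    simpa using this
  · intro σ
    have h2 := congrArg (fun x : ℝ => (x : ℂ)) (h σ)
    simp only [push] at h2 ⊢
    push_cast at h2
    simp only [apply_ite (fun x : ℝ => (x : ℂ)), Complex.ofReal_zero] at h2
    exact h2
  · have h2 := congrArg (fun x : ℝ => (x : ℂ)) hs
    push_cast at h2
    exact h2

/-- the real transfer operator as a linear map -/
noncomputable def TL (m : ℕ) : (Pat (m + 1) → ℝ) →ₗ[ℝ] (Pat (m + 1) → ℝ) where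
  toFun v := fun σ => ∑ c : Fin (m + 1) → Bool, push (Tc m c) v σ
  map_add' v w := by
    funext σ
    simp only [push, Pi.add_apply, ← Finset.sum_add_distrib]
    refine Finset.sum_congr rfl fun c _ => Finset.sum_congr rfl fun x _ => ?_
    split_ifs <;> simp
  map_smul' t v := by
    funext σ
    simp only [push, Pi.smul_apply, smul_eq_mul, RingHom.id_apply, Finset.mul_sum, mul_ite,
      mul_zero]

theorem TL_apply (m : ℕ) (v : Pat (m + 1) → ℝ) (σ : Pat (m + 1)) :
    TL m v σ = ∑ c : Fin (m + 1) → Bool, push (Tc m c) v σ := rfl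

theorem sum_TL (m : ℕ) (v : Pat (m + 1) → ℝ) : ∑ σ, TL m v σ = 2 ^ (m + 1) * ∑ σ, v σ := by
  simp only [TL_apply]
  rw [Finset.sum_comm]
  simp only [sum_push]
  simp [Finset.card_univ]

theorem push_mono {X : Type*} [Fintype X] [DecidableEq X] (f : X → X) {v w : X → ℝ}
    (h : ∀ x, v x ≤ w x) (y : X) : push f v y ≤ push f w y := by
  simp only [push]
  refine Finset.sum_le_sum fun x _ => ?_
  split_ifs
  · exact h x
  · exact le_rfl

theorem push_nonneg {X : Type*} [Fintype X] [DecidableEq X] (f : X → X) {v : X → ℝ}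
    (h : ∀ x, 0 ≤ v x) (y : X) : 0 ≤ push f v y := by
  simp only [push]
  refine Finset.sum_nonneg fun x _ => ?_
  split_ifs
  · exact h x
  · exact le_rfl

theorem TL_nonneg (m : ℕ) {v : Pat (m + 1) → ℝ} (h : ∀ x, 0 ≤ v x) (y : Pat (m + 1)) :
    0 ≤ TL m v y := by
  rw [TL_apply]
  exact Finset.sum_nonneg fun c _ => push_nonneg _ h y

theorem TL_mono (m : ℕ) {v w : Pat (m + 1) → ℝ} (h : ∀ x, v x ≤ w x) (y : Pat (m + 1)) :
    TL m v y ≤ TL m w y := by
  rw [TL_apply, TL_apply]
  exact Finset.sum_le_sum fun c _ => push_mono _ h y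

theorem push_comp' {X : Type*} [Fintype X] [DecidableEq X] (f g : X → X) (v : X → ℝ) :
    push (f ∘ g) v = push f (push g v) := by
  funext y
  simp only [push, Function.comp_apply]
  have h1 : ∀ x, (if f x = y then ∑ z, (if g z = x then v z else 0) else 0)
      = ∑ z, (if g z = x then (if f (g z) = y then v z else 0) else 0) := by
    intro x
    split_ifs with h
    · refine Finset.sum_congr rfl fun z _ => ?_
      split_ifs with h1 h2 h2
      · rfl
      · rw [h1] at h2; exact absurd h h2
      · rfl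
    · symm
      apply Finset.sum_eq_zero
      intro z _
      split_ifs with h1 h2
      · rw [h1] at h2; exact absurd h2 h
      · rfl
      · rfl
  rw [Finset.sum_congr rfl fun x _ => h1 x, Finset.sum_comm]
  refine Finset.sum_congr rfl fun z _ => ?_
  simp

theorem TL_iter_ge (m K : ℕ) (w : Pat (m + 1) → Pat (m + 1)) (hw : IsWord m K w)
    (v : Pat (m + 1) → ℝ) (hv : ∀ x, 0 ≤ v x) :
    (∀ x, 0 ≤ ((TL m)^[K] v) x) ∧ ∀ y, push w v y ≤ ((TL m)^[K] v) y := by
  induction hw with
  | id =>
    refine ⟨hv, fun y => ?_⟩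
    simp [push]
  | step c w K hw ih =>
    refine ⟨fun x => ?_, fun y => ?_⟩
    · rw [Function.iterate_succ_apply']
      exact TL_nonneg m ih.1 x
    · rw [Function.iterate_succ_apply', push_comp', TL_apply]
      refine le_trans (push_mono _ ih.2 y) ?_
      exact Finset.single_le_sum (f := fun c => push (Tc m c) ((TL m)^[K] v) y)
        (fun c' _ => push_nonneg _ ih.1 y) (Finset.mem_univ c)

/-- a non-zero eigenvector -/
theorem exists_eigen (n : ℕ) : ∃ v : Pat (2 * n + 1) → ℝ, v ≠ 0 ∧
    TL (2 * n) v = (2 : ℝ) ^ (2 * n + 1) • v := by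
  by_contra hcon
  push Not at hcon
  set L : (Pat (2 * n + 1) → ℝ) →ₗ[ℝ] (Pat (2 * n + 1) → ℝ) :=
    TL (2 * n) - (2 : ℝ) ^ (2 * n + 1) • LinearMap.id with hL
  have hinj : Function.Injective L := by
    rw [← LinearMap.ker_eq_bot, LinearMap.ker_eq_bot']
    intro v hv
    by_contra hne
    apply hcon v hne
    have : TL (2 * n) v - (2 : ℝ) ^ (2 * n + 1) • v = 0 := by simpa [hL] using hv
    exact sub_eq_zero.1 this
  have hsurj : Function.Surjective L := LinearMap.injective_iff_surjective.1 hinj
  obtain ⟨v, hv⟩ := hsurj (Pi.single (base n) 1)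
  have h1 : ∑ σ, L v σ = 0 := by
    simp only [hL, LinearMap.sub_apply, LinearMap.smul_apply, LinearMap.id_apply, Pi.sub_apply,
      Pi.smul_apply, smul_eq_mul, Finset.sum_sub_distrib, sum_TL, Finset.mul_sum]
    ring
  rw [hv] at h1
  simp [Finset.sum_pi_single'] at h1

end MK

open MK in
theorem markov_exists (n : ℕ) : ∃ μ : Pat (2 * n + 1) → ℝ, (∀ σ, 0 ≤ μ σ) ∧ ∑ σ, μ σ = 1 ∧
    (∀ σ, ∑ c : Fin (2 * n + 1) → Bool, push (Tc (2 * n) c) μ σ = 2 ^ (2 * n + 1) * μ σ) ∧
    0 < μ (base n) ∧ ∀ σ, μ (rot (2 * n) σ) = μ σ := by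
  obtain ⟨v, hv0, hv⟩ := exists_eigen n
  have huniq : ∀ u : Pat (2 * n + 1) → ℝ, TL (2 * n) u = (2 : ℝ) ^ (2 * n + 1) • u →
      ∑ σ, u σ = 0 → u = 0 := by
    intro u hu hs
    refine markov_unique_real n u (fun σ => ?_) hs
    have := congrFun hu σ
    simpa [TL_apply] using this
  have hvs : ∑ σ, v σ ≠ 0 := fun h => hv0 (huniq v hv h)
  -- normalise
  set u : Pat (2 * n + 1) → ℝ := (∑ σ, v σ)⁻¹ • v with hu
  have hu1 : ∑ σ, u σ = 1 := by
    simp only [hu, Pi.smul_apply, smul_eq_mul, ← Finset.mul_sum]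
    exact inv_mul_cancel₀ hvs
  have huT : TL (2 * n) u = (2 : ℝ) ^ (2 * n + 1) • u := by
    rw [hu, map_smul, hv, smul_comm]
  -- absolute values
  set a : Pat (2 * n + 1) → ℝ := fun σ => |u σ| with ha
  have haT_ge : ∀ σ, (2 : ℝ) ^ (2 * n + 1) * a σ ≤ TL (2 * n) a σ := by
    intro σ
    have h1 : (2 : ℝ) ^ (2 * n + 1) * a σ = |TL (2 * n) u σ| := by
      rw [huT]
      simp only [ha, Pi.smul_apply, smul_eq_mul, abs_mul]
      rw [abs_of_pos (show (0 : ℝ) < 2 ^ (2 * n + 1) by positivity)]
    rw [h1, TL_apply, TL_apply]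
    refine (Finset.abs_sum_le_sum_abs _ _).trans (Finset.sum_le_sum fun c _ => ?_)
    simp only [push]
    refine (Finset.abs_sum_le_sum_abs _ _).trans (Finset.sum_le_sum fun x _ => ?_)
    split_ifs <;> simp [ha]
  have haT : TL (2 * n) a = (2 : ℝ) ^ (2 * n + 1) • a := by
    have hsum : ∑ σ, (TL (2 * n) a σ - (2 : ℝ) ^ (2 * n + 1) * a σ) = 0 := by
      rw [Finset.sum_sub_distrib, sum_TL, ← Finset.mul_sum, sub_self]
    have h0 := (Finset.sum_eq_zero_iff_of_nonneg
      (fun σ _ => sub_nonneg.2 (haT_ge σ))).1 hsum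
    funext σ
    have := h0 σ (Finset.mem_univ σ)
    simp only [Pi.smul_apply, smul_eq_mul]
    linarith
  have hau : a = (∑ σ, a σ) • u := by
    have h1 : a - (∑ σ, a σ) • u = 0 := by
      refine huniq _ ?_ ?_
      · rw [map_sub, map_smul, haT, huT, smul_sub, smul_comm]
      · simp only [Pi.sub_apply, Pi.smul_apply, smul_eq_mul, Finset.sum_sub_distrib,
          ← Finset.mul_sum, hu1]
        ring
    exact sub_eq_zero.1 h1
  have hapos : 0 < ∑ σ, a σ := by
    have h1 : (0 : ℝ) ≤ ∑ σ, a σ := Finset.sum_nonneg fun σ _ => abs_nonneg _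
    rcases h1.eq_or_lt with h2 | h2
    · exfalso
      rw [← h2, zero_smul] at hau
      have h3 : ∀ σ, u σ = 0 := by
        intro σ
        have := congrFun hau σ
        simpa [ha] using this
      simp [h3] at hu1
    · exact h2
  have hunn : ∀ σ, 0 ≤ u σ := by
    intro σ
    have h1 := congrFun hau σ
    simp only [Pi.smul_apply, smul_eq_mul] at h1
    have h2 : 0 ≤ a σ := abs_nonneg _
    rw [h1] at h2
    exact nonneg_of_mul_nonneg_right h2 hapos
  refine ⟨u, hunn, hu1, ?_, ?_, ?_⟩
  · intro σ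
    have := congrFun huT σ
    simpa [TL_apply] using this
  · obtain ⟨K, w, hw, hbase⟩ := exists_word n
    have h1 := (TL_iter_ge (2 * n) K w hw u hunn).2 (base n)
    have h2 : push w u (base n) = 1 := by
      simp [push, hbase, hu1]
    have h3 : ∀ k, (TL (2 * n))^[k] u = ((2 : ℝ) ^ (2 * n + 1)) ^ k • u := by
      intro k
      induction k with
      | zero => simp
      | succ k ih =>
        rw [Function.iterate_succ_apply', ih, map_smul, huT, smul_smul]
        congr 1
    rw [h2, h3] at h1
    simp only [Pi.smul_apply, smul_eq_mul] at h1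
    by_contra hneg
    push Not at hneg
    have h4 : ((2 : ℝ) ^ (2 * n + 1)) ^ K * u (base n) ≤ 0 :=
      mul_nonpos_of_nonneg_of_nonpos (by positivity) hneg
    linarith
  · have hrot : (fun σ => u (rot (2 * n) σ)) - u = 0 := by
      refine huniq _ ?_ ?_
      · rw [map_sub, huT, smul_sub]
        congr 1
        funext σ
        simp only [TL_apply, Pi.smul_apply, smul_eq_mul]
        have h1 : ∀ c : Fin (2 * n + 1) → Bool,
            push (Tc (2 * n) c) (fun σ => u (rot (2 * n) σ)) σ
            = push (Tc (2 * n) (fun j => c ((finRotate (2 * n + 1)).symm j))) u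
                (rot (2 * n) σ) := by
          intro c
          simp only [push]
          rw [← Equiv.sum_comp (rotP (2 * n)) (fun x => if Tc (2 * n)
            (fun j => c ((finRotate (2 * n + 1)).symm j)) x = rot (2 * n) σ then u x else 0)]
          refine Finset.sum_congr rfl fun x _ => ?_
          have h2 : (rotP (2 * n)) x = rot (2 * n) x := rfl
          rw [h2, Tc_rot]
          have h3 : (rot (2 * n) (Tc (2 * n) c x) = rot (2 * n) σ) ↔ Tc (2 * n) c x = σ :=
            (rotP (2 * n)).injective.eq_iff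
          simp only [h3]
        rw [Finset.sum_congr rfl fun c _ => h1 c]
        have h4 := congrFun huT (rot (2 * n) σ)
        simp only [TL_apply, Pi.smul_apply, smul_eq_mul] at h4
        rw [← h4]
        exact (Equiv.arrowCongr (finRotate (2 * n + 1)) (Equiv.refl Bool)).sum_comp
          (fun c => push (Tc (2 * n) c) u (rot (2 * n) σ))
      · simp only [Pi.sub_apply, Finset.sum_sub_distrib]
        rw [sub_eq_zero]
        exact Equiv.sum_comp (rotP (2 * n)) u
    intro σ
    have := congrFun hrot σ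
    simp only [Pi.sub_apply, Pi.zero_apply] at this
    linarith

end Pool.Agent.H974R3
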