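import Pool.Agent.H974R3.Rel

/-!
# Pairings of patterns (module G, part 1)
-/

namespace Pool.Agent.H974R3
open Equiv

section join
variable {V : Type*} [DecidableEq V]

theorem pjoin_eq {a b : V} {s : Perm V} (h : s a = b) : join a b s = s := by
  subst h
  ext v
  simp [join]

theorem pjoin_left {a b : V} {s : Perm V} (hab : a ≠ b) (hf : s a ≠ a) : join a b s a = b := by
  by_cases h : s a = b
  · rw [pjoin_eq h, h]
  · simp only [join, Perm.mul_apply]
    rw [swap_apply_of_ne_of_ne hab (Ne.symm hf), swap_apply_right]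

theorem pjoin_right {a b : V} {s : Perm V} (hi : ∀ v, s (s v) = v) (hab : a ≠ b)
    (hf : s a ≠ a) : join a b s b = a := by
  simp only [join, Perm.mul_apply]
  rw [swap_apply_left, hi, swap_apply_of_ne_of_ne hab (Ne.symm hf)]

theorem pjoin_sa {a b : V} {s : Perm V} (_hi : ∀ v, s (s v) = v) (hab : a ≠ b)
    (hf : ∀ v, s v ≠ v) (_h : s a ≠ b) : join a b s (s a) = s b := by
  simp only [join, Perm.mul_apply]
  rw [swap_apply_right, swap_apply_of_ne_of_ne (hf b)]
  intro h2
  exact hab (s.injective h2.symm)

theorem pjoin_sb {a b : V} {s : Perm V} (hi : ∀ v, s (s v) = v) (hab : a ≠ b)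
    (hf : ∀ v, s v ≠ v) (_h : s a ≠ b) : join a b s (s b) = s a := by
  simp only [join, Perm.mul_apply]
  rw [swap_apply_of_ne_of_ne (hf b), hi, swap_apply_left]
  intro h2
  exact hab (s.injective h2.symm)

theorem pjoin_other {a b v : V} {s : Perm V} (hi : ∀ v, s (s v) = v) (h1 : v ≠ a) (h2 : v ≠ b)
    (h3 : v ≠ s a) (h4 : v ≠ s b) : join a b s v = s v := by
  simp only [join, Perm.mul_apply]
  rw [swap_apply_of_ne_of_ne h2 h3, swap_apply_of_ne_of_ne]
  · intro h5
    apply h4
    rw [← h5, hi]
  · intro h5
    exact h1 (s.injective h5)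

omit [DecidableEq V] in
theorem pinv_apply (f : Perm V) (v : V) : f⁻¹ (f v) = v := f.symm_apply_apply v

omit [DecidableEq V] in
theorem Conn.symm' {s t : V → V} {x y : V} (h : Conn s t x y) : Conn t s x y :=
  fun g h1 h2 => h g h2 h1

theorem conn_join {a b x y : V} {s t : Perm V} (hsi : ∀ v, s (s v) = v) (hsf : ∀ v, s v ≠ v)
    (hti : ∀ v, t (t v) = v) (htf : ∀ v, t v ≠ v) (hab : a ≠ b)
    (hxa : x ≠ a) (hxb : x ≠ b) (hya : y ≠ a) (hyb : y ≠ b)
    (hc : Conn (join a b s) t x y) : Conn s (join a b t) x y := by
  intro h h1 h2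
  have hjta : join a b t a = b := pjoin_left hab (htf a)
  have hh : h a = h b := by rw [← h2 a, hjta]
  -- values of the new function at a and b
  by_cases hta : t a = b
  · have htb : t b = a := by rw [← hta, hti]
    have e : join a b t = t := pjoin_eq hta
    rw [e] at h2
    have key := hc (fun v => if v = a ∨ v = b then false else h v) ?_ ?_
    · simpa [hxa, hxb, hya, hyb] using key
    · intro v
      by_cases hva : v = a
      · subst hva
        rw [pjoin_left hab (hsf _)]
        simp
      by_cases hvb : v = b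
      · subst hvb
        rw [pjoin_right hsi hab (hsf _)]
        simp
      by_cases hsab : s a = b
      · have hsb : s b = a := by rw [← hsab, hsi]
        rw [pjoin_eq hsab]
        have e1 : s v ≠ a := fun e => hvb (s.injective (e.trans hsb.symm))
        have e2 : s v ≠ b := fun e => hva (s.injective (e.trans hsab.symm))
        simp [hva, hvb, e1, e2, h1 v]
      · by_cases h3 : v = s a
        · subst h3
          rw [pjoin_sa hsi hab hsf hsab]
          have e1 : s b ≠ a := fun e => hsab (by rw [← e, hsi])
          have e2 : s b ≠ b := hsf b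
          simp only [e1, e2, hva, hvb, or_self, if_false]
          rw [h1, h1, hh]
        by_cases h4 : v = s b
        · subst h4
          rw [pjoin_sb hsi hab hsf hsab]
          have e1 : s a ≠ a := hsf a
          simp only [e1, hsab, hva, hvb, or_self, if_false]
          rw [h1, h1, hh]
        rw [pjoin_other hsi hva hvb h3 h4]
        have e1 : s v ≠ a := fun e => h3 (by rw [← e, hsi])
        have e2 : s v ≠ b := fun e => h4 (by rw [← e, hsi])
        simp [hva, hvb, e1, e2, h1 v]
    · intro v
      by_cases hva : v = a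
      · subst hva; simp [hta]
      by_cases hvb : v = b
      · subst hvb; simp [htb]
      have e1 : t v ≠ a := fun e => hvb (t.injective (e.trans htb.symm))
      have e2 : t v ≠ b := fun e => hva (t.injective (e.trans hta.symm))
      simp [hva, hvb, e1, e2, h2 v]
  · have htb : t b ≠ a := fun e => hta (by rw [← e, hti])
    have hh2 : h (t a) = h (t b) := by
      rw [← h2 (t a), pjoin_sa hti hab htf hta]
    have key := hc (fun v => if v = a ∨ v = b then h (t a) else h v) ?_ ?_
    · simpa [hxa, hxb, hya, hyb] using key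
    · intro v
      by_cases hva : v = a
      · subst hva
        rw [pjoin_left hab (hsf _)]
        simp
      by_cases hvb : v = b
      · subst hvb
        rw [pjoin_right hsi hab (hsf _)]
        simp
      by_cases hsab : s a = b
      · have hsb : s b = a := by rw [← hsab, hsi]
        rw [pjoin_eq hsab]
        have e1 : s v ≠ a := fun e => hvb (s.injective (e.trans hsb.symm))
        have e2 : s v ≠ b := fun e => hva (s.injective (e.trans hsab.symm))
        simp [hva, hvb, e1, e2, h1 v]
      · by_cases h3 : v = s a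
        · subst h3
          rw [pjoin_sa hsi hab hsf hsab]
          have e1 : s b ≠ a := fun e => hsab (by rw [← e, hsi])
          have e2 : s b ≠ b := hsf b
          simp only [e1, e2, hva, hvb, or_self, if_false]
          rw [h1, h1, hh]
        by_cases h4 : v = s b
        · subst h4
          rw [pjoin_sb hsi hab hsf hsab]
          have e1 : s a ≠ a := hsf a
          simp only [e1, hsab, hva, hvb, or_self, if_false]
          rw [h1, h1, hh]
        rw [pjoin_other hsi hva hvb h3 h4]
        have e1 : s v ≠ a := fun e => h3 (by rw [← e, hsi])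
        have e2 : s v ≠ b := fun e => h4 (by rw [← e, hsi])
        simp [hva, hvb, e1, e2, h1 v]
    · intro v
      by_cases hva : v = a
      · subst hva
        simp [htf v, hta]
      by_cases hvb : v = b
      · subst hvb
        simp [htf v, htb, hh2]
      by_cases h3 : v = t a
      · subst h3
        rw [hti]
        simp [htf a, hta]
      by_cases h4 : v = t b
      · subst h4
        rw [hti]
        simp [htf b, htb, hh2]
      have e1 : t v ≠ a := fun e => h3 (by rw [← e, hti])
      have e2 : t v ≠ b := fun e => h4 (by rw [← e, hti])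
      have e3 := h2 v
      rw [pjoin_other hti hva hvb h3 h4] at e3
      simp [hva, hvb, e1, e2, e3]

end join

theorem pr_congr {L L' : ℕ} {j : Fin L} {j' : Fin L'} {σ τ : Pat L} {σ' τ' : Pat L'}
    (h : Conn σ.1 τ.1 (some j) none ↔ Conn σ'.1 τ'.1 (some j') none) :
    pr j σ τ = pr j' σ' τ' := by
  unfold pr
  by_cases hc : Conn σ.1 τ.1 (some j) none
  · rw [if_pos hc, if_pos (h.1 hc)]
  · rw [if_neg hc, if_neg (fun h' => hc (h.2 h'))]

theorem pr_E {m : ℕ} (i : ℕ) (j : Fin (m + 1)) (h1 : ix m i ≠ j) (h2 : ix m (i + 1) ≠ j)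
    (σ τ : Pat (m + 1)) : pr j (E m i σ) τ = pr j σ (E m i τ) := by
  have hm : m ≠ 0 := by
    rintro rfl
    exact h1 (Fin.ext (by have := (ix 0 i).2; have := j.2; omega))
  have hab : (some (ix m i) : Vx (m + 1)) ≠ some (ix m (i + 1)) := by
    intro h
    rw [Option.some.injEq] at h
    have h3 := congrArg Fin.val h
    simp only [ix] at h3
    have h4 : i % (m + 1) < m + 1 := Nat.mod_lt _ (by omega)
    rw [Nat.add_mod, Nat.mod_eq_of_lt (show 1 < m + 1 by omega)] at h3
    by_cases h5 : i % (m + 1) = m
    · rw [h5, Nat.mod_self] at h3; omega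
    · rw [Nat.mod_eq_of_lt (show i % (m + 1) + 1 < m + 1 by omega)] at h3; omega
  have hja : (some j : Vx (m + 1)) ≠ some (ix m i) := by
    simpa using Ne.symm h1
  have hjb : (some j : Vx (m + 1)) ≠ some (ix m (i + 1)) := by
    simpa using Ne.symm h2
  apply pr_congr
  rw [E_val, E_val]
  constructor
  · intro hc
    exact conn_join σ.2.inv σ.2.nofix τ.2.inv τ.2.nofix hab hja hjb (by simp) (by simp) hc
  · intro hc
    exact (conn_join τ.2.inv τ.2.nofix σ.2.inv σ.2.nofix hab hja hjb (by simp) (by simp)
      hc.symm').symm'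

theorem pr_ins_E0 {m : ℕ} (σ : Pat (m + 1)) (τ : Pat (m + 3)) :
    pr 0 (ins σ) (E (m + 2) 0 τ) = 0 := by
  unfold pr
  rw [if_neg]
  intro hc
  have e0 : ix (m + 2) 0 = (0 : Fin (m + 3)) := by
    ext; simp [ix]
  have e1 : ix (m + 2) (0 + 1) = (1 : Fin (m + 3)) := by
    ext
    simp only [ix, Fin.val_one]
    exact Nat.mod_eq_of_lt (by omega)
  have h01 : (0 : Fin (m + 3)) ≠ 1 := by
    intro h
    have := congrArg Fin.val h
    simp at this
  have hab : (some 0 : Vx (m + 3)) ≠ some 1 := by simpa using h01
  have hE : (E (m + 2) 0 τ).1 = join (some 0) (some 1) τ.1 := by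
    rw [E_val, e0, e1]
  have hE0 : (E (m + 2) 0 τ).1 (some 0) = some 1 := by
    rw [hE]; exact pjoin_left hab (τ.2.nofix _)
  have hE1 : (E (m + 2) 0 τ).1 (some 1) = some 0 := by
    rw [hE]; exact pjoin_right τ.2.inv hab (τ.2.nofix _)
  have hI0 : (ins σ).1 (some 0) = some 1 := rfl
  have hI1 : (ins σ).1 (some 1) = some 0 := rfl
  have gen : ∀ ρ : Perm (Vx (m + 3)), ρ (some 0) = some 1 → ρ (some 1) = some 0 →
      ∀ v, (decide (ρ v = some 0 ∨ ρ v = some 1) : Bool) = decide (v = some 0 ∨ v = some 1) := by
    intro ρ h0 h1 v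
    rw [decide_eq_decide]
    constructor
    · rintro (h | h)
      · right; exact ρ.injective (h.trans h1.symm)
      · left; exact ρ.injective (h.trans h0.symm)
    · rintro (h | h)
      · subst h; right; exact h0
      · subst h; left; exact h1
  have key := hc (fun v => decide (v = some 0 ∨ v = some 1)) (gen _ hI0 hI1) (gen _ hE0 hE1)
  simp at key

theorem pr_rot {m : ℕ} (j : Fin (m + 1)) (σ τ : Pat (m + 1)) :
    pr (finRotate (m + 1) j) (rot m σ) (rot m τ) = pr j σ τ := by
  apply pr_congr
  rw [rot_val, rot_val]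
  have hj : rotV m (some j) = some (finRotate (m + 1) j) := rfl
  have hn : rotV m none = none := rfl
  have hj' : (rotV m)⁻¹ (some (finRotate (m + 1) j)) = some j := by
    rw [← hj, pinv_apply]
  have hn' : (rotV m)⁻¹ none = none := by
    conv_lhs => rw [← hn]
    rw [pinv_apply]
  constructor
  · intro hc h h1 h2
    have key := hc (fun v => h ((rotV m)⁻¹ v)) (fun v => ?_) (fun v => ?_)
    · simpa only [hj', hn'] using key
    · simp only [Perm.mul_apply, pinv_apply, h1]
    · simp only [Perm.mul_apply, pinv_apply, h2]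
  · intro hc h h1 h2
    have key := hc (fun v => h (rotV m v)) (fun v => ?_) (fun v => ?_)
    · simpa only [hj, hn] using key
    · have := h1 (rotV m v)
      simpa only [Perm.mul_apply, pinv_apply] using this
    · have := h2 (rotV m v)
      simpa only [Perm.mul_apply, pinv_apply] using this

theorem pr_one {m : ℕ} (σ : Pat (m + 1)) (τ : Pat (m + 3)) :
    pr 1 (ins σ) τ = pr 0 (ins σ) τ := by
  apply pr_congr
  have hI0 : (ins σ).1 (some 0) = some 1 := rfl
  constructor
  · intro hc h h1 h2
    rw [← hc h h1 h2, ← hI0, h1]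
  · intro hc h h1 h2
    rw [← hc h h1 h2, ← hI0, h1]

theorem sum_pr {m : ℕ} (σ τ : Pat (m + 1)) : ∃ j, pr j σ τ = 1 := by
  rcases hj : σ.1 none with _ | j
  · exact absurd hj (σ.2.nofix none)
  · refine ⟨j, ?_⟩
    unfold pr
    rw [if_pos]
    intro h h1 h2
    rw [← hj, h1]

end Pool.Agent.H974R3
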