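import Pool.Agent.H974R3.Defs

/-!
# Module A, part 1: basic relations of the operations on patterns
-/

set_option autoImplicit false
set_option maxHeartbeats 400000

namespace Pool.Agent.H974R3
open Equiv

/-! ### permutations -/

theorem rel_swap_conj {α : Type*} [DecidableEq α] (g : Perm α) (a b : α) :
    g * swap a b * g⁻¹ = swap (g a) (g b) := by
  rw [Equiv.mul_swap_eq_swap_mul, mul_assoc, mul_inv_cancel, mul_one]

theorem rel_join_conj {α : Type*} [DecidableEq α] (g : Perm α) (a b : α) (s : Perm α) :
    g * join a b s * g⁻¹ = join (g a) (g b) (g * s * g⁻¹) := by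
  unfold join
  have h1 : (g * s * g⁻¹) (g a) = g (s a) := by simp
  rw [h1, ← rel_swap_conj g b (s a)]
  group

/-- evaluation of `join` -/
theorem rel_join_apply {α : Type*} [DecidableEq α] (a b : α) (s : Perm α)
    (inv : ∀ v, s (s v) = v) (nofix : ∀ v, s v ≠ v) (hab : a ≠ b) (v : α) :
    join a b s v = if v = a then b else if v = b then a else
      if v = s a then s b else if v = s b then s a else s v := by
  have ha := nofix a
  have hb := nofix b
  have hiff : s a = b ↔ s b = a := by
    constructor
    · intro h; rw [← h, inv]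
    · intro h; rw [← h, inv]
  have hne : s a ≠ s b := fun h => hab (s.injective h)
  unfold join
  simp only [Equiv.Perm.mul_apply]
  by_cases hsab : s a = b
  · have hsba : s b = a := hiff.1 hsab
    rw [hsab, swap_self]
    simp only [Equiv.refl_apply]
    split_ifs with h1 h2 h3
    · rw [h1, hsab]
    · rw [h2, hsba]
    · exact absurd (h3.trans hsba) h1
    · rfl
  · have hsba : s b ≠ a := fun h => hsab (hiff.2 h)
    by_cases h1 : v = a
    · subst h1
      rw [if_pos rfl, swap_apply_of_ne_of_ne hab (Ne.symm ha), swap_apply_right]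
    · rw [if_neg h1]
      by_cases h2 : v = b
      · subst h2
        rw [if_pos rfl, swap_apply_left, inv, swap_apply_of_ne_of_ne hab (Ne.symm ha)]
      · rw [if_neg h2]
        by_cases h3 : v = s a
        · subst h3
          rw [if_pos rfl, swap_apply_right, swap_apply_of_ne_of_ne hb (Ne.symm hne)]
        · rw [if_neg h3, swap_apply_of_ne_of_ne h2 h3]
          by_cases h4 : v = s b
          · subst h4
            rw [if_pos rfl, inv, swap_apply_left]
          · rw [if_neg h4, swap_apply_of_ne_of_ne]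
            · intro h; exact h4 (by rw [← h, inv])
            · intro h; exact h1 (s.injective h)

theorem rel_conj_inv {α : Type*} (g s : Perm α) (inv : ∀ v, s (s v) = v) (v : α) :
    (g * s * g⁻¹) ((g * s * g⁻¹) v) = v := by
  simp [Equiv.Perm.mul_apply, inv]

theorem rel_conj_nofix {α : Type*} (g s : Perm α) (nofix : ∀ v, s v ≠ v) (v : α) :
    (g * s * g⁻¹) v ≠ v := by
  intro h
  apply nofix (g⁻¹ v)
  simp only [Equiv.Perm.mul_apply] at h
  rw [Equiv.Perm.eq_inv_iff_eq]
  exact h

theorem rel_join_inv {α : Type*} [DecidableEq α] (a b : α) (s : Perm α)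
    (inv : ∀ v, s (s v) = v) (v : α) : join a b s (join a b s v) = v := by
  have h := rel_conj_inv (swap b (s a)) s inv v
  rw [swap_inv] at h
  exact h

theorem rel_join_nofix {α : Type*} [DecidableEq α] (a b : α) (s : Perm α)
    (nofix : ∀ v, s v ≠ v) (v : α) : join a b s v ≠ v := by
  have h := rel_conj_nofix (swap b (s a)) s nofix v
  rw [swap_inv] at h
  exact h

/-! ### joining adjacent strands -/

theorem rel_btw_symm {L : ℕ} (k l x y : Fin L) (_hkl : k ≠ l) (_hxy : x ≠ y) (h1 : x ≠ k)
    (h2 : x ≠ l) (h3 : y ≠ k) (h4 : y ≠ l) :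
    (Btw k l x ↔ Btw k l y) ↔ (Btw x y k ↔ Btw x y l) := by
  simp only [Btw, Fin.lt_def, ne_eq, Fin.ext_iff] at *
  omega

theorem rel_btw_adj {L : ℕ} (k l p p' : Fin L) (hp : p'.val = p.val + 1) (h1 : k ≠ p)
    (h2 : k ≠ p') (h3 : l ≠ p) (h4 : l ≠ p') : Btw k l p ↔ Btw k l p' := by
  simp only [Btw, Fin.lt_def, ne_eq, Fin.ext_iff] at *
  omega

theorem rel_join_adj {L : ℕ} (s : Perm (Vx L)) (hs : IsPat s) (p p' : Fin L)
    (hp : p'.val = p.val + 1) : IsPat (join (some p) (some p') s) := by
  refine ⟨rel_join_inv _ _ _ hs.inv, rel_join_nofix _ _ _ hs.nofix, ?_⟩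
  have hpp : p ≠ p' := by intro h; rw [h] at hp; omega
  have hab : (some p : Vx L) ≠ some p' := by simpa using hpp
  intro k l x y hk hx hxk hxl
  rw [rel_join_apply _ _ _ hs.inv hs.nofix hab] at hk hx
  -- the old relation for an arc not meeting `p, p'`
  have old : ∀ x y c d : Fin L, s (some x) = some y → some x ≠ (some p : Vx L) →
      some x ≠ (some p' : Vx L) → some x ≠ s (some p) → some x ≠ s (some p') →
      s (some p) = some c → s (some p') = some d → (Btw x y c ↔ Btw x y d) := by
    intro x y c d hxy h1 h2 h3 h4 hc hd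
    have e1 : y ≠ p := by
      rintro rfl
      exact h3 (by rw [← hxy, hs.inv])
    have e2 : y ≠ p' := by
      rintro rfl
      exact h4 (by rw [← hxy, hs.inv])
    have e3 : x ≠ p := fun h => h1 (by rw [h])
    have e4 : x ≠ p' := fun h => h2 (by rw [h])
    have f1 := hs.nc x y p c hxy hc (Ne.symm e3) (Ne.symm e1)
    have f2 := hs.nc x y p' d hxy hd (Ne.symm e4) (Ne.symm e2)
    rw [← f1, ← f2]
    exact rel_btw_adj x y p p' hp e3 e4 e1 e2
  have pp : ∀ x : Fin L, ¬ Btw p p' x := by
    intro x
    simp only [Btw, Fin.lt_def]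
    omega
  have pp' : ∀ x : Fin L, ¬ Btw p' p x := by
    intro x
    simp only [Btw, Fin.lt_def]
    omega
  by_cases k1 : (some k : Vx L) = some p
  · rw [if_pos k1] at hk
    obtain rfl : k = p := by simpa using k1
    obtain rfl : p' = l := by simpa using hk
    exact iff_of_false (pp _) (pp _)
  rw [if_neg k1] at hk
  by_cases k2 : (some k : Vx L) = some p'
  · rw [if_pos k2] at hk
    obtain rfl : k = p' := by simpa using k2
    obtain rfl : p = l := by simpa using hk
    exact iff_of_false (pp' _) (pp' _)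
  rw [if_neg k2] at hk
  have kp : k ≠ p := fun h => k1 (by rw [h])
  have kp' : k ≠ p' := fun h => k2 (by rw [h])
  -- `l` is not `p` or `p'` either
  have lp : l ≠ p := by
    rintro rfl
    by_cases k3 : (some k : Vx L) = s (some l)
    · rw [if_pos k3] at hk
      have : (some p' : Vx L) = some k := by rw [k3, ← hk, hs.inv]
      exact kp' (by simpa using this.symm)
    · rw [if_neg k3] at hk
      by_cases k4 : (some k : Vx L) = s (some p')
      · rw [if_pos k4] at hk
        exact hs.nofix _ hk
      · rw [if_neg k4] at hk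
        exact k3 (by rw [← hk, hs.inv])
  have lp' : l ≠ p' := by
    rintro rfl
    by_cases k3 : (some k : Vx L) = s (some p)
    · rw [if_pos k3] at hk
      exact hs.nofix _ hk
    · rw [if_neg k3] at hk
      by_cases k4 : (some k : Vx L) = s (some l)
      · rw [if_pos k4] at hk
        have : (some p : Vx L) = some k := by rw [k4, ← hk, hs.inv]
        exact kp (by simpa using this.symm)
      · rw [if_neg k4] at hk
        exact k4 (by rw [← hk, hs.inv])
  by_cases x1 : (some x : Vx L) = some p
  · rw [if_pos x1] at hx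
    obtain rfl : x = p := by simpa using x1
    obtain rfl : p' = y := by simpa using hx
    exact rel_btw_adj k l x p' hp kp kp' lp lp'
  rw [if_neg x1] at hx
  by_cases x2 : (some x : Vx L) = some p'
  · rw [if_pos x2] at hx
    obtain rfl : x = p' := by simpa using x2
    obtain rfl : p = y := by simpa using hx
    exact (rel_btw_adj k l p x hp kp kp' lp lp').symm
  rw [if_neg x2] at hx
  have xp : x ≠ p := fun h => x1 (by rw [h])
  have xp' : x ≠ p' := fun h => x2 (by rw [h])
  by_cases k3 : (some k : Vx L) = s (some p)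
  · rw [if_pos k3] at hk
    -- arc `{k,l} = {s p, s p'}`
    by_cases x3 : (some x : Vx L) = s (some p)
    · exact absurd (by rw [← k3] at x3; simpa using x3) hxk
    rw [if_neg x3] at hx
    by_cases x4 : (some x : Vx L) = s (some p')
    · exact absurd (by rw [hk] at x4; simpa using x4) hxl
    rw [if_neg x4] at hx
    have o := old x y k l hx x1 x2 x3 x4 k3.symm hk
    have yk : y ≠ k := by
      rintro rfl
      have : (some x : Vx L) = some p := by
        rw [k3] at hx
        exact s.injective hx
      exact x1 this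
    have yl : y ≠ l := by
      rintro rfl
      have : (some x : Vx L) = some p' := by
        rw [← hk] at hx
        exact s.injective hx
      exact x2 this
    have xy : x ≠ y := by
      rintro rfl
      exact hs.nofix _ hx
    have kl : k ≠ l := by
      rintro rfl
      have : (some p : Vx L) = some p' := by
        apply s.injective
        rw [hk, ← k3]
      exact hab this
    exact (rel_btw_symm k l x y kl xy hxk hxl yk yl).2 o
  rw [if_neg k3] at hk
  by_cases k4 : (some k : Vx L) = s (some p')
  · rw [if_pos k4] at hk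
    by_cases x3 : (some x : Vx L) = s (some p)
    · exact absurd (by rw [hk] at x3; simpa using x3) hxl
    rw [if_neg x3] at hx
    by_cases x4 : (some x : Vx L) = s (some p')
    · exact absurd (by rw [← k4] at x4; simpa using x4) hxk
    rw [if_neg x4] at hx
    have o := old x y l k hx x1 x2 x3 x4 hk k4.symm
    have yk : y ≠ k := by
      rintro rfl
      have : (some x : Vx L) = some p' := by
        rw [k4] at hx
        exact s.injective hx
      exact x2 this
    have yl : y ≠ l := by
      rintro rfl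
      have : (some x : Vx L) = some p := by
        rw [← hk] at hx
        exact s.injective hx
      exact x1 this
    have xy : x ≠ y := by
      rintro rfl
      exact hs.nofix _ hx
    have kl : k ≠ l := by
      rintro rfl
      have : (some p : Vx L) = some p' := by
        apply s.injective
        rw [hk, ← k4]
      exact hab this
    exact (rel_btw_symm k l x y kl xy hxk hxl yk yl).2 o.symm
  rw [if_neg k4] at hk
  -- `{k,l}` is an old arc
  by_cases x3 : (some x : Vx L) = s (some p)
  · rw [if_pos x3] at hx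
    exact old k l x y hk k1 k2 k3 k4 x3.symm hx
  rw [if_neg x3] at hx
  by_cases x4 : (some x : Vx L) = s (some p')
  · rw [if_pos x4] at hx
    exact (old k l y x hk k1 k2 k3 k4 hx x4.symm).symm
  rw [if_neg x4] at hx
  exact hs.nc k l x y hk hx hxk hxl

/-! ### rotations -/

theorem rel_rotV_some {m : ℕ} (k : Fin (m + 1)) : rotV m (some k) = some (finRotate (m + 1) k) :=
  rfl

theorem rel_rotV_none {m : ℕ} : rotV m none = none := rfl

theorem rel_rotate_val {m : ℕ} (k : Fin (m + 1)) :
    (k.val = m ∧ (finRotate (m + 1) k).val = 0) ∨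
      (k.val < m ∧ (finRotate (m + 1) k).val = k.val + 1) := by
  rcases eq_or_ne k (Fin.last m) with h | h
  · left
    subst h
    simp
  · right
    have h1 : k.val < m := Fin.val_lt_last h
    refine ⟨h1, ?_⟩
    rw [finRotate_of_lt h1]

theorem rel_btw_rot {m : ℕ} (k l x y : Fin (m + 1)) (hkl : k ≠ l) (h1 : x ≠ k)
    (h2 : x ≠ l) (h3 : y ≠ k) (h4 : y ≠ l) :
    (Btw (finRotate (m + 1) k) (finRotate (m + 1) l) (finRotate (m + 1) x) ↔
      Btw (finRotate (m + 1) k) (finRotate (m + 1) l) (finRotate (m + 1) y)) ↔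
    (Btw k l x ↔ Btw k l y) := by
  have a1 := rel_rotate_val k
  have a2 := rel_rotate_val l
  have a3 := rel_rotate_val x
  have a4 := rel_rotate_val y
  simp only [Btw, Fin.lt_def, ne_eq, Fin.ext_iff] at *
  omega

theorem rel_rot_isPat {m : ℕ} (s : Perm (Vx (m + 1))) (hs : IsPat s) :
    IsPat (rotV m * s * (rotV m)⁻¹) := by
  refine ⟨rel_conj_inv _ _ hs.inv, rel_conj_nofix _ _ hs.nofix, ?_⟩
  intro k l x y hk hx hxk hxl
  obtain ⟨k, rfl⟩ := (finRotate (m + 1)).surjective k
  obtain ⟨l, rfl⟩ := (finRotate (m + 1)).surjective l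
  obtain ⟨x, rfl⟩ := (finRotate (m + 1)).surjective x
  obtain ⟨y, rfl⟩ := (finRotate (m + 1)).surjective y
  rw [← rel_rotV_some, ← rel_rotV_some] at hk hx
  have hii : ∀ v, (rotV m)⁻¹ (rotV m v) = v := fun v => by simp
  simp only [Equiv.Perm.mul_apply, hii, EmbeddingLike.apply_eq_iff_eq] at hk hx
  have hxk' : x ≠ k := fun h => hxk (by rw [h])
  have hxl' : x ≠ l := fun h => hxl (by rw [h])
  have hkl : k ≠ l := by rintro rfl; exact hs.nofix _ hk
  have hyk : y ≠ k := by
    rintro rfl
    apply hxl'
    have : (some l : Vx (m + 1)) = some x := by rw [← hk, ← hx, hs.inv]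
    simpa using this.symm
  have hyl : y ≠ l := by
    rintro rfl
    apply hxk'
    have : (some x : Vx (m + 1)) = some k := s.injective (by rw [hk, hx])
    simpa using this
  rw [rel_btw_rot k l x y hkl hxk' hxl' hyk hyl]
  exact hs.nc k l x y hk hx hxk' hxl'

theorem rel_rotInv_isPat {m : ℕ} (s : Perm (Vx (m + 1))) (hs : IsPat s) :
    IsPat ((rotV m)⁻¹ * s * rotV m) := by
  refine ⟨?_, ?_, ?_⟩
  · have := rel_conj_inv (rotV m)⁻¹ s hs.inv
    rwa [inv_inv] at this
  · have := rel_conj_nofix (rotV m)⁻¹ s hs.nofix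
    rwa [inv_inv] at this
  intro k l x y hk hx hxk hxl
  simp only [Equiv.Perm.mul_apply, Equiv.Perm.inv_eq_iff_eq, rel_rotV_some] at hk hx
  have hkl : k ≠ l := by rintro rfl; exact hs.nofix _ hk
  have hyk : y ≠ k := by
    rintro rfl
    apply hxl
    have : (some (finRotate (m + 1) l) : Vx (m + 1)) = some (finRotate (m + 1) x) := by
      rw [← hk, ← hx, hs.inv]
    have h2 : finRotate (m + 1) l = finRotate (m + 1) x := by simpa using this
    exact ((finRotate (m + 1)).injective h2).symm
  have hyl : y ≠ l := by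
    rintro rfl
    apply hxk
    have : (some (finRotate (m + 1) x) : Vx (m + 1)) = some (finRotate (m + 1) k) :=
      s.injective (by rw [hk, hx])
    have h2 : finRotate (m + 1) x = finRotate (m + 1) k := by simpa using this
    exact (finRotate (m + 1)).injective h2
  rw [← rel_btw_rot k l x y hkl hxk hxl hyk hyl]
  exact hs.nc _ _ _ _ hk hx (fun h => hxk ((finRotate (m + 1)).injective h))
    (fun h => hxl ((finRotate (m + 1)).injective h))

theorem rel_rot_ix (m i : ℕ) : finRotate (m + 1) (ix m i) = ix m (i + 1) := by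
  apply Fin.ext
  have h := rel_rotate_val (ix m i)
  have h1 : (ix m i).val = i % (m + 1) := rfl
  have h2 : (ix m (i + 1)).val = (i + 1) % (m + 1) := rfl
  have h3 : i % (m + 1) < m + 1 := Nat.mod_lt _ (Nat.succ_pos m)
  rw [h2]
  rcases h with ⟨h4, h5⟩ | ⟨h4, h5⟩
  · rw [h5]
    rw [h1] at h4
    rw [Nat.add_mod i 1 (m + 1), h4]
    rcases Nat.eq_zero_or_pos m with rfl | hm
    · simp
    · rw [Nat.mod_eq_of_lt (show 1 < m + 1 by omega), Nat.mod_self]
  · rw [h5, h1]
    rw [h1] at h4
    rw [Nat.add_mod i 1 (m + 1), Nat.mod_eq_of_lt (show 1 < m + 1 by omega),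
      Nat.mod_eq_of_lt (show i % (m + 1) + 1 < m + 1 by omega)]

theorem rel_rotV_ix (m i : ℕ) : rotV m (some (ix m i)) = some (ix m (i + 1)) := by
  rw [rel_rotV_some, rel_rot_ix]

theorem rel_join_isPat (m i : ℕ) (s : Perm (Vx (m + 1))) (hs : IsPat s) :
    IsPat (join (some (ix m i)) (some (ix m (i + 1))) s) := by
  have key : ∀ j : ℕ, (ix m j).val < m → ∀ s : Perm (Vx (m + 1)), IsPat s →
      IsPat (join (some (ix m j)) (some (ix m (j + 1))) s) := by
    intro j hj s hs
    refine rel_join_adj s hs _ _ ?_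
    rw [← rel_rot_ix]
    rcases rel_rotate_val (ix m j) with ⟨h1, _⟩ | ⟨_, h2⟩
    · omega
    · exact h2
  by_cases h : (ix m i).val < m
  · exact key i h s hs
  · rcases Nat.eq_zero_or_pos m with rfl | hm
    · -- only one strand
      have hss : ∀ a b : Fin (0 + 1), a = b := fun a b => Fin.ext (by omega)
      have h1 : ix 0 (i + 1) = ix 0 i := hss _ _
      rw [h1]
      have h2 : s (some (ix 0 i)) = none := by
        rcases h3 : s (some (ix 0 i)) with _ | k
        · rfl
        · exfalso
          have : k = ix 0 i := hss _ _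
          rw [this] at h3
          exact hs.nofix _ h3
      have h3 : s = swap (some (ix 0 i)) (none : Vx (0 + 1)) := by
        ext1 v
        rcases v with _ | k
        · rw [swap_apply_right, ← h2, hs.inv]
        · have : k = ix 0 i := hss _ _
          rw [this, swap_apply_left, h2]
      have h4 : join (some (ix 0 i)) (some (ix 0 i)) s = s := by
        unfold join
        rw [h2]
        conv_lhs => rw [← h3]
        ext1 v
        simp only [Equiv.Perm.mul_apply, hs.inv]
      rw [h4]
      exact hs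
    · -- the last strand: rotate
      have hv := rel_rotate_val (ix m i)
      have h0 : (ix m (i + 1)).val = 0 := by
        rw [← rel_rot_ix]
        rcases hv with ⟨_, h2⟩ | ⟨h1, _⟩
        · exact h2
        · omega
      have h1 := key (i + 1) (by omega) _ (rel_rot_isPat s hs)
      have h2 := rel_rotInv_isPat _ h1
      rw [← rel_rotV_ix m (i + 1), ← rel_rotV_ix m i, ← rel_join_conj] at h2
      rw [rel_rotV_ix m i] at h2
      have h3 : (rotV m)⁻¹ * (rotV m * join (some (ix m i)) (some (ix m (i + 1))) s *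
          (rotV m)⁻¹) * rotV m = join (some (ix m i)) (some (ix m (i + 1))) s := by group
      rw [h3] at h2
      exact h2

/-! ### the statements of module A, part 1 -/

theorem E_val (m i : ℕ) (σ : Pat (m + 1)) :
    (E m i σ).1 = join (some (ix m i)) (some (ix m (i + 1))) σ.1 := by
  have h : E m i σ = ⟨_, rel_join_isPat m i σ.1 σ.2⟩ := dif_pos (rel_join_isPat m i σ.1 σ.2)
  rw [h]

theorem rot_val (m : ℕ) (σ : Pat (m + 1)) : (rot m σ).1 = rotV m * σ.1 * (rotV m)⁻¹ := by
  have h : rot m σ = ⟨_, rel_rot_isPat σ.1 σ.2⟩ := dif_pos (rel_rot_isPat σ.1 σ.2)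
  rw [h]

theorem rotInv_val (m : ℕ) (σ : Pat (m + 1)) :
    (rotInv m σ).1 = (rotV m)⁻¹ * σ.1 * rotV m := by
  have h : rotInv m σ = ⟨_, rel_rotInv_isPat σ.1 σ.2⟩ := dif_pos (rel_rotInv_isPat σ.1 σ.2)
  rw [h]

theorem rot_rotInv (m : ℕ) (σ : Pat (m + 1)) : rot m (rotInv m σ) = σ := by
  apply Subtype.ext
  rw [rot_val, rotInv_val]
  group

theorem rotInv_rot (m : ℕ) (σ : Pat (m + 1)) : rotInv m (rot m σ) = σ := by
  apply Subtype.ext
  rw [rotInv_val, rot_val]
  group

theorem ix_add (m i : ℕ) : ix m (i + (m + 1)) = ix m i := by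
  apply Fin.ext
  change (i + (m + 1)) % (m + 1) = i % (m + 1)
  rw [Nat.add_mod_right]

theorem E_per (m i : ℕ) (σ : Pat (m + 1)) : E m (i + (m + 1)) σ = E m i σ := by
  apply Subtype.ext
  rw [E_val, E_val, ix_add]
  have : i + (m + 1) + 1 = (i + 1) + (m + 1) := by ring
  rw [this, ix_add]

theorem rel_ix_ne {m : ℕ} (hm : 1 ≤ m) (i : ℕ) : ix m i ≠ ix m (i + 1) := by
  intro h
  rw [← rel_rot_ix] at h
  have := congrArg Fin.val h
  rcases rel_rotate_val (ix m i) with ⟨h1, h2⟩ | ⟨h1, h2⟩
  · omega
  · omega

theorem E_arc {m : ℕ} (hm : 1 ≤ m) (i : ℕ) (σ : Pat (m + 1)) :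
    (E m i σ).1 (some (ix m i)) = some (ix m (i + 1)) := by
  have h : (some (ix m i) : Vx (m + 1)) ≠ some (ix m (i + 1)) := by
    simpa using rel_ix_ne hm i
  rw [E_val, rel_join_apply _ _ _ σ.2.inv σ.2.nofix h, if_pos rfl]

theorem E_fix {m : ℕ} (i : ℕ) (σ : Pat (m + 1))
    (h : σ.1 (some (ix m i)) = some (ix m (i + 1))) : E m i σ = σ := by
  apply Subtype.ext
  rw [E_val]
  unfold join
  rw [h, swap_self]
  ext1 v
  rfl

theorem rel_pat_one (σ τ : Pat (0 + 1)) : σ = τ := by
  apply Subtype.ext
  have h : ∀ (ρ : Pat (0 + 1)) (k : Fin (0 + 1)), ρ.1 (some k) = none := by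
    intro ρ k
    rcases h3 : ρ.1 (some k) with _ | l
    · rfl
    · exfalso
      have : l = k := Fin.ext (by omega)
      rw [this] at h3
      exact ρ.2.nofix _ h3
  ext1 v
  rcases v with _ | k
  · have h1 : ∀ (ρ : Pat (0 + 1)), ρ.1 none = some 0 := by
      intro ρ
      rw [← h ρ 0, ρ.2.inv]
    rw [h1, h1]
  · rw [h, h]

theorem E_idem (m i : ℕ) (σ : Pat (m + 1)) : E m i (E m i σ) = E m i σ := by
  rcases Nat.eq_zero_or_pos m with rfl | hm
  · exact rel_pat_one _ _
  · exact E_fix i _ (E_arc hm i σ)

theorem rot_E (m i : ℕ) (σ : Pat (m + 1)) : rot m (E m i σ) = E m (i + 1) (rot m σ) := by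
  apply Subtype.ext
  rw [rot_val, E_val, E_val, rot_val, rel_join_conj, rel_rotV_ix, rel_rotV_ix]

end Pool.Agent.H974R3
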