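import Pool.Agent.H974R3.Defs
import Pool.Agent.H974R3.Rel
import Pool.Agent.H974R3.TransZ
import Pool.Agent.H974R3.Tri
import Pool.Agent.H974R3.Phi

/-!
# Module D2 : the polynomial ground state

From the rational ground state `Φ` (module Phi): exchange relations and rotation (uniqueness with
permuted variables), the base component is a symmetric factor times `Dl`, divided differences and
the triangular structure give polynomiality with partial degrees at most `2n`.
-/

set_option maxHeartbeats 400000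

namespace Pool.Agent.H974R3.PsiAux
open Equiv MvPolynomial

/-! ### linearity and functoriality of the operators -/

theorem Tz_map {R S : Type*} [CommRing R] [CommRing S] {m : ℕ} (f : R →+* S) (q : R)
    (z : Fin (m + 1) → R) (v : Pat (m + 1) → R) (σ : Pat (m + 1)) :
    f (Tz q z v σ) = Tz (f q) (fun j => f (z j)) (fun τ => f (v τ)) σ := by
  simp only [Tz, push, map_sum, map_mul, map_prod]
  refine Finset.sum_congr rfl fun c _ => ?_
  congr 1
  · refine Finset.prod_congr rfl fun j _ => ?_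
    cases c j <;> simp [wt]
  · refine Finset.sum_congr rfl fun τ _ => ?_
    split_ifs <;> simp

theorem push_smul {X Y : Type*} [Fintype X] [DecidableEq Y] {R : Type*} [CommRing R]
    (f : X → Y) (a : R) (v : X → R) (y : Y) : push f (fun x => a * v x) y = a * push f v y := by
  simp only [push, Finset.mul_sum, mul_ite, mul_zero]

theorem push_sub {X Y : Type*} [Fintype X] [DecidableEq Y] {R : Type*} [CommRing R]
    (f : X → Y) (v w : X → R) (y : Y) : push f (fun x => v x - w x) y = push f v y - push f w y := by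
  simp only [push, ← Finset.sum_sub_distrib]
  refine Finset.sum_congr rfl fun x _ => ?_
  split_ifs <;> simp

theorem Tz_smul {R : Type*} [CommRing R] {m : ℕ} (q : R) (z : Fin (m + 1) → R) (a : R)
    (v : Pat (m + 1) → R) (σ : Pat (m + 1)) :
    Tz q z (fun τ => a * v τ) σ = a * Tz q z v σ := by
  simp only [Tz, push_smul, Finset.mul_sum]
  refine Finset.sum_congr rfl fun c _ => ?_
  ring

theorem Tz_sub {R : Type*} [CommRing R] {m : ℕ} (q : R) (z : Fin (m + 1) → R)
    (v w : Pat (m + 1) → R) (σ : Pat (m + 1)) :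
    Tz q z (fun τ => v τ - w τ) σ = Tz q z v σ - Tz q z w σ := by
  simp only [Tz, push_sub, mul_sub, Finset.sum_sub_distrib]

theorem Rh_smul {R : Type*} [CommRing R] {m : ℕ} (q x y : R) (i : ℕ) (a : R)
    (v : Pat (m + 1) → R) (σ : Pat (m + 1)) :
    Rh q x y i (fun τ => a * v τ) σ = a * Rh q x y i v σ := by
  simp only [Rh, push_smul]
  ring

theorem sum_Rh {R : Type*} [CommRing R] {m : ℕ} (q x y : R) (hq : q ^ 2 + q + 1 = 0) (i : ℕ)
    (v : Pat (m + 1) → R) : ∑ τ, Rh q x y i v τ = (q * y - q ^ 2 * x) * ∑ τ, v τ := by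
  simp only [Rh, Finset.sum_add_distrib, ← Finset.mul_sum, sum_push]
  linear_combination (x - y) * (∑ τ, v τ) * hq

theorem push_bij {X Y : Type*} [Fintype X] [DecidableEq Y] {R : Type*} [CommRing R]
    (f : X → Y) (g : Y → X) (h : ∀ x, g (f x) = x) (v : X → R) (x : X) :
    push f v (f x) = v x := by
  classical
  unfold push
  rw [Finset.sum_eq_single x]
  · simp
  · intro y _ hy
    rw [if_neg]
    intro h'
    apply hy
    rw [← h y, h', h]
  · simp

/-! ### automorphisms of the field of rational functions -/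

section field
variable {N : ℕ} {K : Type} [Field K] [Algebra (MvPolynomial (Fin N) ℂ) K]
  [IsFractionRing (MvPolynomial (Fin N) ℂ) K]



variable (K) in
/-- the automorphism permuting the variables -/
noncomputable def fr (p : Perm (Fin N)) : K →+* K :=
  (IsFractionRing.ringEquivOfRingEquiv (K := K) (L := K) (renameEquiv ℂ p).toRingEquiv).toRingHom

theorem fr_alg (p : Perm (Fin N)) (P : MvPolynomial (Fin N) ℂ) :
    fr K p ((algebraMap (MvPolynomial (Fin _) ℂ) K) P) = (algebraMap (MvPolynomial (Fin _) ℂ) K) (rename p P) := by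
  unfold fr
  simp only [RingEquiv.toRingHom_eq_coe, RingHom.coe_coe]
  rw [IsFractionRing.ringEquivOfRingEquiv_algebraMap]
  rfl

theorem fr_mul (p p' : Perm (Fin N)) (x : K) :
    fr K (p * p') x = fr K p (fr K p' x) := by
  have : fr K (p * p') = (fr K p).comp (fr K p') := by
    apply IsLocalization.ringHom_ext (nonZeroDivisors (MvPolynomial (Fin N) ℂ))
    refine RingHom.ext fun P => ?_
    simp [fr_alg, rename_rename]
  rw [this]
  rfl

theorem fr_one (x : K) : fr K (1 : Perm (Fin N)) x = x := by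
  have : fr K (1 : Perm (Fin N)) = RingHom.id _ := by
    apply IsLocalization.ringHom_ext (nonZeroDivisors (MvPolynomial (Fin N) ℂ))
    refine RingHom.ext fun P => ?_
    simp [fr_alg]
  rw [this]
  rfl

theorem fr_inv (p : Perm (Fin N)) (x : K) : fr K p (fr K p⁻¹ x) = x := by
  rw [← fr_mul, mul_inv_cancel, fr_one]

theorem fr_inv' (p : Perm (Fin N)) (x : K) : fr K p⁻¹ (fr K p x) = x := by
  rw [← fr_mul, inv_mul_cancel, fr_one]

theorem al_inj {P Q : MvPolynomial (Fin N) ℂ} (h : (algebraMap (MvPolynomial (Fin _) ℂ) K) P = (algebraMap (MvPolynomial (Fin _) ℂ) K) Q) : P = Q :=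
  IsFractionRing.injective (MvPolynomial (Fin N) ℂ) K h

omit [IsFractionRing (MvPolynomial (Fin N) ℂ) K] in
variable (K N) in
theorem al_q {q : ℂ} (hq : q ^ 2 + q + 1 = 0) :
    ((algebraMap (MvPolynomial (Fin _) ℂ) K) (C q : MvPolynomial (Fin N) ℂ)) ^ 2 + (algebraMap (MvPolynomial (Fin _) ℂ) K) (C q : MvPolynomial (Fin N) ℂ) + 1 = 0 := by
  have : (C q : MvPolynomial (Fin N) ℂ) ^ 2 + C q + 1 = 0 := by
    rw [← C_1, ← C_pow, ← C_add, ← C_add, hq, C_0]
  have h2 := congrArg ((algebraMap (MvPolynomial (Fin _) ℂ) K)) this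
  simpa using h2

variable (K N) in
theorem K_charZero (K : Type) [Field K] (N : ℕ) [Algebra (MvPolynomial (Fin N) ℂ) K]
    [IsFractionRing (MvPolynomial (Fin N) ℂ) K] : CharZero K :=
  charZero_of_injective_algebraMap (IsFractionRing.injective (MvPolynomial (Fin N) ℂ) K)

end field

/-! ### the rational ground state -/

section stat
variable {n : ℕ} {K : Type} [Field K] [Algebra (MvPolynomial (Fin (2 * n + 1)) ℂ) K]
  [IsFractionRing (MvPolynomial (Fin (2 * n + 1)) ℂ) K]


/-- the stationary equation with permuted variables -/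
def Stat (q : ℂ) (n : ℕ) {K : Type} [Field K] [Algebra (MvPolynomial (Fin (2 * n + 1)) ℂ) K]
    (p : Perm (Fin (2 * n + 1))) (v : Pat (2 * n + 1) → K) : Prop :=
  ∀ σ, Tz (algebraMap (MvPolynomial (Fin (2 * n + 1)) ℂ) K (C q))
    (fun j => algebraMap (MvPolynomial (Fin (2 * n + 1)) ℂ) K (X (p j))) v σ
    = (∏ j, (1 + algebraMap (MvPolynomial (Fin (2 * n + 1)) ℂ) K (X j))) * v σ

omit [IsFractionRing (MvPolynomial (Fin (2 * n + 1)) ℂ) K] in
theorem Stat.one {q : ℂ} {Φ : Pat (2 * n + 1) → K} (hst : Stat q n 1 Φ) :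
    Tz ((algebraMap (MvPolynomial (Fin (2 * n + 1)) ℂ) K) (C q)) (fun j => (algebraMap (MvPolynomial (Fin (2 * n + 1)) ℂ) K) (X j)) Φ = fun σ => (∏ j, (1 + (algebraMap (MvPolynomial (Fin (2 * n + 1)) ℂ) K) (X j))) * Φ σ := by
  funext σ
  have h := hst σ
  simp only [Perm.coe_one, id] at h
  exact h

theorem Stat.fr {q : ℂ} {p : Perm (Fin (2 * n + 1))} {v : Pat (2 * n + 1) → K}
    (h : Stat q n p v) (r : Perm (Fin (2 * n + 1))) :
    Stat q n (r * p) (fun σ => fr K r (v σ)) := by
  intro σ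
  have h1 := congrArg (PsiAux.fr K r) (h σ)
  rw [Tz_map] at h1
  have e1 : (PsiAux.fr K r) ((algebraMap (MvPolynomial (Fin (2 * n + 1)) ℂ) K) (C q)) = (algebraMap (MvPolynomial (Fin (2 * n + 1)) ℂ) K) (C q) := by
    rw [fr_alg, rename_C]
  have e2 : ∀ j, (PsiAux.fr K r) ((algebraMap (MvPolynomial (Fin (2 * n + 1)) ℂ) K) (X j)) = (algebraMap (MvPolynomial (Fin (2 * n + 1)) ℂ) K) (X (r j)) := by
    intro j
    rw [fr_alg, rename_X]
  have e3 : (PsiAux.fr K r) ((∏ j, (1 + (algebraMap (MvPolynomial (Fin (2 * n + 1)) ℂ) K) (X j))) * v σ)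
      = (∏ j, (1 + (algebraMap (MvPolynomial (Fin (2 * n + 1)) ℂ) K) (X j))) * (PsiAux.fr K r) (v σ) := by
    rw [map_mul, map_prod]
    congr 1
    simp only [map_add, map_one, e2]
    exact Equiv.prod_comp r (fun j => 1 + (algebraMap (MvPolynomial (Fin (2 * n + 1)) ℂ) K) (X j))
  rw [e1, e3] at h1
  simp only [e2] at h1
  exact h1

theorem Stat.unique {q : ℂ} {Φ : Pat (2 * n + 1) → K}
    (hs : ∑ σ, Φ σ = 1) (hst : Stat q n 1 Φ)
    (hu : ∀ v : Pat (2 * n + 1) → K, Stat q n 1 v → ∑ σ, v σ = 0 → v = 0)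
    {p : Perm (Fin (2 * n + 1))} {w : Pat (2 * n + 1) → K}
    (h : Stat q n p w) (σ : Pat (2 * n + 1)) : w σ = (∑ τ, w τ) * PsiAux.fr K p (Φ σ) := by
  have h1 := h.fr p⁻¹
  rw [inv_mul_cancel] at h1
  have h2 : Stat q n 1 (fun σ => PsiAux.fr K p⁻¹ (w σ) - (∑ τ, PsiAux.fr K p⁻¹ (w τ)) * Φ σ) := by
    intro τ
    rw [Tz_sub, Tz_smul, h1 τ, hst τ]
    ring
  have h3 := hu _ h2 (by rw [Finset.sum_sub_distrib, ← Finset.mul_sum, hs, mul_one, sub_self])
  have h4 : PsiAux.fr K p⁻¹ (w σ) = (∑ τ, PsiAux.fr K p⁻¹ (w τ)) * Φ σ :=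
    sub_eq_zero.mp (congrFun h3 σ)
  have h5 := congrArg (PsiAux.fr K p) h4
  rw [fr_inv, map_mul, map_sum] at h5
  simpa only [fr_inv] using h5

/-- exchange relations -/
theorem Stat.exch {q : ℂ} (hq : q ^ 2 + q + 1 = 0) (hn : 1 ≤ n) {Φ : Pat (2 * n + 1) → K}
    (hs : ∑ σ, Φ σ = 1) (hst : Stat q n 1 Φ)
    (hu : ∀ v : Pat (2 * n + 1) → K, Stat q n 1 v → ∑ σ, v σ = 0 → v = 0) (i : ℕ)
    (σ : Pat (2 * n + 1)) :
    (algebraMap (MvPolynomial (Fin (2 * n + 1)) ℂ) K) (C q * X (ix (2 * n) i) - C (q ^ 2) * X (ix (2 * n) (i + 1))) * Φ σ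
        + (algebraMap (MvPolynomial (Fin (2 * n + 1)) ℂ) K) (X (ix (2 * n) i) - X (ix (2 * n) (i + 1))) * push (E (2 * n) i) Φ σ
        = (algebraMap (MvPolynomial (Fin (2 * n + 1)) ℂ) K) (C q * X (ix (2 * n) (i + 1)) - C (q ^ 2) * X (ix (2 * n) i))
          * PsiAux.fr K (swap (ix (2 * n) i) (ix (2 * n) (i + 1))) (Φ σ) := by
  have := K_charZero K (2 * n + 1)
  have h1 := Rh_Tz (m := 2 * n) (by omega) ((algebraMap (MvPolynomial (Fin (2 * n + 1)) ℂ) K) (C q)) (al_q (2 * n + 1) K hq) i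
    (fun j => (algebraMap (MvPolynomial (Fin (2 * n + 1)) ℂ) K) (X j)) Φ
  rw [hst.one] at h1
  have h2 : Stat q n (swap (ix (2 * n) i) (ix (2 * n) (i + 1)))
      (Rh ((algebraMap (MvPolynomial (Fin (2 * n + 1)) ℂ) K) (C q)) ((algebraMap (MvPolynomial (Fin (2 * n + 1)) ℂ) K) (X (ix (2 * n) i))) ((algebraMap (MvPolynomial (Fin (2 * n + 1)) ℂ) K) (X (ix (2 * n) (i + 1)))) i Φ) := by
    intro τ
    have h4 := congrFun h1 τ
    rw [Rh_smul] at h4
    exact h4.symm
  have h4 := Stat.unique hs hst hu h2 σ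
  rw [sum_Rh _ _ _ (al_q (2 * n + 1) K hq), hs, mul_one] at h4
  have e : ∀ c d : Fin (2 * n + 1), (algebraMap (MvPolynomial (Fin (2 * n + 1)) ℂ) K) (C q * X c - C (q ^ 2) * X d)
      = (algebraMap (MvPolynomial (Fin (2 * n + 1)) ℂ) K) (C q) * (algebraMap (MvPolynomial (Fin (2 * n + 1)) ℂ) K) (X c) - (algebraMap (MvPolynomial (Fin (2 * n + 1)) ℂ) K) (C q) ^ 2 * (algebraMap (MvPolynomial (Fin (2 * n + 1)) ℂ) K) (X d) := by
    intro c d
    simp only [map_sub, map_mul, map_pow]
  have e' : ∀ c d : Fin (2 * n + 1), (algebraMap (MvPolynomial (Fin (2 * n + 1)) ℂ) K) ((X c - X d : MvPolynomial (Fin (2 * n + 1)) ℂ))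
      = (algebraMap (MvPolynomial (Fin (2 * n + 1)) ℂ) K) (X c) - (algebraMap (MvPolynomial (Fin (2 * n + 1)) ℂ) K) (X d) := by
    intro c d
    simp only [map_sub]
  rw [e, e, e', ← h4]
  rfl

/-- rotation -/
theorem Stat.rot {q : ℂ} {Φ : Pat (2 * n + 1) → K}
    (hs : ∑ σ, Φ σ = 1) (hst : Stat q n 1 Φ)
    (hu : ∀ v : Pat (2 * n + 1) → K, Stat q n 1 v → ∑ σ, v σ = 0 → v = 0)
    (σ : Pat (2 * n + 1)) :
    Φ (rot (2 * n) σ) = PsiAux.fr K (finRotate (2 * n + 1)) (Φ σ) := by
  have h1 := push_rot_Tz (m := 2 * n) ((algebraMap (MvPolynomial (Fin (2 * n + 1)) ℂ) K) (C q)) (fun j => (algebraMap (MvPolynomial (Fin (2 * n + 1)) ℂ) K) (X j)) Φ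
  rw [hst.one] at h1
  have h2 : Stat q n (finRotate (2 * n + 1))⁻¹ (push (H974R3.rot (2 * n)) Φ) := by
    intro τ
    have h4 := congrFun h1 τ
    rw [push_smul] at h4
    exact h4.symm
  have h4 := Stat.unique hs hst hu h2 (H974R3.rot (2 * n) σ)
  rw [sum_push, hs, one_mul, push_bij _ (rotInv (2 * n)) (rotInv_rot (2 * n))] at h4
  rw [h4, fr_inv]

end stat

/-! ### the base component -/

section chain

theorem chain_inj {n i j : ℕ} (hi : i < 2 * n + 1) (hj : j < 2 * n + 1)
    (h : chain n i = chain n j) : i = j := by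
  have h1 : (n + i) % (2 * n + 1) = (n + j) % (2 * n + 1) := congrArg Fin.val h
  have e : ∀ k, k < 2 * n + 1 → (n + k) % (2 * n + 1) = if k ≤ n then n + k else k - n - 1 := by
    intro k hk
    split_ifs with h2
    · exact Nat.mod_eq_of_lt (by omega)
    · rw [Nat.mod_eq_sub_mod (by omega), Nat.mod_eq_of_lt (by omega)]
      omega
  rw [e i hi, e j hj] at h1
  split_ifs at h1 <;> omega

theorem chain_surj {n : ℕ} (x : Fin (2 * n + 1)) : ∃ k, k < 2 * n + 1 ∧ chain n k = x := by
  by_cases h : n ≤ x.val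
  · refine ⟨x.val - n, by omega, Fin.ext ?_⟩
    have : n + (x.val - n) = x.val := by omega
    simp only [chain, ix, this]
    exact Nat.mod_eq_of_lt x.isLt
  · refine ⟨x.val + n + 1, by omega, Fin.ext ?_⟩
    have : n + (x.val + n + 1) = x.val + (2 * n + 1) := by omega
    simp only [chain, ix, this, Nat.add_mod_right]
    exact Nat.mod_eq_of_lt x.isLt

theorem Dl_eq (q : ℂ) (n : ℕ) : Dl q n =
    ∏ p ∈ (Finset.range (2 * n + 1)).sigma (fun j => Finset.range j),
      (C q * X (chain n p.1) - C (q ^ 2) * X (chain n p.2)) := by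
  unfold Dl
  rw [Finset.prod_sigma']

theorem Dl_ne (q : ℂ) (hq : q ^ 2 + q + 1 = 0) (n : ℕ) : Dl q n ≠ 0 := by
  have hq0 : q ≠ 0 := by
    rintro rfl
    norm_num at hq
  unfold Dl
  refine Finset.prod_ne_zero_iff.mpr fun j hj => Finset.prod_ne_zero_iff.mpr fun i hi => ?_
  rw [Finset.mem_range] at hj hi
  intro h
  have h1 := congrArg (coeff (Finsupp.single (chain n j) 1)) h
  have hne : chain n i ≠ chain n j := fun h2 => by
    have := chain_inj (by omega) hj h2
    omega
  have hne' : Finsupp.single (chain n i) 1 ≠ (Finsupp.single (chain n j) 1 : Fin (2 * n + 1) →₀ ℕ) :=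
    fun h2 => hne ((Finsupp.single_left_inj one_ne_zero).mp h2)
  rw [coeff_sub, coeff_C_mul, coeff_C_mul, coeff_X, coeff_X, if_pos rfl, if_neg hne', coeff_zero] at h1
  simp [hq0] at h1

theorem Dl_swap (q : ℂ) {n k : ℕ} (hk : k < 2 * n) :
    (C q * X (chain n k) - C (q ^ 2) * X (chain n (k + 1))) * Dl q n
      = (C q * X (chain n (k + 1)) - C (q ^ 2) * X (chain n k))
        * rename (swap (chain n k) (chain n (k + 1))) (Dl q n) := by
  rw [Dl_eq]
  set s := (Finset.range (2 * n + 1)).sigma (fun j => Finset.range j) with hs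
  have hmem : (⟨k + 1, k⟩ : (_ : ℕ) × ℕ) ∈ s := by
    simp only [hs, Finset.mem_sigma, Finset.mem_range]
    omega
  have hsw : ∀ j, j < 2 * n + 1 →
      swap (chain n k) (chain n (k + 1)) (chain n j) = chain n (swap k (k + 1) j) := by
    intro j hj
    rw [swap_apply_def, swap_apply_def]
    by_cases h1 : j = k
    · subst h1; simp
    · by_cases h2 : j = k + 1
      · subst h2
        rw [if_neg, if_neg h1, if_pos rfl, if_pos rfl]
        intro h3
        exact h1 (chain_inj (by omega) (by omega) h3)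
      · rw [if_neg, if_neg, if_neg h1, if_neg h2]
        · intro h3
          exact h2 (chain_inj hj (by omega) h3)
        · intro h3
          exact h1 (chain_inj hj (by omega) h3)
  rw [map_prod, ← Finset.mul_prod_erase s _ hmem, ← Finset.mul_prod_erase s
    (fun p => rename (swap (chain n k) (chain n (k + 1)))
      (C q * X (chain n p.1) - C (q ^ 2) * X (chain n p.2))) hmem]
  have key : ∏ p ∈ s.erase ⟨k + 1, k⟩, rename (swap (chain n k) (chain n (k + 1)))
      (C q * X (chain n p.1) - C (q ^ 2) * X (chain n p.2))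
      = ∏ p ∈ s.erase ⟨k + 1, k⟩, (C q * X (chain n p.1) - C (q ^ 2) * X (chain n p.2)) := by
    refine Finset.prod_bij' (fun p _ => ⟨swap k (k + 1) p.1, swap k (k + 1) p.2⟩)
      (fun p _ => ⟨swap k (k + 1) p.1, swap k (k + 1) p.2⟩) ?_ ?_ ?_ ?_ ?_
    · rintro ⟨j, i⟩ hp
      simp only [hs, Finset.mem_erase, ne_eq, Sigma.mk.injEq, heq_eq_eq, Finset.mem_sigma,
        Finset.mem_range, swap_apply_def] at hp ⊢
      split_ifs <;> omega
    · rintro ⟨j, i⟩ hp
      simp only [hs, Finset.mem_erase, ne_eq, Sigma.mk.injEq, heq_eq_eq, Finset.mem_sigma,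
        Finset.mem_range, swap_apply_def] at hp ⊢
      split_ifs <;> omega
    · rintro ⟨j, i⟩ hp
      simp
    · rintro ⟨j, i⟩ hp
      simp
    · rintro ⟨j, i⟩ hp
      simp only [hs, Finset.mem_erase, ne_eq, Sigma.mk.injEq, heq_eq_eq, Finset.mem_sigma,
        Finset.mem_range] at hp
      simp only [map_sub, map_mul, rename_C, rename_X]
      rw [hsw j (by omega), hsw i (by omega)]
  rw [key]
  simp only [map_sub, map_mul, rename_C, rename_X, swap_apply_left, swap_apply_right]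
  ring

theorem sum_count (k : ℕ) : ∀ L : ℕ, ∑ j ∈ Finset.range L, ∑ i ∈ Finset.range j,
    ((if j = k then 1 else 0) + (if i = k then 1 else 0)) = if k < L then L - 1 else 0 := by
  intro L
  induction L with
  | zero => simp
  | succ L ih =>
    rw [Finset.sum_range_succ, ih]
    have h1 : ∑ i ∈ Finset.range L, ((if L = k then 1 else 0) + (if i = k then 1 else 0))
        = (if L = k then L else 0) + (if k < L then 1 else 0) := by
      rw [Finset.sum_add_distrib, Finset.sum_ite_eq' (Finset.range L) k]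
      simp only [Finset.mem_range]
      split_ifs <;> simp
    rw [h1]
    split_ifs <;> omega

theorem degreeOf_fac {N : ℕ} (a b : ℂ) (x y k : Fin N) :
    degreeOf k (C a * X x - C b * X y : MvPolynomial (Fin N) ℂ)
      ≤ max (if k = x then 1 else 0) (if k = y then 1 else 0) := by
  refine (degreeOf_sub_le _ _ _).trans (max_le_max ?_ ?_)
  · refine (degreeOf_C_mul_le _ _ _).trans ?_
    rw [degreeOf_X]
  · refine (degreeOf_C_mul_le _ _ _).trans ?_
    rw [degreeOf_X]

theorem Dl_deg (q : ℂ) (n : ℕ) (x : Fin (2 * n + 1)) : degreeOf x (Dl q n) ≤ 2 * n := by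
  obtain ⟨k, hk, rfl⟩ := chain_surj x
  unfold Dl
  refine (degreeOf_prod_le _ _ _).trans ?_
  calc ∑ j ∈ Finset.range (2 * n + 1), degreeOf (chain n k)
        (∏ i ∈ Finset.range j, (C q * X (chain n j) - C (q ^ 2) * X (chain n i)))
      ≤ ∑ j ∈ Finset.range (2 * n + 1), ∑ i ∈ Finset.range j,
        ((if j = k then 1 else 0) + (if i = k then 1 else 0)) := by
        refine Finset.sum_le_sum fun j hj => (degreeOf_prod_le _ _ _).trans
          (Finset.sum_le_sum fun i hi => (degreeOf_fac _ _ _ _ _).trans ?_)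
        rw [Finset.mem_range] at hj hi
        have e : ∀ l, l < 2 * n + 1 → (if chain n k = chain n l then 1 else 0)
            ≤ (if l = k then 1 else 0) := by
          intro l hl
          by_cases h : chain n k = chain n l
          · rw [if_pos (chain_inj hk hl h).symm, if_pos h]
          · rw [if_neg h]; exact Nat.zero_le _
        have e1 := e j hj
        have e2 := e i (by omega)
        refine max_le ?_ ?_ <;> omega
    _ = 2 * n := by
        rw [sum_count, if_pos hk]
        omega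

end chain

section dd
variable {N : ℕ}

theorem sub_ne {a b : Fin N} (h : a ≠ b) : (X a - X b : MvPolynomial (Fin N) ℂ) ≠ 0 := by
  intro h1
  exact h (X_injective (sub_eq_zero.mp h1))

theorem dvd_swap (a b : Fin N) (P : MvPolynomial (Fin N) ℂ) :
    (X a - X b) ∣ rename (swap a b) P - P := by
  induction P using MvPolynomial.induction_on with
  | C c => simp
  | add P Q hP hQ =>
    have : rename (swap a b) (P + Q) - (P + Q)
        = (rename (swap a b) P - P) + (rename (swap a b) Q - Q) := by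
      rw [map_add]; ring
    rw [this]
    exact dvd_add hP hQ
  | mul_X P k hP =>
    have h1 : rename (swap a b) (P * X k) - P * X k
        = (rename (swap a b) P - P) * X (swap a b k) + P * (X (swap a b k) - X k) := by
      rw [map_mul, rename_X]; ring
    rw [h1]
    refine dvd_add (Dvd.dvd.mul_right hP _) (Dvd.dvd.mul_left ?_ _)
    rw [swap_apply_def]
    split_ifs with h2 h3
    · subst h2
      exact ⟨-1, by ring⟩
    · subst h3
      exact ⟨1, by ring⟩
    · simp

theorem degreeOf_sub_eq {a b : Fin N} (h : a ≠ b) (k : Fin N) :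
    max (if k = a then 1 else 0) (if k = b then 1 else 0)
      ≤ degreeOf k (X a - X b : MvPolynomial (Fin N) ℂ) := by
  have hs : ∀ c : Fin N, (c = a ∨ c = b) → 1 ≤ degreeOf c (X a - X b : MvPolynomial (Fin N) ℂ) := by
    intro c hc
    have h1 : Finsupp.single c 1 ∈ (X a - X b : MvPolynomial (Fin N) ℂ).support := by
      rw [mem_support_iff, coeff_sub, coeff_X, coeff_X]
      have e : ∀ d e : Fin N, (Finsupp.single d 1 = (Finsupp.single e 1 : Fin N →₀ ℕ)) ↔ d = e :=
        fun d e => Finsupp.single_left_inj one_ne_zero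
      rcases hc with hc | hc
      · subst hc
        rw [if_pos rfl, if_neg (fun h' => h ((e _ _).mp h').symm)]
        simp
      · subst hc
        rw [if_pos rfl, if_neg (fun h' => h ((e _ _).mp h'))]
        simp
    have h2 := le_degreeOf_of_mem_support c h1
    simpa using h2
  refine max_le ?_ ?_
  · split_ifs with h1
    · exact hs k (Or.inl h1)
    · exact Nat.zero_le _
  · split_ifs with h1
    · exact hs k (Or.inr h1)
    · exact Nat.zero_le _

theorem degreeOf_rename_perm (p : Perm (Fin N)) (P : MvPolynomial (Fin N) ℂ) (d : ℕ)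
    (h : ∀ k, degreeOf k P ≤ d) (k : Fin N) : degreeOf k (rename p P) ≤ d := by
  have h1 := degreeOf_rename_of_injective (p := P) p.injective (p.symm k)
  rw [apply_symm_apply] at h1
  rw [h1]
  exact h _

/-- the divided difference does not increase the partial degrees -/
theorem exists_dd (q : ℂ) {a b : Fin N} (hab : a ≠ b) (P : MvPolynomial (Fin N) ℂ) (d : ℕ)
    (h : ∀ k, degreeOf k P ≤ d) :
    ∃ T : MvPolynomial (Fin N) ℂ, (∀ k, degreeOf k T ≤ d) ∧
      (X a - X b) * T = (C q * X b - C (q ^ 2) * X a) * (rename (swap a b) P - P) := by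
  obtain ⟨Q, hQ⟩ := dvd_swap a b P
  by_cases hQ0 : Q = 0
  · refine ⟨0, fun k => by simp, ?_⟩
    rw [hQ, hQ0]; ring
  refine ⟨(C q * X b - C (q ^ 2) * X a) * Q, fun k => ?_, ?_⟩
  · have h1 : degreeOf k (rename (swap a b) P - P) ≤ d :=
      (degreeOf_sub_le _ _ _).trans (max_le (degreeOf_rename_perm _ P d h k) (h k))
    rw [hQ, degreeOf_mul_eq (sub_ne hab) hQ0] at h1
    have h2 := degreeOf_sub_eq hab k
    have h3 := degreeOf_fac q (q ^ 2) b a k
    have h4 := degreeOf_mul_le k (C q * X b - C (q ^ 2) * X a) Q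
    rw [max_comm] at h3
    omega
  · rw [hQ]; ring

end dd

/-! ### symmetry of the quotient and polynomiality -/

section main
variable {n : ℕ} {K : Type} [Field K] [Algebra (MvPolynomial (Fin (2 * n + 1)) ℂ) K]
  [IsFractionRing (MvPolynomial (Fin (2 * n + 1)) ℂ) K]


/-- an element of the field of rational functions invariant under the adjacent transpositions
of the chain is symmetric -/
theorem sym_of_chain (S : K)
    (h : ∀ k, k < 2 * n → fr K (swap (chain n k) (chain n (k + 1))) S = S)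
    (p : Perm (Fin (2 * n + 1))) : fr K p S = S := by
  let r : Perm (Fin (2 * n + 1)) := Equiv.addRight (⟨n, by omega⟩ : Fin (2 * n + 1))
  have hr : ∀ j : Fin (2 * n + 1), r j = chain n j.val := by
    intro j
    apply Fin.ext
    simp only [r, coe_addRight, Fin.val_add, chain, ix]
    rw [add_comm]
  have key : ∀ p : Perm (Fin (2 * n + 1)), fr K (r * p * r⁻¹) S = S := by
    intro p
    have hp : p ∈ Submonoid.closure (Set.range fun i : Fin (2 * n) => swap i.castSucc i.succ) := by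
      rw [Perm.mclosure_swap_castSucc_succ]
      trivial
    induction hp using Submonoid.closure_induction with
    | mem x hx =>
      obtain ⟨i, rfl⟩ := hx
      have e : r * swap i.castSucc i.succ * r⁻¹ = swap (chain n i.val) (chain n (i.val + 1)) := by
        rw [← swap_apply_apply, hr, hr]
        rfl
      simp only [e]
      exact h i.val i.isLt
    | one =>
      rw [mul_one, mul_inv_cancel, fr_one]
    | mul x y _ _ hx hy =>
      have e : r * (x * y) * r⁻¹ = (r * x * r⁻¹) * (r * y * r⁻¹) := by group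
      rw [e, fr_mul, hy, hx]
  have h1 := key (r⁻¹ * p * r)
  have e : r * (r⁻¹ * p * r) * r⁻¹ = p := by group
  rwa [e] at h1

omit [Algebra (MvPolynomial (Fin (2 * n + 1)) ℂ) K]
  [IsFractionRing (MvPolynomial (Fin (2 * n + 1)) ℂ) K] in
theorem push_E_base (hn : 1 ≤ n) {i : ℕ} (hi : i < 2 * n + 1) (hi2 : i + 1 ≠ n)
    (Φ : Pat (2 * n + 1) → K) : push (E (2 * n) i) Φ (base n) = 0 := by
  unfold push
  refine Finset.sum_eq_zero fun τ _ => ?_
  rw [if_neg (base_no_arc hi hi2 hn τ)]

theorem ix_per (m i : ℕ) : ix m (i + (m + 1)) = ix m i := by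
  apply Fin.ext
  simp [ix]

/-- the base component divided by the product is symmetric -/
theorem base_sym {q : ℂ} (hq : q ^ 2 + q + 1 = 0) (hn : 1 ≤ n) {Φ : Pat (2 * n + 1) → K}
    (hex : ∀ i : ℕ, ∀ σ : Pat (2 * n + 1),
      (algebraMap (MvPolynomial (Fin (2 * n + 1)) ℂ) K) (C q * X (ix (2 * n) i) - C (q ^ 2) * X (ix (2 * n) (i + 1))) * Φ σ
        + (algebraMap (MvPolynomial (Fin (2 * n + 1)) ℂ) K) (X (ix (2 * n) i) - X (ix (2 * n) (i + 1))) * push (E (2 * n) i) Φ σ
        = (algebraMap (MvPolynomial (Fin (2 * n + 1)) ℂ) K) (C q * X (ix (2 * n) (i + 1)) - C (q ^ 2) * X (ix (2 * n) i))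
          * fr K (swap (ix (2 * n) i) (ix (2 * n) (i + 1))) (Φ σ))
    (p : Perm (Fin (2 * n + 1))) :
    fr K p (Φ (base n) / (algebraMap (MvPolynomial (Fin (2 * n + 1)) ℂ) K) (Dl q n)) = Φ (base n) / (algebraMap (MvPolynomial (Fin (2 * n + 1)) ℂ) K) (Dl q n) := by
  have hDl : ∀ P : MvPolynomial (Fin (2 * n + 1)) ℂ, P ≠ 0 → (algebraMap (MvPolynomial (Fin (2 * n + 1)) ℂ) K) P ≠ 0 := by
    intro P hP h0
    apply hP
    apply al_inj (K := K)
    rw [h0, map_zero]
  refine sym_of_chain _ (fun k hk => ?_) p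
  have hDlr : rename (swap (chain n k) (chain n (k + 1))) (Dl q n) ≠ 0 := by
    intro h0
    apply Dl_ne q hq n
    apply rename_injective _ (swap (chain n k) (chain n (k + 1))).injective
    rw [h0, map_zero]
  have hfac : (C q * X (chain n (k + 1)) - C (q ^ 2) * X (chain n k) :
      MvPolynomial (Fin (2 * n + 1)) ℂ) ≠ 0 := by
    intro h0
    have h1 := Dl_swap q hk
    rw [h0, zero_mul] at h1
    have h2 := congrArg (rename (swap (chain n k) (chain n (k + 1)))) h0
    rw [map_sub, map_mul, map_mul, rename_C, rename_C, rename_X, rename_X, swap_apply_left,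
      swap_apply_right, map_zero] at h2
    have hne : chain n k ≠ chain n (k + 1) := fun h2 => by
      have := chain_inj (by omega) (by omega) h2
      omega
    have hq0 : q ≠ 0 := by
      rintro rfl
      norm_num at hq
    have h3 := congrArg (coeff (Finsupp.single (chain n k) 1)) h2
    have hne' : Finsupp.single (chain n (k + 1)) 1
        ≠ (Finsupp.single (chain n k) 1 : Fin (2 * n + 1) →₀ ℕ) :=
      fun h2 => hne ((Finsupp.single_left_inj one_ne_zero).mp h2).symm
    rw [coeff_sub, coeff_C_mul, coeff_C_mul, coeff_X, coeff_X, if_pos rfl, if_neg hne',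
      coeff_zero] at h3
    simp [hq0] at h3
  -- the exchange relation at the base component
  have h1 : (algebraMap (MvPolynomial (Fin (2 * n + 1)) ℂ) K) (C q * X (chain n k) - C (q ^ 2) * X (chain n (k + 1))) * Φ (base n)
      = (algebraMap (MvPolynomial (Fin (2 * n + 1)) ℂ) K) (C q * X (chain n (k + 1)) - C (q ^ 2) * X (chain n k))
        * fr K (swap (chain n k) (chain n (k + 1))) (Φ (base n)) := by
    have h2 := hex (if n + k < 2 * n + 1 then n + k else n + k - (2 * n + 1)) (base n)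
    rw [push_E_base hn (by split_ifs <;> omega) (by split_ifs <;> omega), mul_zero,
      add_zero] at h2
    have e1 : ix (2 * n) (if n + k < 2 * n + 1 then n + k else n + k - (2 * n + 1))
        = chain n k := by
      split_ifs with h3
      · rfl
      · rw [← ix_per]
        unfold chain
        congr 1
        omega
    have e2 : ix (2 * n) ((if n + k < 2 * n + 1 then n + k else n + k - (2 * n + 1)) + 1)
        = chain n (k + 1) := by
      split_ifs with h3
      · rfl
      · rw [← ix_per]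
        unfold chain
        congr 1
        omega
    rw [e1, e2] at h2
    exact h2
  have h2 := congrArg ((algebraMap (MvPolynomial (Fin (2 * n + 1)) ℂ) K)) (Dl_swap q hk)
  rw [map_mul, map_mul] at h2
  rw [map_div₀, fr_alg, div_eq_div_iff (hDl _ hDlr) (hDl _ (Dl_ne q hq n))]
  apply mul_left_cancel₀ (hDl _ hfac)
  linear_combination (-(algebraMap (MvPolynomial (Fin (2 * n + 1)) ℂ) K) (Dl q n)) * h1 + Φ (base n) * h2

/-- polynomial with all partial degrees at most `2n` -/
def Good (n : ℕ) {K : Type} [Field K] [Algebra (MvPolynomial (Fin (2 * n + 1)) ℂ) K] (x : K) :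
    Prop :=
  ∃ P : MvPolynomial (Fin (2 * n + 1)) ℂ, (∀ k, degreeOf k P ≤ 2 * n) ∧
    algebraMap (MvPolynomial (Fin (2 * n + 1)) ℂ) K P = x

omit [IsFractionRing (MvPolynomial (Fin (2 * n + 1)) ℂ) K] in
theorem Good.zero : Good n (0 : K) := ⟨0, fun k => by simp, by simp⟩

omit [IsFractionRing (MvPolynomial (Fin (2 * n + 1)) ℂ) K] in
theorem Good.sub {x y : K} (hx : Good n x) (hy : Good n y) : Good n (x - y) := by
  obtain ⟨P, hP, rfl⟩ := hx
  obtain ⟨Q, hQ, rfl⟩ := hy
  exact ⟨P - Q, fun k => (degreeOf_sub_le _ _ _).trans (max_le (hP k) (hQ k)), by rw [map_sub]⟩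

omit [IsFractionRing (MvPolynomial (Fin (2 * n + 1)) ℂ) K] in
theorem Good.add {x y : K} (hx : Good n x) (hy : Good n y) : Good n (x + y) := by
  obtain ⟨P, hP, rfl⟩ := hx
  obtain ⟨Q, hQ, rfl⟩ := hy
  exact ⟨P + Q, fun k => (degreeOf_add_le _ _ _).trans (max_le (hP k) (hQ k)), by rw [map_add]⟩

omit [IsFractionRing (MvPolynomial (Fin (2 * n + 1)) ℂ) K] in
theorem Good.sum {ι : Type*} (s : Finset ι) (f : ι → K) (h : ∀ i ∈ s, Good n (f i)) :
    Good n (∑ i ∈ s, f i) := by
  classical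
  induction s using Finset.induction_on with
  | empty => rw [Finset.sum_empty]; exact Good.zero
  | insert a s ha ih =>
    rw [Finset.sum_insert ha]
    exact (h a (Finset.mem_insert_self _ _)).add (ih fun i hi => h i (Finset.mem_insert_of_mem hi))

/-- polynomiality of the components with the defect at the last position -/
theorem good_last {q : ℂ} (hq : q ^ 2 + q + 1 = 0) {Ψ : Pat (2 * n + 1) → K}
    (hex : ∀ i : ℕ, ∀ σ : Pat (2 * n + 1),
      (algebraMap (MvPolynomial (Fin (2 * n + 1)) ℂ) K) (C q * X (ix (2 * n) i) - C (q ^ 2) * X (ix (2 * n) (i + 1))) * Ψ σ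
        + (algebraMap (MvPolynomial (Fin (2 * n + 1)) ℂ) K) (X (ix (2 * n) i) - X (ix (2 * n) (i + 1))) * push (E (2 * n) i) Ψ σ
        = (algebraMap (MvPolynomial (Fin (2 * n + 1)) ℂ) K) (C q * X (ix (2 * n) (i + 1)) - C (q ^ 2) * X (ix (2 * n) i))
          * fr K (swap (ix (2 * n) i) (ix (2 * n) (i + 1))) (Ψ σ))
    (hb : Ψ (base n) = (algebraMap (MvPolynomial (Fin (2 * n + 1)) ℂ) K) (Dl q n)) :
    ∀ N : ℕ, ∀ σ : Pat (2 * n + 1), (2 * n + 1) * (2 * n + 1) - len σ ≤ N →
      σ.1 none = some (Fin.last (2 * n)) → Good n (Ψ σ) := by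
  intro N
  induction N with
  | zero =>
    intro σ hN hd
    by_cases hσ : σ = base n
    · rw [hσ]
      exact ⟨Dl q n, Dl_deg q n, hb.symm⟩
    · obtain ⟨i, -, -, -, hlen, -⟩ := tri_step n σ hd hσ
      have := len_le (E (2 * n) i σ)
      omega
  | succ N ih =>
    intro σ hN hd
    by_cases hσ : σ = base n
    · rw [hσ]
      exact ⟨Dl q n, Dl_deg q n, hb.symm⟩
    obtain ⟨i, hi, hne, hd', hlen, hτ⟩ := tri_step n σ hd hσ
    set σ' := E (2 * n) i σ with hσ'
    have hidem : E (2 * n) i σ' = σ' := by rw [hσ', E_idem]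
    have hle := len_le σ'
    obtain ⟨P, hP, hPσ⟩ := ih σ' (by omega) hd'
    have hab : ix (2 * n) i ≠ ix (2 * n) (i + 1) := by
      intro h
      have h1 := congrArg Fin.val h
      simp only [ix] at h1
      rw [Nat.mod_eq_of_lt (by omega), Nat.mod_eq_of_lt (by omega)] at h1
      omega
    obtain ⟨T, hT, hTe⟩ := exists_dd q hab P (2 * n) hP
    set W : K := ∑ τ ∈ (Finset.univ.erase σ).erase σ', if E (2 * n) i τ = σ' then Ψ τ else 0
      with hW
    have hpush : push (E (2 * n) i) Ψ σ' = Ψ σ + (Ψ σ' + W) := by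
      unfold push
      rw [hW, ← Finset.add_sum_erase Finset.univ _ (Finset.mem_univ σ), if_pos hσ'.symm,
        ← Finset.add_sum_erase (Finset.univ.erase σ) _
          (Finset.mem_erase.mpr ⟨hne, Finset.mem_univ σ'⟩), if_pos hidem]
    have hWg : Good n W := by
      refine Good.sum _ _ fun τ hτ2 => ?_
      rw [Finset.mem_erase, Finset.mem_erase] at hτ2
      split_ifs with h1
      · obtain ⟨h2, h3⟩ := hτ τ h1 hτ2.2.1 hτ2.1
        exact ih τ (by omega) h2
      · exact Good.zero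
    have h1 := hex i σ'
    rw [hpush, ← hPσ, fr_alg] at h1
    have h2 := congrArg ((algebraMap (MvPolynomial (Fin (2 * n + 1)) ℂ) K)) hTe
    have hCq : (C q : MvPolynomial (Fin (2 * n + 1)) ℂ) ^ 2 + C q + 1 = 0 := by
      rw [← C_1, ← C_pow, ← C_add, ← C_add, hq, C_0]
    have h3 := congrArg ((algebraMap (MvPolynomial (Fin (2 * n + 1)) ℂ) K)) hCq
    have hne0 : (algebraMap (MvPolynomial (Fin (2 * n + 1)) ℂ) K) (X (ix (2 * n) i) - X (ix (2 * n) (i + 1))) ≠ 0 := by
      intro h0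
      apply sub_ne hab
      apply al_inj (K := K)
      rw [h0, map_zero]
    have h4 : Ψ σ + W = (algebraMap (MvPolynomial (Fin (2 * n + 1)) ℂ) K) T := by
      apply mul_left_cancel₀ hne0
      simp only [map_sub, map_mul, map_pow, map_add, map_one, map_zero] at h1 h2 h3 ⊢
      linear_combination h1 - h2 - ((algebraMap (MvPolynomial (Fin (2 * n + 1)) ℂ) K) (X (ix (2 * n) i)) - (algebraMap (MvPolynomial (Fin (2 * n + 1)) ℂ) K) (X (ix (2 * n) (i + 1)))) * (algebraMap (MvPolynomial (Fin (2 * n + 1)) ℂ) K) P * h3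
    have h5 : Ψ σ = (algebraMap (MvPolynomial (Fin (2 * n + 1)) ℂ) K) T - W := by rw [← h4]; ring
    rw [h5]
    exact Good.sub ⟨T, hT, rfl⟩ hWg

theorem good_rot {Ψ : Pat (2 * n + 1) → K}
    (hrot : ∀ σ, Ψ (rot (2 * n) σ) = fr K (finRotate (2 * n + 1)) (Ψ σ)) :
    ∀ (k : ℕ) (σ : Pat (2 * n + 1)), Good n (Ψ ((rot (2 * n))^[k] σ)) → Good n (Ψ σ) := by
  intro k
  induction k with
  | zero => intro σ h; exact h
  | succ k ih =>
    intro σ h
    rw [Function.iterate_succ_apply] at h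
    obtain ⟨P, hP, hPe⟩ := ih _ h
    refine ⟨rename (⇑(finRotate (2 * n + 1))⁻¹) P, degreeOf_rename_perm _ P _ hP, ?_⟩
    rw [← fr_alg, hPe, hrot, fr_inv']

theorem good_all {q : ℂ} (hq : q ^ 2 + q + 1 = 0) {Ψ : Pat (2 * n + 1) → K}
    (hex : ∀ i : ℕ, ∀ σ : Pat (2 * n + 1),
      (algebraMap (MvPolynomial (Fin (2 * n + 1)) ℂ) K) (C q * X (ix (2 * n) i) - C (q ^ 2) * X (ix (2 * n) (i + 1))) * Ψ σ
        + (algebraMap (MvPolynomial (Fin (2 * n + 1)) ℂ) K) (X (ix (2 * n) i) - X (ix (2 * n) (i + 1))) * push (E (2 * n) i) Ψ σ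
        = (algebraMap (MvPolynomial (Fin (2 * n + 1)) ℂ) K) (C q * X (ix (2 * n) (i + 1)) - C (q ^ 2) * X (ix (2 * n) i))
          * fr K (swap (ix (2 * n) i) (ix (2 * n) (i + 1))) (Ψ σ))
    (hb : Ψ (base n) = (algebraMap (MvPolynomial (Fin (2 * n + 1)) ℂ) K) (Dl q n))
    (hrot : ∀ σ, Ψ (rot (2 * n) σ) = fr K (finRotate (2 * n + 1)) (Ψ σ))
    (σ : Pat (2 * n + 1)) : Good n (Ψ σ) := by
  obtain ⟨k, hk⟩ := rot_to_last n σ
  exact good_rot hrot k σ (good_last hq hex hb _ _ le_rfl hk)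

theorem push_map {X Y : Type*} [Fintype X] [DecidableEq Y] {R S : Type*} [CommRing R]
    [CommRing S] (g : R →+* S) (f : X → Y) (v : X → R) (y : Y) :
    g (push f v y) = push f (fun x => g (v x)) y := by
  simp only [push, map_sum]
  refine Finset.sum_congr rfl fun x _ => ?_
  split_ifs <;> simp

/-- the polynomial ground state, from the rational one -/
theorem psi_of_phi {q : ℂ} (hq : q ^ 2 + q + 1 = 0) (hn : 1 ≤ n) {Φ : Pat (2 * n + 1) → K}
    (hs : ∑ σ, Φ σ = 1) (hst : Stat q n 1 Φ) (hb : Φ (base n) ≠ 0)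
    (hu : ∀ v : Pat (2 * n + 1) → K, Stat q n 1 v → ∑ σ, v σ = 0 → v = 0) :
    ∃ Ψ : Pat (2 * n + 1) → MvPolynomial (Fin (2 * n + 1)) ℂ, PsiSpec q n Ψ := by
  have hex := Stat.exch hq hn hs hst hu
  have hrot := Stat.rot hs hst hu
  have hDl : (algebraMap (MvPolynomial (Fin (2 * n + 1)) ℂ) K) (Dl q n) ≠ 0 := by
    intro h0
    apply Dl_ne q hq n
    apply al_inj (K := K)
    rw [h0, map_zero]
  obtain ⟨S, hS⟩ : ∃ S, S = Φ (base n) / (algebraMap (MvPolynomial (Fin (2 * n + 1)) ℂ) K) (Dl q n) := ⟨_, rfl⟩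
  have hS0 : S ≠ 0 := by
    rw [hS]
    exact div_ne_zero hb hDl
  have hSsym : ∀ p : Perm (Fin (2 * n + 1)), fr K p S⁻¹ = S⁻¹ := by
    intro p
    rw [map_inv₀, hS, base_sym hq hn hex]
  have hex' : ∀ i : ℕ, ∀ σ : Pat (2 * n + 1),
      (algebraMap (MvPolynomial (Fin (2 * n + 1)) ℂ) K) (C q * X (ix (2 * n) i) - C (q ^ 2) * X (ix (2 * n) (i + 1))) * (S⁻¹ * Φ σ)
        + (algebraMap (MvPolynomial (Fin (2 * n + 1)) ℂ) K) (X (ix (2 * n) i) - X (ix (2 * n) (i + 1)))
          * push (E (2 * n) i) (fun τ => S⁻¹ * Φ τ) σ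
        = (algebraMap (MvPolynomial (Fin (2 * n + 1)) ℂ) K) (C q * X (ix (2 * n) (i + 1)) - C (q ^ 2) * X (ix (2 * n) i))
          * fr K (swap (ix (2 * n) i) (ix (2 * n) (i + 1))) (S⁻¹ * Φ σ) := by
    intro i σ
    rw [push_smul, map_mul (fr K _), hSsym]
    linear_combination S⁻¹ * hex i σ
  have hb' : S⁻¹ * Φ (base n) = (algebraMap (MvPolynomial (Fin (2 * n + 1)) ℂ) K) (Dl q n) := by
    rw [hS]
    field_simp
  have hrot' : ∀ σ, S⁻¹ * Φ (rot (2 * n) σ) = fr K (finRotate (2 * n + 1)) (S⁻¹ * Φ σ) := by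
    intro σ
    rw [map_mul, hSsym, hrot]
  have hgood := good_all hq (Ψ := fun τ => S⁻¹ * Φ τ) hex' hb' hrot'
  choose Ψ hdeg hΨ using hgood
  refine ⟨Ψ, ?_, ?_, ?_, ?_, ?_⟩
  · apply al_inj (K := K)
    rw [hΨ, hb']
  · intro i _ σ
    apply al_inj (K := K)
    have h1 := hex' i σ
    rw [map_add, map_mul, map_mul, map_mul, push_map, ← fr_alg]
    simp only [hΨ]
    exact h1
  · intro σ
    apply al_inj (K := K)
    rw [hΨ, ← fr_alg, hΨ]
    exact hrot' σ
  · exact fun σ k => hdeg σ k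
  · funext σ
    apply al_inj (K := K)
    rw [Tz_map]
    simp only [hΨ]
    rw [Tz_smul, hst.one, map_mul, map_prod, hΨ]
    simp only [map_add, map_one]
    ring

end main

theorem pat_one (σ τ : Pat 1) : σ = τ := by
  apply Subtype.ext
  apply Equiv.ext
  have h : ∀ ρ : Pat 1, ρ.1 none = some 0 ∧ ρ.1 (some 0) = none := by
    intro ρ
    have h1 := ρ.2.nofix none
    have h2 := ρ.2.nofix (some 0)
    constructor
    · rcases h3 : ρ.1 none with _ | k
      · exact absurd h3 h1
      · rw [Subsingleton.elim k 0]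
    · rcases h3 : ρ.1 (some 0) with _ | k
      · rfl
      · rw [Subsingleton.elim k 0] at h3
        exact absurd h3 h2
  intro v
  rcases v with _ | k
  · rw [(h σ).1, (h τ).1]
  · rw [Subsingleton.elim k 0, (h σ).2, (h τ).2]

theorem psi_zero (q : ℂ) (hq : q ^ 2 + q + 1 = 0) :
    ∃ Ψ : Pat (2 * 0 + 1) → MvPolynomial (Fin (2 * 0 + 1)) ℂ, PsiSpec q 0 Ψ := by
  refine ⟨fun _ => 1, ?_, ?_, ?_, ?_, ?_⟩
  · simp [Dl]
  · intro i hi
    omega
  · intro σ
    rw [map_one]
  · intro σ i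
    rw [degreeOf_one]
  · funext σ
    have hCq : (C q : MvPolynomial (Fin (2 * 0 + 1)) ℂ) ^ 2 + C q + 1 = 0 := by
      rw [← C_1, ← C_pow, ← C_add, ← C_add, hq, C_0]
    have h1 := sum_Tz (m := 2 * 0) (C q) hCq X (fun _ => 1)
    have h2 : ∀ f : Pat (2 * 0 + 1) → MvPolynomial (Fin (2 * 0 + 1)) ℂ, ∑ τ, f τ = f σ := by
      intro f
      rw [Finset.sum_eq_single σ]
      · intro τ _ h
        exact absurd (pat_one τ σ) h
      · intro h
        exact absurd (Finset.mem_univ σ) h
    rw [h2, h2] at h1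
    exact h1

end Pool.Agent.H974R3.PsiAux

namespace Pool.Agent.H974R3
open Equiv MvPolynomial PsiAux

/-- existence of the polynomial ground state -/
theorem exists_psi (q : ℂ) (hq : q ^ 2 + q + 1 = 0) (n : ℕ) :
    ∃ Ψ : Pat (2 * n + 1) → MvPolynomial (Fin (2 * n + 1)) ℂ, PsiSpec q n Ψ := by
  rcases Nat.eq_zero_or_pos n with rfl | hn
  · exact psi_zero q hq
  obtain ⟨Φ, hs, hst, hb, hu⟩ := exists_Phi q hq n
  refine psi_of_phi hq hn (Φ := Φ) hs (fun σ => ?_) hb (fun v hv h0 => hu v (funext fun σ => ?_) h0)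
  · have := congrFun hst σ
    simpa only [Perm.coe_one, id] using this
  · have := hv σ
    simpa only [Perm.coe_one, id] using this
end Pool.Agent.H974R3
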