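import Pool.Agent.H974R3.Defs
import Pool.Agent.H974R3.Rel

/-!
# Insertion relations
-/

namespace Pool.Agent.H974R3
open Equiv


namespace InsAux

/-- value of a join of a fixed point free involution -/
lemma join_ite {α : Type*} [DecidableEq α] {s : Perm α} (hinv : ∀ v, s (s v) = v)
    (hfix : ∀ v, s v ≠ v) {a b : α} (hab : a ≠ b) (v : α) :
    join a b s v = if v = a then b else if v = b then a else if v = s a then s b
      else if v = s b then s a else s v := by
  have hinj : ∀ x y, s x = s y → x = y := fun x y h => s.injective h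
  unfold join
  simp only [Perm.mul_apply, swap_apply_def]
  have h1 := hinv a
  have h2 := hinv b
  have h3 := hfix a
  have h4 := hfix b
  have h5 := hinv v
  have h6 := hfix v
  have h7 := hinj a b
  have h8 := hinj v a
  have h9 := hinj v b
  grind

lemma join_inv {α : Type*} [DecidableEq α] {s : Perm α} (hinv : ∀ v, s (s v) = v) (a b : α) :
    ∀ v, join a b s (join a b s v) = v := by
  intro v
  unfold join
  simp only [Perm.mul_apply, swap_apply_self, hinv]

lemma join_fix {α : Type*} [DecidableEq α] {s : Perm α} (hfix : ∀ v, s v ≠ v) (a b : α) :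
    ∀ v, join a b s v ≠ v := by
  intro v h
  unfold join at h
  simp only [Perm.mul_apply] at h
  have h1 := congrArg (swap b (s a)) h
  rw [swap_apply_self] at h1
  exact hfix _ h1

lemma join_comm {α : Type*} [DecidableEq α] {s : Perm α} (hinv : ∀ v, s (s v) = v)
    (hfix : ∀ v, s v ≠ v) {a b : α} (hab : a ≠ b) : join a b s = join b a s := by
  ext v
  rw [join_ite hinv hfix hab, join_ite hinv hfix hab.symm]
  have h1 := hinv a
  have h2 := hinv b
  have h3 : s a = s b → a = b := fun h => s.injective h
  grind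

/-- the zigzag relation -/
lemma join_zigzag {α : Type*} [DecidableEq α] {s : Perm α} (hinv : ∀ v, s (s v) = v)
    (hfix : ∀ v, s v ≠ v) {a0 a1 f l : α} (h01 : a0 ≠ a1) (h0f : a0 ≠ f) (h1f : a1 ≠ f)
    (h0l : a0 ≠ l) (h1l : a1 ≠ l) (hfl : l ≠ f) (hs : s a0 = a1) :
    join a0 a1 (join l a0 (join a1 f s)) = join l f s := by
  have hs' : s a1 = a0 := by rw [← hs, hinv]
  have i1 := join_inv hinv a1 f
  have f1 := join_fix hfix a1 f
  have e1 := join_ite hinv hfix h1f
  set s1 := join a1 f s with hs1
  have i2 := join_inv i1 l a0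
  have f2 := join_fix f1 l a0
  have e2 := join_ite i1 f1 h0l.symm
  set s2 := join l a0 s1 with hs2
  ext v
  have e3 := join_ite i2 f2 h01 v
  have e4 := join_ite hinv hfix hfl v
  rw [e3, e4]
  have g1 := e1 a0
  have g2 := e1 a1
  have g3 := e1 f
  have g4 := e1 l
  have g5 := e2 a0
  have g6 := e2 a1
  have g7 := e2 v
  have g8 := e1 v
  have k1 := hinv f
  have k2 := hinv l
  have k3 := hinv v
  have k4 := hfix f
  have k5 := hfix l
  have k6 := hfix v
  have k7 : s f = s l → f = l := fun h => s.injective h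
  have k8 : s v = s l → v = l := fun h => s.injective h
  have k9 : s v = s f → v = f := fun h => s.injective h
  have k10 : s v = s a0 → v = a0 := fun h => s.injective h
  have k11 : s v = s a1 → v = a1 := fun h => s.injective h
  have k12 : s f = s a0 → f = a0 := fun h => s.injective h
  have k13 : s f = s a1 → f = a1 := fun h => s.injective h
  have k14 : s l = s a0 → l = a0 := fun h => s.injective h
  have k15 : s l = s a1 → l = a1 := fun h => s.injective h
  grind

lemma join_zigzag' {α : Type*} [DecidableEq α] {s : Perm α} (hinv : ∀ v, s (s v) = v)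
    (hfix : ∀ v, s v ≠ v) {a0 a1 f : α} (h01 : a0 ≠ a1) (h0f : a0 ≠ f) (h1f : a1 ≠ f)
    (hs : s a0 = a1) :
    join a0 a1 (join f a0 (join a1 f s)) = join f f s := by
  have hs' : s a1 = a0 := by rw [← hs, hinv]
  have i1 := join_inv hinv a1 f
  have f1 := join_fix hfix a1 f
  have e1 := join_ite hinv hfix h1f
  set s1 := join a1 f s with hs1
  have i2 := join_inv i1 f a0
  have f2 := join_fix f1 f a0
  have e2 := join_ite i1 f1 h0f.symm
  set s2 := join f a0 s1 with hs2
  ext v
  have e3 := join_ite i2 f2 h01 v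
  have e4 : join f f s v = s v := by
    unfold join
    simp only [Perm.mul_apply, swap_apply_def]
    have k1 := hinv f
    have k3 := hinv v
    have k9 : s v = s f → v = f := fun h => s.injective h
    grind
  rw [e3, e4]
  have g1 := e1 a0
  have g2 := e1 a1
  have g3 := e1 f
  have g5 := e2 a0
  have g6 := e2 a1
  have g7 := e2 v
  have g8 := e1 v
  have k1 := hinv f
  have k3 := hinv v
  have k4 := hfix f
  have k6 := hfix v
  have k9 : s v = s f → v = f := fun h => s.injective h
  have k10 : s v = s a0 → v = a0 := fun h => s.injective h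
  have k11 : s v = s a1 → v = a1 := fun h => s.injective h
  have k12 : s f = s a0 → f = a0 := fun h => s.injective h
  have k13 : s f = s a1 → f = a1 := fun h => s.injective h
  grind

end InsAux

open InsAux

theorem ins_inj {L : ℕ} {σ τ : Pat L} (h : ins σ = ins τ) : σ = τ := by
  apply Subtype.ext
  ext1 w
  have h1 : insPerm σ = insPerm τ := congrArg Subtype.val h
  have h2 : insFun σ.1 (shiftV L w) = insFun τ.1 (shiftV L w) := by
    have := congrArg (fun p : Perm (Vx (L + 2)) => p (shiftV L w)) h1
    exact this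
  rw [insFun_shift, insFun_shift] at h2
  exact shiftV_inj h2

namespace InsAux

/-- a left inverse of `shiftV` -/
def unshift {L : ℕ} : Vx (L + 2) → Vx L
  | none => none
  | some i => Fin.cases (motive := fun _ => Vx L) none
      (fun i' => Fin.cases (motive := fun _ => Vx L) none (fun j => some j) i') i

lemma unshift_shift {L : ℕ} (w : Vx L) : unshift (shiftV L w) = w := by
  rcases w with _ | j
  · rfl
  · rfl

lemma shift_unshift {L : ℕ} (v : Vx (L + 2)) (h0 : v ≠ some 0) (h1 : v ≠ some 1) :
    shiftV L (unshift v) = v := by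
  rcases Vx_cases v with h | h | ⟨w, h⟩
  · exact absurd h h0
  · exact absurd h h1
  · subst h; rw [unshift_shift]

/-- the permutation induced on the vertices different from `0, 1` -/
def restr {L : ℕ} (τ : Pat (L + 2)) (h : τ.1 (some 0) = some 1) : Perm (Vx L) where
  toFun w := unshift (τ.1 (shiftV L w))
  invFun w := unshift (τ.1 (shiftV L w))
  left_inv := by
    intro w
    have h1 : τ.1 (some 1) = some 0 := by rw [← h, τ.2.inv]
    have e : shiftV L (unshift (τ.1 (shiftV L w))) = τ.1 (shiftV L w) := by
      apply shift_unshift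
      · intro h2
        rw [← h1] at h2
        exact shiftV_ne_one w (τ.1.injective h2)
      · intro h2
        rw [← h] at h2
        exact shiftV_ne_zero w (τ.1.injective h2)
    change unshift (τ.1 (shiftV L (unshift (τ.1 (shiftV L w))))) = w
    rw [e, τ.2.inv, unshift_shift]
  right_inv := by
    intro w
    have h1 : τ.1 (some 1) = some 0 := by rw [← h, τ.2.inv]
    have e : shiftV L (unshift (τ.1 (shiftV L w))) = τ.1 (shiftV L w) := by
      apply shift_unshift
      · intro h2
        rw [← h1] at h2
        exact shiftV_ne_one w (τ.1.injective h2)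
      · intro h2
        rw [← h] at h2
        exact shiftV_ne_zero w (τ.1.injective h2)
    change unshift (τ.1 (shiftV L (unshift (τ.1 (shiftV L w))))) = w
    rw [e, τ.2.inv, unshift_shift]

lemma restr_spec {L : ℕ} (τ : Pat (L + 2)) (h : τ.1 (some 0) = some 1) (w : Vx L) :
    shiftV L (restr τ h w) = τ.1 (shiftV L w) := by
  have h1 : τ.1 (some 1) = some 0 := by rw [← h, τ.2.inv]
  apply shift_unshift
  · intro h2
    rw [← h1] at h2
    exact shiftV_ne_one w (τ.1.injective h2)
  · intro h2
    rw [← h] at h2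
    exact shiftV_ne_zero w (τ.1.injective h2)

lemma restr_isPat {L : ℕ} (τ : Pat (L + 2)) (h : τ.1 (some 0) = some 1) : IsPat (restr τ h) where
  inv := by
    intro w
    apply shiftV_inj
    rw [restr_spec, restr_spec, τ.2.inv]
  nofix := by
    intro w hw
    apply τ.2.nofix (shiftV L w)
    rw [← restr_spec τ h, hw]
  nc := by
    intro k l x y hk hx hxk hxl
    have h1 : τ.1 (some k.succ.succ) = some l.succ.succ := by
      rw [← shiftV_some, ← restr_spec τ h, hk, shiftV_some]
    have h2 : τ.1 (some x.succ.succ) = some y.succ.succ := by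
      rw [← shiftV_some, ← restr_spec τ h, hx, shiftV_some]
    have := τ.2.nc k.succ.succ l.succ.succ x.succ.succ y.succ.succ h1 h2
      (fun h => hxk (Fin.succ_injective _ (Fin.succ_injective _ h)))
      (fun h => hxl (Fin.succ_injective _ (Fin.succ_injective _ h)))
    simp only [Btw, Fin.lt_def, Fin.val_succ] at this ⊢
    omega

lemma ins_val {L : ℕ} (σ : Pat L) (v : Vx (L + 2)) : (ins σ).1 v = insFun σ.1 v := rfl

lemma pat_ext {L : ℕ} {σ τ : Pat L} (h : ∀ v, σ.1 v = τ.1 v) : σ = τ :=
  Subtype.ext (Equiv.ext h)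

end InsAux

theorem ins_range {L : ℕ} (τ : Pat (L + 2)) : (∃ σ, ins σ = τ) ↔ τ.1 (some 0) = some 1 := by
  constructor
  · rintro ⟨σ, rfl⟩
    rfl
  · intro h
    refine ⟨⟨restr τ h, restr_isPat τ h⟩, ?_⟩
    apply pat_ext
    intro v
    change insFun (restr τ h) v = τ.1 v
    rcases Vx_cases v with hv | hv | ⟨w, hv⟩
    · subst hv; rw [insFun_zero, h]
    · subst hv; rw [insFun_one, ← h, τ.2.inv]
    · subst hv; rw [insFun_shift]; exact restr_spec τ h w

namespace InsAux

lemma shiftV_injective (L : ℕ) : Function.Injective (shiftV L) := fun _ _ h => shiftV_inj h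

/-- join commutes with insertion -/
lemma ins_join {L : ℕ} (σ : Pat L) (a b : Vx L) (τ : Pat L) (hτ : τ.1 = join a b σ.1) :
    (ins τ).1 = join (shiftV L a) (shiftV L b) (ins σ).1 := by
  ext1 v
  have hs : ∀ w, (ins σ).1 (shiftV L w) = shiftV L (σ.1 w) := fun w => by
    rw [ins_val, insFun_shift]
  have hx : ∀ x y w, swap (shiftV L x) (shiftV L y) (shiftV L w) = shiftV L (swap x y w) :=
    fun x y w => Function.Injective.swap_apply (shiftV_injective L) x y w
  have h0 : ∀ x y, swap (shiftV L x) (shiftV L y) (some 0) = some 0 := fun x y =>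
    swap_apply_of_ne_of_ne (shiftV_ne_zero x).symm (shiftV_ne_zero y).symm
  have h1 : ∀ x y, swap (shiftV L x) (shiftV L y) (some 1) = some 1 := fun x y =>
    swap_apply_of_ne_of_ne (shiftV_ne_one x).symm (shiftV_ne_one y).symm
  have hv0 : (ins σ).1 (some 0) = some 1 := rfl
  have hv1 : (ins σ).1 (some 1) = some 0 := rfl
  unfold join at hτ ⊢
  simp only [Perm.mul_apply, hs]
  rw [ins_val, hτ]
  rcases Vx_cases v with hv | hv | ⟨w, hv⟩
  · subst hv; rw [insFun_zero, h0, hv0, h1]
  · subst hv; rw [insFun_one, h1, hv1, h0]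
  · subst hv
    rw [insFun_shift, hx, hs, hx]
    rfl

lemma ix_shift {m i : ℕ} (hi : i < m + 1) : (some (ix (m + 2) (i + 2)) : Vx (m + 1 + 2)) =
    shiftV (m + 1) (some (ix m i)) := by
  rw [shiftV_some]
  congr 1
  apply Fin.ext
  simp only [ix, Fin.val_succ]
  rw [Nat.mod_eq_of_lt hi, Nat.mod_eq_of_lt (by omega)]

lemma ix_zero (m : ℕ) : ix m 0 = 0 := by
  apply Fin.ext
  simp [ix]

lemma ix_one (m : ℕ) : ix (m + 1) 1 = 1 := by
  apply Fin.ext
  simp [ix]

end InsAux

theorem ins_E {m i : ℕ} (hi : i < m) (σ : Pat (m + 1)) :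
    E (m + 2) (i + 2) (ins σ) = ins (E m i σ) := by
  apply Subtype.ext
  rw [ins_join σ _ _ _ (E_val m i σ), E_val (m + 2) (i + 2) (ins σ)]
  congr 1
  · exact ix_shift (by omega)
  · exact ix_shift (by omega)

theorem ins_E0 {m : ℕ} (σ : Pat (m + 1)) : E (m + 2) 0 (ins σ) = ins σ := by
  apply Subtype.ext
  rw [E_val (m + 2) 0 (ins σ)]
  have h : (ins σ).1 (some (ix (m + 2) 0)) = some (ix (m + 2) (0 + 1)) := by
    have h1 : ix (m + 2) (0 + 1) = 1 := ix_one (m + 1)
    rw [h1, ix_zero]; rfl
  unfold join
  rw [h, swap_self]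
  ext1 v
  rfl

theorem ins_Elast {m : ℕ} (σ : Pat (m + 1)) :
    E (m + 2) 0 (E (m + 2) (m + 2) (E (m + 2) 1 (ins σ))) = ins (E m m σ) := by
  apply Subtype.ext
  rw [ins_join σ _ _ _ (E_val m m σ), E_val (m + 2) 0, E_val (m + 2) (m + 2), E_val (m + 2) 1]
  have e0 : ix (m + 2) 0 = 0 := ix_zero _
  have e1 : ix (m + 2) 1 = 1 := ix_one (m + 1)
  have e2 : ix (m + 2) (m + 2 + 1) = 0 := by
    apply Fin.ext; simp [ix]
  have e3 : (some (ix (m + 2) (1 + 1)) : Vx (m + 1 + 2)) = shiftV (m + 1) (some (ix m 0)) :=
    ix_shift (by omega)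
  have e4 : (some (ix (m + 2) (m + 2)) : Vx (m + 1 + 2)) = shiftV (m + 1) (some (ix m m)) :=
    ix_shift (by omega)
  have e5 : ix m (m + 1) = ix m 0 := by
    apply Fin.ext; simp [ix]
  rw [e5, ← e3, ← e4, e2, e0, show (0 + 1 : ℕ) = 1 from rfl, e1]
  have v2 : (ix (m + 2) (1 + 1)).val = 2 := Nat.mod_eq_of_lt (by omega)
  have vl : (ix (m + 2) (m + 2)).val = m + 2 := Nat.mod_eq_of_lt (by omega)
  have d01 : (some (0 : Fin (m + 1 + 2)) : Vx (m + 1 + 2)) ≠ some 1 := by simp
  have d02 : (some (0 : Fin (m + 1 + 2)) : Vx (m + 1 + 2)) ≠ some (ix (m + 2) (1 + 1)) := by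
    intro h
    have := congrArg Fin.val (Option.some.inj h)
    rw [v2] at this
    simp at this
  have d12 : (some (1 : Fin (m + 1 + 2)) : Vx (m + 1 + 2)) ≠ some (ix (m + 2) (1 + 1)) := by
    intro h
    have := congrArg Fin.val (Option.some.inj h)
    rw [v2, Fin.val_one] at this
    omega
  rcases Nat.eq_zero_or_pos m with hm | hm
  · have hl : ix (m + 2) (m + 2) = ix (m + 2) (1 + 1) := by
      apply Fin.ext; rw [v2, vl, hm]
    rw [hl]
    exact join_zigzag' (ins σ).2.inv (ins σ).2.nofix d01 d02 d12 rfl
  · have hne : ix (m + 2) (m + 2) ≠ ix (m + 2) (1 + 1) := by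
      intro h
      have := congrArg Fin.val h
      rw [v2, vl] at this
      omega
    apply join_zigzag (ins σ).2.inv (ins σ).2.nofix d01 d02 d12
    · intro h
      have := congrArg Fin.val (Option.some.inj h)
      rw [vl, Fin.val_zero] at this
      omega
    · intro h
      have := congrArg Fin.val (Option.some.inj h)
      rw [vl, Fin.val_one] at this
      omega
    · exact fun h => hne (Option.some.inj h)
    · rfl

namespace InsAux

lemma rotV_none (m : ℕ) : rotV m none = none := rfl

lemma rotV_some (m : ℕ) (i : Fin (m + 1)) : rotV m (some i) = some (finRotate (m + 1) i) := rfl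

lemma val_rot {m : ℕ} (i : Fin (m + 1)) (h : i.val < m) : (finRotate (m + 1) i).val = i.val + 1 := by
  have hi : i = ⟨i.val, by omega⟩ := rfl
  rw [finRotate_apply, Fin.val_add_one_of_lt]
  rw [Fin.lt_def, Fin.val_last]
  exact h

lemma rot_last {m : ℕ} : finRotate (m + 1) (Fin.last m) = 0 := by
  rw [finRotate_last]

/-- rotation of the shifted vertices -/
lemma rot_shift {m : ℕ} (w : Vx (m + 1)) :
    rotV (m + 2) (shiftV (m + 1) w) =
      swap (some 0) (some (Fin.succ (Fin.succ 0))) (shiftV (m + 1) (rotV m w)) := by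
  rcases w with _ | i
  · rw [shiftV_none, rotV_none, rotV_none, shiftV_none, swap_apply_of_ne_of_ne (by simp) (by simp)]
  · rw [shiftV_some, rotV_some, rotV_some, shiftV_some]
    by_cases h : i.val < m
    · have h1 : (finRotate (m + 1) i).val = i.val + 1 := val_rot i h
      have h2 : (finRotate (m + 2 + 1) i.succ.succ).val = i.val + 3 := by
        rw [val_rot]
        · simp
        · simp; omega
      rw [swap_apply_of_ne_of_ne]
      · congr 1
        apply Fin.ext
        rw [h2]
        simp only [Fin.val_succ]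
        rw [h1]
      · intro h3
        have := congrArg Fin.val (Option.some.inj h3)
        simp at this
      · intro h3
        have := congrArg Fin.val (Option.some.inj h3)
        simp only [Fin.val_succ] at this
        rw [h1] at this
        simp at this
    · have hi : i = Fin.last m := by
        apply Fin.ext; rw [Fin.val_last]; omega
      subst hi
      rw [rot_last]
      have : (Fin.last m).succ.succ = Fin.last (m + 2) := by
        apply Fin.ext; simp
      rw [this, rot_last, swap_apply_right]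

end InsAux

theorem ins_rot {m : ℕ} (σ : Pat (m + 1)) :
    E (m + 2) 0 (rot (m + 2) (ins σ)) = ins (rot m σ) := by
  have e0 : ix (m + 2) 0 = 0 := ix_zero _
  have e1 : ix (m + 2) (0 + 1) = 1 := ix_one (m + 1)
  apply Subtype.ext
  rw [E_val, e0, e1]
  set s' := (rot (m + 2) (ins σ)).1 with hs'
  have hs'v : ∀ v, s' (rotV (m + 2) v) = rotV (m + 2) ((ins σ).1 v) := by
    intro v
    rw [hs', rot_val]
    simp
  have g0 : rotV (m + 2) (some 0) = some 1 := by
    rw [rotV_some]; congr 1
  have g1 : rotV (m + 2) (some 1) = some (Fin.succ (Fin.succ 0)) := by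
    rw [rotV_some]; congr 1
  have h1 : s' (some 1) = some (Fin.succ (Fin.succ 0)) := by
    rw [← g0, hs'v]
    change rotV (m + 2) (some 1) = _
    exact g1
  have h2 : s' (some (Fin.succ (Fin.succ 0))) = some 1 := by
    rw [← h1]
    exact (rot (m + 2) (ins σ)).2.inv _
  have d01 : (some (0 : Fin (m + 1 + 2)) : Vx (m + 1 + 2)) ≠ some 1 := by simp
  rw [join_comm (rot (m + 2) (ins σ)).2.inv (rot (m + 2) (ins σ)).2.nofix d01]
  unfold join
  rw [h1]
  ext1 v
  simp only [Perm.mul_apply]
  change _ = insFun (rot m σ).1 v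
  rcases Vx_cases v with hv | hv | ⟨w, hv⟩
  · subst hv
    rw [swap_apply_left, h2, insFun_zero, swap_apply_of_ne_of_ne d01.symm]
    intro h
    have := congrArg Fin.val (Option.some.inj h)
    rw [Fin.val_one, Fin.val_succ, Fin.val_succ] at this
    omega
  · subst hv
    rw [swap_apply_of_ne_of_ne d01.symm, h1, swap_apply_right, insFun_one]
    intro h
    have := congrArg Fin.val (Option.some.inj h)
    rw [Fin.val_one, Fin.val_succ, Fin.val_succ] at this
    omega
  · subst hv
    obtain ⟨w', rfl⟩ := (rotV m).surjective w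
    rw [← rot_shift, hs'v, insFun_shift, rot_val]
    have : (ins σ).1 (shiftV (m + 1) w') = shiftV (m + 1) (σ.1 w') := insFun_shift σ.1 w'
    rw [this, rot_shift, swap_apply_self]
    simp

namespace InsAux

lemma rot_shift' {m : ℕ} (w : Vx (m + 1)) :
    rotV (m + 2) (swap (some 1) (some (Fin.last (m + 2))) (shiftV (m + 1) w)) =
      shiftV (m + 1) (rotV m w) := by
  have g1 : rotV (m + 2) (some 1) = some (Fin.succ (Fin.succ 0)) := by
    rw [rotV_some]; congr 1
  rcases w with _ | i
  · rw [shiftV_none, rotV_none, shiftV_none, swap_apply_of_ne_of_ne (by simp) (by simp), rotV_none]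
  · rw [shiftV_some, rotV_some, shiftV_some]
    by_cases h : i.val < m
    · have h1 : (finRotate (m + 1) i).val = i.val + 1 := val_rot i h
      rw [swap_apply_of_ne_of_ne]
      · rw [rotV_some]
        congr 1
        apply Fin.ext
        rw [val_rot]
        · simp only [Fin.val_succ]
          rw [h1]
        · simp; omega
      · intro h3
        have := congrArg Fin.val (Option.some.inj h3)
        rw [Fin.val_one, Fin.val_succ, Fin.val_succ] at this
        omega
      · intro h3
        have := congrArg Fin.val (Option.some.inj h3)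
        rw [Fin.val_last, Fin.val_succ, Fin.val_succ] at this
        omega
    · have hi : i = Fin.last m := by
        apply Fin.ext; rw [Fin.val_last]; omega
      subst hi
      rw [rot_last]
      have : (Fin.last m).succ.succ = Fin.last (m + 2) := by
        apply Fin.ext; simp
      rw [this, swap_apply_right, g1]

end InsAux

theorem ins_rotInv {m : ℕ} (σ : Pat (m + 1)) :
    E (m + 2) 0 (rotInv (m + 2) (ins σ)) = ins (rotInv m σ) := by
  have e0 : ix (m + 2) 0 = 0 := ix_zero _
  have e1 : ix (m + 2) (0 + 1) = 1 := ix_one (m + 1)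
  apply Subtype.ext
  rw [E_val, e0, e1]
  set s' := (rotInv (m + 2) (ins σ)).1 with hs'
  have hs'v : ∀ v, rotV (m + 2) (s' v) = (ins σ).1 (rotV (m + 2) v) := by
    intro v
    rw [hs', rotInv_val]
    simp
  have g0 : rotV (m + 2) (some 0) = some 1 := by
    rw [rotV_some]; congr 1
  have gl : rotV (m + 2) (some (Fin.last (m + 2))) = some 0 := by
    rw [rotV_some, rot_last]
  have h1 : s' (some 0) = some (Fin.last (m + 2)) := by
    apply (rotV (m + 2)).injective
    rw [hs'v, g0, gl]
    rfl
  have h2 : s' (some (Fin.last (m + 2))) = some 0 := by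
    rw [← h1]
    exact (rotInv (m + 2) (ins σ)).2.inv _
  have d01 : (some (0 : Fin (m + 1 + 2)) : Vx (m + 1 + 2)) ≠ some 1 := by simp
  have d0l : (some (0 : Fin (m + 1 + 2)) : Vx (m + 1 + 2)) ≠ some (Fin.last (m + 2)) := by
    intro h
    have := congrArg Fin.val (Option.some.inj h)
    rw [Fin.val_last, Fin.val_zero] at this
    omega
  unfold join
  rw [h1]
  ext1 v
  simp only [Perm.mul_apply]
  change _ = insFun (rotInv m σ).1 v
  rcases Vx_cases v with hv | hv | ⟨w, hv⟩
  · subst hv
    rw [swap_apply_of_ne_of_ne d01 d0l, h1, swap_apply_right, insFun_zero]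
  · subst hv
    rw [swap_apply_left, h2, swap_apply_of_ne_of_ne d01 d0l, insFun_one]
  · subst hv
    rw [insFun_shift, rotInv_val]
    have h3 : s' (swap (some 1) (some (Fin.last (m + 2))) (shiftV (m + 1) w)) =
        swap (some 1) (some (Fin.last (m + 2)))
          (shiftV (m + 1) ((rotV m)⁻¹ (σ.1 (rotV m w)))) := by
      apply (rotV (m + 2)).injective
      rw [hs'v, rot_shift', rot_shift']
      have : (ins σ).1 (shiftV (m + 1) (rotV m w)) = shiftV (m + 1) (σ.1 (rotV m w)) :=
        insFun_shift σ.1 _
      rw [this]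
      simp
    rw [h3, swap_apply_self]
    simp

end Pool.Agent.H974R3
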