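import Pool.Agent.H974R3.Rec
import Pool.Agent.H974R3.Psi
import Pool.Agent.H974R3.Gen
import Pool.Agent.H974R3.Alt
import Pool.Agent.H974R3.Ins
import Pool.Agent.H974R3.TransZ

/-! # Module I1 : the sum rule (helper913) -/

namespace Pool.Agent.H974R3
open Equiv MvPolynomial
namespace SumRule

theorem q3 {q : ℂ} (hq : q ^ 2 + q + 1 = 0) : q ^ 3 = 1 := by
  have : q ^ 3 - 1 = (q - 1) * (q ^ 2 + q + 1) := by ring
  rw [hq, mul_zero] at this
  exact sub_eq_zero.1 this

theorem q_ne_zero {q : ℂ} (hq : q ^ 2 + q + 1 = 0) : q ≠ 0 := by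
  rintro rfl
  norm_num at hq

theorem q_ne_one {q : ℂ} (hq : q ^ 2 + q + 1 = 0) : q ≠ 1 := by
  rintro rfl
  norm_num at hq

theorem ix_lt {m i : ℕ} (hi : i < m + 1) : ix m i = ⟨i, hi⟩ := by
  unfold ix
  ext
  exact Nat.mod_eq_of_lt hi

theorem sym_swap {q : ℂ} (hq : q ^ 2 + q + 1 = 0) (n : ℕ)
    (Ψ : Pat (2 * n + 1) → MvPolynomial (Fin (2 * n + 1)) ℂ) (h : PsiSpec q n Ψ) (i : ℕ)
    (hi : i < 2 * n) :
    rename (swap (ix (2 * n) i) (ix (2 * n) (i + 1))) (∑ σ, Ψ σ) = ∑ σ, Ψ σ := by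
  have h1 := Finset.sum_congr (rfl : (Finset.univ : Finset (Pat (2 * n + 1))) = Finset.univ)
    (fun σ _ => h.exch i hi σ)
  rw [Finset.sum_add_distrib, ← Finset.mul_sum, ← Finset.mul_sum, ← Finset.mul_sum, sum_push,
    ← map_sum] at h1
  set a := ix (2 * n) i with ha
  set b := ix (2 * n) (i + 1) with hb
  have hab : a ≠ b := by
    rw [ha, hb, ix_lt (by omega), ix_lt (by omega)]
    intro h
    have := congrArg Fin.val h
    simp at this
  set Z := ∑ σ, Ψ σ with hZ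
  have hC : (C (q ^ 2) : MvPolynomial (Fin (2 * n + 1)) ℂ) = -C q - 1 := by
    have : q ^ 2 = -q - 1 := by linear_combination hq
    rw [this]
    simp
  have h2 : (C q * X b - C (q ^ 2) * X a) * (Z - rename (swap a b) Z) = 0 := by
    rw [mul_sub, ← h1, hC]
    ring
  have h3 : (C q * X b - C (q ^ 2) * X a : MvPolynomial (Fin (2 * n + 1)) ℂ) ≠ 0 := by
    intro h0
    have h4 := congrArg (eval (fun j => if j = b then (1 : ℂ) else 0)) h0
    simp only [map_sub, map_mul, eval_C, eval_X, map_zero, if_true, if_neg hab, mul_zero,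
      mul_one, sub_zero] at h4
    exact q_ne_zero hq h4
  rcases mul_eq_zero.1 h2 with h4 | h4
  · exact absurd h4 h3
  · exact (sub_eq_zero.1 h4).symm

theorem sym_perm {q : ℂ} (hq : q ^ 2 + q + 1 = 0) (n : ℕ)
    (Ψ : Pat (2 * n + 1) → MvPolynomial (Fin (2 * n + 1)) ℂ) (h : PsiSpec q n Ψ)
    (π : Perm (Fin (2 * n + 1))) :
    rename π (∑ σ, Ψ σ) = ∑ σ, Ψ σ := by
  have hπ : π ∈ Submonoid.closure (Set.range fun i : Fin (2 * n) ↦ swap i.castSucc i.succ) := by
    rw [Equiv.Perm.mclosure_swap_castSucc_succ]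
    trivial
  induction hπ using Submonoid.closure_induction with
  | mem x hx =>
    obtain ⟨i, rfl⟩ := hx
    have h1 := sym_swap hq n Ψ h i.val i.2
    have e1 : ix (2 * n) i.val = i.castSucc := by
      rw [ix_lt (by omega)]
      rfl
    have e2 : ix (2 * n) (i.val + 1) = i.succ := by
      rw [ix_lt (by omega)]
      rfl
    rw [e1, e2] at h1
    exact h1
  | one =>
    rw [Equiv.Perm.coe_one, rename_id]
    rfl
  | mul x y _ _ hx hy =>
    rw [Equiv.Perm.coe_mul, ← rename_rename, hy, hx]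

theorem eval_perm {q : ℂ} (hq : q ^ 2 + q + 1 = 0) (n : ℕ)
    (Ψ : Pat (2 * n + 1) → MvPolynomial (Fin (2 * n + 1)) ℂ) (h : PsiSpec q n Ψ)
    (π : Perm (Fin (2 * n + 1))) (z : Fin (2 * n + 1) → ℂ) :
    eval (z ∘ π) (∑ σ, Ψ σ) = eval z (∑ σ, Ψ σ) := by
  rw [← eval_rename, sym_perm hq n Ψ h π]

theorem exists_perm {N : ℕ} (a b : Fin (N + 2)) (hab : a ≠ b) :
    ∃ π : Perm (Fin (N + 2)), π 0 = a ∧ π 1 = b := by
  refine ⟨swap 0 a * swap 1 (swap 0 a b), ?_, ?_⟩
  · rw [Equiv.Perm.mul_apply]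
    have h1 : (swap 0 a) b ≠ 0 := by
      intro h
      have := congrArg (swap 0 a) h
      rw [swap_apply_self, swap_apply_left] at this
      exact hab this.symm
    rw [swap_apply_of_ne_of_ne (by simp) h1.symm, swap_apply_left]
  · rw [Equiv.Perm.mul_apply, swap_apply_left, swap_apply_self]

/-- the right-hand side -/
noncomputable def GG (q : ℂ) (g1 g2 : List ℂ → ℂ) (n : ℕ) (l : List ℂ) : ℂ :=
  (q ^ 2 - q) ^ n * g1 l * g2 l

theorem GG_perm {q : ℂ} {g1 g2 : List ℂ → ℂ} (h1 : GSpec q 1 g1)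
    (h2 : GSpec q 2 g2) (n : ℕ) {l l' : List ℂ} (h : l.Perm l') :
    GG q g1 g2 n l = GG q g1 g2 n l' := by
  unfold GG
  rw [h1.perm l l' h, h2.perm l l' h]

theorem GG_rec {q : ℂ} (hq : q ^ 2 + q + 1 = 0) {g1 g2 : List ℂ → ℂ} (h1 : GSpec q 1 g1)
    (h2 : GSpec q 2 g2) (n : ℕ) (x : ℂ) {N : ℕ} (w : Fin N → ℂ) :
    GG q g1 g2 (n + 1) (x :: (q * x) :: List.ofFn w) =
      Fac q x w * GG q g1 g2 n (List.ofFn w) := by
  unfold GG Fac
  rw [h1.recur, h2.recur, if_pos rfl, if_neg (by norm_num), List.map_ofFn, List.prod_ofFn]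
  have e : ∏ j, (w j - q ^ 2 * x) ^ 2 = (∏ j, (w j - q ^ 2 * x)) * ∏ j, (w j - q ^ 2 * x) := by
    rw [← Finset.prod_mul_distrib]
    exact Finset.prod_congr rfl fun j _ => by ring
  rw [e]
  simp only [Function.comp]
  set P := ∏ j, (w j - q ^ 2 * x)
  have h3 := q3 hq
  have h4 : q ^ 4 = q := by
    calc q ^ 4 = q ^ 3 * q := by ring
      _ = q := by rw [h3, one_mul]
  have h5 : (q ^ 2 - q) * (-q ^ 2 * x) = -(q - 1) * x := by
    calc (q ^ 2 - q) * (-q ^ 2 * x) = -(q ^ 4 - q ^ 3) * x := by ring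
      _ = _ := by rw [h4, h3]
  calc (q ^ 2 - q) ^ (n + 1) * (1 * P * g1 (List.ofFn w)) * (-q ^ 2 * x * P * g2 (List.ofFn w)) =
      ((q ^ 2 - q) * (-q ^ 2 * x)) * P * P * ((q ^ 2 - q) ^ n * g1 (List.ofFn w) *
        g2 (List.ofFn w)) := by ring
    _ = _ := by rw [h5]; ring

/-- agreement when two of the variables have ratio `q` -/
theorem agree_pair {q : ℂ} (hq : q ^ 2 + q + 1 = 0) {g1 g2 : List ℂ → ℂ} (h1 : GSpec q 1 g1)
    (h2 : GSpec q 2 g2) (n : ℕ)
    (Ψ : Pat (2 * n + 1) → MvPolynomial (Fin (2 * n + 1)) ℂ) (h : PsiSpec q n Ψ)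
    (IH : ∀ z : Fin (2 * n + 1) → ℂ, ∑ σ, eval z (Ψ σ) = GG q g1 g2 n (List.ofFn z))
    (Ψ' : Pat (2 * n + 3) → MvPolynomial (Fin (2 * n + 3)) ℂ) (h' : PsiSpec q (n + 1) Ψ')
    (z : Fin (2 * n + 3) → ℂ) (a b : Fin (2 * n + 3)) (hab : a ≠ b) (hz : z b = q * z a) :
    eval z (∑ σ, Ψ' σ) = GG q g1 g2 (n + 1) (List.ofFn z) := by
  obtain ⟨π, hπ0, hπ1⟩ := exists_perm (N := 2 * n + 1) a b hab
  set w : Fin (2 * n + 1) → ℂ := fun i => z (π i.succ.succ) with hw
  have hcons : z ∘ π = Fin.cons (z a) (Fin.cons (q * z a) w) := by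
    funext i
    refine Fin.cases ?_ (fun i' => ?_) i
    · simp only [Function.comp, Fin.cons_zero]
      rw [← hπ0]
    · refine Fin.cases ?_ (fun j => ?_) i'
      · simp only [Function.comp, Fin.cons_succ, Fin.cons_zero]
        rw [← hz, ← hπ1]
        rfl
      · simp only [Function.comp, Fin.cons_succ]
        rfl
  have e1 : eval z (∑ σ, Ψ' σ) = eval (z ∘ π) (∑ σ, Ψ' σ) :=
    (eval_perm hq (n + 1) Ψ' h' π z).symm
  have e2 : GG q g1 g2 (n + 1) (List.ofFn z) = GG q g1 g2 (n + 1) (List.ofFn (z ∘ π)) :=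
    (GG_perm h1 h2 (n + 1) (π.ofFn_comp_perm z)).symm
  rw [e1, e2, hcons, List.ofFn_cons, List.ofFn_cons, GG_rec hq h1 h2, ← IH w, map_sum,
    Finset.mul_sum]
  obtain ⟨r1, r2⟩ := psi_rec q hq n Ψ h Ψ' h' (z a) w
  symm
  refine Fintype.sum_of_injective (ins : Pat (2 * n + 1) → Pat (2 * n + 3))
    (fun σ τ hστ => ins_inj hστ) _ _ ?_ ?_
  · intro τ hτ
    exact r2 τ (fun σ hσ => hτ ⟨σ, hσ⟩)
  · intro σ
    exact (r1 σ).symm

/-- the discriminant-type polynomial -/
noncomputable def DD (N : ℕ) : MvPolynomial (Fin (N + 1)) ℂ :=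
  (∏ j : Fin N, X j.succ) * ∏ p ∈ (Finset.univ : Finset (Fin N × Fin N)).filter
    (fun p => p.1 ≠ p.2), (X p.1.succ ^ 3 - X p.2.succ ^ 3)

theorem DD_ne_zero (N : ℕ) : DD N ≠ 0 := by
  unfold DD
  refine mul_ne_zero ?_ ?_
  · rw [Finset.prod_ne_zero_iff]
    intro j _
    exact X_ne_zero _
  · rw [Finset.prod_ne_zero_iff]
    intro p hp h0
    rw [Finset.mem_filter] at hp
    have hne : p.2.succ ≠ p.1.succ := fun h => hp.2 (Fin.succ_injective _ h).symm
    have h4 := congrArg (eval (fun j => if j = p.1.succ then (1 : ℂ) else 0)) h0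
    simp only [map_sub, map_pow, eval_X, map_zero, if_true, if_neg hne] at h4
    norm_num at h4

theorem DD_eval (N : ℕ) (z : Fin (N + 1) → ℂ) (h : eval z (DD N) ≠ 0) :
    (∀ j : Fin N, z j.succ ≠ 0) ∧ ∀ j k : Fin N, j ≠ k → z j.succ ^ 3 ≠ z k.succ ^ 3 := by
  unfold DD at h
  rw [map_mul, map_prod, map_prod] at h
  have h1 := left_ne_zero_of_mul h
  have h2 := right_ne_zero_of_mul h
  rw [Finset.prod_ne_zero_iff] at h1 h2
  refine ⟨fun j => ?_, fun j k hjk => ?_⟩
  · have := h1 j (Finset.mem_univ _)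
    rwa [eval_X] at this
  · have := h2 (j, k) (Finset.mem_filter.2 ⟨Finset.mem_univ _, hjk⟩)
    simp only [map_sub, map_pow, eval_X] at this
    exact sub_ne_zero.1 this

/-- the step -/
theorem step {q : ℂ} (hq : q ^ 2 + q + 1 = 0) {g1 g2 : List ℂ → ℂ} (h1 : GSpec q 1 g1)
    (h2 : GSpec q 2 g2) (n : ℕ)
    (Ψ : Pat (2 * n + 1) → MvPolynomial (Fin (2 * n + 1)) ℂ) (h : PsiSpec q n Ψ)
    (IH : ∀ z : Fin (2 * n + 1) → ℂ, ∑ σ, eval z (Ψ σ) = GG q g1 g2 n (List.ofFn z))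
    (Ψ' : Pat (2 * n + 3) → MvPolynomial (Fin (2 * n + 3)) ℂ) (h' : PsiSpec q (n + 1) Ψ')
    (z : Fin (2 * n + 3) → ℂ) (hz : eval z (DD (2 * n + 2)) ≠ 0) :
    eval z (∑ σ, Ψ' σ) = GG q g1 g2 (n + 1) (List.ofFn z) := by
  obtain ⟨hz0, hz3⟩ := DD_eval (2 * n + 2) z hz
  set w : Fin (2 * n + 2) → ℂ := fun j => z j.succ with hw
  have hcons : z = Fin.cons (z 0) w := by
    funext i
    refine Fin.cases ?_ (fun i' => ?_) i
    · rw [Fin.cons_zero]
    · rw [Fin.cons_succ]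
  -- the two polynomials
  set PF : Polynomial ℂ := Polynomial.map (eval w) (finSuccEquiv ℂ (2 * n + 2) (∑ σ, Ψ' σ)) with hPF
  have hPFe : ∀ x : ℂ, PF.eval x = eval (Fin.cons x w : Fin (2 * n + 3) → ℂ) (∑ σ, Ψ' σ) := by
    intro x
    rw [hPF, ← eval_eq_eval_mv_eval']
  have hPFd : PF.natDegree ≤ 2 * n + 2 := by
    refine Polynomial.natDegree_map_le.trans ?_
    rw [natDegree_finSuccEquiv]
    refine (degreeOf_sum_le _ _ _).trans (Finset.sup_le fun σ _ => ?_)
    exact h'.deg σ 0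
  have hlen : (List.ofFn w).length = 2 * n + 2 := List.length_ofFn
  obtain ⟨P1, hP1d, hP1⟩ := h1.deg (List.ofFn w) (Or.inl rfl)
  obtain ⟨P2, hP2d, hP2⟩ := h2.deg (List.ofFn w) (Or.inr (by rw [hlen]; exact ⟨n + 1, by ring⟩))
  rw [hlen] at hP1d hP2d
  set PG : Polynomial ℂ := Polynomial.C ((q ^ 2 - q) ^ (n + 1)) * (P1 * P2) with hPG
  have hPGe : ∀ x : ℂ, PG.eval x =
      GG q g1 g2 (n + 1) (List.ofFn (Fin.cons x w : Fin (2 * n + 3) → ℂ)) := by
    intro x
    rw [hPG, List.ofFn_cons, Polynomial.eval_mul, Polynomial.eval_C, Polynomial.eval_mul, hP1, hP2]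
    unfold GG
    ring
  have hPGd : PG.natDegree ≤ 2 * n + 2 := by
    refine (Polynomial.natDegree_C_mul_le _ _).trans ?_
    refine Polynomial.natDegree_mul_le.trans ?_
    omega
  -- the points
  have hq0 := q_ne_zero hq
  have hq1 := q_ne_one hq
  have hq3 := q3 hq
  have hinj : Function.Injective (fun p : Fin (2 * n + 2) × Bool =>
      if p.2 then q * w p.1 else q ^ 2 * w p.1) := by
    rintro ⟨j, b⟩ ⟨k, c⟩ hjk
    simp only at hjk
    have hcube : (if b then q * w j else q ^ 2 * w j) ^ 3 = w j ^ 3 := by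
      split_ifs
      · rw [mul_pow, hq3, one_mul]
      · rw [mul_pow, ← pow_mul, show 2 * 3 = 3 * 2 from rfl, pow_mul, hq3]; ring
    have hcube' : (if c then q * w k else q ^ 2 * w k) ^ 3 = w k ^ 3 := by
      split_ifs
      · rw [mul_pow, hq3, one_mul]
      · rw [mul_pow, ← pow_mul, show 2 * 3 = 3 * 2 from rfl, pow_mul, hq3]; ring
    have hjk' : j = k := by
      by_contra hne
      apply hz3 j k hne
      change w j ^ 3 = w k ^ 3
      rw [← hcube, hjk, hcube']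
    subst hjk'
    have hwj : w j ≠ 0 := hz0 j
    cases b <;> cases c
    · rfl
    · exfalso
      simp only [Bool.false_eq_true, if_false, if_true] at hjk
      have h5 := mul_right_cancel₀ hwj hjk
      have h6 : q * (q - 1) = 0 := by linear_combination h5
      rcases mul_eq_zero.1 h6 with h7 | h7
      · exact hq0 h7
      · exact hq1 (sub_eq_zero.1 h7)
    · exfalso
      simp only [Bool.false_eq_true, if_false, if_true] at hjk
      have h5 := mul_right_cancel₀ hwj hjk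
      have h6 : q * (q - 1) = 0 := by linear_combination -h5
      rcases mul_eq_zero.1 h6 with h7 | h7
      · exact hq0 h7
      · exact hq1 (sub_eq_zero.1 h7)
    · rfl
  have hzero : PF - PG = 0 := by
    refine Polynomial.eq_zero_of_natDegree_lt_card_of_eval_eq_zero (PF - PG) hinj ?_ ?_
    · rintro ⟨j, b⟩
      rw [Polynomial.eval_sub, hPFe, hPGe, sub_eq_zero]
      have hne : (0 : Fin (2 * n + 3)) ≠ j.succ := (Fin.succ_ne_zero j).symm
      cases b
      · -- z_0 = q^2 z_j, z_j = q z_0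
        refine agree_pair hq h1 h2 n Ψ h IH Ψ' h' _ 0 j.succ hne ?_
        rw [Fin.cons_succ, Fin.cons_zero]
        simp only [Bool.false_eq_true, if_false]
        calc w j = q ^ 3 * w j := by rw [hq3, one_mul]
          _ = _ := by ring
      · refine agree_pair hq h1 h2 n Ψ h IH Ψ' h' _ j.succ 0 hne.symm ?_
        rw [Fin.cons_succ, Fin.cons_zero]
        simp only [if_true]
    · refine lt_of_le_of_lt (Polynomial.natDegree_sub_le _ _) ?_
      rw [Fintype.card_prod, Fintype.card_fin, Fintype.card_bool]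
      refine lt_of_le_of_lt (max_le hPFd hPGd) ?_
      omega
  have hfin : PF.eval (z 0) = PG.eval (z 0) := by rw [sub_eq_zero.1 hzero]
  rw [hPFe, hPGe, ← hcons] at hfin
  exact hfin

end SumRule

open SumRule in
theorem Z_formula (q : ℂ) (hq : q ^ 2 + q + 1 = 0) (g1 g2 : List ℂ → ℂ) (h1 : GSpec q 1 g1)
    (h2 : GSpec q 2 g2) (n : ℕ)
    (Ψ : Pat (2 * n + 1) → MvPolynomial (Fin (2 * n + 1)) ℂ) (h : PsiSpec q n Ψ)
    (z : Fin (2 * n + 1) → ℂ) :
    ∑ σ, eval z (Ψ σ) = (q ^ 2 - q) ^ n * g1 (List.ofFn z) * g2 (List.ofFn z) := by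
  suffices H : ∀ (n : ℕ) (Ψ : Pat (2 * n + 1) → MvPolynomial (Fin (2 * n + 1)) ℂ),
      PsiSpec q n Ψ → ∀ z : Fin (2 * n + 1) → ℂ,
      ∑ σ, eval z (Ψ σ) = GG q g1 g2 n (List.ofFn z) from H n Ψ h z
  intro n
  induction n with
  | zero =>
    intro Ψ h z
    have hall : ∀ σ : Pat (2 * 0 + 1), σ = base 0 := by
      intro σ
      apply Subtype.ext
      apply Equiv.ext
      intro v
      have hv : ∀ u : Vx (2 * 0 + 1), u = none ∨ u = some 0 := by
        rintro (_ | u)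
        · exact Or.inl rfl
        · refine Or.inr ?_
          have h1 : u = 0 := Fin.ext (by have := u.2; simp only [Fin.val_zero]; omega)
          rw [h1]
      have key : ∀ τ : Pat (2 * 0 + 1), τ.1 none = some 0 ∧ τ.1 (some 0) = none := by
        intro τ
        refine ⟨?_, ?_⟩
        · rcases hv (τ.1 none) with h | h
          · exact absurd h (τ.2.nofix none)
          · exact h
        · rcases hv (τ.1 (some 0)) with h | h
          · exact h
          · exact absurd h (τ.2.nofix (some 0))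
      rcases hv v with rfl | rfl
      · rw [(key σ).1, (key (base 0)).1]
      · rw [(key σ).2, (key (base 0)).2]
    have h3 : ∑ σ, eval z (Ψ σ) = eval z (Ψ (base 0)) := by
      rw [Finset.sum_eq_single (base 0)]
      · intro σ _ hσ
        exact absurd (hall σ) hσ
      · intro h0
        exact absurd (Finset.mem_univ _) h0
    rw [h3, h.base]
    unfold Dl GG
    have hl : List.ofFn z = [z 0] := by
      rw [List.ofFn_succ]
      simp
    rw [hl, h1.single, h2.single]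
    simp
  | succ n IH =>
    intro Ψ' h' z
    obtain ⟨Ψ, h⟩ := exists_psi q hq n
    have hst := step hq h1 h2 n Ψ h (IH Ψ h) Ψ' h'
    have hF : Continuous (fun z : Fin (2 * n + 3) → ℂ => eval z (∑ σ, Ψ' σ)) :=
      MvPolynomial.continuous_eval _
    have hG : Continuous (fun z : Fin (2 * n + 3) → ℂ => GG q g1 g2 (n + 1) (List.ofFn z)) := by
      unfold GG
      exact (continuous_const.mul (h1.cont _)).mul (h2.cont _)
    have hag := dense_agree (DD (2 * n + 2)) (DD_ne_zero _) _ _ hF hG hst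
    have := congrFun hag z
    simp only [map_sum] at this
    exact this

end Pool.Agent.H974R3
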