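import Pool.Agent.H974R3.PairFormula
import Pool.Agent.H974R3.SumRule
import Pool.Agent.H974R3.Value
import Pool.Agent.H974R3.Markov
import Pool.Agent.H974R3.Psi
import Pool.Agent.H974R3.Alt
import Pool.Agent.H974R3.Pair

/-!
# Module M : the homogeneous pairing
-/

namespace Pool.Agent.H974R3
open Equiv MvPolynomial

namespace Hom

theorem exists_q : ∃ q : ℂ, q ^ 2 + q + 1 = 0 := by
  refine ⟨(-1 + Complex.I * (Real.sqrt 3 : ℝ)) / 2, ?_⟩
  have h : ((Real.sqrt 3 : ℝ) : ℂ) ^ 2 = 3 := by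
    rw [← Complex.ofReal_pow, Real.sq_sqrt (by norm_num)]
    norm_num
  have h2 : Complex.I ^ 2 = -1 := Complex.I_sq
  linear_combination (1 / 4 : ℂ) * Complex.I ^ 2 * h + (3 / 4 : ℂ) * h2

theorem q_cube {q : ℂ} (hq : q ^ 2 + q + 1 = 0) : q ^ 3 = 1 := by
  linear_combination (q - 1) * hq

theorem q_sq {q : ℂ} (hq : q ^ 2 + q + 1 = 0) : (q ^ 2) ^ 2 + q ^ 2 + 1 = 0 := by
  linear_combination (q ^ 2 - q + 1) * hq

theorem q_prod {q : ℂ} (hq : q ^ 2 + q + 1 = 0) :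
    (q ^ 2 - q) * ((q ^ 2) ^ 2 - q ^ 2) = 3 := by
  linear_combination (q ^ 4 - 2 * q ^ 3 + 3 * q - 3) * hq

theorem wt_one {q : ℂ} (hq : q ^ 2 + q + 1 = 0) (b : Bool) : wt q b 1 = 1 := by
  unfold wt
  split_ifs
  · linear_combination -hq
  · linear_combination -hq

/-- evaluation commutes with the push forward -/
theorem eval_push {N : ℕ} {X Y : Type*} [Fintype X] [DecidableEq Y] (z : Fin N → ℂ) (f : X → Y)
    (v : X → MvPolynomial (Fin N) ℂ) (y : Y) :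
    eval z (push f v y) = push f (fun x => eval z (v x)) y := by
  unfold push
  rw [map_sum]
  refine Finset.sum_congr rfl fun x _ => ?_
  split_ifs
  · rfl
  · exact map_zero _

/-- the ground state at `z = 1` is stationary -/
theorem stat_one {q : ℂ} (hq : q ^ 2 + q + 1 = 0) {n : ℕ}
    {Ψ : Pat (2 * n + 1) → MvPolynomial (Fin (2 * n + 1)) ℂ} (h : PsiSpec q n Ψ)
    (σ : Pat (2 * n + 1)) :
    ∑ c : Fin (2 * n + 1) → Bool, push (Tc (2 * n) c) (fun σ => eval (fun _ => (1 : ℂ)) (Ψ σ)) σ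
      = 2 ^ (2 * n + 1) * eval (fun _ => (1 : ℂ)) (Ψ σ) := by
  have h1 := congrArg (fun v => eval (fun _ => (1 : ℂ)) (v σ)) h.stat
  simp only [Tz, map_sum, map_mul, map_prod, eval_push, map_add, map_one, eval_X] at h1
  have h2 : ∀ b : Bool, eval (fun _ : Fin (2 * n + 1) => (1 : ℂ)) (wt (C q) b (X 0)) = 1 := by
    intro b
    have := wt_one hq b
    unfold wt at this ⊢
    split_ifs at this ⊢ <;> simpa using this
  have h3 : ∀ (b : Bool) (j : Fin (2 * n + 1)),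
      eval (fun _ : Fin (2 * n + 1) => (1 : ℂ)) (wt (C q) b (X j)) = 1 := by
    intro b j
    have := wt_one hq b
    unfold wt at this ⊢
    split_ifs at this ⊢ <;> simpa using this
  simp only [h3, Finset.prod_const_one, one_mul, Finset.prod_const, Finset.card_univ,
    Fintype.card_fin] at h1
  rw [h1]
  norm_num

/-- a complex stationary vector is a multiple of a stationary vector of sum one -/
theorem stat_eq (n : ℕ) (μ : Pat (2 * n + 1) → ℂ) (hμ : ∑ σ, μ σ = 1)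
    (hst : ∀ σ, ∑ c : Fin (2 * n + 1) → Bool, push (Tc (2 * n) c) μ σ
      = 2 ^ (2 * n + 1) * μ σ)
    (v : Pat (2 * n + 1) → ℂ)
    (hv : ∀ σ, ∑ c : Fin (2 * n + 1) → Bool, push (Tc (2 * n) c) v σ
      = 2 ^ (2 * n + 1) * v σ) (σ : Pat (2 * n + 1)) : v σ = (∑ τ, v τ) * μ σ := by
  set S := ∑ τ, v τ with hS
  have h := markov_unique n (fun σ => v σ - S * μ σ) (by
    intro τ
    have e : ∀ c : Fin (2 * n + 1) → Bool, push (Tc (2 * n) c) (fun σ => v σ - S * μ σ) τ =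
        push (Tc (2 * n) c) v τ - S * push (Tc (2 * n) c) μ τ := by
      intro c
      unfold push
      rw [Finset.mul_sum, ← Finset.sum_sub_distrib]
      refine Finset.sum_congr rfl fun x _ => ?_
      split_ifs <;> simp
    simp only [e]
    rw [Finset.sum_sub_distrib, ← Finset.mul_sum, hv τ, hst τ]
    ring) (by
    rw [Finset.sum_sub_distrib, ← Finset.mul_sum, hμ, ← hS]
    ring)
  have h2 := congrFun h σ
  simp only [Pi.zero_apply] at h2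
  linear_combination h2

theorem stat_cast (n : ℕ) (μ : Pat (2 * n + 1) → ℝ)
    (hst : ∀ σ, ∑ c : Fin (2 * n + 1) → Bool, push (Tc (2 * n) c) μ σ
      = 2 ^ (2 * n + 1) * μ σ) (σ : Pat (2 * n + 1)) :
    ∑ c : Fin (2 * n + 1) → Bool, push (Tc (2 * n) c) (fun σ => ((μ σ : ℝ) : ℂ)) σ
      = 2 ^ (2 * n + 1) * ((μ σ : ℝ) : ℂ) := by
  have e : ∀ c : Fin (2 * n + 1) → Bool, push (Tc (2 * n) c) (fun σ => ((μ σ : ℝ) : ℂ)) σ =
      ((push (Tc (2 * n) c) μ σ : ℝ) : ℂ) := by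
    intro c
    unfold push
    rw [Complex.ofReal_sum]
    refine Finset.sum_congr rfl fun x _ => ?_
    split_ifs <;> simp
  simp only [e]
  rw [← Complex.ofReal_sum, hst σ]
  push_cast
  rfl

/-- uniqueness for real stationary vectors -/
theorem stat_real (n : ℕ) (μ ν : Pat (2 * n + 1) → ℝ) (hμ : ∑ σ, μ σ = 1) (hν : ∑ σ, ν σ = 1)
    (hst : ∀ σ, ∑ c : Fin (2 * n + 1) → Bool, push (Tc (2 * n) c) μ σ
      = 2 ^ (2 * n + 1) * μ σ)
    (hst' : ∀ σ, ∑ c : Fin (2 * n + 1) → Bool, push (Tc (2 * n) c) ν σ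
      = 2 ^ (2 * n + 1) * ν σ) : μ = ν := by
  funext σ
  have h := stat_eq n (fun σ => ((ν σ : ℝ) : ℂ)) (by rw [← Complex.ofReal_sum, hν]; simp)
    (stat_cast n ν hst') (fun σ => ((μ σ : ℝ) : ℂ)) (stat_cast n μ hst) σ
  rw [← Complex.ofReal_sum, hμ] at h
  simp only [Complex.ofReal_one, one_mul] at h
  exact_mod_cast h

theorem aexp_lt {r : ℕ} (hr : r = 1 ∨ r = 2) {i j : ℕ} (h : i < j) : aexp r i < aexp r j := by
  unfold aexp
  rcases hr with rfl | rfl <;> omega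

theorem Dval_pos {r : ℕ} (hr : r = 1 ∨ r = 2) (N : ℕ) : 0 < Dval r N := by
  unfold Dval
  refine Finset.prod_pos fun j _ => Finset.prod_pos fun i hi => ?_
  rw [Finset.mem_range] at hi
  have h1 := aexp_lt hr hi
  have h2 : 0 < aexp r j - aexp r i := by omega
  have h3 : 0 < j - i := by omega
  positivity

theorem g_ones {q : ℂ} {r : ℕ} {g : List ℂ → ℂ} (hg : GSpec q r g) (N : ℕ) :
    g (List.replicate N 1) = ((Dval r N : ℝ) : ℂ) := by
  have h := hg.ones N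
  have h0 : (∏ j ∈ Finset.range N, ∏ i ∈ Finset.range j, ((j - i : ℕ) : ℂ)) ≠ 0 := by
    refine Finset.prod_ne_zero_iff.mpr fun j _ => Finset.prod_ne_zero_iff.mpr fun i hi => ?_
    rw [Finset.mem_range] at hi
    have : j - i ≠ 0 := by omega
    exact_mod_cast this
  have h1 : ((Dval r N : ℝ) : ℂ) = (∏ j ∈ Finset.range N, ∏ i ∈ Finset.range j,
      ((aexp r j - aexp r i : ℕ) : ℂ)) / (∏ j ∈ Finset.range N, ∏ i ∈ Finset.range j,
      ((j - i : ℕ) : ℂ)) := by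
    unfold Dval
    rw [Complex.ofReal_prod, ← Finset.prod_div_distrib]
    refine Finset.prod_congr rfl fun j _ => ?_
    rw [Complex.ofReal_prod, ← Finset.prod_div_distrib]
    refine Finset.prod_congr rfl fun i _ => ?_
    rw [Complex.ofReal_div, Complex.ofReal_natCast, Complex.ofReal_natCast]
  rw [h1, ← h]
  field_simp

theorem ofFn_one (N : ℕ) : List.ofFn (fun _ : Fin N => (1 : ℂ)) = List.replicate N 1 :=
  List.ofFn_const N 1

theorem cons_one (N : ℕ) : (Fin.cons (1 : ℂ) (fun _ : Fin N => (1 : ℂ)) : Fin (N + 1) → ℂ) =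
    fun _ => 1 := by
  funext i
  refine Fin.cases ?_ (fun j => ?_) i
  · rfl
  · rfl

/-- the value at the strand `0` -/
theorem value_zero (n : ℕ) (μ : Pat (2 * n + 1) → ℝ) (hμ : ∑ σ, μ σ = 1)
    (hst : ∀ σ, ∑ c : Fin (2 * n + 1) → Bool, push (Tc (2 * n) c) μ σ
      = 2 ^ (2 * n + 1) * μ σ) :
    (∑ σ, ∑ τ, pr 0 σ τ * ((μ σ : ℝ) : ℂ) * ((μ τ : ℝ) : ℂ)) = ((pval n : ℝ) : ℂ) := by
  obtain ⟨q, hq⟩ := exists_q
  have hq2 := q_sq hq
  obtain ⟨Ψ, hΨ⟩ := exists_psi q hq n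
  obtain ⟨Ψ', hΨ'⟩ := exists_psi (q ^ 2) hq2 n
  obtain ⟨g1, h1⟩ := exists_G q hq 1 (Or.inl rfl)
  obtain ⟨g2, h2⟩ := exists_G q hq 2 (Or.inr rfl)
  obtain ⟨g1', h1'⟩ := exists_G (q ^ 2) hq2 1 (Or.inl rfl)
  obtain ⟨g2', h2'⟩ := exists_G (q ^ 2) hq2 2 (Or.inr rfl)
  have hμc : ∑ σ, ((μ σ : ℝ) : ℂ) = 1 := by rw [← Complex.ofReal_sum, hμ]; simp
  have hstc := stat_cast n μ hst
  have e1 := stat_eq n _ hμc hstc _ (stat_one hq hΨ)
  have e2 := stat_eq n _ hμc hstc _ (stat_one hq2 hΨ')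
  have s1 := Z_formula q hq g1 g2 h1 h2 n Ψ hΨ (fun _ => 1)
  have s2 := Z_formula (q ^ 2) hq2 g1' g2' h1' h2' n Ψ' hΨ' (fun _ => 1)
  have b := B_formula q hq g1 h1 n Ψ hΨ Ψ' hΨ' 1 1 (fun _ => 1)
  rw [ofFn_one, g_ones h1, g_ones h2] at s1
  rw [ofFn_one, g_ones h1', g_ones h2'] at s2
  have hl : (1 : ℂ) :: 1 :: (List.ofFn (fun _ : Fin (2 * n) => (1 : ℂ)) ++
      List.ofFn (fun _ : Fin (2 * n) => (1 : ℂ))) = List.replicate (2 * (2 * n + 1)) 1 := by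
    rw [ofFn_one, ← List.replicate_add, ← List.replicate_succ, ← List.replicate_succ]
    congr 1
    omega
  rw [hl, g_ones h1, cons_one] at b
  rw [s1] at e1
  rw [s2] at e2
  have hb : ∑ σ, ∑ τ, pr 0 σ τ * eval (fun _ => (1 : ℂ)) (Ψ σ) * eval (fun _ => (1 : ℂ)) (Ψ' τ) =
      (3 ^ n * (((Dval 1 (2 * n + 1) : ℝ) : ℂ) * ((Dval 2 (2 * n + 1) : ℝ) : ℂ)) ^ 2) *
      ∑ σ, ∑ τ, pr 0 σ τ * ((μ σ : ℝ) : ℂ) * ((μ τ : ℝ) : ℂ) := by
    rw [Finset.mul_sum]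
    refine Finset.sum_congr rfl fun σ _ => ?_
    rw [Finset.mul_sum]
    refine Finset.sum_congr rfl fun τ _ => ?_
    rw [e1 σ, e2 τ, ← q_prod hq, mul_pow]
    ring
  rw [b] at hb
  have hD1 : ((Dval 1 (2 * n + 1) : ℝ) : ℂ) ≠ 0 := by
    exact_mod_cast (Dval_pos (Or.inl rfl) _).ne'
  have hD2 : ((Dval 2 (2 * n + 1) : ℝ) : ℂ) ≠ 0 := by
    exact_mod_cast (Dval_pos (Or.inr rfl) _).ne'
  have h3 : (3 : ℂ) ^ n ≠ 0 := pow_ne_zero _ (by norm_num)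
  unfold pval
  push_cast
  rw [eq_div_iff (mul_ne_zero h3 (pow_ne_zero _ (mul_ne_zero hD1 hD2))), hb]
  ring

theorem pr_re (m : ℕ) (j : Fin m) (σ τ : Pat m) : pr j σ τ = (((pr j σ τ).re : ℝ) : ℂ) := by
  unfold pr
  split_ifs <;> simp

theorem pr_re_nonneg (m : ℕ) (j : Fin m) (σ τ : Pat m) : 0 ≤ (pr j σ τ).re := by
  unfold pr
  split_ifs <;> simp

theorem value_zero_re (n : ℕ) (μ : Pat (2 * n + 1) → ℝ) (hμ : ∑ σ, μ σ = 1)
    (hst : ∀ σ, ∑ c : Fin (2 * n + 1) → Bool, push (Tc (2 * n) c) μ σ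
      = 2 ^ (2 * n + 1) * μ σ) :
    (∑ σ, ∑ τ, (pr 0 σ τ).re * μ σ * μ τ) = pval n := by
  have h := value_zero n μ hμ hst
  have h2 : (∑ σ, ∑ τ, pr 0 σ τ * ((μ σ : ℝ) : ℂ) * ((μ τ : ℝ) : ℂ)) =
      ((∑ σ, ∑ τ, (pr 0 σ τ).re * μ σ * μ τ : ℝ) : ℂ) := by
    rw [Complex.ofReal_sum]
    refine Finset.sum_congr rfl fun σ _ => ?_
    rw [Complex.ofReal_sum]
    refine Finset.sum_congr rfl fun τ _ => ?_
    rw [Complex.ofReal_mul, Complex.ofReal_mul, ← pr_re]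
  rw [h2] at h
  exact_mod_cast h

/-- the value does not depend on the strand -/
theorem value_rot (n : ℕ) (μ : Pat (2 * n + 1) → ℝ) (hr : ∀ σ, μ (rot (2 * n) σ) = μ σ)
    (j : Fin (2 * n + 1)) :
    (∑ σ, ∑ τ, (pr (finRotate (2 * n + 1) j) σ τ).re * μ σ * μ τ) =
      ∑ σ, ∑ τ, (pr j σ τ).re * μ σ * μ τ := by
  set e : Pat (2 * n + 1) ≃ Pat (2 * n + 1) :=
    ⟨rot (2 * n), rotInv (2 * n), rotInv_rot (2 * n), rot_rotInv (2 * n)⟩ with he
  rw [← Equiv.sum_comp e]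
  refine Finset.sum_congr rfl fun σ _ => ?_
  rw [← Equiv.sum_comp e]
  refine Finset.sum_congr rfl fun τ _ => ?_
  have h1 : e σ = rot (2 * n) σ := rfl
  have h2 : e τ = rot (2 * n) τ := rfl
  rw [h1, h2, hr, hr, pr_rot]

theorem value_all (n : ℕ) (μ : Pat (2 * n + 1) → ℝ) (hr : ∀ σ, μ (rot (2 * n) σ) = μ σ)
    (k : ℕ) (hk : k < 2 * n + 1) :
    (∑ σ, ∑ τ, (pr ⟨k, hk⟩ σ τ).re * μ σ * μ τ) =
      ∑ σ, ∑ τ, (pr 0 σ τ).re * μ σ * μ τ := by
  induction k with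
  | zero => rfl
  | succ k ih =>
    rw [← ih (by omega), ← value_rot n μ hr ⟨k, by omega⟩]
    have h : finRotate (2 * n + 1) ⟨k, by omega⟩ = ⟨k + 1, hk⟩ := by
      rw [finRotate_of_lt (by omega)]
    rw [h]

end Hom

open Hom

theorem pairing_value (n : ℕ) (μ : Pat (2 * n + 1) → ℝ) (hμ : ∑ σ, μ σ = 1)
    (hst : ∀ σ, ∑ c : Fin (2 * n + 1) → Bool, push (Tc (2 * n) c) μ σ
      = 2 ^ (2 * n + 1) * μ σ) (j : Fin (2 * n + 1)) :
    ((∑ σ, ∑ τ, (pr j σ τ).re * μ σ * μ τ : ℝ)) = pval n := by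
  obtain ⟨ν, _, hν1, hν2, _, hν4⟩ := markov_exists n
  have h : μ = ν := stat_real n μ ν hμ hν1 hst hν2
  subst h
  rw [← value_zero_re n μ hμ hst]
  exact value_all n μ hν4 j.val j.isLt

theorem pval_ge (n : ℕ) : 1 / (2 * (n : ℝ) + 1) ≤ pval n := by
  obtain ⟨μ, h0, h1, h2, _, h4⟩ := markov_exists n
  have hv : ∀ j, (∑ σ, ∑ τ, (pr j σ τ).re * μ σ * μ τ) = pval n := pairing_value n μ h1 h2
  have hs : ∑ j : Fin (2 * n + 1), (∑ σ, ∑ τ, (pr j σ τ).re * μ σ * μ τ) =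
      (2 * (n : ℝ) + 1) * pval n := by
    simp only [hv, Finset.sum_const, Finset.card_univ, Fintype.card_fin, nsmul_eq_mul]
    push_cast
    ring
  have hl : (1 : ℝ) ≤ ∑ j : Fin (2 * n + 1), (∑ σ, ∑ τ, (pr j σ τ).re * μ σ * μ τ) := by
    have e1 : (1 : ℝ) = ∑ σ, ∑ τ, μ σ * μ τ := by
      rw [← Finset.sum_mul_sum, h1]
      norm_num
    have hswap : ∑ j : Fin (2 * n + 1), (∑ σ, ∑ τ, (pr j σ τ).re * μ σ * μ τ) =
        ∑ σ, ∑ τ, ∑ j : Fin (2 * n + 1), (pr j σ τ).re * μ σ * μ τ := by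
      rw [Finset.sum_comm]
      refine Finset.sum_congr rfl fun σ _ => ?_
      rw [Finset.sum_comm]
    rw [e1, hswap]
    refine Finset.sum_le_sum fun σ _ => ?_
    refine Finset.sum_le_sum fun τ _ => ?_
    have e2 : ∀ j : Fin (2 * n + 1), (pr j σ τ).re * μ σ * μ τ = (pr j σ τ).re * (μ σ * μ τ) :=
      fun j => by ring
    simp only [e2]
    rw [← Finset.sum_mul]
    refine le_mul_of_one_le_left (mul_nonneg (h0 _) (h0 _)) ?_
    obtain ⟨j, hj⟩ := sum_pr σ τ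
    have e3 : (1 : ℝ) = (pr j σ τ).re := by rw [hj]; simp
    rw [e3]
    exact Finset.single_le_sum (f := fun j => (pr j σ τ).re)
      (fun i _ => pr_re_nonneg _ i σ τ) (Finset.mem_univ j)
  rw [hs] at hl
  rw [div_le_iff₀ (by positivity)]
  linarith

theorem pairing_lower (n : ℕ) (μ : Pat (2 * n + 1) → ℝ) (hμ : ∑ σ, μ σ = 1)
    (hst : ∀ σ, ∑ c : Fin (2 * n + 1) → Bool, push (Tc (2 * n) c) μ σ
      = 2 ^ (2 * n + 1) * μ σ) (j : Fin (2 * n + 1)) :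
    1 ≤ (∑ σ, ∑ τ, (pr j σ τ).re * μ σ * μ τ : ℝ) ^ 4 * (2 * (n : ℝ) + 1) := by
  rw [pairing_value n μ hμ hst j]
  exact pval_lower pval_ge n

end Pool.Agent.H974R3
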