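import Pool.Agent.H974R3.Rel

/-!
# Module CMP: compatibility of patterns with face labellings
-/

namespace Pool.Agent.H974R3
open Equiv

namespace CMP

/-- joining preserves the invariance of labellings -/
theorem join_inv {α : Type*} [DecidableEq α] {a b : α} (hab : a ≠ b) {σ : Perm α}
    (hi : ∀ v, σ (σ v) = v) (hn : ∀ v, σ v ≠ v) {f g : α → Bool} (hf : ∀ v, f (σ v) = f v)
    (hfab : f a = f b) (hgab : g a = g b) (hfg : ∀ v, v ≠ a → v ≠ b → g v = f v) (v : α) :
    g (join a b σ v) = g v := by
  unfold join
  by_cases hsa : σ a = b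
  · -- nothing changes
    have hsb : σ b = a := by rw [← hsa, hi]
    rw [hsa, swap_self]
    show g (σ v) = g v
    by_cases hva : v = a
    · rw [hva, hsa, hgab]
    by_cases hvb : v = b
    · rw [hvb, hsb, hgab]
    have h1 : σ v ≠ a := fun h => hvb (by rw [← hsa, ← h, hi])
    have h2 : σ v ≠ b := fun h => hva (by rw [← hi v, h, hsb])
    rw [hfg _ h1 h2, hfg _ hva hvb, hf]
  · have hsb : σ b ≠ a := fun h => hsa (by rw [← h, hi])
    have hsab : σ b ≠ σ a := fun h => hab (σ.injective h).symm
    simp only [Perm.mul_apply]
    by_cases hva : v = a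
    · subst hva
      rw [swap_apply_of_ne_of_ne hab (hn v).symm, swap_apply_right, hgab]
    by_cases hvb : v = b
    · subst hvb
      rw [swap_apply_left, hi, swap_apply_of_ne_of_ne hab (hn a).symm, hgab]
    by_cases hvsa : v = σ a
    · rw [hvsa, swap_apply_right, swap_apply_of_ne_of_ne (hn b) hsab]
      rw [hfg _ hsb (hn b), hfg _ (hn a) hsa, hf, hf, hfab]
    have e1 : swap b (σ a) v = v := swap_apply_of_ne_of_ne hvb hvsa
    rw [e1]
    by_cases hvsb : v = σ b
    · rw [hvsb, hi, swap_apply_left, hfg _ (hn a) hsa, hfg _ hsb (hn b), hf, hf, hfab]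
    · have h1 : σ v ≠ b := fun h => hvsb (by rw [← h, hi])
      have h2 : σ v ≠ σ a := fun h => hva (σ.injective h)
      have h3 : σ v ≠ a := fun h => hvsa (by rw [← h, hi])
      rw [swap_apply_of_ne_of_ne h1 h2, hfg _ h3 h1, hfg _ hva hvb, hf]

/-- extension of a labelling of the strands by `false` -/
def ext {m : ℕ} (B : Fin (m + 1) → Bool) : Vx (m + 1) → Bool
  | none => false
  | some p => B p

theorem ix_val (m i : ℕ) : (ix m i).val = i % (m + 1) := rfl

theorem ix_self (m : ℕ) (p : Fin (m + 1)) : ix m p.val = p := by
  ext; simp [ix, Nat.mod_eq_of_lt p.2]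

theorem finRotate_ix (m : ℕ) (p : Fin (m + 1)) : finRotate (m + 1) p = ix m (p.val + 1) := by
  rw [finRotate_apply]
  ext
  rw [Fin.val_add_one]
  split_ifs with h
  · subst h; simp [ix]
  · have : p.val < m := by
      have := Fin.val_lt_last h
      simpa using this
    simp [ix, Nat.mod_eq_of_lt (show p.val + 1 < m + 1 by omega)]

theorem rotV_some (m : ℕ) (p : Fin (m + 1)) : rotV m (some p) = some (ix m (p.val + 1)) := by
  unfold rotV
  rw [optionCongr_apply, Option.map_some, finRotate_ix]

theorem rotV_none (m : ℕ) : rotV m none = none := by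
  unfold rotV
  simp

/-- the local rules -/
structure Rules (m : ℕ) (c B T Hc : Fin (m + 1) → Bool) : Prop where
  f : ∀ n : ℕ, c (ix m (n + 1)) = false →
    B (ix m (n + 1)) = Hc (ix m (n + 1)) ∧ T (ix m (n + 1)) = Hc (ix m n)
  t : ∀ n : ℕ, c (ix m (n + 1)) = true →
    B (ix m (n + 1)) = Hc (ix m n) ∧ T (ix m (n + 1)) = Hc (ix m (n + 1))

/-- relative position -/
def rel (m k : ℕ) (p : Fin (m + 1)) : ℕ := (p.val + (m + 1) - k) % (m + 1)

theorem rel_ix {m k i : ℕ} (hk : k < m + 1) (hi : i < m + 1) : rel m k (ix m (k + i)) = i := by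
  unfold rel
  rw [ix_val]
  by_cases h : k + i < m + 1
  · rw [Nat.mod_eq_of_lt h, show k + i + (m + 1) - k = i + (m + 1) by omega, Nat.add_mod_right,
      Nat.mod_eq_of_lt hi]
  · have e : (k + i) % (m + 1) = k + i - (m + 1) := by
      rw [Nat.mod_eq_sub_mod (by omega), Nat.mod_eq_of_lt (by omega)]
    rw [e, show k + i - (m + 1) + (m + 1) - k = i by omega, Nat.mod_eq_of_lt hi]

theorem rel_lt (m k : ℕ) (p : Fin (m + 1)) : rel m k p < m + 1 := Nat.mod_lt _ (Nat.succ_pos m)

theorem ix_rel {m k : ℕ} (hk : k < m + 1) (p : Fin (m + 1)) : ix m (k + rel m k p) = p := by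
  ext
  rw [ix_val]
  unfold rel
  have hp := p.2
  by_cases h : k ≤ p.val
  · rw [show p.val + (m + 1) - k = (p.val - k) + (m + 1) by omega, Nat.add_mod_right,
      Nat.mod_eq_of_lt (show p.val - k < m + 1 by omega),
      Nat.mod_eq_of_lt (show k + (p.val - k) < m + 1 by omega)]
    omega
  · rw [Nat.mod_eq_of_lt (show p.val + (m + 1) - k < m + 1 by omega),
      show k + (p.val + (m + 1) - k) = p.val + (m + 1) by omega, Nat.add_mod_right,
      Nat.mod_eq_of_lt hp]

/-- the intermediate labelling -/
def lam (m : ℕ) (B T Hc : Fin (m + 1) → Bool) (k i : ℕ) (p : Fin (m + 1)) : Bool :=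
  if rel m k p < i then T (ix m (p.val + 1)) else if rel m k p = i then Hc p else B p

theorem ix_congr {m i j : ℕ} (h : i % (m + 1) = j % (m + 1)) : ix m i = ix m j := by
  ext; exact h

theorem word_inv {m : ℕ} {c B T Hc : Fin (m + 1) → Bool} (hR : Rules m c B T Hc)
    (s : Pat (m + 1)) (hs : ∀ v, ext B (s.1 v) = ext B v) {k : ℕ} (hk : k < m + 1)
    (hck : c (ix m k) = false) (i : ℕ) (hi : i ≤ m) :
    ∀ v, ext (lam m B T Hc k i) ((word m c k i s).1 v) = ext (lam m B T Hc k i) v := by
  induction i with
  | zero =>
    have e : lam m B T Hc k 0 = B := by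
      funext p
      unfold lam
      rw [if_neg (by omega)]
      split_ifs with h
      · have hp : p = ix m k := by rw [← ix_rel hk p, h]; rfl
        have h2 : ix m k = ix m (k + m + 1) := ix_congr (by
          rw [show k + m + 1 = k + (m + 1) by omega, Nat.add_mod_right])
        have := (hR.f (k + m) (by rw [← h2]; exact hck)).1
        rw [← h2] at this
        rw [hp, this]
      · rfl
    rw [e]
    exact hs
  | succ i ih =>
    have ih := ih (by omega)
    have ra : rel m k (ix m (k + i)) = i := rel_ix hk (by omega)
    have rb : rel m k (ix m (k + i + 1)) = i + 1 := rel_ix (i := i + 1) hk (by omega)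
    have hT : T (ix m ((ix m (k + i)).val + 1)) = T (ix m (k + i + 1)) := by
      congr 1
      apply ix_congr
      rw [ix_val, Nat.add_mod, Nat.mod_mod, ← Nat.add_mod]
    have hoff : ∀ p : Fin (m + 1), p ≠ ix m (k + i) → p ≠ ix m (k + i + 1) →
        lam m B T Hc k (i + 1) p = lam m B T Hc k i p := by
      intro p h1 h2
      have r1 : rel m k p ≠ i := fun h => h1 (by rw [← ix_rel hk p, h])
      have r2 : rel m k p ≠ i + 1 := fun h => h2 (by rw [← ix_rel hk p, h]; rfl)
      unfold lam
      by_cases h : rel m k p < i
      · rw [if_pos h, if_pos (by omega)]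
      · rw [if_neg h, if_neg (by omega), if_neg r1, if_neg r2]
    have va : lam m B T Hc k i (ix m (k + i)) = Hc (ix m (k + i)) := by
      unfold lam; rw [ra, if_neg (by omega), if_pos rfl]
    have vb : lam m B T Hc k i (ix m (k + i + 1)) = B (ix m (k + i + 1)) := by
      unfold lam; rw [rb, if_neg (by omega), if_neg (by omega)]
    have va' : lam m B T Hc k (i + 1) (ix m (k + i)) = T (ix m (k + i + 1)) := by
      unfold lam; rw [ra, if_pos (by omega), hT]
    have vb' : lam m B T Hc k (i + 1) (ix m (k + i + 1)) = Hc (ix m (k + i + 1)) := by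
      unfold lam; rw [rb, if_neg (by omega), if_pos rfl]
    unfold word
    by_cases hc : c (ix m (k + i + 1)) = true
    · rw [if_pos hc]
      have hr := hR.t (k + i) hc
      intro v
      rw [E_val]
      have hne : (some (ix m (k + i)) : Vx (m + 1)) ≠ some (ix m (k + i + 1)) := by
        intro h
        have h2 := Option.some.inj h
        rw [h2, rb] at ra
        omega
      refine join_inv hne (word m c k i s).2.inv (word m c k i s).2.nofix ih ?_ ?_ ?_ v
      · show lam m B T Hc k i (ix m (k + i)) = lam m B T Hc k i (ix m (k + i + 1))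
        rw [va, vb, hr.1]
      · show lam m B T Hc k (i + 1) (ix m (k + i)) = lam m B T Hc k (i + 1) (ix m (k + i + 1))
        rw [va', vb', hr.2]
      · intro w h1 h2
        rcases w with _ | p
        · rfl
        · exact hoff p (fun h => h1 (by rw [h])) (fun h => h2 (by rw [h]))
    · rw [if_neg hc]
      have hcf : c (ix m (k + i + 1)) = false := by simpa using hc
      have hr := hR.f (k + i) hcf
      have e : lam m B T Hc k (i + 1) = lam m B T Hc k i := by
        funext p
        by_cases h1 : p = ix m (k + i)
        · rw [h1, va, va', hr.2]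
        · by_cases h2 : p = ix m (k + i + 1)
          · rw [h2, vb, vb', hr.1]
          · exact hoff p h1 h2
      rw [e]
      exact ih

theorem Tc_inv {m : ℕ} {c B T Hc : Fin (m + 1) → Bool} (hR : Rules m c B T Hc)
    (s : Pat (m + 1)) (hs : ∀ v, ext B (s.1 v) = ext B v) (v : Vx (m + 1)) :
    ext T ((Tc m c s).1 v) = ext T v := by
  unfold Tc
  split_ifs with h
  · set k := Nat.find h with hkdef
    have hk := (Nat.find_spec h).1
    have hck := (Nat.find_spec h).2
    rw [← hkdef] at hk hck
    have hw := word_inv hR s hs hk hck m le_rfl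
    have key : ∀ w, ext T (rotV m w) = ext (lam m B T Hc k m) w := by
      intro w
      rcases w with _ | p
      · rw [rotV_none]; rfl
      · rw [rotV_some]
        show T (ix m (p.val + 1)) = lam m B T Hc k m p
        unfold lam
        by_cases hp : rel m k p < m
        · rw [if_pos hp]
        · have hp' : rel m k p = m := by have := rel_lt m k p; omega
          rw [if_neg hp, if_pos hp']
          have e1 : p = ix m (k + m) := by rw [← ix_rel hk p, hp']
          have e2 : ix m (p.val + 1) = ix m (k + m + 1) := by
            rw [e1]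
            apply ix_congr
            rw [ix_val, Nat.add_mod, Nat.mod_mod, ← Nat.add_mod]
          have h2 : ix m k = ix m (k + m + 1) := ix_congr (by
            rw [show k + m + 1 = k + (m + 1) by omega, Nat.add_mod_right])
          have := (hR.f (k + m) (by rw [← h2]; exact hck)).2
          rw [e2, this, ← e1]
    rw [rot_val]
    simp only [Perm.mul_apply]
    rw [key, hw, ← key]
    congr 1
    exact (rotV m).apply_symm_apply v
  · have key : ∀ w, ext T w = ext B (rotV m w) := by
      intro w
      rcases w with _ | p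
      · rw [rotV_none]; rfl
      · rw [rotV_some]
        show T p = B (ix m (p.val + 1))
        have hall : ∀ n : ℕ, c (ix m n) = true := by
          intro n
          by_contra hc
          apply h
          refine ⟨n % (m + 1), Nat.mod_lt _ (Nat.succ_pos m), ?_⟩
          rw [ix_congr (Nat.mod_mod n (m + 1))]
          simpa using hc
        have h2 : ix m (p.val + m + 1) = p := by
          rw [← ix_self m p]
          apply ix_congr
          rw [ix_self, show p.val + m + 1 = p.val + (m + 1) by omega, Nat.add_mod_right]
        have r1 := (hR.t (p.val + m) (hall _)).2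
        have r2 := (hR.t p.val (hall _)).1
        rw [h2] at r1
        rw [ix_self] at r2
        rw [r1, r2]
    rw [rotInv_val]
    simp only [Perm.mul_apply]
    have e : rotV m ((rotV m)⁻¹ (s.1 (rotV m v))) = s.1 (rotV m v) :=
      (rotV m).apply_symm_apply _
    rw [key, e, hs, ← key]

end CMP

/-- iterate rows: `rows c M σ0` is the pattern after the rows `c 0, …, c (M-1)` -/
noncomputable def rows (m : ℕ) (c : ℕ → Fin (m + 1) → Bool) : ℕ → Pat (m + 1) → Pat (m + 1)
  | 0, σ => σ
  | (t + 1), σ => Tc m (c t) (rows m c t σ)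

/-- label of a vertex at level `t`: the face of parity `ε` adjacent to the strand -/
def lab {m : ℕ} (H : ℕ → ℕ → Bool) (ε t : ℕ) : Vx (m + 1) → Bool
  | none => false
  | some j => if (j.val + t) % 2 = ε then H j.val t else H (j.val + 1) t

/-- `H` (on the faces `(j,t)`, `0 ≤ j ≤ m+1`, `0 ≤ t ≤ M`, of parity `ε`) is false on the
boundary and constant along open links -/
structure Labelling (m M : ℕ) (c : ℕ → Fin (m + 1) → Bool) (ε : ℕ) (H : ℕ → ℕ → Bool) :
    Prop where
  left : ∀ t ≤ M, t % 2 = ε → H 0 t = false
  right : ∀ t ≤ M, (m + 1 + t) % 2 = ε → H (m + 1) t = false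
  bottom : ∀ j ≤ m + 1, j % 2 = ε → H j 0 = false
  link0 : ∀ t < M, ∀ j : Fin (m + 1), c t j = false → (j.val + t) % 2 = ε →
    H j.val t = H (j.val + 1) (t + 1)
  link1 : ∀ t < M, ∀ j : Fin (m + 1), c t j = true → (j.val + t + 1) % 2 = ε →
    H j.val (t + 1) = H (j.val + 1) t

theorem compat {m M : ℕ} {c : ℕ → Fin (m + 1) → Bool} {ε : ℕ} (hε : ε < 2)
    {H : ℕ → ℕ → Bool} (hH : Labelling m M c ε H) (σ : Pat (m + 1)) (v : Vx (m + 1)) :
    lab H ε M ((rows m c M σ).1 v) = lab H ε M v := by
  induction M generalizing v with
  | zero =>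
    have key : ∀ w : Vx (m + 1), lab H ε 0 w = false := by
      intro w
      rcases w with _ | j
      · rfl
      · have hj := j.2
        show (if (j.val + 0) % 2 = ε then H j.val 0 else H (j.val + 1) 0) = false
        split_ifs with h
        · exact hH.bottom _ (by omega) h
        · exact hH.bottom _ (by omega) (by omega)
    rw [key, key]
  | succ t ih =>
    have hH' : Labelling m t c ε H :=
      ⟨fun s hs => hH.left s (by omega), fun s hs => hH.right s (by omega), hH.bottom,
        fun s hs => hH.link0 s (by omega), fun s hs => hH.link1 s (by omega)⟩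
    have ih := ih hH'
    -- the vertical lines
    let hb : ℕ → Bool := fun j => if (j + t) % 2 = ε then H j t else H j (t + 1)
    have hb0 : hb 0 = false := by
      show (if (0 + t) % 2 = ε then H 0 t else H 0 (t + 1)) = false
      split_ifs with h
      · exact hH.left t (by omega) (by omega)
      · exact hH.left (t + 1) (by omega) (by omega)
    have hbm : hb (m + 1) = false := by
      show (if (m + 1 + t) % 2 = ε then H (m + 1) t else H (m + 1) (t + 1)) = false
      split_ifs with h
      · exact hH.right t (by omega) (by omega)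
      · exact hH.right (t + 1) (by omega) (by omega)
    -- rules for a single plaquette
    have rf : ∀ j : Fin (m + 1), c t j = false →
        (if (j.val + t) % 2 = ε then H j.val t else H (j.val + 1) t) = hb (j.val + 1) ∧
        (if (j.val + (t + 1)) % 2 = ε then H j.val (t + 1) else H (j.val + 1) (t + 1))
          = hb j.val := by
      intro j hj
      show _ = (if (j.val + 1 + t) % 2 = ε then H (j.val + 1) t else H (j.val + 1) (t + 1)) ∧
        _ = (if (j.val + t) % 2 = ε then H j.val t else H j.val (t + 1))
      by_cases h : (j.val + t) % 2 = ε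
      · have hl := hH.link0 t (by omega) j hj h
        rw [if_pos h, if_neg (by omega), if_neg (by omega), if_pos h]
        exact ⟨hl, hl.symm⟩
      · rw [if_neg h, if_pos (by omega), if_pos (by omega), if_neg h]
        exact ⟨rfl, rfl⟩
    have rt : ∀ j : Fin (m + 1), c t j = true →
        (if (j.val + t) % 2 = ε then H j.val t else H (j.val + 1) t) = hb j.val ∧
        (if (j.val + (t + 1)) % 2 = ε then H j.val (t + 1) else H (j.val + 1) (t + 1))
          = hb (j.val + 1) := by
      intro j hj
      show _ = (if (j.val + t) % 2 = ε then H j.val t else H j.val (t + 1)) ∧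
        _ = (if (j.val + 1 + t) % 2 = ε then H (j.val + 1) t else H (j.val + 1) (t + 1))
      by_cases h : (j.val + t) % 2 = ε
      · rw [if_pos h, if_pos h, if_neg (by omega), if_neg (by omega)]
        exact ⟨rfl, rfl⟩
      · have hl := hH.link1 t (by omega) j hj (by omega)
        rw [if_neg h, if_neg h, if_pos (by omega), if_pos (by omega)]
        exact ⟨hl.symm, hl⟩
    have hwrap : ∀ n : ℕ, hb ((n + 1) % (m + 1)) = hb (n % (m + 1) + 1) := by
      intro n
      have hlt := Nat.mod_lt n (Nat.succ_pos m)
      by_cases h : n % (m + 1) + 1 < m + 1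
      · have e : (n + 1) % (m + 1) = (n % (m + 1) + 1) % (m + 1) :=
          (Nat.mod_add_mod n (m + 1) 1).symm
        rw [e, Nat.mod_eq_of_lt h]
      · have e1 : n % (m + 1) = m := by
          have : n % (m + 1) < m + 1 := hlt
          omega
        have e2 : (n + 1) % (m + 1) = 0 := by
          have := Nat.div_add_mod n (m + 1)
          rw [e1] at this
          rw [← this, show (m + 1) * (n / (m + 1)) + m + 1 = (m + 1) * (n / (m + 1) + 1) by ring]
          exact Nat.mul_mod_right _ _
        rw [e1, e2, hb0, hbm]
    have hR : CMP.Rules m (c t)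
        (fun j => if (j.val + t) % 2 = ε then H j.val t else H (j.val + 1) t)
        (fun j => if (j.val + (t + 1)) % 2 = ε then H j.val (t + 1) else H (j.val + 1) (t + 1))
        (fun j => hb (j.val + 1)) := by
      constructor
      · intro n hn
        have := rf _ hn
        refine ⟨this.1, this.2.trans ?_⟩
        exact hwrap n
      · intro n hn
        have := rt _ hn
        refine ⟨this.1.trans (hwrap n), this.2⟩
    have e1 : ∀ w : Vx (m + 1), lab H ε t w = CMP.ext
        (fun j => if (j.val + t) % 2 = ε then H j.val t else H (j.val + 1) t) w := by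
      intro w; rcases w with _ | j <;> rfl
    have e2 : ∀ w : Vx (m + 1), lab H ε (t + 1) w = CMP.ext
        (fun j => if (j.val + (t + 1)) % 2 = ε then H j.val (t + 1) else H (j.val + 1) (t + 1))
        w := by
      intro w; rcases w with _ | j <;> rfl
    rw [e2, e2]
    apply CMP.Tc_inv hR
    intro w
    rw [← e1, ← e1]
    exact ih w

end Pool.Agent.H974R3
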