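import Pool.Agent.H974R3.Rel

/-! Braid-type relations of the Temperley-Lieb generators. -/

namespace Pool.Agent.H974R3
open Equiv

theorem r2_join_apply {α : Type*} [DecidableEq α] {a b : α} (hab : a ≠ b) {s : Perm α}
    (inv : ∀ v, s (s v) = v) (nofix : ∀ v, s v ≠ v) (v : α) :
    join a b s v = if v = a then b else if v = b then a else if v = s a then s b
      else if v = s b then s a else s v := by
  have i1 := inv a
  have i2 := inv b
  have i3 := inv v
  have n1 := nofix a
  have n2 := nofix b
  have n3 := nofix v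
  have inj := s.injective
  simp only [join, Perm.mul_apply, swap_apply_def]
  grind

theorem r2_join_symm {α : Type*} [DecidableEq α] {a b : α} (hab : a ≠ b) {s : Perm α}
    (inv : ∀ v, s (s v) = v) (nofix : ∀ v, s v ≠ v) : join a b s = join b a s := by
  ext v
  rw [r2_join_apply hab inv nofix, r2_join_apply hab.symm inv nofix]
  have i1 := inv a
  have i2 := inv b
  have i3 := inv v
  grind

theorem r2_join_inv {α : Type*} [DecidableEq α] {a b : α} {s : Perm α}
    (inv : ∀ v, s (s v) = v) (v : α) : join a b s (join a b s v) = v := by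
  simp only [join, Perm.mul_apply, swap_apply_self, inv]

theorem r2_join_nofix {α : Type*} [DecidableEq α] {a b : α} {s : Perm α}
    (nofix : ∀ v, s v ≠ v) (v : α) : join a b s v ≠ v := by
  intro h
  simp only [join, Perm.mul_apply] at h
  have h2 := congrArg (swap b (s a)) h
  rw [swap_apply_self] at h2
  exact nofix _ h2

/-- straightening -/
theorem r2_join_join {α : Type*} [DecidableEq α] {a b c : α} (hab : a ≠ b) (hac : a ≠ c)
    (hbc : b ≠ c) {t : Perm α} (inv : ∀ v, t (t v) = v) (nofix : ∀ v, t v ≠ v)
    (h : t a = b) : join a b (join b c t) = t := by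
  ext v
  have inj := t.injective
  have i1 := inv a
  have i2 := inv b
  have i3 := inv v
  have i4 := inv c
  have n4 := nofix c
  rw [r2_join_apply hab (r2_join_inv inv) (r2_join_nofix nofix), r2_join_apply hbc inv nofix,
    r2_join_apply hbc inv nofix, r2_join_apply hbc inv nofix]
  grind

theorem r2_join_comm4 {α : Type*} [DecidableEq α] {a b c d : α} (hab : a ≠ b) (hac : a ≠ c)
    (had : a ≠ d) (hbc : b ≠ c) (hbd : b ≠ d) (hcd : c ≠ d) {s : Perm α}
    (inv : ∀ v, s (s v) = v) (nofix : ∀ v, s v ≠ v) :
    join a b (join c d s) = join c d (join a b s) := by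
  ext v
  have inj := s.injective
  have i1 := inv a
  have i2 := inv b
  have i3 := inv v
  have i4 := inv c
  have i5 := inv d
  have n1 := nofix a
  have n2 := nofix b
  have n4 := nofix c
  have n5 := nofix d
  rw [r2_join_apply hab (r2_join_inv inv) (r2_join_nofix nofix),
    r2_join_apply hcd (r2_join_inv inv) (r2_join_nofix nofix)]
  simp only [r2_join_apply hcd inv nofix, r2_join_apply hab inv nofix, if_neg hac, if_neg had,
    if_neg hbc, if_neg hbd, if_neg hac.symm, if_neg had.symm, if_neg hbc.symm, if_neg hbd.symm]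
  clear inv nofix
  by_cases h1 : s a = b
  · by_cases h2 : s c = d
    · grind (splits := 40)
    · grind (splits := 40)
  · by_cases h2 : s c = d
    · grind (splits := 40)
    · by_cases h3 : s a = c
      · grind (splits := 40)
      · by_cases h4 : s a = d
        · grind (splits := 40)
        · by_cases h5 : s b = c
          · grind (splits := 40)
          · by_cases h6 : s b = d
            · grind (splits := 40)
            · grind (splits := 40)

theorem r2_ix_ne {m x y : ℕ} (h : x < y) (h2 : y < x + (m + 1)) : ix m x ≠ ix m y := by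
  intro heq
  have h3 : x % (m + 1) = y % (m + 1) := congrArg Fin.val heq
  have h4 : (m + 1) ∣ y - x := (Nat.modEq_iff_dvd' h.le).1 h3
  have h5 := Nat.le_of_dvd (by omega) h4
  omega

theorem r2_some_ix_ne {m x y : ℕ} (h : x < y) (h2 : y < x + (m + 1)) :
    (some (ix m x) : Vx (m + 1)) ≠ some (ix m y) := by
  intro heq
  exact r2_ix_ne h h2 (Option.some.inj heq)

theorem E_braid {m : ℕ} (hm : 2 ≤ m) (i : ℕ) (σ : Pat (m + 1)) :
    E m i (E m (i + 1) (E m i σ)) = E m i σ := by
  apply Subtype.ext
  rw [E_val, E_val]
  exact r2_join_join (r2_some_ix_ne (by omega) (by omega)) (r2_some_ix_ne (by omega) (by omega))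
    (r2_some_ix_ne (by omega) (by omega)) (E m i σ).2.inv (E m i σ).2.nofix
    (E_arc (by omega) i σ)

theorem E_braid' {m : ℕ} (hm : 2 ≤ m) (i : ℕ) (σ : Pat (m + 1)) :
    E m (i + 1) (E m i (E m (i + 1) σ)) = E m (i + 1) σ := by
  apply Subtype.ext
  rw [E_val, E_val]
  have hab : (some (ix m i) : Vx (m + 1)) ≠ some (ix m (i + 1)) :=
    r2_some_ix_ne (by omega) (by omega)
  have hac : (some (ix m i) : Vx (m + 1)) ≠ some (ix m (i + 1 + 1)) :=
    r2_some_ix_ne (by omega) (by omega)
  have hbc : (some (ix m (i + 1)) : Vx (m + 1)) ≠ some (ix m (i + 1 + 1)) :=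
    r2_some_ix_ne (by omega) (by omega)
  have inv := (E m (i + 1) σ).2.inv
  have nofix := (E m (i + 1) σ).2.nofix
  have harc := E_arc (m := m) (by omega) (i + 1) σ
  have harc' : (E m (i + 1) σ).1 (some (ix m (i + 1 + 1))) = some (ix m (i + 1)) := by
    rw [← harc]; exact inv _
  rw [r2_join_symm hbc (r2_join_inv inv) (r2_join_nofix nofix), r2_join_symm hab inv nofix]
  exact r2_join_join hbc.symm hac.symm hab.symm inv nofix harc'

theorem E_comm {m i j : ℕ} (h1 : i + 2 ≤ j) (h2 : j + 2 ≤ i + (m + 1)) (σ : Pat (m + 1)) :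
    E m i (E m j σ) = E m j (E m i σ) := by
  apply Subtype.ext
  rw [E_val, E_val, E_val, E_val]
  have hab : (some (ix m i) : Vx (m + 1)) ≠ some (ix m (i + 1)) :=
    r2_some_ix_ne (by omega) (by omega)
  have hac : (some (ix m i) : Vx (m + 1)) ≠ some (ix m j) :=
    r2_some_ix_ne (by omega) (by omega)
  have had : (some (ix m i) : Vx (m + 1)) ≠ some (ix m (j + 1)) :=
    r2_some_ix_ne (by omega) (by omega)
  have hbc : (some (ix m (i + 1)) : Vx (m + 1)) ≠ some (ix m j) :=
    r2_some_ix_ne (by omega) (by omega)
  have hbd : (some (ix m (i + 1)) : Vx (m + 1)) ≠ some (ix m (j + 1)) :=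
    r2_some_ix_ne (by omega) (by omega)
  have hcd : (some (ix m j) : Vx (m + 1)) ≠ some (ix m (j + 1)) :=
    r2_some_ix_ne (by omega) (by omega)
  exact r2_join_comm4 hab hac had hbc hbd hcd σ.2.inv σ.2.nofix

/-- where the strands have gone after `j` steps -/
def r2_shf (m j : ℕ) : Vx (m + 1) → Vx (m + 1)
  | none => none
  | some i => if 2 ≤ i.val ∧ i.val ≤ j + 1 then some ⟨i.val - 2, by omega⟩ else some i

theorem r2_rot_long_aux {m : ℕ} (σ : Pat (m + 1)) (j : ℕ) (hj : j + 1 ≤ m) :
    (word m (fun _ => true) 0 (j + 1) σ).1 (some (ix m j)) = some (ix m (j + 1)) ∧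
    ∀ v : Vx (m + 1), v ≠ some (ix m 0) → v ≠ some (ix m 1) →
      (word m (fun _ => true) 0 (j + 1) σ).1 (r2_shf m j v) = r2_shf m j ((E m 0 σ).1 v) := by
  induction j with
  | zero =>
    have h0 : word m (fun _ => true) 0 (0 + 1) σ = E m 0 σ := rfl
    rw [h0]
    have hs : ∀ v, r2_shf m 0 v = v := by
      intro v
      rcases v with _ | i
      · rfl
      · have : ¬ (2 ≤ i.val ∧ i.val ≤ 0 + 1) := by omega
        simp only [r2_shf, if_neg this]
    refine ⟨E_arc (by omega) 0 σ, fun v _ _ => ?_⟩
    rw [hs, hs]
  | succ j ih =>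
    obtain ⟨ih1, ih2⟩ := ih (by omega)
    set τ := word m (fun _ => true) 0 (j + 1) σ with hτ
    have hw : word m (fun _ => true) 0 (j + 1 + 1) σ = E m (j + 1) τ := by
      show (if (fun _ => true) (ix m (0 + (j + 1) + 1)) = true then E m (0 + (j + 1)) τ
        else τ) = _
      rw [if_pos rfl, Nat.zero_add]
    rw [hw]
    refine ⟨E_arc (by omega) _ _, fun v hv0 hv1 => ?_⟩
    have h2 : τ.1 (some (ix m (j + 1))) = some (ix m j) := by
      rw [← ih1]; exact τ.2.inv _
    rw [E_val, join, h2]
    simp only [Perm.mul_apply]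
    have hsh : ∀ w : Vx (m + 1), w ≠ some (ix m 0) → w ≠ some (ix m 1) →
        swap (some (ix m (j + 1 + 1))) (some (ix m j)) (r2_shf m (j + 1) w) = r2_shf m j w ∧
        swap (some (ix m (j + 1 + 1))) (some (ix m j)) (r2_shf m j w) = r2_shf m (j + 1) w := by
      intro w hw0 hw1
      have key : swap (some (ix m (j + 1 + 1))) (some (ix m j)) (r2_shf m j w) =
          r2_shf m (j + 1) w := by
        rcases w with _ | i
        · simp only [r2_shf]
          rw [swap_apply_of_ne_of_ne (by simp) (by simp)]
        · have hm0 : 0 % (m + 1) = 0 := Nat.zero_mod _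
          have hm1 : 1 % (m + 1) = 1 := Nat.mod_eq_of_lt (by omega)
          have hmj : j % (m + 1) = j := Nat.mod_eq_of_lt (by omega)
          have hmj2 : (j + 1 + 1) % (m + 1) = j + 1 + 1 := Nat.mod_eq_of_lt (by omega)
          have hi0 : i.val ≠ 0 := by
            intro h; apply hw0; congr 1; ext; simp [ix, h]
          have hi1 : i.val ≠ 1 := by
            intro h; apply hw1; congr 1; ext; simp only [ix, hm1, h]
          simp only [r2_shf, swap_apply_def, ix, hmj, hmj2]
          by_cases c1 : 2 ≤ i.val ∧ i.val ≤ j + 1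
          · have c2 : 2 ≤ i.val ∧ i.val ≤ j + 1 + 1 := by omega
            simp only [if_pos c1, if_pos c2, Option.some.injEq, Fin.ext_iff]
            rw [if_neg (by omega), if_neg (by omega)]
          · by_cases c2 : i.val = j + 1 + 1
            · have c3 : 2 ≤ i.val ∧ i.val ≤ j + 1 + 1 := by omega
              simp only [if_neg c1, if_pos c3, Option.some.injEq, Fin.ext_iff, if_pos c2]
              omega
            · have c3 : ¬ (2 ≤ i.val ∧ i.val ≤ j + 1 + 1) := by omega
              simp only [if_neg c1, if_neg c3, Option.some.injEq, Fin.ext_iff, if_neg c2]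
              rw [if_neg (by omega)]
      refine ⟨?_, key⟩
      rw [← key, swap_apply_self]
    rw [(hsh v hv0 hv1).1, ih2 v hv0 hv1]
    apply (hsh _ _ _).2
    · intro h
      have harc := E_arc (m := m) (by omega) 0 σ
      have h3 := congrArg (E m 0 σ).1 h
      rw [(E m 0 σ).2.inv, harc] at h3
      exact hv1 h3
    · intro h
      have harc := E_arc (m := m) (by omega) 0 σ
      rw [← harc] at h
      exact hv0 ((E m 0 σ).1.injective h)

theorem r2_rotV_some {m i : ℕ} (hi : i ≤ m) : rotV m (some (ix m i)) = some (ix m (i + 1)) := by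
  unfold rotV
  rw [optionCongr_apply, Option.map_some]
  congr 1
  ext
  rw [finRotate_apply]
  unfold ix
  simp only [Fin.val_add, Fin.val_one']
  exact (Nat.add_mod i 1 (m + 1)).symm

theorem r2_rotV_none (m : ℕ) : rotV m none = none := rfl

theorem rot_long (m : ℕ) (σ : Pat (m + 1)) :
    rot m (rot m (word m (fun _ => true) 0 m σ)) = E m 0 σ := by
  rcases Nat.eq_zero_or_pos m with hm | hm
  · subst hm
    have key : ∀ a b : Pat (0 + 1), a = b := by
      intro a b
      apply Subtype.ext
      ext1 v
      have h1 : ∀ c : Pat (0 + 1), ∀ v, c.1 v = if v = none then some 0 else none := by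
        intro c v
        have h2 := c.2.nofix v
        rcases v with _ | i
        · rcases h3 : c.1 none with _ | k
          · exact absurd h3 h2
          · simp only [if_pos]
            congr 1
            exact Fin.ext (by omega)
        · rcases h3 : c.1 (some i) with _ | k
          · simp
          · exfalso
            apply h2
            rw [h3]
            congr 1
            exact Fin.ext (by omega)
      rw [h1 a v, h1 b v]
    exact key _ _
  · obtain ⟨m', rfl⟩ : ∃ m', m = m' + 1 := ⟨m - 1, by omega⟩
    obtain ⟨h1, h2⟩ := r2_rot_long_aux σ m' le_rfl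
    set τ := word (m' + 1) (fun _ => true) 0 (m' + 1) σ with hτ
    have harc := E_arc (m := m' + 1) (by omega) 0 σ
    have hrr : ∀ v w : Vx (m' + 1 + 1), τ.1 v = w →
        (rot (m' + 1) (rot (m' + 1) τ)).1 (rotV (m' + 1) (rotV (m' + 1) v)) =
          rotV (m' + 1) (rotV (m' + 1) w) := by
      intro v w h
      rw [rot_val, rot_val]
      simp only [Perm.mul_apply, Perm.inv_def, Equiv.symm_apply_apply, h]
    have e2 : ∀ i, i ≤ m' + 1 → rotV (m' + 1) (rotV (m' + 1) (some (ix (m' + 1) i))) =
        some (ix (m' + 1) (i + 2)) := by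
      intro i hi
      rw [r2_rotV_some hi]
      rcases Nat.lt_or_ge i (m' + 1) with h | h
      · rw [r2_rotV_some (by omega)]
      · have : i = m' + 1 := by omega
        subst this
        have h3 : ix (m' + 1) (m' + 1 + 1) = ix (m' + 1) 0 := by
          have := ix_add (m' + 1) 0
          rwa [Nat.zero_add] at this
        have h4 : ix (m' + 1) (m' + 1 + 2) = ix (m' + 1) 1 := by
          have := ix_add (m' + 1) 1
          rw [← this]
          congr 1
          omega
        rw [h3, h4, r2_rotV_some (by omega)]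
    have hback : ∀ v : Vx (m' + 1 + 1), v ≠ some (ix (m' + 1) 0) → v ≠ some (ix (m' + 1) 1) →
        rotV (m' + 1) (rotV (m' + 1) (r2_shf (m' + 1) m' v)) = v := by
      intro v hv0 hv1
      rcases v with _ | i
      · rfl
      · have hm0 : 0 % (m' + 1 + 1) = 0 := Nat.zero_mod _
        have hm1 : 1 % (m' + 1 + 1) = 1 := Nat.mod_eq_of_lt (by omega)
        have hi0 : i.val ≠ 0 := by
          intro h; apply hv0; congr 1; ext; simp [ix, h]
        have hi1 : i.val ≠ 1 := by
          intro h; apply hv1; congr 1; ext; simp only [ix, hm1, h]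
        have hlt := i.isLt
        have c1 : 2 ≤ i.val ∧ i.val ≤ m' + 1 := by omega
        simp only [r2_shf, if_pos c1]
        have h5 : (⟨i.val - 2, by omega⟩ : Fin (m' + 1 + 1)) = ix (m' + 1) (i.val - 2) := by
          ext
          simp only [ix]
          rw [Nat.mod_eq_of_lt (by omega)]
        rw [h5, e2 _ (by omega)]
        congr 1
        ext
        simp only [ix]
        rw [Nat.mod_eq_of_lt (by omega)]
        omega
    have hm0' : ix (m' + 1) (m' + 2) = ix (m' + 1) 0 := by
      have := ix_add (m' + 1) 0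
      rw [Nat.zero_add] at this
      exact this
    have hm1' : ix (m' + 1) (m' + 1 + 2) = ix (m' + 1) 1 := by
      have := ix_add (m' + 1) 1
      rw [← this]
      congr 1
      omega
    apply Subtype.ext
    ext1 v
    by_cases hv0 : v = some (ix (m' + 1) 0)
    · subst hv0
      have h6 := hrr _ _ h1
      rw [e2 _ (by omega), e2 _ (by omega), hm0', hm1'] at h6
      rw [h6]
      exact harc.symm
    · by_cases hv1 : v = some (ix (m' + 1) 1)
      · subst hv1
        have h1' : τ.1 (some (ix (m' + 1) (m' + 1))) = some (ix (m' + 1) m') := by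
          rw [← h1]; exact τ.2.inv _
        have h6 := hrr _ _ h1'
        rw [e2 _ (by omega), e2 _ (by omega), hm0', hm1'] at h6
        rw [h6, ← harc]
        exact ((E (m' + 1) 0 σ).2.inv _).symm
      · have h6 := hrr _ _ (h2 v hv0 hv1)
        rw [hback v hv0 hv1, hback] at h6
        · exact h6
        · intro h
          have h3 := congrArg (E (m' + 1) 0 σ).1 h
          rw [(E (m' + 1) 0 σ).2.inv, harc] at h3
          exact hv1 h3
        · intro h
          rw [← harc] at h
          exact hv0 ((E (m' + 1) 0 σ).1.injective h)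

end Pool.Agent.H974R3
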