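import Pool.Agent.H974R3.Link

/-!
From the stationary measure to the finite box of `ℤ²`.
-/

namespace Pool.Agent.H974R3
open H974 Finset

/-- extension of finitely many rows to a sequence of rows -/
def ext {X : Type*} [Inhabited X] {M : ℕ} (c : Fin M → X) : ℕ → X :=
  fun t => if h : t < M then c ⟨t, h⟩ else default

theorem rows_congr {m : ℕ} {c c' : ℕ → Fin (m + 1) → Bool} {M : ℕ} (h : ∀ t < M, c t = c' t)
    (σ : Pat (m + 1)) : rows m c M σ = rows m c' M σ := by
  induction M with
  | zero => rfl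
  | succ M ih =>
    show Tc m (c M) (rows m c M σ) = Tc m (c' M) (rows m c' M σ)
    rw [ih (fun t ht => h t (by omega)), h M (by omega)]

theorem box_sum_push_mul {X Y : Type*} [Fintype X] [Fintype Y] [DecidableEq Y] (g : X → Y)
    (v : X → ℝ) (f : Y → ℝ) : ∑ y, push g v y * f y = ∑ x, v x * f (g x) := by
  unfold push
  simp only [Finset.sum_mul]
  rw [Finset.sum_comm]
  apply Finset.sum_congr rfl
  intro x _
  rw [Finset.sum_eq_single (g x)]
  · simp
  · intro y _ hy
    rw [if_neg (fun h => hy h.symm), zero_mul]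
  · simp

theorem rows_stat {m : ℕ} {μ : Pat (m + 1) → ℝ}
    (hst : ∀ σ, ∑ c : Fin (m + 1) → Bool, push (Tc m c) μ σ = 2 ^ (m + 1) * μ σ) (M : ℕ) :
    ∀ f : Pat (m + 1) → ℝ,
    ∑ c : Fin M → (Fin (m + 1) → Bool), ∑ σ, μ σ * f (rows m (ext c) M σ)
      = (2 ^ (m + 1)) ^ M * ∑ σ, μ σ * f σ := by
  induction M with
  | zero =>
    intro f
    simp [rows]
  | succ M ih =>
    intro f
    have e : ∑ c : Fin (M + 1) → (Fin (m + 1) → Bool), ∑ σ, μ σ * f (rows m (ext c) (M + 1) σ)
        = ∑ p : (Fin (m + 1) → Bool) × (Fin M → (Fin (m + 1) → Bool)),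
          ∑ σ, μ σ * f (Tc m p.1 (rows m (ext p.2) M σ)) := by
      apply Fintype.sum_equiv (Fin.snocEquiv (fun _ => Fin (m + 1) → Bool)).symm
      intro c
      apply Finset.sum_congr rfl
      intro σ _
      have h1 : ext c M = c (Fin.last M) := by
        unfold ext; rw [dif_pos (Nat.lt_succ_self M)]; rfl
      have h2 : rows m (ext c) M σ = rows m (ext (fun i : Fin M => c i.castSucc)) M σ := by
        apply rows_congr
        intro t ht
        unfold ext
        rw [dif_pos (by omega), dif_pos ht]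
        rfl
      show μ σ * f (Tc m (ext c M) (rows m (ext c) M σ)) = _
      rw [h1, h2]
      rfl
    rw [e, Fintype.sum_prod_type]
    have e2 : ∀ x : Fin (m + 1) → Bool, ∑ y : Fin M → (Fin (m + 1) → Bool),
        ∑ σ, μ σ * f (Tc m x (rows m (ext y) M σ))
        = (2 ^ (m + 1)) ^ M * ∑ σ, μ σ * f (Tc m x σ) := fun x => ih (fun σ => f (Tc m x σ))
    simp only [e2]
    rw [← Finset.mul_sum]
    have e3 : ∀ x : Fin (m + 1) → Bool, ∑ σ, μ σ * f (Tc m x σ)
        = ∑ σ, push (Tc m x) μ σ * f σ := fun x => (box_sum_push_mul _ _ _).symm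
    simp only [e3]
    rw [Finset.sum_comm]
    simp only [← Finset.sum_mul, hst]
    rw [pow_succ (2 ^ (m + 1)) M, mul_assoc ((2 ^ (m + 1)) ^ M)]
    congr 1
    rw [Finset.mul_sum]
    apply Finset.sum_congr rfl
    intro σ _
    ring

/-- the edges of the box -/
def SS (n M : ℕ) : Finset Edg :=
  (Finset.range (2 * n + 1) ×ˢ Finset.range (2 * M)).image (fun p => ed n M p.1 p.2)

theorem mem_SS {n M : ℕ} {e : Edg} : e ∈ SS n M ↔ ∃ j r, j < 2 * n + 1 ∧ r < 2 * M ∧ ed n M j r = e := by
  unfold SS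
  simp only [mem_image, mem_product, mem_range, Prod.exists]
  constructor
  · rintro ⟨j, r, ⟨h1, h2⟩, h3⟩; exact ⟨j, r, h1, h2, h3⟩
  · rintro ⟨j, r, h1, h2, h3⟩; exact ⟨j, r, ⟨h1, h2⟩, h3⟩

/-- the configuration with prescribed plaquettes -/
def FS (n M : ℕ) (b : ℕ → Fin (2 * n + 1) → Bool) : Finset Edg :=
  ((Finset.univ ×ˢ Finset.range (2 * M) : Finset (Fin (2 * n + 1) × ℕ)).filter (fun p =>
    (if (p.1.val + p.2) % 2 = (n + M) % 2 then !(b p.2 p.1) else b p.2 p.1) = true)).image
      (fun p => ed n M p.1.val p.2)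

theorem FS_sub (n M : ℕ) (b : ℕ → Fin (2 * n + 1) → Bool) : FS n M b ⊆ SS n M := by
  intro e he
  unfold FS at he
  simp only [mem_image, mem_filter, mem_product, mem_range, Prod.exists] at he
  obtain ⟨j, r, ⟨⟨-, h2⟩, -⟩, h4⟩ := he
  exact mem_SS.2 ⟨j.val, r, j.2, h2, h4⟩

theorem mem_FS {n M : ℕ} {b : ℕ → Fin (2 * n + 1) → Bool} {j : Fin (2 * n + 1)} {r : ℕ}
    (hr : r < 2 * M) : ed n M j.val r ∈ FS n M b ↔
      (if (j.val + r) % 2 = (n + M) % 2 then !(b r j) else b r j) = true := by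
  unfold FS
  simp only [mem_image, mem_filter, mem_product, mem_range, Prod.exists]
  constructor
  · rintro ⟨j', r', ⟨⟨-, h2⟩, h3⟩, h4⟩
    obtain ⟨h5, h6⟩ := ed_inj h4
    have h7 : j' = j := Fin.ext h5
    subst h6; subst h7
    exact h3
  · intro h
    exact ⟨j, r, ⟨⟨Finset.mem_univ _, hr⟩, h⟩, rfl⟩

theorem pst_FS {n M : ℕ} {b : ℕ → Fin (2 * n + 1) → Bool} {j : Fin (2 * n + 1)} {r : ℕ}
    (hr : r < 2 * M) : pst n M (FS n M b) r j = b r j := by
  have hm := mem_FS (b := b) (j := j) hr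
  unfold pst
  by_cases h : (j.val + r) % 2 = (n + M) % 2
  · simp only [if_pos h] at hm ⊢
    cases hb : b r j
    · rw [hb] at hm
      simpa using hm
    · rw [hb] at hm
      simpa using hm
  · simp only [if_neg h] at hm ⊢
    cases hb : b r j
    · rw [hb] at hm
      simpa using hm
    · rw [hb] at hm
      simpa using hm

theorem FS_pst {n M : ℕ} {F : Finset Edg} (hF : F ⊆ SS n M) : FS n M (pst n M F) = F := by
  ext e
  constructor
  · intro he
    obtain ⟨j, r, hj, hr, rfl⟩ := mem_SS.1 (FS_sub _ _ _ he)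
    have := (mem_FS (j := ⟨j, hj⟩) hr).1 he
    unfold pst at this
    by_cases h : (j + r) % 2 = (n + M) % 2
    · simpa [if_pos h] using this
    · simpa [if_neg h] using this
  · intro he
    obtain ⟨j, r, hj, hr, rfl⟩ := mem_SS.1 (hF he)
    refine (mem_FS (j := ⟨j, hj⟩) hr).2 ?_
    unfold pst
    by_cases h : (j + r) % 2 = (n + M) % 2
    · simpa [if_pos h] using he
    · simpa [if_neg h] using he

theorem FS_congr {n M : ℕ} {b b' : ℕ → Fin (2 * n + 1) → Bool} (h : ∀ r < 2 * M, b r = b' r) :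
    FS n M b = FS n M b' := by
  unfold FS
  congr 1
  apply Finset.filter_congr
  intro p hp
  simp only [mem_product, mem_range] at hp
  rw [h p.2 hp.2]

/-- combination of lower and upper rows -/
def comb (n M : ℕ) (a b : Fin M → (Fin (2 * n + 1) → Bool)) : ℕ → Fin (2 * n + 1) → Bool :=
  fun r => if r < M then ext a r else fun j => !(ext b (2 * M - 1 - r) j)

theorem sum_config {n M : ℕ} (G : (Fin M → (Fin (2 * n + 1) → Bool)) →
      (Fin M → (Fin (2 * n + 1) → Bool)) → ℝ) :
    ∑ F ∈ (SS n M).powerset, G (fun t => cl n M F t) (fun t => cu n M F t)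
      = ∑ a, ∑ b, G a b := by
  rw [← Fintype.sum_prod_type']
  apply Finset.sum_nbij' (fun F => ((fun t : Fin M => cl n M F t), (fun t : Fin M => cu n M F t)))
    (fun p => FS n M (comb n M p.1 p.2))
  · intro F _; exact Finset.mem_univ _
  · intro p _; exact Finset.mem_powerset.2 (FS_sub _ _ _)
  · intro F hF
    have hF' := Finset.mem_powerset.1 hF
    conv_rhs => rw [← FS_pst hF']
    apply FS_congr
    intro r hr
    unfold comb
    by_cases h : r < M
    · rw [if_pos h]
      unfold ext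
      rw [dif_pos h]
      rfl
    · rw [if_neg h]
      unfold ext
      rw [dif_pos (by omega : 2 * M - 1 - r < M)]
      funext j
      simp only [cu]
      rw [show 2 * M - 1 - (2 * M - 1 - r) = r by omega]
      simp
  · rintro ⟨a, b⟩ _
    simp only [Prod.mk.injEq]
    constructor
    · funext t j
      show pst n M (FS n M (comb n M a b)) t j = a t j
      rw [pst_FS (by omega)]
      unfold comb ext
      rw [if_pos t.2, dif_pos t.2]
    · funext t j
      show (!(pst n M (FS n M (comb n M a b)) (2 * M - 1 - t) j)) = b t j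
      have ht := t.2
      rw [pst_FS (by omega)]
      unfold comb ext
      rw [if_neg (by omega)]
      simp only [Bool.not_not]
      rw [dif_pos (by omega : 2 * M - 1 - (2 * M - 1 - t.val) < M)]
      have e : (⟨2 * M - 1 - (2 * M - 1 - t.val), by omega⟩ : Fin M) = t := by
        apply Fin.ext
        show 2 * M - 1 - (2 * M - 1 - t.val) = t.val
        omega
      rw [e]
  · intro F _
    rfl

theorem card_SS (n M : ℕ) : (SS n M).card = (2 * n + 1) * (2 * M) := by
  unfold SS
  rw [Finset.card_image_of_injective, Finset.card_product, Finset.card_range, Finset.card_range]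
  rintro ⟨j, r⟩ ⟨j', r'⟩ h
  obtain ⟨h1, h2⟩ := ed_inj h
  exact Prod.ext h1 h2

theorem Pr_half (S : Finset Edg) (A : Finset Edg → Prop) :
    Pr (fun _ => 1/2) S A = (1/2)^S.card * ∑ F ∈ S.powerset, ind (A F) := by
  unfold Pr Ex
  rw [Finset.mul_sum]
  apply Finset.sum_congr rfl
  intro F hF
  have hF' := Finset.mem_powerset.1 hF
  rw [Finset.prod_const, Finset.prod_const]
  rw [show (1 - 1/2 : ℝ) = 1/2 by norm_num, ← pow_add, Finset.card_sdiff_of_subset hF']
  congr 2
  have := Finset.card_le_card hF'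
  omega

theorem pr_re_nonneg {L : ℕ} (j : Fin L) (σ τ : Pat L) : 0 ≤ (pr j σ τ).re := by
  unfold pr; split_ifs <;> simp

theorem pr_re_le_one {L : ℕ} (j : Fin L) (σ τ : Pat L) : (pr j σ τ).re ≤ 1 := by
  unfold pr; split_ifs <;> simp

/-- the main inequality: the exact value on the cylinder is a lower bound for the two arm
probability in the box -/
theorem pval_le_box (n M : ℕ) (hM : n ≤ M) (μ : Pat (2 * n + 1) → ℝ) (hμ : ∑ σ, μ σ = 1)
    (h0 : ∀ σ, 0 ≤ μ σ)
    (hst : ∀ σ, ∑ c : Fin (2 * n + 1) → Bool, push (Tc (2 * n) c) μ σ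
      = 2 ^ (2 * n + 1) * μ σ) :
    pval n ≤ Pr (fun _ => 1/2) (SS n M) (fun F => OutP n (↑F : Set Edg) ∧
      OutD n (↑(SS n M \ F) : Set Edg)) := by
  set j : Fin (2 * n + 1) := ⟨n, by omega⟩ with hj
  have hv := pairing_value n μ hμ hst j
  set P : ℝ := (2 ^ (2 * n + 1)) ^ M with hP
  have hPpos : 0 < P := by positivity
  have e1 : ∑ a : Fin M → (Fin (2 * n + 1) → Bool), ∑ b : Fin M → (Fin (2 * n + 1) → Bool),
      ∑ σ, ∑ τ, μ σ * μ τ * (pr j (rows (2 * n) (ext a) M σ) (rows (2 * n) (ext b) M τ)).re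
      = P * (P * pval n) := by
    have s1 : ∀ a : Fin M → (Fin (2 * n + 1) → Bool), ∑ b : Fin M → (Fin (2 * n + 1) → Bool),
      ∑ σ, ∑ τ, μ σ * μ τ * (pr j (rows (2 * n) (ext a) M σ) (rows (2 * n) (ext b) M τ)).re
      = P * ∑ τ, μ τ * (∑ σ, μ σ * (pr j (rows (2 * n) (ext a) M σ) τ).re) := by
      intro a
      rw [hP, ← rows_stat hst M
        (fun τ => ∑ σ, μ σ * (pr j (rows (2 * n) (ext a) M σ) τ).re)]
      apply Finset.sum_congr rfl
      intro b _
      rw [Finset.sum_comm]
      apply Finset.sum_congr rfl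
      intro τ _
      rw [Finset.mul_sum]
      apply Finset.sum_congr rfl
      intro σ _
      ring
    simp only [s1]
    rw [← Finset.mul_sum]
    congr 1
    have s2 : ∑ a : Fin M → (Fin (2 * n + 1) → Bool),
        ∑ τ, μ τ * (∑ σ, μ σ * (pr j (rows (2 * n) (ext a) M σ) τ).re)
        = ∑ a : Fin M → (Fin (2 * n + 1) → Bool),
          ∑ σ, μ σ * (fun σ' => ∑ τ, μ τ * (pr j σ' τ).re) (rows (2 * n) (ext a) M σ) := by
      apply Finset.sum_congr rfl
      intro a _
      simp only [Finset.mul_sum]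
      rw [Finset.sum_comm]
      apply Finset.sum_congr rfl
      intro τ _
      apply Finset.sum_congr rfl
      intro σ _
      ring
    rw [s2, rows_stat hst M (fun σ' => ∑ τ, μ τ * (pr j σ' τ).re), ← hP]
    congr 1
    rw [← hv]
    apply Finset.sum_congr rfl
    intro σ _
    rw [Finset.mul_sum]
    apply Finset.sum_congr rfl
    intro τ _
    ring
  have e2 := sum_config (n := n) (M := M) (fun a b =>
    ∑ σ, ∑ τ, μ σ * μ τ * (pr j (rows (2 * n) (ext a) M σ) (rows (2 * n) (ext b) M τ)).re)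
  rw [e1] at e2
  have e3 : P * (P * pval n) ≤ ∑ F ∈ (SS n M).powerset, ind (OutP n (↑F : Set Edg) ∧
      OutD n (↑(SS n M \ F) : Set Edg)) := by
    rw [← e2]
    apply Finset.sum_le_sum
    intro F hF
    have hF' := Finset.mem_powerset.1 hF
    have r1 : ∀ σ, rows (2 * n) (ext (fun t : Fin M => cl n M F t)) M σ
        = rows (2 * n) (cl n M F) M σ := fun σ => rows_congr (fun t ht => by
      unfold ext; rw [dif_pos ht]) σ
    have r2 : ∀ σ, rows (2 * n) (ext (fun t : Fin M => cu n M F t)) M σ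
        = rows (2 * n) (cu n M F) M σ := fun σ => rows_congr (fun t ht => by
      unfold ext; rw [dif_pos ht]) σ
    simp only [r1, r2]
    by_cases hA : OutP n (↑F : Set Edg) ∧ OutD n (↑(SS n M \ F) : Set Edg)
    · rw [ind_of hA]
      calc ∑ σ, ∑ τ, μ σ * μ τ * (pr j (rows (2 * n) (cl n M F) M σ)
              (rows (2 * n) (cu n M F) M τ)).re
          ≤ ∑ σ, ∑ τ, μ σ * μ τ := by
            apply Finset.sum_le_sum; intro σ _
            apply Finset.sum_le_sum; intro τ _
            have h2 := mul_nonneg (h0 σ) (h0 τ)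
            have := mul_le_mul_of_nonneg_left (pr_re_le_one j (rows (2 * n) (cl n M F) M σ)
              (rows (2 * n) (cu n M F) M τ)) h2
            simpa using this
        _ = 1 := by
            simp only [← Finset.mul_sum, hμ, mul_one]
    · rw [ind_not_of hA]
      apply le_of_eq
      apply Finset.sum_eq_zero; intro σ _
      apply Finset.sum_eq_zero; intro τ _
      have hz : pr j (rows (2 * n) (cl n M F) M σ) (rows (2 * n) (cu n M F) M τ) = 0 := by
        by_cases hp : OutP n (↑F : Set Edg)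
        · have hd : ¬ OutD n (↑(SS n M \ F) : Set Edg) := fun h => hA ⟨hp, h⟩
          refine pr_le_d hM ?_ hd σ τ
          intro j r hj hr hn
          rw [Finset.coe_sdiff]
          exact ⟨Finset.mem_coe.2 (mem_SS.2 ⟨j, r, hj, hr, rfl⟩), fun h => hn (Finset.mem_coe.1 h)⟩
        · exact pr_le_p hM hp σ τ
      rw [hz]; simp
  rw [Pr_half, card_SS]
  have e4 : (1/2 : ℝ) ^ ((2 * n + 1) * (2 * M)) * (P * P) = 1 := by
    rw [hP, ← pow_mul, ← pow_add, one_div, inv_pow,
      show (2 * n + 1) * (2 * M) = (2 * n + 1) * M + (2 * n + 1) * M by ring]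
    exact inv_mul_cancel₀ (by positivity)
  calc pval n = (1/2 : ℝ) ^ ((2 * n + 1) * (2 * M)) * (P * P) * pval n := by rw [e4, one_mul]
    _ = (1/2 : ℝ) ^ ((2 * n + 1) * (2 * M)) * (P * (P * pval n)) := by ring
    _ ≤ _ := mul_le_mul_of_nonneg_left e3 (by positivity)

end Pool.Agent.H974R3
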