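import Mathlib

/-!
# Definitions: link patterns on a cylinder with an odd number of strands, the transfer operator
of the O(1) loop model (= critical bond percolation on Z^2), Schur-type polynomials at a cube
root of unity.

All operations on patterns are total functions `Pat L → Pat L`.  `E m i` joins the strands
`i` and `i+1` (indices modulo `m+1`), `rot` rotates by one, `ins` inserts a small arc at 0,1.
-/

namespace Pool.Agent.H974R3
open Equiv

/-- vertices: `some i` = strand `i`, `none` = the point at infinity -/
abbrev Vx (L : ℕ) := Option (Fin L)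

/-- `x` lies strictly between `k` and `l` -/
def Btw {L : ℕ} (k l x : Fin L) : Prop := (k < x ∧ x < l) ∨ (l < x ∧ x < k)

/-- a link pattern with one defect: a fixed point free involution of the `L+1` vertices, such
that the chords inside `Fin L` do not cross -/
structure IsPat {L : ℕ} (σ : Perm (Vx L)) : Prop where
  inv : ∀ v, σ (σ v) = v
  nofix : ∀ v, σ v ≠ v
  nc : ∀ k l x y : Fin L, σ (some k) = some l → σ (some x) = some y →
    x ≠ k → x ≠ l → (Btw k l x ↔ Btw k l y)

/-- link patterns -/
def Pat (L : ℕ) : Type := {σ : Perm (Vx L) // IsPat σ}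

noncomputable instance (L : ℕ) : Fintype (Pat L) := by
  classical exact Fintype.ofFinite {σ : Perm (Vx L) // IsPat σ}

noncomputable instance (L : ℕ) : DecidableEq (Pat L) := Classical.decEq _

/-- join `a` and `b` (and the partners of `a` and `b`) -/
def join {α : Type*} [DecidableEq α] (a b : α) (σ : Perm α) : Perm α :=
  swap b (σ a) * σ * swap b (σ a)

/-- index modulo `m+1` -/
def ix (m i : ℕ) : Fin (m + 1) := ⟨i % (m + 1), Nat.mod_lt _ (Nat.succ_pos m)⟩

open Classical in
/-- the Temperley-Lieb generator joining the strands `i`, `i+1` modulo `m+1` -/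
noncomputable def E (m i : ℕ) (σ : Pat (m + 1)) : Pat (m + 1) :=
  if h : IsPat (join (some (ix m i)) (some (ix m (i + 1))) σ.1) then ⟨_, h⟩ else σ

/-- the rotation `i ↦ i+1` of the vertices, fixing the point at infinity -/
def rotV (m : ℕ) : Perm (Vx (m + 1)) := optionCongr (finRotate (m + 1))

open Classical in
/-- rotation of patterns: strand `i` becomes strand `i+1` -/
noncomputable def rot (m : ℕ) (σ : Pat (m + 1)) : Pat (m + 1) :=
  if h : IsPat (rotV m * σ.1 * (rotV m)⁻¹) then ⟨_, h⟩ else σ

open Classical in
/-- inverse rotation: strand `i+1` becomes strand `i` -/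
noncomputable def rotInv (m : ℕ) (σ : Pat (m + 1)) : Pat (m + 1) :=
  if h : IsPat ((rotV m)⁻¹ * σ.1 * rotV m) then ⟨_, h⟩ else σ

/-- the injection of the vertices of a pattern of size `L` into those of size `L+2` -/
def shiftV (L : ℕ) : Vx L → Vx (L + 2) := Option.map (fun i => i.succ.succ)

/-- the function underlying the insertion of a small arc at the positions `0,1` -/
def insFun {L : ℕ} (σ : Perm (Vx L)) : Vx (L + 2) → Vx (L + 2)
  | none => shiftV L (σ none)
  | some i => Fin.cases (motive := fun _ => Vx (L + 2)) (some 1)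
      (fun i' => Fin.cases (motive := fun _ => Vx (L + 2)) (some 0)
        (fun j => shiftV L (σ (some j))) i') i

@[simp] theorem insFun_none {L : ℕ} (σ : Perm (Vx L)) : insFun σ none = shiftV L (σ none) := rfl
@[simp] theorem insFun_zero {L : ℕ} (σ : Perm (Vx L)) : insFun σ (some 0) = some 1 := rfl
@[simp] theorem insFun_one {L : ℕ} (σ : Perm (Vx L)) : insFun σ (some 1) = some 0 := rfl
@[simp] theorem insFun_ss {L : ℕ} (σ : Perm (Vx L)) (j : Fin L) :
    insFun σ (some j.succ.succ) = shiftV L (σ (some j)) := rfl
@[simp] theorem shiftV_some {L : ℕ} (j : Fin L) : shiftV L (some j) = some j.succ.succ := rfl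
@[simp] theorem shiftV_none {L : ℕ} : shiftV L none = none := rfl

theorem insFun_shift {L : ℕ} (σ : Perm (Vx L)) (w : Vx L) :
    insFun σ (shiftV L w) = shiftV L (σ w) := by
  rcases w with _ | j
  · simp
  · simp

theorem shiftV_inj {L : ℕ} {v w : Vx L} (h : shiftV L v = shiftV L w) : v = w := by
  rcases v with _ | i <;> rcases w with _ | j <;> simp_all

theorem Vx_cases {L : ℕ} (v : Vx (L + 2)) : v = some 0 ∨ v = some 1 ∨ ∃ w : Vx L, v = shiftV L w := by
  rcases v with _ | i
  · exact Or.inr (Or.inr ⟨none, rfl⟩)
  · refine Fin.cases ?_ (fun i' => ?_) i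
    · exact Or.inl rfl
    · refine Fin.cases ?_ (fun j => ?_) i'
      · exact Or.inr (Or.inl rfl)
      · exact Or.inr (Or.inr ⟨some j, rfl⟩)

theorem insFun_inv {L : ℕ} (σ : Pat L) (v : Vx (L + 2)) : insFun σ.1 (insFun σ.1 v) = v := by
  rcases Vx_cases v with h | h | ⟨w, h⟩
  · subst h; simp
  · subst h; simp
  · subst h; rw [insFun_shift, insFun_shift, σ.2.inv]

/-- insertion of a small arc as a permutation -/
def insPerm {L : ℕ} (σ : Pat L) : Perm (Vx (L + 2)) :=
  ⟨insFun σ.1, insFun σ.1, insFun_inv σ, insFun_inv σ⟩

theorem shiftV_ne_zero {L : ℕ} (w : Vx L) : shiftV L w ≠ some 0 := by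
  rcases w with _ | j
  · simp
  · simp only [shiftV_some, ne_eq, Option.some.injEq]; exact Fin.succ_ne_zero _

theorem shiftV_ne_one {L : ℕ} (w : Vx L) : shiftV L w ≠ some 1 := by
  rcases w with _ | j
  · simp
  · simp only [shiftV_some, ne_eq, Option.some.injEq]
    intro h
    have := congrArg Fin.val h
    simp at this

theorem insPerm_isPat {L : ℕ} (σ : Pat L) : IsPat (insPerm σ) where
  inv := insFun_inv σ
  nofix := by
    intro v
    rcases Vx_cases v with h | h | ⟨w, h⟩
    · subst h; simp [insPerm]
    · subst h; simp [insPerm]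
    · subst h
      simp only [insPerm, Equiv.coe_fn_mk, insFun_shift]
      exact fun h => σ.2.nofix w (shiftV_inj h)
  nc := by
    intro k l x y hk hx hxk hxl
    simp only [insPerm, Equiv.coe_fn_mk] at hk hx
    rcases Vx_cases (some k) with h | h | ⟨w, h⟩
    · rw [h, insFun_zero] at hk
      simp only [Option.some.injEq] at hk h
      subst hk; subst h
      simp only [Btw, Fin.lt_def, Fin.val_zero, Fin.val_one]
      omega
    · rw [h, insFun_one] at hk
      simp only [Option.some.injEq] at hk h
      subst hk; subst h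
      simp only [Btw, Fin.lt_def, Fin.val_zero, Fin.val_one]
      omega
    · rw [h, insFun_shift] at hk
      rcases w with _ | k'
      · simp at h
      rcases hw : σ.1 (some k') with _ | l'
      · rw [hw] at hk; simp at hk
      rw [hw] at hk
      simp only [shiftV_some, Option.some.injEq] at hk h
      subst hk; subst h
      rcases Vx_cases (some x) with h | h | ⟨w, h⟩
      · rw [h, insFun_zero] at hx
        simp only [Option.some.injEq] at hx h
        subst hx; subst h
        simp only [Btw, Fin.lt_def, Fin.val_zero, Fin.val_one, Fin.val_succ]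
        omega
      · rw [h, insFun_one] at hx
        simp only [Option.some.injEq] at hx h
        subst hx; subst h
        simp only [Btw, Fin.lt_def, Fin.val_zero, Fin.val_one, Fin.val_succ]
        omega
      · rw [h, insFun_shift] at hx
        rcases w with _ | x'
        · simp at h
        rcases hw2 : σ.1 (some x') with _ | y'
        · rw [hw2] at hx; simp at hx
        rw [hw2] at hx
        simp only [shiftV_some, Option.some.injEq] at hx h
        subst hx; subst h
        have := σ.2.nc k' l' x' y' hw hw2 (fun h => hxk (by rw [h])) (fun h => hxl (by rw [h]))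
        simp only [Btw, Fin.lt_def, Fin.val_succ] at this ⊢
        omega

/-- insertion of a small arc at the positions `0, 1` -/
def ins {L : ℕ} (σ : Pat L) : Pat (L + 2) := ⟨insPerm σ, insPerm_isPat σ⟩

open Classical in
/-- the base pattern of size `2n+1`: the rainbow `k ↔ 2n-1-k` on `0..2n-1`, defect at `2n` -/
def baseFun (n : ℕ) : Vx (2 * n + 1) → Vx (2 * n + 1)
  | none => some (Fin.last (2 * n))
  | some k => if h : k.val < 2 * n then some ⟨2 * n - 1 - k.val, by omega⟩ else none

theorem baseFun_inv (n : ℕ) (v : Vx (2 * n + 1)) : baseFun n (baseFun n v) = v := by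
  rcases v with _ | k
  · simp [baseFun]
  · by_cases h : k.val < 2 * n
    · have h2 : 2 * n - 1 - k.val < 2 * n := by omega
      simp only [baseFun, h, dif_pos, h2]
      congr 1; ext; simp; omega
    · simp only [baseFun, h, dif_neg, not_false_iff]
      congr 1; ext; simp; omega

/-- the base pattern as a permutation -/
def basePerm (n : ℕ) : Perm (Vx (2 * n + 1)) :=
  ⟨baseFun n, baseFun n, baseFun_inv n, baseFun_inv n⟩

theorem basePerm_isPat (n : ℕ) : IsPat (basePerm n) where
  inv := baseFun_inv n
  nofix := by
    intro v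
    rcases v with _ | k
    · simp [basePerm, baseFun]
    · by_cases h : k.val < 2 * n
      · simp only [basePerm, Equiv.coe_fn_mk, baseFun, h, dif_pos]
        intro h3
        have := congrArg (fun o => (o.elim 0 Fin.val : ℕ)) h3
        simp at this
        omega
      · simp [basePerm, baseFun, h]
  nc := by
    intro k l x y hk hx hxk hxl
    simp only [basePerm, Equiv.coe_fn_mk, baseFun] at hk hx
    split_ifs at hk with h1
    split_ifs at hx with h2
    simp only [Option.some.injEq] at hk hx
    subst hk; subst hx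
    have a1 : x.val ≠ k.val := fun h => hxk (Fin.ext h)
    have a2 : x.val ≠ 2 * n - 1 - k.val := fun h => hxl (Fin.ext h)
    simp only [Btw, Fin.lt_def]
    omega

/-- the base pattern -/
def base (n : ℕ) : Pat (2 * n + 1) := ⟨basePerm n, basePerm_isPat n⟩

/-! ### push forward of vectors -/

/-- push forward of a vector along a map of finite sets -/
def push {X Y : Type*} [Fintype X] [DecidableEq Y] {R : Type*} [AddCommMonoid R]
    (f : X → Y) (v : X → R) : Y → R := fun y => ∑ x, if f x = y then v x else 0

/-! ### the row transfer maps -/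

/-- the ordered product `E (k+j-1)^{c (k+j)} ⋯ E k^{c (k+1)}` (applied to a pattern) -/
noncomputable def word (m : ℕ) (c : Fin (m + 1) → Bool) (k : ℕ) : ℕ → Pat (m + 1) → Pat (m + 1)
  | 0, σ => σ
  | (j + 1), σ => if c (ix m (k + j + 1)) = true then E m (k + j) (word m c k j σ)
      else word m c k j σ

open Classical in
/-- the transfer map of a row of `m+1` plaquettes in the states `c`.
State `false` of a plaquette: bottom-right and left-top are connected;
state `true`: bottom-left and right-top are connected. -/
noncomputable def Tc (m : ℕ) (c : Fin (m + 1) → Bool) (σ : Pat (m + 1)) : Pat (m + 1) :=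
  if h : ∃ k : ℕ, k < m + 1 ∧ c (ix m k) = false then rot m (word m c (Nat.find h) m σ)
  else rotInv m σ

section weights
variable {R : Type*} [CommRing R]

/-- plaquette weights -/
def wt (q : R) (b : Bool) (x : R) : R := if b then -q - q ^ 2 * x else -q ^ 2 - q * x

/-- inhomogeneous transfer operator -/
noncomputable def Tz {m : ℕ} (q : R) (z : Fin (m + 1) → R) (v : Pat (m + 1) → R) :
    Pat (m + 1) → R :=
  fun σ => ∑ c : Fin (m + 1) → Bool, (∏ j, wt q (c j) (z j)) * push (Tc m c) v σ

/-- the R-matrix `(q x - q² y) + (x - y) e_i` -/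
noncomputable def Rh {m : ℕ} (q x y : R) (i : ℕ) (v : Pat (m + 1) → R) : Pat (m + 1) → R :=
  fun σ => (q * x - q ^ 2 * y) * v σ + (x - y) * push (E m i) v σ

end weights

/-! ### pairing -/

/-- `a` and `b` lie in the same orbit of the group generated by `σ` and `τ` -/
def Conn {V : Type*} (σ τ : V → V) (a b : V) : Prop :=
  ∀ h : V → Bool, (∀ v, h (σ v) = h v) → (∀ v, h (τ v) = h v) → h a = h b

open Classical in
/-- indicator that strand `j` lies on the infinite line of the picture obtained by gluing the
lower pattern `σ` and the upper pattern `τ` -/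
noncomputable def pr {L : ℕ} (j : Fin L) (σ τ : Pat L) : ℂ :=
  if Conn σ.1 τ.1 (some j) none then 1 else 0

/-! ### alternants -/

/-- exponents `0, r, 3, 3+r, 6, 6+r, …` -/
def aexp (r j : ℕ) : ℕ := 3 * (j / 2) + r * (j % 2)

/-! ### specification of the polynomial ground state -/

open MvPolynomial

/-- the chain ordering `n, n+1, …, 2n, 0, 1, …, n-1` of `Fin (2n+1)` -/
def chain (n : ℕ) (j : ℕ) : Fin (2 * n + 1) := ix (2 * n) (n + j)

/-- the product formula for the base component -/
noncomputable def Dl (q : ℂ) (n : ℕ) : MvPolynomial (Fin (2 * n + 1)) ℂ :=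
  ∏ j ∈ Finset.range (2 * n + 1), ∏ i ∈ Finset.range j,
    (C q * X (chain n j) - C (q ^ 2) * X (chain n i))

/-- polynomial ground state -/
structure PsiSpec (q : ℂ) (n : ℕ) (Ψ : Pat (2 * n + 1) → MvPolynomial (Fin (2 * n + 1)) ℂ) :
    Prop where
  base : Ψ (base n) = Dl q n
  exch : ∀ i : ℕ, i < 2 * n → ∀ σ,
    (C q * X (ix (2 * n) i) - C (q ^ 2) * X (ix (2 * n) (i + 1))) * Ψ σ
      + (X (ix (2 * n) i) - X (ix (2 * n) (i + 1))) * push (E (2 * n) i) Ψ σ
    = (C q * X (ix (2 * n) (i + 1)) - C (q ^ 2) * X (ix (2 * n) i))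
      * rename (swap (ix (2 * n) i) (ix (2 * n) (i + 1))) (Ψ σ)
  rot : ∀ σ, Ψ (rot (2 * n) σ) = rename (finRotate (2 * n + 1)) (Ψ σ)
  deg : ∀ σ i, (Ψ σ).degreeOf i ≤ 2 * n
  stat : Tz (C q) X Ψ = fun σ => (∏ j, (1 + X j)) * Ψ σ

end Pool.Agent.H974R3
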