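import Pool.Agent.H974R2.Infinite

/-!
The square lattice rotated by 45 degrees: faces `(j, r)` of the grid of medial lines, their
identification with vertices / faces of `ℤ²`, plaquettes and edges.
-/

namespace Pool.Agent.H974R3
open H974

/-- the vertex of `ℤ²` at the primal face `(j, r)` -/
def pv (n M j r : ℕ) : Vtx := (((j:ℤ) - n + (r - M)) / 2, ((j:ℤ) - n - (r - M)) / 2)

/-- the face of `ℤ²` at the dual face `(j, r)` -/
def dv (n M j r : ℕ) : Vtx := (((j:ℤ) - n - 1 + (r - M)) / 2, ((j:ℤ) - n - 1 - (r - M)) / 2)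

/-- the edge of `ℤ²` at the plaquette on strand `j` between the levels `r` and `r+1` -/
def ed (n M j r : ℕ) : Edg :=
  if (j + r) % 2 = (n + M) % 2 then (((j:ℤ) - n + (r - M)) / 2, ((j:ℤ) - n - (r - M)) / 2, true)
  else (((j:ℤ) - n + (r - M) + 1) / 2, ((j:ℤ) - n - (r - M) - 1) / 2, false)

/-- the state of the plaquette `(j, r)`: `true` if upper left and lower right are connected -/
def pst (n M : ℕ) (F : Finset Edg) (r : ℕ) (j : Fin (2 * n + 1)) : Bool :=
  if (j.val + r) % 2 = (n + M) % 2 then decide (ed n M j.val r ∉ F) else decide (ed n M j.val r ∈ F)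

theorem ed_inj {n M j r j' r' : ℕ} (h : ed n M j r = ed n M j' r') : j = j' ∧ r = r' := by
  unfold ed at h
  split_ifs at h with h1 h2 h2
  all_goals simp only [Prod.mk.injEq] at h
  all_goals first | (exfalso; exact absurd h.2.2 (by decide)) | skip
  · obtain ⟨ha, hb, -⟩ := h
    constructor <;> omega
  · obtain ⟨ha, hb, -⟩ := h
    constructor <;> omega

/-- primal link in state `false` -/
theorem link_p0 {n M j r : ℕ} {F : Finset Edg} (hp : (j + r) % 2 = (n + M) % 2)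
    (he : ed n M j r ∈ F) : Adj (↑F : Set Edg) (pv n M j r) (pv n M (j + 1) (r + 1)) := by
  refine ⟨ed n M j r, he, Or.inl ?_⟩
  unfold ed pv
  rw [if_pos hp]
  simp only [src_mk, tgt_true, Prod.mk.injEq]
  push_cast
  refine ⟨?_, ?_⟩ <;> first | trivial | omega | (refine ⟨?_, ?_⟩ <;> omega)

/-- primal link in state `true` -/
theorem link_p1 {n M j r : ℕ} {F : Finset Edg} (hp : ¬ (j + r) % 2 = (n + M) % 2)
    (he : ed n M j r ∈ F) : Adj (↑F : Set Edg) (pv n M j (r + 1)) (pv n M (j + 1) r) := by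
  refine ⟨ed n M j r, he, Or.inl ?_⟩
  unfold ed pv
  rw [if_neg hp]
  simp only [src_mk, tgt_false, Prod.mk.injEq]
  push_cast
  refine ⟨?_, ?_⟩ <;> first | trivial | omega | (refine ⟨?_, ?_⟩ <;> omega)

/-- dual link in state `false` -/
theorem link_d0 {n M j r : ℕ} {G : Set Edg} (hp : ¬ (j + r) % 2 = (n + M) % 2)
    (he : ed n M j r ∈ G) : DAdj G (dv n M j r) (dv n M (j + 1) (r + 1)) := by
  refine ⟨ed n M j r, he, Or.inl ?_⟩
  unfold ed dv
  rw [if_neg hp]
  simp only [dsrc_false, dtgt_mk, Prod.mk.injEq]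
  push_cast
  refine ⟨?_, ?_⟩ <;> first | trivial | omega | (refine ⟨?_, ?_⟩ <;> omega)

/-- dual link in state `true` -/
theorem link_d1 {n M j r : ℕ} {G : Set Edg} (hp : (j + r) % 2 = (n + M) % 2)
    (he : ed n M j r ∈ G) : DAdj G (dv n M j (r + 1)) (dv n M (j + 1) r) := by
  refine ⟨ed n M j r, he, Or.inl ?_⟩
  unfold ed dv
  rw [if_pos hp]
  simp only [dsrc_true, dtgt_mk, Prod.mk.injEq]
  push_cast
  refine ⟨?_, ?_⟩ <;> first | trivial | omega | (refine ⟨?_, ?_⟩ <;> omega)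

theorem pv_mid (n M : ℕ) : pv n M n M = (0, 0) := by
  unfold pv; simp

theorem dv_mid (n M : ℕ) : dv n M (n + 1) M = (0, 0) := by
  unfold dv; simp

/-- boundary faces of the box of width `2n+1` and half height `M` -/
def Bdr (n M j r : ℕ) : Prop := j = 0 ∨ j = 2 * n + 1 ∨ r = 0 ∨ r = 2 * M

theorem pv_bdr {n M j r : ℕ} (hM : n ≤ M) (hp : (j + r) % 2 = (n + M) % 2)
    (hb : Bdr n M j r) : (n : ℤ) ≤ |(pv n M j r).1| + |(pv n M j r).2| := by
  unfold pv Bdr at *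
  simp only
  rcases abs_cases (((j:ℤ) - n + (r - M)) / 2) with ⟨h1, h2⟩ | ⟨h1, h2⟩ <;>
    rcases abs_cases (((j:ℤ) - n - (r - M)) / 2) with ⟨h3, h4⟩ | ⟨h3, h4⟩ <;>
    rw [h1, h3] <;> omega

theorem dv_bdr {n M j r : ℕ} (hM : n ≤ M) (hp : ¬ (j + r) % 2 = (n + M) % 2)
    (hb : Bdr n M j r) : (n : ℤ) ≤ |(dv n M j r).1| + |(dv n M j r).2| := by
  unfold dv Bdr at *
  simp only
  rcases abs_cases (((j:ℤ) - n - 1 + (r - M)) / 2) with ⟨h1, h2⟩ | ⟨h1, h2⟩ <;>
    rcases abs_cases (((j:ℤ) - n - 1 - (r - M)) / 2) with ⟨h3, h4⟩ | ⟨h3, h4⟩ <;>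
    rw [h1, h3] <;> omega

/-- connection of the origin to distance `k` (in the `ℓ¹` norm) -/
def OutP (k : ℕ) (F : Set Edg) : Prop := ∃ w : Vtx, Reach F (0, 0) w ∧ (k : ℤ) ≤ |w.1| + |w.2|

/-- dual connection of the face `(0,0)` to distance `k` (in the `ℓ¹` norm) -/
def OutD (k : ℕ) (G : Set Edg) : Prop := ∃ w : Vtx, DReach G (0, 0) w ∧ (k : ℤ) ≤ |w.1| + |w.2|

end Pool.Agent.H974R3
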