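import Pool.Agent.H974R3.Grid
import Pool.Agent.H974R3.Compat
import Pool.Agent.H974R3.Homog
import Pool.Agent.H974R3.Markov

/-!
If the marked strand lies on the infinite line of the picture, then the primal cluster and the
dual cluster next to it reach the boundary of the box.
-/

namespace Pool.Agent.H974R3
open H974

/-- the lower rows -/
def cl (n M : ℕ) (F : Finset Edg) : ℕ → Fin (2 * n + 1) → Bool := fun t => pst n M F t

/-- the upper rows, seen upside down -/
def cu (n M : ℕ) (F : Finset Edg) : ℕ → Fin (2 * n + 1) → Bool :=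
  fun t j => !(pst n M F (2 * M - 1 - t) j)

theorem pst_false_p {n M r : ℕ} {F : Finset Edg} {j : Fin (2 * n + 1)}
    (h : pst n M F r j = false) (hp : (j.val + r) % 2 = (n + M) % 2) : ed n M j.val r ∈ F := by
  unfold pst at h; rw [if_pos hp] at h; simpa using h

theorem pst_true_p {n M r : ℕ} {F : Finset Edg} {j : Fin (2 * n + 1)}
    (h : pst n M F r j = true) (hp : ¬ (j.val + r) % 2 = (n + M) % 2) : ed n M j.val r ∈ F := by
  unfold pst at h; rw [if_neg hp] at h; simpa using h

theorem pst_false_d {n M r : ℕ} {F : Finset Edg} {j : Fin (2 * n + 1)}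
    (h : pst n M F r j = false) (hp : ¬ (j.val + r) % 2 = (n + M) % 2) : ed n M j.val r ∉ F := by
  unfold pst at h; rw [if_neg hp] at h; simpa using h

theorem pst_true_d {n M r : ℕ} {F : Finset Edg} {j : Fin (2 * n + 1)}
    (h : pst n M F r j = true) (hp : (j.val + r) % 2 = (n + M) % 2) : ed n M j.val r ∉ F := by
  unfold pst at h; rw [if_pos hp] at h; simpa using h

open Classical in
/-- labelling by the primal cluster of the origin -/
noncomputable def Hp (n M : ℕ) (F : Finset Edg) (j r : ℕ) : Bool :=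
  decide (Reach (↑F : Set Edg) (0, 0) (pv n M j r))

open Classical in
/-- labelling by the dual cluster of the face `(0,0)` -/
noncomputable def Hd (n M : ℕ) (G : Set Edg) (j r : ℕ) : Bool :=
  decide (DReach G (0, 0) (dv n M j r))

theorem Hp_eq {n M : ℕ} {F : Finset Edg} {j r j' r' : ℕ}
    (h : Adj (↑F : Set Edg) (pv n M j r) (pv n M j' r')) : Hp n M F j r = Hp n M F j' r' := by
  unfold Hp
  congr 1
  exact propext ⟨fun h1 => h1.trans h.reach, fun h1 => h1.trans h.symm.reach⟩

theorem Hd_eq {n M : ℕ} {G : Set Edg} {j r j' r' : ℕ}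
    (h : DAdj G (dv n M j r) (dv n M j' r')) : Hd n M G j r = Hd n M G j' r' := by
  unfold Hd
  congr 1
  exact propext ⟨fun h1 => h1.trans h.reach, fun h1 => h1.trans h.symm.reach⟩

/-- key statement, for a general labelling of the faces of parity `ε` -/
theorem pr_zero_of {n M : ℕ} {F : Finset Edg} {ε : ℕ} (hε : ε < 2) {H : ℕ → ℕ → Bool}
    (hb : ∀ j r, j ≤ 2 * n + 1 → r ≤ 2 * M → (j + r) % 2 = ε → Bdr n M j r → H j r = false)
    (h0 : ∀ r < 2 * M, ∀ j : Fin (2 * n + 1), pst n M F r j = false → (j.val + r) % 2 = ε →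
      H j.val r = H (j.val + 1) (r + 1))
    (h1 : ∀ r < 2 * M, ∀ j : Fin (2 * n + 1), pst n M F r j = true → (j.val + r + 1) % 2 = ε →
      H j.val (r + 1) = H (j.val + 1) r)
    (j0 : Fin (2 * n + 1)) (hj : lab (m := 2 * n) H ((ε + M) % 2 * 0 + ε) M (some j0) = true)
    (σ τ : Pat (2 * n + 1)) :
    pr j0 (rows (2 * n) (cl n M F) M σ) (rows (2 * n) (cu n M F) M τ) = 0 := by
  have hl : Labelling (2 * n) M (cl n M F) ε H := by
    refine ⟨?_, ?_, ?_, ?_, ?_⟩
    · intro t ht hp
      exact hb 0 t (by omega) (by omega) (by simpa using hp) (Or.inl rfl)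
    · intro t ht hp
      exact hb (2 * n + 1) t (by omega) (by omega) hp (Or.inr (Or.inl rfl))
    · intro j hj hp
      exact hb j 0 hj (by omega) (by simpa using hp) (Or.inr (Or.inr (Or.inl rfl)))
    · intro t ht j hc hp
      exact h0 t (by omega) j hc hp
    · intro t ht j hc hp
      exact h1 t (by omega) j hc hp
  have hu : Labelling (2 * n) M (cu n M F) ε (fun j t => H j (2 * M - t)) := by
    refine ⟨?_, ?_, ?_, ?_, ?_⟩
    · intro t ht hp
      exact hb 0 _ (by omega) (by omega) (by omega) (Or.inl rfl)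
    · intro t ht hp
      exact hb (2 * n + 1) _ (by omega) (by omega) (by omega) (Or.inr (Or.inl rfl))
    · intro j hj hp
      exact hb j _ hj (by omega) (by omega) (Or.inr (Or.inr (Or.inr (by omega))))
    · intro t ht j hc hp
      have hc' : pst n M F (2 * M - 1 - t) j = true := by
        unfold cu at hc; simpa using hc
      have := h1 (2 * M - 1 - t) (by omega) j hc' (by omega)
      have e1 : 2 * M - 1 - t + 1 = 2 * M - t := by omega
      have e2 : 2 * M - (t + 1) = 2 * M - 1 - t := by omega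
      show H j.val (2 * M - t) = H (j.val + 1) (2 * M - (t + 1))
      rw [e2, ← e1]; exact this
    · intro t ht j hc hp
      have hc' : pst n M F (2 * M - 1 - t) j = false := by
        unfold cu at hc; simpa using hc
      have := h0 (2 * M - 1 - t) (by omega) j hc' (by omega)
      have e1 : 2 * M - 1 - t + 1 = 2 * M - t := by omega
      have e2 : 2 * M - (t + 1) = 2 * M - 1 - t := by omega
      show H j.val (2 * M - (t + 1)) = H (j.val + 1) (2 * M - t)
      rw [e2, ← e1]; exact this
  have c1 := compat hε hl σ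
  have c2 := compat hε hu τ
  have e : lab (m := 2 * n) (fun j t => H j (2 * M - t)) ε M = lab (m := 2 * n) H ε M := by
    funext v
    rcases v with _ | j
    · rfl
    · have e3 : 2 * M - M = M := by omega
      simp only [lab, e3]
  rw [e] at c2
  unfold pr
  rw [if_neg]
  intro hc
  have := hc (lab H ε M) c1 c2
  simp only [Nat.mul_zero, Nat.zero_add] at hj
  rw [hj] at this
  simp [lab] at this

theorem pr_le_p {n M : ℕ} (hM : n ≤ M) {F : Finset Edg} (hF : ¬ OutP n (↑F : Set Edg))
    (σ τ : Pat (2 * n + 1)) :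
    pr (⟨n, by omega⟩ : Fin (2 * n + 1)) (rows (2 * n) (cl n M F) M σ)
      (rows (2 * n) (cu n M F) M τ) = 0 := by
  apply pr_zero_of (ε := (n + M) % 2) (Nat.mod_lt _ (by norm_num)) (H := Hp n M F)
  · intro j r hj hr hp hb
    unfold Hp
    rw [decide_eq_false_iff_not]
    intro h
    exact hF ⟨_, h, pv_bdr hM hp hb⟩
  · intro r hr j hs hp
    exact Hp_eq (link_p0 hp (pst_false_p hs hp))
  · intro r hr j hs hp
    have hp' : ¬ (j.val + r) % 2 = (n + M) % 2 := by omega
    exact Hp_eq (link_p1 hp' (pst_true_p hs hp'))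
  · simp only [lab, Nat.mul_zero, Nat.zero_add, if_true]
    unfold Hp
    have h : Reach (↑F : Set Edg) (0, 0) (pv n M n M) := by rw [pv_mid]; exact Reach.refl _ _
    classical
    exact (decide_eq_true_iff).2 h

theorem pr_le_d {n M : ℕ} (hM : n ≤ M) {F : Finset Edg} {G : Set Edg}
    (hG : ∀ j r, j < 2 * n + 1 → r < 2 * M → ed n M j r ∉ F → ed n M j r ∈ G)
    (hF : ¬ OutD n G) (σ τ : Pat (2 * n + 1)) :
    pr (⟨n, by omega⟩ : Fin (2 * n + 1)) (rows (2 * n) (cl n M F) M σ)
      (rows (2 * n) (cu n M F) M τ) = 0 := by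
  apply pr_zero_of (ε := (n + M + 1) % 2) (Nat.mod_lt _ (by norm_num)) (H := Hd n M G)
  · intro j r hj hr hp hb
    unfold Hd
    rw [decide_eq_false_iff_not]
    intro h
    exact hF ⟨_, h, dv_bdr hM (by omega) hb⟩
  · intro r hr j hs hp
    have hp' : ¬ (j.val + r) % 2 = (n + M) % 2 := by omega
    exact Hd_eq (link_d0 hp' (hG _ _ j.2 hr (pst_false_d hs hp')))
  · intro r hr j hs hp
    have hp' : (j.val + r) % 2 = (n + M) % 2 := by omega
    exact Hd_eq (link_d1 hp' (hG _ _ j.2 hr (pst_true_d hs hp')))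
  · have hne : ¬ (n + M) % 2 = (n + M + 1) % 2 := by omega
    simp only [lab, Nat.mul_zero, Nat.zero_add, if_neg hne]
    unfold Hd
    have h : DReach G (0, 0) (dv n M (n + 1) M) := by rw [dv_mid]; exact DReach.refl _ _
    classical
    exact (decide_eq_true_iff).2 h

end Pool.Agent.H974R3
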