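import Pool.Agent.H974R3.Box

/-!
The two-arm and one-arm bounds for critical bond percolation on `ℤ²`.
-/

namespace Pool.Agent.H974R3
open H974 Finset MeasureTheory

theorem OutP.mono {n : ℕ} {F G : Set Edg} (h : F ⊆ G) (hF : OutP n F) : OutP n G := by
  obtain ⟨w, hw, hn⟩ := hF
  exact ⟨w, hw.mono h, hn⟩

theorem OutD.mono {n : ℕ} {F G : Set Edg} (h : F ⊆ G) (hF : OutD n F) : OutD n G := by
  obtain ⟨w, hw, hn⟩ := hF
  exact ⟨w, hw.mono h, hn⟩

theorem OutD_iff {n : ℕ} (F : Finset Edg) : OutD n (↑F : Set Edg) ↔ OutP n (↑(dmp F) : Set Edg) := by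
  unfold OutD OutP
  rw [coe_dmp]
  simp only [reach_dl]

/-- the stationary distribution -/
theorem exists_mu (n : ℕ) : ∃ μ : Pat (2 * n + 1) → ℝ, (∀ σ, 0 ≤ μ σ) ∧ ∑ σ, μ σ = 1 ∧
    ∀ σ, ∑ c : Fin (2 * n + 1) → Bool, push (Tc (2 * n) c) μ σ = 2 ^ (2 * n + 1) * μ σ := by
  obtain ⟨μ, h1, h2, h3, -, -⟩ := markov_exists n
  exact ⟨μ, h1, h2, h3⟩

theorem ok_half : Ok (fun _ : Edg => (1/2 : ℝ)) := fun _ => by norm_num

theorem pval_le_law (n : ℕ) :
    pval n ≤ (bondLaw hlf).real {ω | OutP n (opn ω) ∧ OutD n (opn ω)ᶜ} := by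
  obtain ⟨μ, h1, h2, h3⟩ := exists_mu n
  have h := pval_le_box n n le_rfl μ h2 (fun σ => (h1 σ)) h3
  have e := law_event hlf (SS n n) (fun F => OutP n (↑F : Set Edg) ∧
      OutD n (↑(SS n n \ F) : Set Edg))
  have e0 : (fun _ : Edg => ((hlf : unitInterval) : ℝ)) = fun _ => 1/2 := rfl
  rw [e0] at e
  rw [← e] at h
  refine le_trans h ?_
  apply measureReal_mono
  · rintro ω ⟨k1, k2⟩
    refine ⟨k1.mono ?_, k2.mono ?_⟩
    · rw [FF_coe]; exact Set.inter_subset_left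
    · intro e he
      rw [Finset.coe_sdiff] at he
      intro hω
      exact he.2 (Finset.mem_coe.2 (mem_FF.2 ⟨he.1, hω⟩))
  · exact measure_ne_top _ _

theorem out_le_law (n : ℕ) (S : Finset Edg) :
    Pr (fun _ => 1/2) S (fun F => OutP n (↑F : Set Edg))
      ≤ (bondLaw hlf).real {ω | OutP n (opn ω)} := by
  have e := law_event hlf S (fun F => OutP n (↑F : Set Edg))
  have e0 : (fun _ : Edg => ((hlf : unitInterval) : ℝ)) = fun _ => 1/2 := rfl
  rw [e0] at e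
  rw [← e]
  apply measureReal_mono
  · intro ω k1
    exact OutP.mono (by rw [FF_coe]; exact Set.inter_subset_left) k1
  · exact measure_ne_top _ _

theorem pval_le_sq (n : ℕ) : pval n ≤ ((bondLaw hlf).real {ω | OutP n (opn ω)}) ^ 2 := by
  obtain ⟨μ, h1, h2, h3⟩ := exists_mu n
  have h := pval_le_box n n le_rfl μ h2 (fun σ => (h1 σ)) h3
  refine le_trans h ?_
  have k1 := Pr_harris_decr ok_half (S := SS n n) (A := fun F => OutP n (↑F : Set Edg))
    (B := fun F => OutD n (↑(SS n n \ F) : Set Edg))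
    (fun F G hFG _ hA => OutP.mono (Finset.coe_subset.2 hFG) hA)
    (fun F G hFG _ hA hB => hA (OutD.mono (Finset.coe_subset.2
      (Finset.sdiff_subset_sdiff (Finset.Subset.refl _) hFG)) hB))
  refine le_trans k1 ?_
  have k2 : Pr (fun _ => 1/2) (SS n n) (fun F => OutD n (↑(SS n n \ F) : Set Edg))
      = Pr (fun _ => 1/2) (dmp (SS n n)) (fun F => OutP n (↑F : Set Edg)) := by
    have := Pr_compl (fun _ : Edg => (1/2 : ℝ)) (SS n n) (fun F => OutD n (↑F : Set Edg))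
    rw [← this, pr_dmp]
    rw [show (fun _ : Edg => (1 - 1/2 : ℝ)) = fun _ => 1/2 by funext; norm_num]
    exact Pr_congr (fun F _ => OutD_iff F)
  rw [k2, pow_two]
  exact mul_le_mul (out_le_law _ _) (out_le_law _ _) (Pr_nonneg ok_half _ _) measureReal_nonneg

theorem pval_four (n : ℕ) : 1 ≤ pval n ^ 4 * (2 * (n : ℝ) + 1) := by
  obtain ⟨μ, h1, h2, h3⟩ := exists_mu n
  have a := pairing_value n μ h2 h3 (⟨n, by omega⟩ : Fin (2 * n + 1))
  have b := pairing_lower n μ h2 h3 (⟨n, by omega⟩ : Fin (2 * n + 1))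
  rw [a] at b
  exact b

theorem pval_nonneg (n : ℕ) : 0 ≤ pval n := by
  obtain ⟨μ, h1, h2, h3⟩ := exists_mu n
  rw [← pairing_value n μ h2 h3 (⟨n, by omega⟩ : Fin (2 * n + 1))]
  apply Finset.sum_nonneg; intro σ _
  apply Finset.sum_nonneg; intro τ _
  exact mul_nonneg (mul_nonneg (pr_re_nonneg _ _ _) (h1 σ)) (h1 τ)

theorem one_arm_out (n : ℕ) :
    1 ≤ ((bondLaw hlf).real {ω | OutP n (opn ω)}) ^ 8 * (2 * (n : ℝ) + 1) := by
  refine le_trans (pval_four n) ?_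
  apply mul_le_mul_of_nonneg_right _ (by positivity)
  calc pval n ^ 4 ≤ (((bondLaw hlf).real {ω | OutP n (opn ω)}) ^ 2) ^ 4 :=
        pow_le_pow_left₀ (pval_nonneg n) (pval_le_sq n) 4
    _ = _ := by rw [← pow_mul]

theorem out_iff (n : ℕ) (ω : sqLattice.edgeSet → Bool) :
    OutP n (opn ω) ↔ ∃ w ∈ cluster0 ω, (n : ℤ) ≤ |w.1| + |w.2| := by
  unfold OutP
  constructor
  · rintro ⟨w, h1, h2⟩
    exact ⟨w, (open_reach ω _ _).2 h1, h2⟩
  · rintro ⟨w, h1, h2⟩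
    exact ⟨w, (open_reach ω _ _).1 h1, h2⟩

theorem one_arm (n : ℕ) :
    1 ≤ ((bondLaw hlf).real {ω | ∃ w ∈ cluster0 ω, (n : ℤ) ≤ |w.1| + |w.2|}) ^ 8
      * (2 * (n : ℝ) + 1) := by
  have := one_arm_out n
  simp only [out_iff] at this
  exact this

theorem one_arm_sup (m : ℕ) :
    1 ≤ ((bondLaw hlf).real {ω | ∃ w ∈ cluster0 ω, (m : ℤ) ≤ max |w.1| |w.2|}) ^ 8
      * (4 * (m : ℝ) + 1) := by
  have h := one_arm (2 * m)
  refine le_trans h ?_
  have e : (2 * ((2 * m : ℕ) : ℝ) + 1) = 4 * (m : ℝ) + 1 := by push_cast; ring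
  rw [e]
  apply mul_le_mul_of_nonneg_right _ (by positivity)
  apply pow_le_pow_left₀ measureReal_nonneg
  apply measureReal_mono
  · rintro ω ⟨w, k1, k2⟩
    refine ⟨w, k1, ?_⟩
    push_cast at k2
    rcases le_total |w.1| |w.2| with h | h
    · rw [max_eq_right h]; omega
    · rw [max_eq_left h]; omega
  · exact measure_ne_top _ _

end Pool.Agent.H974R3
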