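import Pool.Agent.H974R3.Rel

/-!
# Straightening a zigzag (module Pair2)
-/

set_option maxHeartbeats 400000

namespace Pool.Agent.H974R3
open Equiv

theorem P2_inv_self {α : Type*} (f : Perm α) (x : α) : f⁻¹ (f x) = x := f.symm_apply_apply x

theorem P2_self_inv {α : Type*} (f : Perm α) (x : α) : f (f⁻¹ x) = x := f.apply_symm_apply x

theorem P2_conn_iff {V W : Type*} {a b : V → V} {s t : W → W} (ρ : V → W) (α β : W → V)
    (h1 : ∀ w, ρ (α w) = w) (h2 : ∀ w, ρ (β w) = w) (h3 : ∀ w, a (α w) = α (s w))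
    (h4 : ∀ w, b (β w) = β (t w)) (h5 : ∀ v, (∃ w, v = α w) ∨ ρ (a v) = ρ v)
    (h6 : ∀ v, (∃ w, v = β w) ∨ ρ (b v) = ρ v)
    (h7 : ∀ h : V → Bool, (∀ v, h (a v) = h v) → (∀ v, h (b v) = h v) → ∀ w, h (α w) = h (β w))
    (x y : W) (x' y' : V)
    (hx : ρ x' = x) (hy : ρ y' = y)
    (hx' : ∀ h : V → Bool, (∀ v, h (a v) = h v) → (∀ v, h (b v) = h v) → h x' = h (α x))
    (hy' : ∀ h : V → Bool, (∀ v, h (a v) = h v) → (∀ v, h (b v) = h v) → h y' = h (α y)) :
    Conn a b x' y' ↔ Conn s t x y := by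
  constructor
  · intro hc h hs ht
    have := hc (fun v => h (ρ v)) (fun v => ?_) (fun v => ?_)
    · simpa only [hx, hy] using this
    · rcases h5 v with ⟨w, rfl⟩ | h
      · rw [h3, h1, h1, hs]
      · rw [h]
    · rcases h6 v with ⟨w, rfl⟩ | h
      · rw [h4, h2, h2, ht]
      · rw [h]
  · intro hc h ha hb
    have := hc (fun w => h (α w)) (fun w => ?_) (fun w => ?_)
    · rw [hx' h ha hb, hy' h ha hb]
      exact this
    · rw [← h3, ha]
    · rw [h7 h ha hb, h7 h ha hb, ← h4, hb]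

theorem P2_rotV_none (m : ℕ) : rotV m none = none := rfl

theorem P2_rotV_last (m : ℕ) : rotV m (some (Fin.last m)) = some 0 := by
  simp [rotV]

theorem P2_rotV_cast (m : ℕ) (j : Fin m) : rotV m (some j.castSucc) = some j.succ := by
  simp [rotV]

theorem P2_ins_val {L : ℕ} (σ : Pat L) : (ins σ).1 = insPerm σ := rfl

theorem P2_insPerm_shift {L : ℕ} (σ : Pat L) (w : Vx L) :
    insPerm σ (shiftV L w) = shiftV L (σ.1 w) := insFun_shift σ.1 w

theorem P2_insPerm_zero {L : ℕ} (σ : Pat L) : insPerm σ (some 0) = some 1 := rfl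

theorem P2_insPerm_one {L : ℕ} (σ : Pat L) : insPerm σ (some 1) = some 0 := rfl

/-- cases for vertices after rotation -/
theorem P2_cases {m : ℕ} (w : Vx (m + 1)) :
    w = none ∨ w = some (Fin.last m) ∨ ∃ j : Fin m, w = some j.castSucc := by
  rcases w with _ | j
  · exact Or.inl rfl
  · rcases Fin.eq_castSucc_or_eq_last j with ⟨j', rfl⟩ | rfl
    · exact Or.inr (Or.inr ⟨j', rfl⟩)
    · exact Or.inr (Or.inl rfl)

/-- the retraction for the first statement -/
def P2_rho (m : ℕ) : Vx (m + 3) → Vx (m + 1)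
  | none => none
  | some i => Fin.cases (motive := fun _ => Vx (m + 1)) (some 0)
      (fun i' => Fin.cases (motive := fun _ => Vx (m + 1)) (some 0) (fun j => some j) i') i

theorem P2_rho_shift {m : ℕ} (w : Vx (m + 1)) : P2_rho m (shiftV (m + 1) w) = w := by
  rcases w with _ | j <;> rfl

theorem P2_rho_zero {m : ℕ} : P2_rho m (some 0) = some 0 := rfl
theorem P2_rho_one {m : ℕ} : P2_rho m (some 1) = some 0 := rfl

/-- rotation of a shifted vertex -/
theorem P2_rot_shift {m : ℕ} (w : Vx (m + 1)) :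
    (rotV (m + 2) (shiftV (m + 1) w) = shiftV (m + 1) (rotV m w) ∧ rotV m w ≠ some 0) ∨
    (rotV (m + 2) (shiftV (m + 1) w) = some 0 ∧ rotV m w = some 0) := by
  rcases P2_cases w with rfl | rfl | ⟨j, rfl⟩
  · exact Or.inl ⟨rfl, by simp [P2_rotV_none]⟩
  · refine Or.inr ⟨?_, P2_rotV_last m⟩
    rw [shiftV_some, Fin.succ_last, Fin.succ_last, P2_rotV_last]
  · refine Or.inl ⟨?_, ?_⟩
    · rw [shiftV_some, P2_rotV_cast, Fin.succ_castSucc, Fin.succ_castSucc, P2_rotV_cast]
      rfl
    · rw [P2_rotV_cast]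
      simp only [ne_eq, Option.some.injEq]
      exact Fin.succ_ne_zero j

theorem P2_rotV_zero {m : ℕ} : rotV (m + 2) (some 0) = some 1 := by
  have := P2_rotV_cast (m + 2) 0
  simpa using this

theorem P2_rotV_one {m : ℕ} : rotV (m + 2) (some 1) = shiftV (m + 1) (some 0) := by
  have := P2_rotV_cast (m + 2) 1
  exact this

theorem pr_ins_rot {m : ℕ} (σ τ : Pat (m + 1)) :
    pr 0 (ins σ) (rot (m + 2) (ins (rotInv m τ))) = pr 0 σ τ := by
  unfold pr
  have key : Conn (ins σ).1 (rot (m + 2) (ins (rotInv m τ))).1 (some 0) none ↔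
      Conn σ.1 τ.1 (some 0) none := by
    rw [rot_val, P2_ins_val, P2_ins_val]
    have hb0 : (rotV (m + 2) * insPerm (rotInv m τ) * (rotV (m + 2))⁻¹) (some 1) =
        shiftV (m + 1) (some 0) := by
      rw [Perm.mul_apply, Perm.mul_apply, ← P2_rotV_zero, P2_inv_self, P2_insPerm_zero,
        P2_rotV_one]
    have hb1 : (rotV (m + 2) * insPerm (rotInv m τ) * (rotV (m + 2))⁻¹) (shiftV (m + 1) (some 0)) =
        some 1 := by
      rw [Perm.mul_apply, Perm.mul_apply, ← P2_rotV_one, P2_inv_self, P2_insPerm_one,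
        P2_rotV_zero]
    have hz : ∀ h : Vx (m + 3) → Bool, (∀ v, h (insPerm σ v) = h v) →
        (∀ v, h ((rotV (m + 2) * insPerm (rotInv m τ) * (rotV (m + 2))⁻¹) v) = h v) →
        h (some 0) = h (shiftV (m + 1) (some 0)) := by
      intro h ha hb
      rw [← hb0, hb, ← P2_insPerm_zero σ, ha]
    refine P2_conn_iff (P2_rho m) (shiftV (m + 1))
      (fun w => rotV (m + 2) (shiftV (m + 1) ((rotV m)⁻¹ w))) P2_rho_shift ?_
      (P2_insPerm_shift σ) ?_ ?_ ?_ ?_ _ _ _ _ rfl rfl hz (fun _ _ _ => rfl)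
    · intro w
      obtain ⟨u, rfl⟩ := (rotV m).surjective w
      simp only [P2_inv_self]
      rcases P2_rot_shift u with ⟨h, _⟩ | ⟨h, h'⟩
      · rw [h, P2_rho_shift]
      · rw [h, h', P2_rho_zero]
    · intro w
      rw [Perm.mul_apply, Perm.mul_apply, P2_inv_self, P2_insPerm_shift, rotInv_val,
        Perm.mul_apply, Perm.mul_apply, P2_self_inv]
    · intro v
      rcases Vx_cases v with rfl | rfl | ⟨w, rfl⟩
      · right; rfl
      · right; rfl
      · left; exact ⟨w, rfl⟩
    · intro v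
      obtain ⟨v', rfl⟩ := (rotV (m + 2)).surjective v
      rcases Vx_cases v' with rfl | rfl | ⟨w, rfl⟩
      · right
        rw [P2_rotV_zero, hb0, P2_rho_shift, P2_rho_one]
      · right
        rw [P2_rotV_one, hb1, P2_rho_shift, P2_rho_one]
      · left
        refine ⟨rotV m w, ?_⟩
        rw [P2_inv_self]
    · intro h ha hb w
      obtain ⟨u, rfl⟩ := (rotV m).surjective w
      simp only [P2_inv_self]
      rcases P2_rot_shift u with ⟨h1, _⟩ | ⟨h1, h'⟩
      · rw [h1]
      · rw [h1, h', hz h ha hb]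
  classical
  exact if_congr key rfl rfl

/-- the retraction for the second statement -/
def P2_rho' (m : ℕ) : Vx (m + 3) → Vx (m + 1) := fun v => P2_rho m (rotV (m + 2) v)

theorem pr_ins_rotInv {m : ℕ} (σ τ : Pat (m + 1)) :
    pr 0 (ins σ) (rotInv (m + 2) (ins τ)) = pr 0 (rot m σ) τ := by
  unfold pr
  have key : Conn (ins σ).1 (rotInv (m + 2) (ins τ)).1 (some 0) none ↔
      Conn (rot m σ).1 τ.1 (some 0) none := by
    rw [rotInv_val, P2_ins_val, P2_ins_val]
    have e0 : (rotV (m + 2))⁻¹ (some 1) = some 0 := by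
      rw [Perm.inv_eq_iff_eq, P2_rotV_zero]
    have e1 : (rotV (m + 2))⁻¹ (some 0) = shiftV (m + 1) (some (Fin.last m)) := by
      rw [Perm.inv_eq_iff_eq, shiftV_some, Fin.succ_last, Fin.succ_last, P2_rotV_last]
    have hb0 : ((rotV (m + 2))⁻¹ * insPerm τ * rotV (m + 2)) (some 0) =
        shiftV (m + 1) (some (Fin.last m)) := by
      rw [Perm.mul_apply, Perm.mul_apply, P2_rotV_zero, P2_insPerm_one, e1]
    have hb1 : ((rotV (m + 2))⁻¹ * insPerm τ * rotV (m + 2)) (shiftV (m + 1) (some (Fin.last m))) =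
        some 0 := by
      rw [Perm.mul_apply, Perm.mul_apply, ← e1, P2_self_inv, P2_insPerm_zero, e0]
    have hz : ∀ h : Vx (m + 3) → Bool, (∀ v, h (insPerm σ v) = h v) →
        (∀ v, h (((rotV (m + 2))⁻¹ * insPerm τ * rotV (m + 2)) v) = h v) →
        h (some 0) = h (shiftV (m + 1) (some (Fin.last m))) := by
      intro h ha hb
      rw [← hb0, hb]
    refine P2_conn_iff (P2_rho' m) (fun w => shiftV (m + 1) ((rotV m)⁻¹ w))
      (fun w => (rotV (m + 2))⁻¹ (shiftV (m + 1) w)) ?_ ?_ ?_ ?_ ?_ ?_ ?_ _ _ _ _ ?_ ?_ ?_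
      (fun _ _ _ => rfl)
    · intro w
      obtain ⟨u, rfl⟩ := (rotV m).surjective w
      simp only [P2_inv_self, P2_rho']
      rcases P2_rot_shift u with ⟨h, _⟩ | ⟨h, h'⟩
      · rw [h, P2_rho_shift]
      · rw [h, h', P2_rho_zero]
    · intro w
      simp only [P2_self_inv, P2_rho', P2_rho_shift]
    · intro w
      rw [P2_insPerm_shift, rot_val, Perm.mul_apply, Perm.mul_apply, P2_inv_self]
    · intro w
      rw [Perm.mul_apply, Perm.mul_apply, P2_self_inv, P2_insPerm_shift]
    · intro v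
      rcases Vx_cases v with rfl | rfl | ⟨w, rfl⟩
      · right
        rw [P2_insPerm_zero]
        simp only [P2_rho', P2_rotV_zero, P2_rotV_one, P2_rho_shift, P2_rho_one]
      · right
        rw [P2_insPerm_one]
        simp only [P2_rho', P2_rotV_zero, P2_rotV_one, P2_rho_shift, P2_rho_one]
      · left
        exact ⟨rotV m w, by rw [P2_inv_self]⟩
    · intro v
      obtain ⟨v', rfl⟩ := (rotV (m + 2))⁻¹.surjective v
      rcases Vx_cases v' with rfl | rfl | ⟨w, rfl⟩
      · right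
        rw [e1, hb1, ← e1]
        simp only [P2_rho', P2_rotV_zero, P2_rho_one, P2_self_inv, P2_rho_zero]
      · right
        rw [e0, hb0, ← e1]
        simp only [P2_rho', P2_rotV_zero, P2_rho_one, P2_self_inv, P2_rho_zero]
      · left
        exact ⟨w, rfl⟩
    · intro h ha hb w
      obtain ⟨u, rfl⟩ := (rotV m).surjective w
      simp only [P2_inv_self]
      rcases P2_rot_shift u with ⟨h1, _⟩ | ⟨h1, h'⟩
      · rw [← h1, P2_inv_self]
      · have h2 : u = some (Fin.last m) := by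
          apply (rotV m).injective
          rw [h', P2_rotV_last]
        rw [h', h2, ← hz h ha hb]
        have h3 : (rotV (m + 2))⁻¹ (shiftV (m + 1) (some 0)) = some 1 := by
          rw [Perm.inv_eq_iff_eq, P2_rotV_one]
        rw [h3, ← ha (some 0), P2_insPerm_zero]
    · simp only [P2_rho', P2_rotV_zero, P2_rho_one]
    · rfl
    · intro h ha hb
      have h3 : (rotV m)⁻¹ (some 0) = some (Fin.last m) := by
        rw [Perm.inv_eq_iff_eq, P2_rotV_last]
      rw [hz h ha hb, h3]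
  classical
  exact if_congr key rfl rfl

end Pool.Agent.H974R3
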