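import Pool.Agent.H974R3.Rec
import Pool.Agent.H974R3.Psi
import Pool.Agent.H974R3.Pair
import Pool.Agent.H974R3.Pair2
import Pool.Agent.H974R3.Gen
import Pool.Agent.H974R3.Alt
import Pool.Agent.H974R3.Ins
import Pool.Agent.H974R3.Rel2

/-!
# The pairing formula
-/

set_option linter.unusedSectionVars false

namespace Pool.Agent.H974R3
open Equiv MvPolynomial

/-! ### bilinear forms -/

/-- bilinear form with kernel `k` -/
noncomputable def KK {X Y : Type*} [Fintype X] [Fintype Y] (k : X → Y → ℂ) (u : X → ℂ)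
    (w : Y → ℂ) : ℂ := ∑ σ, ∑ τ, k σ τ * u σ * w τ

section KK
variable {X Y : Type*} [Fintype X] [Fintype Y] [DecidableEq X] [DecidableEq Y]

theorem sum_push_mul (f : X → Y) (v : X → ℂ) (F : Y → ℂ) :
    ∑ y, push f v y * F y = ∑ x, v x * F (f x) := by
  unfold push
  simp_rw [Finset.sum_mul, ite_mul, zero_mul]
  rw [Finset.sum_comm]
  apply Finset.sum_congr rfl
  intro x _
  rw [Finset.sum_ite_eq]
  simp

theorem KK_push_left (k : X → Y → ℂ) (f : X → X) (u : X → ℂ) (w : Y → ℂ) :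
    KK k (push f u) w = KK (fun σ τ => k (f σ) τ) u w := by
  unfold KK
  have h1 : ∀ σ, ∑ τ, k σ τ * push f u σ * w τ = push f u σ * ∑ τ, k σ τ * w τ := by
    intro σ
    rw [Finset.mul_sum]
    exact Finset.sum_congr rfl fun τ _ => by ring
  simp_rw [h1]
  rw [sum_push_mul f u (fun σ => ∑ τ, k σ τ * w τ)]
  apply Finset.sum_congr rfl
  intro σ _
  rw [Finset.mul_sum]
  exact Finset.sum_congr rfl fun τ _ => by ring

theorem KK_push_right (k : X → Y → ℂ) (g : Y → Y) (u : X → ℂ) (w : Y → ℂ) :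
    KK k u (push g w) = KK (fun σ τ => k σ (g τ)) u w := by
  unfold KK
  apply Finset.sum_congr rfl
  intro σ _
  have h1 : ∀ τ, k σ τ * u σ * push g w τ = push g w τ * (k σ τ * u σ) := fun τ => by ring
  simp_rw [h1]
  rw [sum_push_mul g w (fun τ => k σ τ * u σ)]
  exact Finset.sum_congr rfl fun τ _ => by ring

theorem KK_lin_left (k : X → Y → ℂ) (a b : ℂ) (u v : X → ℂ) (w : Y → ℂ) :
    KK k (fun σ => a * u σ + b * v σ) w = a * KK k u w + b * KK k v w := by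
  unfold KK
  rw [Finset.mul_sum, Finset.mul_sum, ← Finset.sum_add_distrib]
  apply Finset.sum_congr rfl
  intro σ _
  rw [Finset.mul_sum, Finset.mul_sum, ← Finset.sum_add_distrib]
  exact Finset.sum_congr rfl fun τ _ => by ring

theorem KK_lin_right (k : X → Y → ℂ) (a b : ℂ) (u : X → ℂ) (w v : Y → ℂ) :
    KK k u (fun τ => a * w τ + b * v τ) = a * KK k u w + b * KK k u v := by
  unfold KK
  rw [Finset.mul_sum, Finset.mul_sum, ← Finset.sum_add_distrib]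
  apply Finset.sum_congr rfl
  intro σ _
  rw [Finset.mul_sum, Finset.mul_sum, ← Finset.sum_add_distrib]
  exact Finset.sum_congr rfl fun τ _ => by ring

theorem KK_smul_left (k : X → Y → ℂ) (a : ℂ) (u : X → ℂ) (w : Y → ℂ) :
    KK k (fun σ => a * u σ) w = a * KK k u w := by
  have := KK_lin_left k a 0 u u w
  simpa using this

theorem KK_smul_right (k : X → Y → ℂ) (a : ℂ) (u : X → ℂ) (w : Y → ℂ) :
    KK k u (fun τ => a * w τ) = a * KK k u w := by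
  have := KK_lin_right k a 0 u w w
  simpa using this

theorem push_idem (g : Y → Y) (hg : ∀ τ, g (g τ) = g τ) (k : X → Y → ℂ) (u : X → ℂ) (w : Y → ℂ) :
    KK k u (push g (push g w)) = KK k u (push g w) := by
  rw [KK_push_right, KK_push_right, KK_push_right]
  simp_rw [hg]

theorem KK_symm (k : X → Y → ℂ) (f : X → X) (g : Y → Y) (hfg : ∀ σ τ, k (f σ) τ = k σ (g τ))
    (hg : ∀ τ, g (g τ) = g τ) (q : ℂ) (hq : q ^ 2 + q + 1 = 0) (a b : ℂ) (hab : a ^ 3 ≠ b ^ 3)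
    (u u' : X → ℂ) (w w' : Y → ℂ)
    (h1 : ∀ σ, (q * a - q ^ 2 * b) * u σ + (a - b) * push f u σ = (q * b - q ^ 2 * a) * u' σ)
    (h2 : ∀ τ, (q ^ 2 * a - (q ^ 2) ^ 2 * b) * w τ + (a - b) * push g w τ
      = (q ^ 2 * b - (q ^ 2) ^ 2 * a) * w' τ) :
    KK k u' w' = KK k u w := by
  have hq3 : q ^ 3 = 1 := by linear_combination (q - 1) * hq
  have hq4 : (q ^ 2) ^ 2 = q := by linear_combination q * hq3
  rw [hq4] at h2
  have e1 : KK k (push f u) w = KK k u (push g w) := by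
    rw [KK_push_left, KK_push_right]; simp_rw [hfg]
  have e2 : KK k (push f u) (push g w) = KK k u (push g w) := by
    have : KK k (push f u) (push g w) = KK k u (push g (push g w)) := by
      rw [KK_push_left, KK_push_right k g u (push g w)]; simp_rw [hfg]
    rw [this, push_idem g hg]
  have key : (q * b - q ^ 2 * a) * ((q ^ 2 * b - q * a) * KK k u' w') =
      (q * a - q ^ 2 * b) * (q ^ 2 * a - q * b) * KK k u w := by
    rw [← KK_smul_right, ← KK_smul_left]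
    simp_rw [← h1, ← h2]
    rw [KK_lin_left, KK_lin_right, KK_lin_right, e1, e2]
    linear_combination (a - b) ^ 2 * KK k u (push g w) * hq
  have hne : a ^ 2 + a * b + b ^ 2 ≠ 0 := by
    intro h
    apply hab
    linear_combination (a - b) * h
  have f1 : (q * b - q ^ 2 * a) * (q ^ 2 * b - q * a) = a ^ 2 + a * b + b ^ 2 := by
    linear_combination (b ^ 2 + a ^ 2 - q * a * b) * hq3 - a * b * hq
  have f2 : (q * a - q ^ 2 * b) * (q ^ 2 * a - q * b) = a ^ 2 + a * b + b ^ 2 := by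
    linear_combination (b ^ 2 + a ^ 2 - q * a * b) * hq3 - a * b * hq
  rw [← mul_assoc, f1, f2] at key
  exact mul_left_cancel₀ hne key

end KK

/-! ### evaluations of the ground state -/

theorem eval_push {X Y : Type*} [Fintype X] [DecidableEq Y] {N : ℕ} (f : X → Y)
    (Ψ : X → MvPolynomial (Fin N) ℂ) (p : Fin N → ℂ) (y : Y) :
    eval p (push f Ψ y) = push f (fun x => eval p (Ψ x)) y := by
  unfold push
  rw [map_sum]
  apply Finset.sum_congr rfl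
  intro x _
  split_ifs <;> simp

section Ev
variable {q : ℂ} {n : ℕ} {Ψ : Pat (2 * n + 1) → MvPolynomial (Fin (2 * n + 1)) ℂ}

theorem ev_rot (h : PsiSpec q n Ψ) (p : Fin (2 * n + 1) → ℂ) (σ : Pat (2 * n + 1)) :
    eval p (Ψ (rot (2 * n) σ)) = eval (p ∘ finRotate (2 * n + 1)) (Ψ σ) := by
  rw [h.rot, eval_rename]

theorem ev_exch (h : PsiSpec q n Ψ) (i : ℕ) (hi : i < 2 * n) (p : Fin (2 * n + 1) → ℂ)
    (σ : Pat (2 * n + 1)) :
    (q * p (ix (2 * n) i) - q ^ 2 * p (ix (2 * n) (i + 1))) * eval p (Ψ σ)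
      + (p (ix (2 * n) i) - p (ix (2 * n) (i + 1))) * push (E (2 * n) i) (fun τ => eval p (Ψ τ)) σ
    = (q * p (ix (2 * n) (i + 1)) - q ^ 2 * p (ix (2 * n) i))
      * eval (p ∘ swap (ix (2 * n) i) (ix (2 * n) (i + 1))) (Ψ σ) := by
  have := congrArg (eval p) (h.exch i hi σ)
  simp only [map_add, map_mul, map_sub, eval_C, eval_X, eval_rename] at this
  rw [← this, eval_push]

end Ev

/-! ### sums over the range of `ins` and rotations -/

theorem sum_ins {L : ℕ} (G : Pat (L + 2) → ℂ) (h : ∀ τ, (∀ σ : Pat L, ins σ ≠ τ) → G τ = 0) :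
    ∑ τ, G τ = ∑ σ : Pat L, G (ins σ) := by
  symm
  apply Fintype.sum_of_injective ins (fun _ _ h => ins_inj h)
  · intro τ hτ
    exact h τ fun σ hσ => hτ ⟨σ, hσ⟩
  · intro σ; rfl

/-- rotation as an equivalence -/
noncomputable def rotE (m : ℕ) : Pat (m + 1) ≃ Pat (m + 1) :=
  ⟨rot m, rotInv m, rotInv_rot m, rot_rotInv m⟩

theorem sum_rot {m : ℕ} (G : Pat (m + 1) → ℂ) : ∑ σ, G (rot m σ) = ∑ σ, G σ :=
  (rotE m).sum_comp G

theorem sum_rotInv {m : ℕ} (G : Pat (m + 1) → ℂ) : ∑ σ, G (rotInv m σ) = ∑ σ, G σ :=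
  (rotE m).symm.sum_comp G

/-! ### generic points -/

/-- generic points: nonzero coordinates with distinct cubes -/
def Gn {N : ℕ} (z : Fin N → ℂ) : Prop := (∀ j, z j ≠ 0) ∧ ∀ i j, i ≠ j → z i ^ 3 ≠ z j ^ 3

theorem Gn.comp {N M : ℕ} {z : Fin N → ℂ} (h : Gn z) (p : Fin M → Fin N)
    (hp : Function.Injective p) : Gn (z ∘ p) :=
  ⟨fun _ => h.1 _, fun _ _ hij => h.2 _ _ fun h => hij (hp h)⟩

theorem Gn.tail {N : ℕ} {x : ℂ} {z : Fin N → ℂ} (h : Gn (Fin.cons x z : Fin (N + 1) → ℂ)) :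
    Gn z := by
  have := h.comp Fin.succ (Fin.succ_injective N)
  exact this

theorem sym_of_adj {N : ℕ} (F : (Fin (N + 1) → ℂ) → ℂ)
    (hF : ∀ z, Gn z → ∀ i : Fin N, F (z ∘ swap i.castSucc i.succ) = F z) (z : Fin (N + 1) → ℂ)
    (hz : Gn z) (p : Perm (Fin (N + 1))) : F (z ∘ p) = F z := by
  have hp : p ∈ Submonoid.closure (Set.range fun i : Fin N => swap i.castSucc i.succ) := by
    rw [Equiv.Perm.mclosure_swap_castSucc_succ]; trivial
  induction hp using Submonoid.closure_induction generalizing z with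
  | mem x hx =>
    obtain ⟨i, rfl⟩ := hx
    exact hF z hz i
  | one => rfl
  | mul x y _ _ hx hy =>
    have h1 := hy (z ∘ x) (hz.comp x x.injective)
    have h2 := hx z hz
    rw [← h2, ← h1]
    rfl

theorem cons_swap {N : ℕ} (x : ℂ) (z : Fin N → ℂ) (a b : Fin N) :
    (Fin.cons x z : Fin (N + 1) → ℂ) ∘ swap a.succ b.succ = Fin.cons x (z ∘ swap a b) := by
  funext j
  refine Fin.cases ?_ (fun j => ?_) j
  · simp only [Function.comp_apply, Fin.cons_zero]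
    rw [swap_apply_of_ne_of_ne (Fin.succ_ne_zero a).symm (Fin.succ_ne_zero b).symm, Fin.cons_zero]
  · simp only [Function.comp_apply, Fin.cons_succ]
    have : swap a.succ b.succ j.succ = (swap a b j).succ := by
      rw [swap_apply_def, swap_apply_def]
      simp only [Fin.succ_inj]
      split_ifs <;> rfl
    rw [this, Fin.cons_succ]

/-! ### the two pairings -/

/-- the pairing `B` -/
noncomputable def BB {n : ℕ} (Ψ Ψ' : Pat (2 * n + 1) → MvPolynomial (Fin (2 * n + 1)) ℂ) (x y : ℂ)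
    (z : Fin (2 * n) → ℂ) : ℂ :=
  KK (fun σ τ : Pat (2 * n + 1) => pr 0 σ τ) (fun σ => eval (Fin.cons x z : Fin (2 * n + 1) → ℂ) (Ψ σ))
    (fun τ => eval (Fin.cons y z : Fin (2 * n + 1) → ℂ) (Ψ' τ))

/-- the pairing `C` -/
noncomputable def CC {k : ℕ} (Ψ : Pat (2 * k + 1) → MvPolynomial (Fin (2 * k + 1)) ℂ)
    (Ψ' : Pat (2 * k + 3) → MvPolynomial (Fin (2 * k + 3)) ℂ) (y1 y2 : ℂ)
    (z : Fin (2 * k + 1) → ℂ) : ℂ :=
  KK (fun (σ : Pat (2 * k + 1)) (τ : Pat (2 * k + 3)) => pr 0 (ins σ) τ) (fun σ => eval z (Ψ σ))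
    (fun τ => eval (Fin.cons y1 (Fin.cons y2 z : Fin (2 * k + 2) → ℂ) : Fin (2 * k + 3) → ℂ) (Ψ' τ))

theorem ix_succ {m i : ℕ} (hi : i < m) : ix m (i + 1) = (⟨i, hi⟩ : Fin m).succ := by
  ext; simp [ix]; omega

theorem ix_of_lt {m i : ℕ} (hi : i < m + 1) : ix m i = ⟨i, hi⟩ := by
  ext; simp [ix]; omega

theorem BB_adj {q : ℂ} (hq : q ^ 2 + q + 1 = 0) {n : ℕ}
    {Ψ Ψ' : Pat (2 * n + 1) → MvPolynomial (Fin (2 * n + 1)) ℂ} (h : PsiSpec q n Ψ)
    (h' : PsiSpec (q ^ 2) n Ψ') (x y : ℂ) (z : Fin (2 * n) → ℂ) (i : ℕ) (hi : i + 1 < 2 * n)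
    (hz : z ⟨i, by omega⟩ ^ 3 ≠ z ⟨i + 1, hi⟩ ^ 3) :
    BB Ψ Ψ' x y (z ∘ swap ⟨i, by omega⟩ ⟨i + 1, hi⟩) = BB Ψ Ψ' x y z := by
  have i1 : ix (2 * n) (i + 1) = (⟨i, by omega⟩ : Fin (2 * n)).succ := ix_succ _
  have i2 : ix (2 * n) (i + 1 + 1) = (⟨i + 1, hi⟩ : Fin (2 * n)).succ := ix_succ _
  apply KK_symm (fun σ τ : Pat (2 * n + 1) => pr 0 σ τ) (E (2 * n) (i + 1)) (E (2 * n) (i + 1)) ?_
    (E_idem _ _) q hq (z ⟨i, by omega⟩) (z ⟨i + 1, hi⟩) hz
  · intro σ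
    have := ev_exch h (i + 1) hi (Fin.cons x z : Fin (2 * n + 1) → ℂ) σ
    rw [i1, i2, cons_swap, Fin.cons_succ, Fin.cons_succ] at this
    exact this
  · intro τ
    have := ev_exch h' (i + 1) hi (Fin.cons y z : Fin (2 * n + 1) → ℂ) τ
    rw [i1, i2, cons_swap, Fin.cons_succ, Fin.cons_succ] at this
    exact this
  · intro σ τ
    apply pr_E
    · rw [i1]; exact Fin.succ_ne_zero _
    · rw [i2]; exact Fin.succ_ne_zero _

theorem CC_adj {q : ℂ} (hq : q ^ 2 + q + 1 = 0) {k : ℕ}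
    {Ψ : Pat (2 * k + 1) → MvPolynomial (Fin (2 * k + 1)) ℂ} (h : PsiSpec q k Ψ)
    {Ψ' : Pat (2 * k + 3) → MvPolynomial (Fin (2 * k + 3)) ℂ}
    (h' : PsiSpec (q ^ 2) (k + 1) Ψ') (y1 y2 : ℂ) (z : Fin (2 * k + 1) → ℂ) (i : ℕ)
    (hi : i < 2 * k) (hz : z ⟨i, by omega⟩ ^ 3 ≠ z ⟨i + 1, by omega⟩ ^ 3) :
    CC Ψ Ψ' y1 y2 (z ∘ swap ⟨i, by omega⟩ ⟨i + 1, by omega⟩) = CC Ψ Ψ' y1 y2 z := by
  have i1 : ix (2 * k) i = (⟨i, by omega⟩ : Fin (2 * k + 1)) := ix_of_lt _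
  have i2 : ix (2 * k) (i + 1) = (⟨i + 1, by omega⟩ : Fin (2 * k + 1)) := ix_of_lt _
  have j1 : ix (2 * (k + 1)) (i + 2) = (⟨i, by omega⟩ : Fin (2 * k + 1)).succ.succ := by
    ext; simp [ix]; omega
  have j2 : ix (2 * (k + 1)) (i + 2 + 1) = (⟨i + 1, by omega⟩ : Fin (2 * k + 1)).succ.succ := by
    ext; simp [ix]; omega
  apply KK_symm (fun (σ : Pat (2 * k + 1)) (τ : Pat (2 * k + 3)) => pr 0 (ins σ) τ) (E (2 * k) i)
    (E (2 * k + 2) (i + 2)) ?_ (E_idem _ _) q hq (z ⟨i, by omega⟩) (z ⟨i + 1, by omega⟩) hz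
  · intro σ
    have := ev_exch h i hi z σ
    rw [i1, i2] at this
    exact this
  · intro τ
    have := ev_exch h' (i + 2) (by omega)
      (Fin.cons y1 (Fin.cons y2 z : Fin (2 * k + 2) → ℂ) : Fin (2 * k + 3) → ℂ) τ
    rw [j1, j2, cons_swap, cons_swap, Fin.cons_succ, Fin.cons_succ, Fin.cons_succ, Fin.cons_succ] at this
    exact this
  · intro σ τ
    rw [← ins_E hi]
    apply pr_E
    · exact fun h => Fin.succ_ne_zero _ (j1.symm.trans h)
    · exact fun h => Fin.succ_ne_zero _ (j2.symm.trans h)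

theorem cons_cons_swap {N : ℕ} (x y : ℂ) (z : Fin N → ℂ) :
    (Fin.cons x (Fin.cons y z : Fin (N + 1) → ℂ) : Fin (N + 2) → ℂ) ∘ swap 0 1
      = Fin.cons y (Fin.cons x z : Fin (N + 1) → ℂ) := by
  funext j
  refine Fin.cases ?_ (fun j => ?_) j
  · simp only [Function.comp_apply, Fin.cons_zero, swap_apply_left]
    rfl
  · refine Fin.cases ?_ (fun j => ?_) j
    · have : (Fin.succ 0 : Fin (N + 2)) = 1 := rfl
      simp only [Function.comp_apply, this, swap_apply_right, Fin.cons_zero]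
      rfl
    · simp only [Function.comp_apply]
      have h1 : (j.succ.succ : Fin (N + 2)) ≠ 0 := Fin.succ_ne_zero _
      have h2 : (j.succ.succ : Fin (N + 2)) ≠ 1 := by
        intro h
        have := congrArg Fin.val h
        simp at this
      rw [swap_apply_of_ne_of_ne h1 h2]
      rfl

theorem CC_anti {q : ℂ} {k : ℕ}
    {Ψ : Pat (2 * k + 1) → MvPolynomial (Fin (2 * k + 1)) ℂ}
    {Ψ' : Pat (2 * k + 3) → MvPolynomial (Fin (2 * k + 3)) ℂ}
    (h' : PsiSpec (q ^ 2) (k + 1) Ψ') (y1 y2 : ℂ) (z : Fin (2 * k + 1) → ℂ) :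
    (q ^ 2 * y1 - (q ^ 2) ^ 2 * y2) * CC Ψ Ψ' y1 y2 z =
      (q ^ 2 * y2 - (q ^ 2) ^ 2 * y1) * CC Ψ Ψ' y2 y1 z := by
  have e0 : KK (fun (σ : Pat (2 * k + 1)) (τ : Pat (2 * k + 3)) => pr 0 (ins σ) τ)
      (fun σ => eval z (Ψ σ)) (push (E (2 * k + 2) 0) (fun τ => eval (Fin.cons y1
        (Fin.cons y2 z : Fin (2 * k + 2) → ℂ) : Fin (2 * k + 3) → ℂ) (Ψ' τ))) = 0 := by
    rw [KK_push_right]
    unfold KK
    apply Finset.sum_eq_zero
    intro σ _
    apply Finset.sum_eq_zero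
    intro τ _
    show pr 0 (ins σ) (E (2 * k + 2) 0 τ) * _ * _ = 0
    rw [pr_ins_E0]
    ring
  have e1 : ∀ τ, (q ^ 2 * y1 - (q ^ 2) ^ 2 * y2) * eval (Fin.cons y1
        (Fin.cons y2 z : Fin (2 * k + 2) → ℂ) : Fin (2 * k + 3) → ℂ) (Ψ' τ) +
      (y1 - y2) * push (E (2 * k + 2) 0) (fun τ => eval (Fin.cons y1
        (Fin.cons y2 z : Fin (2 * k + 2) → ℂ) : Fin (2 * k + 3) → ℂ) (Ψ' τ)) τ =
      (q ^ 2 * y2 - (q ^ 2) ^ 2 * y1) * eval (Fin.cons y2
        (Fin.cons y1 z : Fin (2 * k + 2) → ℂ) : Fin (2 * k + 3) → ℂ) (Ψ' τ) := by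
    intro τ
    have := ev_exch h' 0 (by omega)
      (Fin.cons y1 (Fin.cons y2 z : Fin (2 * k + 2) → ℂ) : Fin (2 * k + 3) → ℂ) τ
    have i0 : ix (2 * (k + 1)) 0 = (0 : Fin (2 * k + 3)) := rfl
    have i1 : ix (2 * (k + 1)) (0 + 1) = (1 : Fin (2 * k + 3)) := by
      ext; simp [ix]
    rw [i0, i1, cons_cons_swap] at this
    exact this
  have e2 := KK_lin_right (fun (σ : Pat (2 * k + 1)) (τ : Pat (2 * k + 3)) => pr 0 (ins σ) τ)
    (q ^ 2 * y1 - (q ^ 2) ^ 2 * y2) (y1 - y2) (fun σ => eval z (Ψ σ))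
    (fun τ => eval (Fin.cons y1 (Fin.cons y2 z : Fin (2 * k + 2) → ℂ) : Fin (2 * k + 3) → ℂ) (Ψ' τ))
    (push (E (2 * k + 2) 0) (fun τ => eval (Fin.cons y1
        (Fin.cons y2 z : Fin (2 * k + 2) → ℂ) : Fin (2 * k + 3) → ℂ) (Ψ' τ)))
  rw [e0, mul_zero, add_zero] at e2
  simp_rw [e1] at e2
  rw [KK_smul_right] at e2
  exact e2.symm

/-! ### rotation of the arguments -/

theorem cons_comp_rotate {N : ℕ} (a : ℂ) (v : Fin N → ℂ) :
    (Fin.cons a v : Fin (N + 1) → ℂ) ∘ finRotate (N + 1) = Fin.snoc v a := by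
  rw [Fin.snoc_eq_cons_rotate]
  rfl

/-- `C` from `B` -/
theorem CC_from_right {q : ℂ} (hq : q ^ 2 + q + 1 = 0) {k : ℕ}
    {Ψ : Pat (2 * k + 1) → MvPolynomial (Fin (2 * k + 1)) ℂ}
    {Ψ₁ : Pat (2 * k + 1) → MvPolynomial (Fin (2 * k + 1)) ℂ} (h₁ : PsiSpec (q ^ 2) k Ψ₁)
    {Ψ' : Pat (2 * k + 3) → MvPolynomial (Fin (2 * k + 3)) ℂ}
    (h' : PsiSpec (q ^ 2) (k + 1) Ψ') (y1 y2 : ℂ) (z : Fin (2 * k) → ℂ) :
    CC Ψ Ψ' y1 y2 (Fin.cons (q ^ 2 * y2) z : Fin (2 * k + 1) → ℂ) =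
      Fac (q ^ 2) y2 (Fin.snoc z y1 : Fin (2 * k + 1) → ℂ) * BB Ψ Ψ₁ (q ^ 2 * y2) y1 z := by
  have hq2 : (q ^ 2) ^ 2 + q ^ 2 + 1 = 0 := by linear_combination (q ^ 2 - q + 1) * hq
  have key : ∀ t : Pat (2 * k + 3), eval (Fin.cons y1 (Fin.cons y2 (Fin.cons (q ^ 2 * y2) z :
      Fin (2 * k + 1) → ℂ) : Fin (2 * k + 2) → ℂ) : Fin (2 * k + 3) → ℂ) (Ψ' (rot (2 * k + 2) t)) =
      eval (Fin.cons y2 (Fin.cons (q ^ 2 * y2) (Fin.snoc z y1 : Fin (2 * k + 1) → ℂ) :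
        Fin (2 * k + 2) → ℂ) : Fin (2 * k + 3) → ℂ) (Ψ' t) := by
    intro t
    have := ev_rot h' (Fin.cons y1 (Fin.cons y2 (Fin.cons (q ^ 2 * y2) z :
      Fin (2 * k + 1) → ℂ) : Fin (2 * k + 2) → ℂ) : Fin (2 * k + 3) → ℂ) t
    refine this.trans ?_
    congr 2
    refine (cons_comp_rotate (N := 2 * k + 2) _ _).trans ?_
    rw [← Fin.cons_snoc_eq_snoc_cons, ← Fin.cons_snoc_eq_snoc_cons]
  have hr := psi_rec (q ^ 2) hq2 k Ψ₁ h₁ Ψ' h' y2 (Fin.snoc z y1 : Fin (2 * k + 1) → ℂ)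
  unfold CC KK
  have s1 : ∀ σ : Pat (2 * k + 1), ∑ τ : Pat (2 * k + 3), pr 0 (ins σ) τ *
      eval (Fin.cons (q ^ 2 * y2) z : Fin (2 * k + 1) → ℂ) (Ψ σ) *
      eval (Fin.cons y1 (Fin.cons y2 (Fin.cons (q ^ 2 * y2) z :
        Fin (2 * k + 1) → ℂ) : Fin (2 * k + 2) → ℂ) : Fin (2 * k + 3) → ℂ) (Ψ' τ) =
      ∑ τ : Pat (2 * k + 1), Fac (q ^ 2) y2 (Fin.snoc z y1 : Fin (2 * k + 1) → ℂ) * (pr 0 σ τ *
      eval (Fin.cons (q ^ 2 * y2) z : Fin (2 * k + 1) → ℂ) (Ψ σ) *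
      eval (Fin.cons y1 z : Fin (2 * k + 1) → ℂ) (Ψ₁ τ)) := by
    intro σ
    rw [← sum_rot (m := 2 * k + 2)]
    simp_rw [key]
    rw [sum_ins]
    · rw [← sum_rot (m := 2 * k) (fun τ => Fac (q ^ 2) y2 (Fin.snoc z y1 : Fin (2 * k + 1) → ℂ) *
        (pr 0 σ τ * eval (Fin.cons (q ^ 2 * y2) z : Fin (2 * k + 1) → ℂ) (Ψ σ) *
        eval (Fin.cons y1 z : Fin (2 * k + 1) → ℂ) (Ψ₁ τ)))]
      apply Finset.sum_congr rfl
      intro τ _
      rw [hr.1 τ, ev_rot h₁, cons_comp_rotate]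
      have := pr_ins_rot σ (rot (2 * k) τ)
      rw [rotInv_rot] at this
      rw [this]
      ring
    · intro τ hτ
      rw [hr.2 τ hτ, mul_zero]
  simp_rw [s1]
  unfold BB KK
  simp_rw [Finset.mul_sum]

/-- `C` from `B`, left version -/
theorem CC_from_left {q : ℂ} (hq : q ^ 2 + q + 1 = 0) {k : ℕ}
    {Ψ : Pat (2 * k + 1) → MvPolynomial (Fin (2 * k + 1)) ℂ} (h : PsiSpec q k Ψ)
    {Ψ₁ : Pat (2 * k + 1) → MvPolynomial (Fin (2 * k + 1)) ℂ} (h₁ : PsiSpec (q ^ 2) k Ψ₁)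
    {Ψ' : Pat (2 * k + 3) → MvPolynomial (Fin (2 * k + 3)) ℂ}
    (h' : PsiSpec (q ^ 2) (k + 1) Ψ') (w y2 : ℂ) (z : Fin (2 * k) → ℂ) :
    CC Ψ Ψ' (q ^ 2 * w) y2 (Fin.snoc z w : Fin (2 * k + 1) → ℂ) =
      Fac (q ^ 2) w (Fin.cons y2 z : Fin (2 * k + 1) → ℂ) * BB Ψ Ψ₁ w y2 z := by
  have hq2 : (q ^ 2) ^ 2 + q ^ 2 + 1 = 0 := by linear_combination (q ^ 2 - q + 1) * hq
  have key : ∀ t : Pat (2 * k + 3), eval (Fin.cons (q ^ 2 * w) (Fin.cons y2 (Fin.snoc z w :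
      Fin (2 * k + 1) → ℂ) : Fin (2 * k + 2) → ℂ) : Fin (2 * k + 3) → ℂ) (Ψ' t) =
      eval (Fin.cons w (Fin.cons (q ^ 2 * w) (Fin.cons y2 z : Fin (2 * k + 1) → ℂ) :
        Fin (2 * k + 2) → ℂ) : Fin (2 * k + 3) → ℂ) (Ψ' (rot (2 * k + 2) t)) := by
    intro t
    have := ev_rot h' (Fin.cons w (Fin.cons (q ^ 2 * w) (Fin.cons y2 z :
      Fin (2 * k + 1) → ℂ) : Fin (2 * k + 2) → ℂ) : Fin (2 * k + 3) → ℂ) t
    refine Eq.trans ?_ this.symm
    congr 2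
    refine Eq.trans ?_ (cons_comp_rotate (N := 2 * k + 2) _ _).symm
    rw [← Fin.cons_snoc_eq_snoc_cons, ← Fin.cons_snoc_eq_snoc_cons]
  have hr := psi_rec (q ^ 2) hq2 k Ψ₁ h₁ Ψ' h' w (Fin.cons y2 z : Fin (2 * k + 1) → ℂ)
  unfold CC KK
  have s1 : ∀ σ : Pat (2 * k + 1), ∑ τ : Pat (2 * k + 3), pr 0 (ins σ) τ *
      eval (Fin.snoc z w : Fin (2 * k + 1) → ℂ) (Ψ σ) *
      eval (Fin.cons (q ^ 2 * w) (Fin.cons y2 (Fin.snoc z w :
        Fin (2 * k + 1) → ℂ) : Fin (2 * k + 2) → ℂ) : Fin (2 * k + 3) → ℂ) (Ψ' τ) =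
      ∑ τ : Pat (2 * k + 1), Fac (q ^ 2) w (Fin.cons y2 z : Fin (2 * k + 1) → ℂ) *
      (pr 0 (rot (2 * k) σ) τ *
      eval (Fin.cons w z : Fin (2 * k + 1) → ℂ) (Ψ (rot (2 * k) σ)) *
      eval (Fin.cons y2 z : Fin (2 * k + 1) → ℂ) (Ψ₁ τ)) := by
    intro σ
    simp_rw [key]
    rw [← sum_rotInv (m := 2 * k + 2)]
    simp_rw [rot_rotInv]
    rw [sum_ins]
    · apply Finset.sum_congr rfl
      intro τ _
      rw [hr.1 τ, ev_rot h, cons_comp_rotate, pr_ins_rotInv]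
      ring
    · intro τ hτ
      rw [hr.2 τ hτ, mul_zero]
  simp_rw [s1]
  rw [sum_rot (m := 2 * k) (fun σ => ∑ τ : Pat (2 * k + 1),
      Fac (q ^ 2) w (Fin.cons y2 z : Fin (2 * k + 1) → ℂ) *
      (pr 0 σ τ * eval (Fin.cons w z : Fin (2 * k + 1) → ℂ) (Ψ σ) *
      eval (Fin.cons y2 z : Fin (2 * k + 1) → ℂ) (Ψ₁ τ)))]
  unfold BB KK
  simp_rw [Finset.mul_sum]

/-- `B` from `C` at `z₀ = q x` -/
theorem BB_from_right {q : ℂ} (hq : q ^ 2 + q + 1 = 0) {k : ℕ}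
    {Ψ : Pat (2 * k + 1) → MvPolynomial (Fin (2 * k + 1)) ℂ} (h : PsiSpec q k Ψ)
    {Ψ₂ : Pat (2 * (k + 1) + 1) → MvPolynomial (Fin (2 * (k + 1) + 1)) ℂ}
    (h₂ : PsiSpec q (k + 1) Ψ₂)
    (Ψ' : Pat (2 * (k + 1) + 1) → MvPolynomial (Fin (2 * (k + 1) + 1)) ℂ)
    (x y : ℂ) (z : Fin (2 * k + 1) → ℂ) :
    BB (n := k + 1) Ψ₂ Ψ' x y (Fin.cons (q * x) z : Fin (2 * k + 2) → ℂ) =
      Fac q x z * CC Ψ Ψ' y (q * x) z := by
  have hr := psi_rec q hq k Ψ h Ψ₂ h₂ x z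
  unfold BB CC KK
  refine (sum_ins (L := 2 * k + 1) _ ?_).trans ?_
  · intro τ hτ
    apply Finset.sum_eq_zero
    intro t _
    have e1 := hr.2 τ hτ
    have e2 : eval (Fin.cons x (Fin.cons (q * x) z : Fin (2 * k + 2) → ℂ) :
      Fin (2 * (k + 1) + 1) → ℂ) (Ψ₂ τ) = 0 := e1
    simp only
    rw [e2]
    ring
  · rw [Finset.mul_sum]
    apply Finset.sum_congr rfl
    intro σ _
    rw [Finset.mul_sum]
    apply Finset.sum_congr rfl
    intro τ _
    have e1 := hr.1 σ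
    have e2 : eval (Fin.cons x (Fin.cons (q * x) z : Fin (2 * k + 2) → ℂ) :
      Fin (2 * (k + 1) + 1) → ℂ) (Ψ₂ (ins σ)) = Fac q x z * eval z (Ψ σ) := e1
    simp only
    rw [e2]
    refine Eq.trans ?_ (mul_assoc _ _ _)
    congr 1
    ring

/-- `B` from `C` at `x = q z_last` -/
theorem BB_from_left {q : ℂ} (hq : q ^ 2 + q + 1 = 0) {k : ℕ}
    {Ψ : Pat (2 * k + 1) → MvPolynomial (Fin (2 * k + 1)) ℂ} (h : PsiSpec q k Ψ)
    {Ψ₂ : Pat (2 * (k + 1) + 1) → MvPolynomial (Fin (2 * (k + 1) + 1)) ℂ}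
    (h₂ : PsiSpec q (k + 1) Ψ₂)
    {Ψ' : Pat (2 * (k + 1) + 1) → MvPolynomial (Fin (2 * (k + 1) + 1)) ℂ}
    (h' : PsiSpec (q ^ 2) (k + 1) Ψ')
    (w y : ℂ) (z : Fin (2 * k + 1) → ℂ) :
    BB (n := k + 1) Ψ₂ Ψ' (q * w) y (Fin.snoc z w : Fin (2 * k + 2) → ℂ) =
      Fac q w z * CC Ψ Ψ' w y z := by
  have hr := psi_rec q hq k Ψ h Ψ₂ h₂ w z
  have key1 : ∀ t : Pat (2 * (k + 1) + 1), eval (Fin.cons (q * w) (Fin.snoc z w :
      Fin (2 * k + 2) → ℂ) : Fin (2 * (k + 1) + 1) → ℂ) (Ψ₂ t) =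
      eval (Fin.cons w (Fin.cons (q * w) z : Fin (2 * k + 2) → ℂ) : Fin (2 * (k + 1) + 1) → ℂ)
        (Ψ₂ (rot (2 * (k + 1)) t)) := by
    intro t
    have := ev_rot h₂ (Fin.cons w (Fin.cons (q * w) z : Fin (2 * k + 2) → ℂ) :
      Fin (2 * (k + 1) + 1) → ℂ) t
    refine Eq.trans ?_ this.symm
    congr 2
    refine Eq.trans ?_ (cons_comp_rotate (N := 2 * k + 2) _ _).symm
    rw [← Fin.cons_snoc_eq_snoc_cons]
  have key2 : ∀ t : Pat (2 * (k + 1) + 1), eval (Fin.cons y (Fin.snoc z w :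
      Fin (2 * k + 2) → ℂ) : Fin (2 * (k + 1) + 1) → ℂ) (Ψ' t) =
      eval (Fin.cons w (Fin.cons y z : Fin (2 * k + 2) → ℂ) : Fin (2 * (k + 1) + 1) → ℂ)
        (Ψ' (rot (2 * (k + 1)) t)) := by
    intro t
    have := ev_rot h' (Fin.cons w (Fin.cons y z : Fin (2 * k + 2) → ℂ) :
      Fin (2 * (k + 1) + 1) → ℂ) t
    refine Eq.trans ?_ this.symm
    congr 2
    refine Eq.trans ?_ (cons_comp_rotate (N := 2 * k + 2) _ _).symm
    rw [← Fin.cons_snoc_eq_snoc_cons]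
  have key3 : ∀ σ τ : Pat (2 * (k + 1) + 1), pr 0 σ τ =
      pr 1 (rot (2 * (k + 1)) σ) (rot (2 * (k + 1)) τ) := by
    intro σ τ
    rw [← pr_rot 0 σ τ]
    congr 1
  unfold BB CC KK
  simp only
  conv_lhs => simp only [key1, key2, key3]
  rw [sum_rot (m := 2 * (k + 1)) (fun σ => ∑ τ : Pat (2 * (k + 1) + 1),
    pr 1 σ (rot (2 * (k + 1)) τ) *
      eval (Fin.cons w (Fin.cons (q * w) z : Fin (2 * k + 2) → ℂ) : Fin (2 * (k + 1) + 1) → ℂ)
        (Ψ₂ σ) * eval (Fin.cons w (Fin.cons y z : Fin (2 * k + 2) → ℂ) :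
          Fin (2 * (k + 1) + 1) → ℂ) (Ψ' (rot (2 * (k + 1)) τ)))]
  have s2 : ∀ σ : Pat (2 * (k + 1) + 1), ∑ τ : Pat (2 * (k + 1) + 1),
    pr 1 σ (rot (2 * (k + 1)) τ) *
      eval (Fin.cons w (Fin.cons (q * w) z : Fin (2 * k + 2) → ℂ) : Fin (2 * (k + 1) + 1) → ℂ)
        (Ψ₂ σ) * eval (Fin.cons w (Fin.cons y z : Fin (2 * k + 2) → ℂ) :
          Fin (2 * (k + 1) + 1) → ℂ) (Ψ' (rot (2 * (k + 1)) τ)) =
    ∑ τ : Pat (2 * (k + 1) + 1), pr 1 σ τ *
      eval (Fin.cons w (Fin.cons (q * w) z : Fin (2 * k + 2) → ℂ) : Fin (2 * (k + 1) + 1) → ℂ)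
        (Ψ₂ σ) * eval (Fin.cons w (Fin.cons y z : Fin (2 * k + 2) → ℂ) :
          Fin (2 * (k + 1) + 1) → ℂ) (Ψ' τ) := by
    intro σ
    exact sum_rot (m := 2 * (k + 1)) (fun τ => pr 1 σ τ *
      eval (Fin.cons w (Fin.cons (q * w) z : Fin (2 * k + 2) → ℂ) : Fin (2 * (k + 1) + 1) → ℂ)
        (Ψ₂ σ) * eval (Fin.cons w (Fin.cons y z : Fin (2 * k + 2) → ℂ) :
          Fin (2 * (k + 1) + 1) → ℂ) (Ψ' τ))
  simp_rw [s2]
  refine (sum_ins (L := 2 * k + 1) _ ?_).trans ?_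
  · intro τ hτ
    apply Finset.sum_eq_zero
    intro t _
    have e1 := hr.2 τ hτ
    have e2 : eval (Fin.cons w (Fin.cons (q * w) z : Fin (2 * k + 2) → ℂ) :
      Fin (2 * (k + 1) + 1) → ℂ) (Ψ₂ τ) = 0 := e1
    rw [e2]
    ring
  · rw [Finset.mul_sum]
    apply Finset.sum_congr rfl
    intro σ _
    rw [Finset.mul_sum]
    apply Finset.sum_congr rfl
    intro τ _
    have e1 := hr.1 σ
    have e2 : eval (Fin.cons w (Fin.cons (q * w) z : Fin (2 * k + 2) → ℂ) :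
      Fin (2 * (k + 1) + 1) → ℂ) (Ψ₂ (ins σ)) = Fac q w z * eval z (Ψ σ) := e1
    have e3 : (pr 1 (ins σ) τ : ℂ) = pr 0 (ins σ) τ := pr_one (m := 2 * k) σ τ
    rw [e2, e3]
    refine Eq.trans ?_ (mul_assoc _ _ _)
    congr 1
    ring

/-! ### polynomials in one variable -/

theorem poly_in_var {N : ℕ} (P : MvPolynomial (Fin N) ℂ) (i : Fin N) (d : ℕ)
    (hd : P.degreeOf i ≤ d) (p : ℂ → Fin N → ℂ) (hp : ∀ t, p t i = t)
    (hp' : ∀ t j, j ≠ i → p t j = p 0 j) :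
    ∃ Q : Polynomial ℂ, Q.natDegree ≤ d ∧ ∀ t, Q.eval t = eval (p t) P := by
  refine ⟨MvPolynomial.aeval (fun j => if j = i then Polynomial.X else Polynomial.C (p 0 j)) P, ?_, ?_⟩
  · rw [MvPolynomial.aeval_def, MvPolynomial.eval₂_eq']
    apply Polynomial.natDegree_sum_le_of_forall_le
    intro s hs
    have h1 : s i ≤ d := (MvPolynomial.monomial_le_degreeOf i hs).trans hd
    refine (Polynomial.natDegree_mul_le).trans ?_
    have h2 : ((algebraMap ℂ (Polynomial ℂ)) (coeff s P)).natDegree = 0 := Polynomial.natDegree_C _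
    rw [h2, zero_add]
    refine (Polynomial.natDegree_prod_le _ _).trans ?_
    calc ∑ j, ((if j = i then Polynomial.X else Polynomial.C (p 0 j)) ^ s j).natDegree
        ≤ ∑ j, (if j = i then s i else 0) := by
          apply Finset.sum_le_sum
          intro j _
          split_ifs with hj
          · subst hj
            refine (Polynomial.natDegree_pow_le).trans ?_
            rw [Polynomial.natDegree_X, mul_one]
          · refine (Polynomial.natDegree_pow_le).trans ?_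
            rw [Polynomial.natDegree_C, mul_zero]
      _ ≤ d := by simpa using h1
  · intro t
    have h1 : Polynomial.eval t (MvPolynomial.aeval (fun j => if j = i then Polynomial.X
        else Polynomial.C (p 0 j)) P) = (Polynomial.evalRingHom t) (MvPolynomial.aeval
        (fun j => if j = i then Polynomial.X else Polynomial.C (p 0 j)) P) := rfl
    rw [h1, MvPolynomial.aeval_def, MvPolynomial.hom_eval₂]
    rw [MvPolynomial.eval, MvPolynomial.coe_eval₂Hom]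
    congr 1
    · ext a
      simp
    · funext j
      simp only [Polynomial.coe_evalRingHom]
      split_ifs with hj
      · subst hj
        rw [Polynomial.eval_X, hp]
      · rw [Polynomial.eval_C, hp' t j hj]

theorem poly_left {X Y : Type*} [Fintype X] [Fintype Y] (k : X → Y → ℂ) (u : ℂ → X → ℂ)
    (w : Y → ℂ) (d : ℕ)
    (hu : ∀ σ, ∃ Q : Polynomial ℂ, Q.natDegree ≤ d ∧ ∀ t, Q.eval t = u t σ) :
    ∃ Q : Polynomial ℂ, Q.natDegree ≤ d ∧ ∀ t, Q.eval t = KK k (u t) w := by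
  choose Q hQ1 hQ2 using hu
  refine ⟨∑ σ, ∑ τ, Polynomial.C (k σ τ * w τ) * Q σ, ?_, ?_⟩
  · apply Polynomial.natDegree_sum_le_of_forall_le
    intro σ _
    apply Polynomial.natDegree_sum_le_of_forall_le
    intro τ _
    exact (Polynomial.natDegree_C_mul_le _ _).trans (hQ1 σ)
  · intro t
    unfold KK
    rw [Polynomial.eval_finsetSum]
    apply Finset.sum_congr rfl
    intro σ _
    rw [Polynomial.eval_finsetSum]
    apply Finset.sum_congr rfl
    intro τ _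
    rw [Polynomial.eval_mul, Polynomial.eval_C, hQ2]
    ring

theorem poly_right {X Y : Type*} [Fintype X] [Fintype Y] (k : X → Y → ℂ) (u : X → ℂ)
    (w : ℂ → Y → ℂ) (d : ℕ)
    (hw : ∀ τ, ∃ Q : Polynomial ℂ, Q.natDegree ≤ d ∧ ∀ t, Q.eval t = w t τ) :
    ∃ Q : Polynomial ℂ, Q.natDegree ≤ d ∧ ∀ t, Q.eval t = KK k u (w t) := by
  choose Q hQ1 hQ2 using hw
  refine ⟨∑ σ, ∑ τ, Polynomial.C (k σ τ * u σ) * Q τ, ?_, ?_⟩
  · apply Polynomial.natDegree_sum_le_of_forall_le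
    intro σ _
    apply Polynomial.natDegree_sum_le_of_forall_le
    intro τ _
    exact (Polynomial.natDegree_C_mul_le _ _).trans (hQ1 τ)
  · intro t
    unfold KK
    rw [Polynomial.eval_finsetSum]
    apply Finset.sum_congr rfl
    intro σ _
    rw [Polynomial.eval_finsetSum]
    apply Finset.sum_congr rfl
    intro τ _
    rw [Polynomial.eval_mul, Polynomial.eval_C, hQ2]

/-! ### lists -/

theorem perm1 (a b c : ℂ) (l : List ℂ) :
    (b :: c :: ((a :: l) ++ (a :: l))).Perm (a :: c :: b :: a :: (l ++ l)) := by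
  rw [List.perm_iff_count]
  intro x
  simp only [List.count_cons, List.count_append]
  ring

theorem ofFn_snoc_perm {M : ℕ} (z : Fin M → ℂ) (w : ℂ) :
    (List.ofFn (Fin.snoc z w : Fin (M + 1) → ℂ)).Perm (w :: List.ofFn z) := by
  rw [List.ofFn_succ']
  simp only [Fin.snoc_castSucc, Fin.snoc_last, List.concat_eq_append]
  exact List.perm_append_singleton _ _

theorem g_rec {q : ℂ} {g1 : List ℂ → ℂ} (h1 : GSpec q 1 g1) {M : ℕ} (t s a b : ℂ)
    (hs : s = q * t) (z : Fin M → ℂ) :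
    g1 (t :: s :: a :: b :: (List.ofFn z ++ List.ofFn z)) =
      (a - q ^ 2 * t) * (b - q ^ 2 * t) * (∏ j, (z j - q ^ 2 * t)) ^ 2 *
        g1 (a :: b :: (List.ofFn z ++ List.ofFn z)) := by
  subst hs
  rw [h1.recur, if_pos rfl, one_mul]
  congr 1
  rw [List.map_cons, List.map_cons, List.map_append, List.prod_cons, List.prod_cons,
    List.prod_append, List.map_ofFn, List.prod_ofFn]
  simp only [Function.comp_apply]
  ring

/-- first specialisation of the claim for `C` -/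
theorem CC_val_right {q : ℂ} (hq : q ^ 2 + q + 1 = 0) {g1 : List ℂ → ℂ} (hg : GSpec q 1 g1) {k : ℕ}
    {Ψ : Pat (2 * k + 1) → MvPolynomial (Fin (2 * k + 1)) ℂ}
    {Ψ₁ : Pat (2 * k + 1) → MvPolynomial (Fin (2 * k + 1)) ℂ} (h₁ : PsiSpec (q ^ 2) k Ψ₁)
    {Ψ' : Pat (2 * k + 3) → MvPolynomial (Fin (2 * k + 3)) ℂ}
    (h' : PsiSpec (q ^ 2) (k + 1) Ψ')
    (IH : ∀ (x y : ℂ) (z : Fin (2 * k) → ℂ),
      BB Ψ Ψ₁ x y z = g1 (x :: y :: (List.ofFn z ++ List.ofFn z)))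
    (y1 y2 : ℂ) (z : Fin (2 * k) → ℂ) :
    CC Ψ Ψ' y1 y2 (Fin.cons (q ^ 2 * y2) z : Fin (2 * k + 1) → ℂ) =
      (q * y1 - q ^ 2 * y2) * g1 (y1 :: y2 :: (List.ofFn (Fin.cons (q ^ 2 * y2) z :
        Fin (2 * k + 1) → ℂ) ++ List.ofFn (Fin.cons (q ^ 2 * y2) z : Fin (2 * k + 1) → ℂ))) := by
  have hq3 : q ^ 3 = 1 := by linear_combination (q - 1) * hq
  rw [CC_from_right hq h₁ h', IH, List.ofFn_cons, hg.perm _ _ (perm1 _ _ _ _),
    g_rec hg (q ^ 2 * y2) y2 y1 (q ^ 2 * y2) (by linear_combination -y2 * hq3) z,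
    hg.perm _ _ (List.Perm.swap (q ^ 2 * y2) y1 _)]
  unfold Fac
  rw [Fin.prod_univ_castSucc]
  simp only [Fin.snoc_castSucc, Fin.snoc_last]
  rw [Finset.prod_pow]
  have e1 : (q ^ 2) ^ 2 * y2 = q * y2 := by linear_combination q * y2 * hq3
  have e2 : q ^ 2 * (q ^ 2 * y2) = q * y2 := by linear_combination q * y2 * hq3
  rw [e1, e2]
  generalize ∏ j, (z j - q * y2) = P
  generalize g1 (q ^ 2 * y2 :: y1 :: (List.ofFn z ++ List.ofFn z)) = G
  linear_combination (-1 * y2 * (y1 - q * y2) ^ 2 * P ^ 2 * G) * hq3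

/-- second specialisation of the claim for `C` -/
theorem CC_val_left {q : ℂ} (hq : q ^ 2 + q + 1 = 0) {g1 : List ℂ → ℂ} (hg : GSpec q 1 g1) {k : ℕ}
    {Ψ : Pat (2 * k + 1) → MvPolynomial (Fin (2 * k + 1)) ℂ} (h : PsiSpec q k Ψ)
    {Ψ₁ : Pat (2 * k + 1) → MvPolynomial (Fin (2 * k + 1)) ℂ} (h₁ : PsiSpec (q ^ 2) k Ψ₁)
    {Ψ' : Pat (2 * k + 3) → MvPolynomial (Fin (2 * k + 3)) ℂ}
    (h' : PsiSpec (q ^ 2) (k + 1) Ψ')
    (IH : ∀ (x y : ℂ) (z : Fin (2 * k) → ℂ),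
      BB Ψ Ψ₁ x y z = g1 (x :: y :: (List.ofFn z ++ List.ofFn z)))
    (w y2 : ℂ) (z : Fin (2 * k) → ℂ) :
    CC Ψ Ψ' (q ^ 2 * w) y2 (Fin.snoc z w : Fin (2 * k + 1) → ℂ) =
      (q * (q ^ 2 * w) - q ^ 2 * y2) * g1 (q ^ 2 * w :: y2 :: (List.ofFn (Fin.snoc z w :
        Fin (2 * k + 1) → ℂ) ++ List.ofFn (Fin.snoc z w : Fin (2 * k + 1) → ℂ))) := by
  have hq3 : q ^ 3 = 1 := by linear_combination (q - 1) * hq
  have p1 : (q ^ 2 * w :: y2 :: (List.ofFn (Fin.snoc z w : Fin (2 * k + 1) → ℂ) ++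
      List.ofFn (Fin.snoc z w : Fin (2 * k + 1) → ℂ))).Perm
      (q ^ 2 * w :: w :: y2 :: w :: (List.ofFn z ++ List.ofFn z)) := by
    refine (((ofFn_snoc_perm z w).append (ofFn_snoc_perm z w)).cons _).cons _ |>.trans ?_
    rw [List.perm_iff_count]
    intro x
    simp only [List.count_cons, List.count_append]
    ring
  rw [CC_from_left hq h h₁ h', IH, hg.perm _ _ p1,
    g_rec hg (q ^ 2 * w) w y2 w (by linear_combination -w * hq3) z,
    hg.perm _ _ (List.Perm.swap w y2 _)]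
  unfold Fac
  rw [Fin.prod_univ_succ]
  simp only [Fin.cons_zero, Fin.cons_succ]
  rw [Finset.prod_pow]
  have e1 : (q ^ 2) ^ 2 * w = q * w := by linear_combination q * w * hq3
  have e2 : q ^ 2 * (q ^ 2 * w) = q * w := by linear_combination q * w * hq3
  rw [e1, e2]
  generalize ∏ j, (z j - q * w) = P
  generalize g1 (w :: y2 :: (List.ofFn z ++ List.ofFn z)) = G
  linear_combination (-(w * (y2 - q * w) ^ 2 * P ^ 2 * G)) * hq3

/-! ### symmetrisation -/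

theorem ofFn_comp_append_perm {M : ℕ} (z : Fin M → ℂ) (p : Perm (Fin M)) (a b : ℂ) :
    (a :: b :: (List.ofFn (z ∘ p) ++ List.ofFn (z ∘ p))).Perm
      (a :: b :: (List.ofFn z ++ List.ofFn z)) :=
  (((Equiv.Perm.ofFn_comp_perm p z).append (Equiv.Perm.ofFn_comp_perm p z)).cons _).cons _

/-- difference between `C` and its claimed value -/
noncomputable def dC {k : ℕ} (q : ℂ) (g1 : List ℂ → ℂ)
    (Ψ : Pat (2 * k + 1) → MvPolynomial (Fin (2 * k + 1)) ℂ)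
    (Ψ' : Pat (2 * k + 3) → MvPolynomial (Fin (2 * k + 3)) ℂ) (y1 y2 : ℂ)
    (z : Fin (2 * k + 1) → ℂ) : ℂ :=
  CC Ψ Ψ' y1 y2 z - (q * y1 - q ^ 2 * y2) * g1 (y1 :: y2 :: (List.ofFn z ++ List.ofFn z))

theorem dC_perm {q : ℂ} (hq : q ^ 2 + q + 1 = 0) {g1 : List ℂ → ℂ} (hg : GSpec q 1 g1) {k : ℕ}
    {Ψ : Pat (2 * k + 1) → MvPolynomial (Fin (2 * k + 1)) ℂ} (h : PsiSpec q k Ψ)
    {Ψ' : Pat (2 * k + 3) → MvPolynomial (Fin (2 * k + 3)) ℂ}
    (h' : PsiSpec (q ^ 2) (k + 1) Ψ') (y1 y2 : ℂ) (z : Fin (2 * k + 1) → ℂ) (hz : Gn z)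
    (p : Perm (Fin (2 * k + 1))) : dC q g1 Ψ Ψ' y1 y2 (z ∘ p) = dC q g1 Ψ Ψ' y1 y2 z := by
  apply sym_of_adj (N := 2 * k) (fun z => dC q g1 Ψ Ψ' y1 y2 z) ?_ z hz p
  intro z hz i
  unfold dC
  rw [hg.perm _ _ (ofFn_comp_append_perm z _ y1 y2)]
  congr 1
  exact CC_adj hq h h' y1 y2 z i.val i.2 (hz.2 _ _ (by
    intro h
    have := congrArg Fin.val h
    simp at this))

theorem dC_zero_right {q : ℂ} (hq : q ^ 2 + q + 1 = 0) {g1 : List ℂ → ℂ} (hg : GSpec q 1 g1)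
    {k : ℕ} {Ψ : Pat (2 * k + 1) → MvPolynomial (Fin (2 * k + 1)) ℂ} (h : PsiSpec q k Ψ)
    {Ψ₁ : Pat (2 * k + 1) → MvPolynomial (Fin (2 * k + 1)) ℂ} (h₁ : PsiSpec (q ^ 2) k Ψ₁)
    {Ψ' : Pat (2 * k + 3) → MvPolynomial (Fin (2 * k + 3)) ℂ}
    (h' : PsiSpec (q ^ 2) (k + 1) Ψ')
    (IH : ∀ (x y : ℂ) (z : Fin (2 * k) → ℂ),
      BB Ψ Ψ₁ x y z = g1 (x :: y :: (List.ofFn z ++ List.ofFn z)))
    (y1 y2 : ℂ) (z : Fin (2 * k + 1) → ℂ) (hz : Gn z) (j : Fin (2 * k + 1))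
    (hj : z j = q ^ 2 * y2) : dC q g1 Ψ Ψ' y1 y2 z = 0 := by
  rw [← dC_perm hq hg h h' y1 y2 z hz (swap 0 j)]
  have e : z ∘ swap 0 j = (Fin.cons (q ^ 2 * y2) (Fin.tail (z ∘ swap 0 j)) : Fin (2 * k + 1) → ℂ) := by
    conv_lhs => rw [← Fin.cons_self_tail (z ∘ swap 0 j)]
    rw [Function.comp_apply, swap_apply_left, hj]
  rw [e, dC, CC_val_right hq hg h₁ h' IH, sub_self]

theorem dC_zero_left {q : ℂ} (hq : q ^ 2 + q + 1 = 0) {g1 : List ℂ → ℂ} (hg : GSpec q 1 g1)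
    {k : ℕ} {Ψ : Pat (2 * k + 1) → MvPolynomial (Fin (2 * k + 1)) ℂ} (h : PsiSpec q k Ψ)
    {Ψ₁ : Pat (2 * k + 1) → MvPolynomial (Fin (2 * k + 1)) ℂ} (h₁ : PsiSpec (q ^ 2) k Ψ₁)
    {Ψ' : Pat (2 * k + 3) → MvPolynomial (Fin (2 * k + 3)) ℂ}
    (h' : PsiSpec (q ^ 2) (k + 1) Ψ')
    (IH : ∀ (x y : ℂ) (z : Fin (2 * k) → ℂ),
      BB Ψ Ψ₁ x y z = g1 (x :: y :: (List.ofFn z ++ List.ofFn z)))
    (y2 : ℂ) (z : Fin (2 * k + 1) → ℂ) (hz : Gn z) (j : Fin (2 * k + 1)) :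
    dC q g1 Ψ Ψ' (q ^ 2 * z j) y2 z = 0 := by
  rw [← dC_perm hq hg h h' (q ^ 2 * z j) y2 z hz (swap (Fin.last (2 * k)) j)]
  have e : z ∘ swap (Fin.last (2 * k)) j =
      (Fin.snoc (Fin.init (z ∘ swap (Fin.last (2 * k)) j)) (z j) : Fin (2 * k + 1) → ℂ) := by
    conv_lhs => rw [← Fin.snoc_init_self (z ∘ swap (Fin.last (2 * k)) j)]
    rw [Function.comp_apply, swap_apply_left]
  rw [e, dC, CC_val_left hq hg h h₁ h' IH, sub_self]

theorem dC_anti {q : ℂ} (hq : q ^ 2 + q + 1 = 0) {g1 : List ℂ → ℂ} (hg : GSpec q 1 g1)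
    {k : ℕ} {Ψ : Pat (2 * k + 1) → MvPolynomial (Fin (2 * k + 1)) ℂ}
    {Ψ' : Pat (2 * k + 3) → MvPolynomial (Fin (2 * k + 3)) ℂ}
    (h' : PsiSpec (q ^ 2) (k + 1) Ψ') (y1 y2 : ℂ) (z : Fin (2 * k + 1) → ℂ) :
    (q * y2 - q ^ 2 * y1) * dC q g1 Ψ Ψ' y1 y2 z = (q * y1 - q ^ 2 * y2) * dC q g1 Ψ Ψ' y2 y1 z := by
  have hq3 : q ^ 3 = 1 := by linear_combination (q - 1) * hq
  have h1 := CC_anti (Ψ := Ψ) h' y1 y2 z
  unfold dC
  rw [hg.perm _ _ (List.Perm.swap y1 y2 _)]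
  generalize g1 (y1 :: y2 :: (List.ofFn z ++ List.ofFn z)) = G
  generalize CC Ψ Ψ' y1 y2 z = a at *
  generalize CC Ψ Ψ' y2 y1 z = b at *
  linear_combination (-1 : ℂ) * h1 + (-q * y2 * a + q * y1 * b) * hq3

theorem q_facts {q : ℂ} (hq : q ^ 2 + q + 1 = 0) : q ≠ 0 ∧ q ≠ 1 ∧ q ^ 3 = 1 := by
  refine ⟨?_, ?_, ?_⟩
  · rintro rfl
    norm_num at hq
  · rintro rfl
    norm_num at hq
  · linear_combination (q - 1) * hq

/-- the claim for `C` at generic points -/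
theorem dC_zero {q : ℂ} (hq : q ^ 2 + q + 1 = 0) {g1 : List ℂ → ℂ} (hg : GSpec q 1 g1)
    {k : ℕ} {Ψ : Pat (2 * k + 1) → MvPolynomial (Fin (2 * k + 1)) ℂ} (h : PsiSpec q k Ψ)
    {Ψ₁ : Pat (2 * k + 1) → MvPolynomial (Fin (2 * k + 1)) ℂ} (h₁ : PsiSpec (q ^ 2) k Ψ₁)
    {Ψ' : Pat (2 * k + 3) → MvPolynomial (Fin (2 * k + 3)) ℂ}
    (h' : PsiSpec (q ^ 2) (k + 1) Ψ')
    (IH : ∀ (x y : ℂ) (z : Fin (2 * k) → ℂ),
      BB Ψ Ψ₁ x y z = g1 (x :: y :: (List.ofFn z ++ List.ofFn z)))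
    (y1 : ℂ) (z : Fin (2 * k + 1) → ℂ) (hz : Gn (Fin.cons y1 z : Fin (2 * k + 2) → ℂ)) (y2 : ℂ) :
    dC q g1 Ψ Ψ' y1 y2 z = 0 := by
  obtain ⟨hq0, hq1, hq3⟩ := q_facts hq
  have hz' : Gn z := hz.tail
  have hy1 : y1 ≠ 0 := by simpa using hz.1 0
  have hy1z : ∀ j, z j ^ 3 ≠ y1 ^ 3 := by
    intro j
    have := hz.2 j.succ 0 (Fin.succ_ne_zero _)
    simpa using this
  obtain ⟨Q1, hQ1, hQ1'⟩ := poly_right (fun (σ : Pat (2 * k + 1)) (τ : Pat (2 * k + 3)) =>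
    pr 0 (ins σ) τ) (fun σ => eval z (Ψ σ)) (fun t τ => eval (Fin.cons y1 (Fin.cons t z :
      Fin (2 * k + 2) → ℂ) : Fin (2 * k + 3) → ℂ) (Ψ' τ)) (2 * (k + 1)) (fun τ => by
    refine poly_in_var (Ψ' τ) (Fin.succ 0) (2 * (k + 1)) (h'.deg τ _) (fun t =>
      (Fin.cons y1 (Fin.cons t z : Fin (2 * k + 2) → ℂ) : Fin (2 * k + 3) → ℂ)) (fun t => rfl) ?_
    intro t j
    refine Fin.cases ?_ (fun j => ?_) j
    · intro _; rfl
    · refine Fin.cases ?_ (fun j => ?_) j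
      · intro h; exact absurd rfl h
      · intro _; rfl)
  obtain ⟨P, hP, hP'⟩ := hg.deg (y1 :: (List.ofFn z ++ List.ofFn z)) (Or.inl rfl)
  have hlen : (y1 :: (List.ofFn z ++ List.ofFn z)).length / 2 = 2 * k + 1 := by
    simp only [List.length_cons, List.length_append, List.length_ofFn]; omega
  rw [hlen] at hP
  set D : Polynomial ℂ := Q1 - (Polynomial.C (q * y1) - Polynomial.C (q ^ 2) * Polynomial.X) * P
    with hD
  have hDe : ∀ t, D.eval t = dC q g1 Ψ Ψ' y1 t z := by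
    intro t
    rw [hD, dC, Polynomial.eval_sub, hQ1', Polynomial.eval_mul, hP', Polynomial.eval_sub,
      Polynomial.eval_mul, Polynomial.eval_C, Polynomial.eval_C, Polynomial.eval_X,
      hg.perm _ _ (List.Perm.swap y1 t _)]
    rfl
  have hDd : D.natDegree ≤ 2 * k + 2 := by
    refine (Polynomial.natDegree_sub_le _ _).trans (max_le hQ1 ?_)
    refine (Polynomial.natDegree_mul_le).trans ?_
    have : (Polynomial.C (q * y1) - Polynomial.C (q ^ 2) * Polynomial.X : Polynomial ℂ).natDegree ≤ 1 := by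
      refine (Polynomial.natDegree_sub_le _ _).trans (max_le (by
        rw [Polynomial.natDegree_C]; omega) ?_)
      exact (Polynomial.natDegree_C_mul_le _ _).trans (by simp)
    omega
  have hD0 : D = 0 := by
    apply Polynomial.eq_zero_of_natDegree_lt_card_of_eval_eq_zero D
      (f := (Sum.elim (fun j : Fin (2 * k + 1) => q * z j)
        (Sum.elim (fun j : Fin (2 * k + 1) => q ^ 2 * z j) (fun _ : Unit => q ^ 2 * y1))))
    · have c1 : ∀ a : ℂ, (q * a) ^ 3 = a ^ 3 := fun a => by linear_combination a ^ 3 * hq3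
      have c2 : ∀ a : ℂ, (q ^ 2 * a) ^ 3 = a ^ 3 := fun a => by
        linear_combination a ^ 3 * (q ^ 3 + 1) * hq3
      have c3 : ∀ a : ℂ, a ≠ 0 → q * a ≠ q ^ 2 * a := by
        intro a ha h
        apply hq1
        have : q * a * (q - 1) = 0 := by linear_combination -h
        rcases mul_eq_zero.1 this with h | h
        · exact absurd h (mul_ne_zero hq0 ha)
        · linear_combination h
      have c4 : ∀ i j, z i ^ 3 = z j ^ 3 → i = j := by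
        intro i j hij
        by_contra hne
        exact hz'.2 i j hne hij
      rintro (i | i | i) (j | j | j) hij
      · simp only [Sum.elim_inl] at hij
        rw [c4 i j (by rw [← c1 (z i), hij, c1])]
      · exfalso
        simp only [Sum.elim_inl, Sum.elim_inr] at hij
        have : i = j := c4 i j (by rw [← c1 (z i), hij, c2])
        subst this
        exact c3 _ (hz'.1 i) hij
      · exfalso
        simp only [Sum.elim_inl, Sum.elim_inr] at hij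
        exact hy1z i (by rw [← c1 (z i), hij, c2])
      · exfalso
        simp only [Sum.elim_inl, Sum.elim_inr] at hij
        have : i = j := c4 i j (by rw [← c2 (z i), hij, c1])
        subst this
        exact c3 _ (hz'.1 i) hij.symm
      · simp only [Sum.elim_inl, Sum.elim_inr] at hij
        rw [c4 i j (by rw [← c2 (z i), hij, c2])]
      · exfalso
        simp only [Sum.elim_inl, Sum.elim_inr] at hij
        exact hy1z i (by rw [← c2 (z i), hij, c2])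
      · exfalso
        simp only [Sum.elim_inl, Sum.elim_inr] at hij
        exact hy1z j (by rw [← c1 (z j), ← hij, c2])
      · exfalso
        simp only [Sum.elim_inl, Sum.elim_inr] at hij
        exact hy1z j (by rw [← c2 (z j), ← hij, c2])
      · rfl
    · rintro (j | j | j)
      · simp only [Sum.elim_inl]
        rw [hDe]
        exact dC_zero_right hq hg h h₁ h' IH y1 _ z hz' j (by linear_combination -z j * hq3)
      · simp only [Sum.elim_inl, Sum.elim_inr]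
        rw [hDe]
        have e1 := dC_anti (Ψ := Ψ) hq hg h' y1 (q ^ 2 * z j) z
        rw [dC_zero_left hq hg h h₁ h' IH y1 z hz' j, mul_zero] at e1
        rcases mul_eq_zero.1 e1 with e2 | e2
        · exfalso
          apply hy1z j
          have : z j = q ^ 2 * y1 := by linear_combination e2 - z j * hq3
          rw [this]
          linear_combination y1 ^ 3 * (q ^ 3 + 1) * hq3
        · exact e2
      · simp only [Sum.elim_inr]
        rw [hDe]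
        have e1 := dC_anti (Ψ := Ψ) hq hg h' y1 (q ^ 2 * y1) z
        have e0 : q * y1 - q ^ 2 * (q ^ 2 * y1) = 0 := by linear_combination -(q * y1) * hq3
        rw [e0, zero_mul] at e1
        rcases mul_eq_zero.1 e1 with e2 | e2
        · exfalso
          have e3 : y1 * (q - 1) * (q + 1) = 0 := by linear_combination -e2 + y1 * hq3
          rcases mul_eq_zero.1 e3 with e4 | e4
          · rcases mul_eq_zero.1 e4 with e5 | e5
            · exact hy1 e5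
            · exact hq1 (by linear_combination e5)
          · have : q ^ 2 = 0 := by linear_combination hq - e4
            exact hq0 (by simpa using this)
        · exact e2
    · simp only [Fintype.card_sum, Fintype.card_fin, Fintype.card_unit]
      omega
  rw [← hDe, hD0, Polynomial.eval_zero]

/-! ### the claim for `B` -/

/-- difference between `B` and its claimed value -/
noncomputable def dB {n : ℕ} (g1 : List ℂ → ℂ)
    (Ψ Ψ' : Pat (2 * n + 1) → MvPolynomial (Fin (2 * n + 1)) ℂ) (x y : ℂ)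
    (z : Fin (2 * n) → ℂ) : ℂ :=
  BB Ψ Ψ' x y z - g1 (x :: y :: (List.ofFn z ++ List.ofFn z))

theorem dB_perm {q : ℂ} (hq : q ^ 2 + q + 1 = 0) {g1 : List ℂ → ℂ} (hg : GSpec q 1 g1) {k : ℕ}
    {Ψ Ψ' : Pat (2 * (k + 1) + 1) → MvPolynomial (Fin (2 * (k + 1) + 1)) ℂ}
    (h : PsiSpec q (k + 1) Ψ) (h' : PsiSpec (q ^ 2) (k + 1) Ψ') (x y : ℂ)
    (z : Fin (2 * k + 1 + 1) → ℂ) (hz : Gn z) (p : Perm (Fin (2 * k + 1 + 1))) :
    dB (n := k + 1) g1 Ψ Ψ' x y (z ∘ p) = dB (n := k + 1) g1 Ψ Ψ' x y z := by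
  apply sym_of_adj (N := 2 * k + 1) (fun z => dB (n := k + 1) g1 Ψ Ψ' x y z) ?_ z hz p
  intro z hz i
  unfold dB
  have e1 : g1 (x :: y :: (List.ofFn (n := 2 * (k + 1)) (z ∘ swap i.castSucc i.succ) ++
      List.ofFn (n := 2 * (k + 1)) (z ∘ swap i.castSucc i.succ))) =
      g1 (x :: y :: (List.ofFn (n := 2 * (k + 1)) z ++ List.ofFn (n := 2 * (k + 1)) z)) :=
    hg.perm _ _ (ofFn_comp_append_perm (M := 2 * (k + 1)) z (swap i.castSucc i.succ) x y)
  rw [e1]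
  congr 1
  exact BB_adj (n := k + 1) hq h h' x y z i.val (by have := i.2; omega) (hz.2 _ _ (by
    intro h
    have := congrArg Fin.val h
    simp at this))

theorem dB_zero_right {q : ℂ} (hq : q ^ 2 + q + 1 = 0) {g1 : List ℂ → ℂ} (hg : GSpec q 1 g1)
    {k : ℕ} {Ψ : Pat (2 * k + 1) → MvPolynomial (Fin (2 * k + 1)) ℂ} (h : PsiSpec q k Ψ)
    {Ψ₂ Ψ' : Pat (2 * (k + 1) + 1) → MvPolynomial (Fin (2 * (k + 1) + 1)) ℂ}
    (h₂ : PsiSpec q (k + 1) Ψ₂) (h' : PsiSpec (q ^ 2) (k + 1) Ψ')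
    (HC : ∀ (y1 : ℂ) (z : Fin (2 * k + 1) → ℂ), Gn (Fin.cons y1 z : Fin (2 * k + 2) → ℂ) →
      ∀ y2 : ℂ, dC (k := k) q g1 Ψ Ψ' y1 y2 z = 0)
    (y : ℂ) (z : Fin (2 * k + 1 + 1) → ℂ) (hz : Gn (Fin.cons y z : Fin (2 * k + 3) → ℂ))
    (j : Fin (2 * k + 1 + 1)) : dB (n := k + 1) g1 Ψ₂ Ψ' (q ^ 2 * z j) y z = 0 := by
  obtain ⟨hq0, hq1, hq3⟩ := q_facts hq
  rw [← dB_perm hq hg h₂ h' (q ^ 2 * z j) y z hz.tail (swap 0 j)]
  set z' : Fin (2 * k + 1) → ℂ := Fin.tail (z ∘ swap 0 j) with hz'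
  set x := q ^ 2 * z j with hx
  have hzx : z j = q * x := by rw [hx]; linear_combination -z j * hq3
  have e : z ∘ swap 0 j = (Fin.cons (q * x) z' : Fin (2 * k + 2) → ℂ) := by
    conv_lhs => rw [← Fin.cons_self_tail (z ∘ swap 0 j)]
    rw [Function.comp_apply, swap_apply_left, hzx]
  have hG : Gn (Fin.cons y z' : Fin (2 * k + 2) → ℂ) := by
    have h1 : Gn (Fin.cons y (z ∘ swap 0 j) : Fin (2 * k + 3) → ℂ) := by
      have := hz.comp (swap (Fin.succ 0) (Fin.succ j)) (swap _ _).injective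
      rwa [cons_swap] at this
    have h2 := h1.comp (fun i : Fin (2 * k + 2) => (Fin.cons 0 (fun i => Fin.succ (Fin.succ i)) :
      Fin (2 * k + 2) → Fin (2 * k + 3)) i) ?_
    · convert h2 using 1
      funext i
      refine Fin.cases ?_ (fun i => ?_) i
      · rfl
      · rfl
    · intro a b
      refine Fin.cases ?_ (fun a => ?_) a
      · refine Fin.cases ?_ (fun b => ?_) b
        · intro _; rfl
        · intro h
          simp only [Fin.cons_succ, Fin.cons_zero] at h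
          exact absurd h (Fin.succ_ne_zero _).symm
      · refine Fin.cases ?_ (fun b => ?_) b
        · intro h
          simp only [Fin.cons_succ, Fin.cons_zero] at h
          exact absurd h (Fin.succ_ne_zero _)
        · intro h
          simp only [Fin.cons_succ] at h
          rw [Fin.succ_injective _ (Fin.succ_injective _ h)]
  rw [e]
  unfold dB
  have hC := HC y z' hG (q * x)
  unfold dC at hC
  rw [sub_eq_zero] at hC
  have hB := BB_from_right hq h h₂ Ψ' x y z'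
  rw [hC] at hB
  have p1 : (x :: y :: (List.ofFn (n := 2 * (k + 1)) (Fin.cons (q * x) z' : Fin (2 * k + 2) → ℂ) ++
      List.ofFn (n := 2 * (k + 1)) (Fin.cons (q * x) z' : Fin (2 * k + 2) → ℂ))).Perm
      (x :: (q * x) :: y :: (q * x) :: (List.ofFn z' ++ List.ofFn z')) := by
    have e1 : List.ofFn (n := 2 * (k + 1)) (Fin.cons (q * x) z' : Fin (2 * k + 2) → ℂ) =
        (q * x) :: List.ofFn z' := List.ofFn_cons (n := 2 * k + 1) _ _
    rw [e1, List.perm_iff_count]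
    intro a
    simp only [List.count_cons, List.count_append]
    ring
  rw [hg.perm _ _ p1, g_rec hg x (q * x) y (q * x) rfl z']
  rw [sub_eq_zero]
  refine hB.trans ?_
  unfold Fac
  rw [Finset.prod_pow]
  generalize ∏ j, (z' j - q ^ 2 * x) = P
  generalize g1 (y :: q * x :: (List.ofFn z' ++ List.ofFn z')) = G
  ring

theorem dB_zero_left {q : ℂ} (hq : q ^ 2 + q + 1 = 0) {g1 : List ℂ → ℂ} (hg : GSpec q 1 g1)
    {k : ℕ} {Ψ : Pat (2 * k + 1) → MvPolynomial (Fin (2 * k + 1)) ℂ} (h : PsiSpec q k Ψ)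
    {Ψ₂ Ψ' : Pat (2 * (k + 1) + 1) → MvPolynomial (Fin (2 * (k + 1) + 1)) ℂ}
    (h₂ : PsiSpec q (k + 1) Ψ₂) (h' : PsiSpec (q ^ 2) (k + 1) Ψ')
    (HC : ∀ (y1 : ℂ) (z : Fin (2 * k + 1) → ℂ), Gn (Fin.cons y1 z : Fin (2 * k + 2) → ℂ) →
      ∀ y2 : ℂ, dC (k := k) q g1 Ψ Ψ' y1 y2 z = 0)
    (y : ℂ) (z : Fin (2 * k + 1 + 1) → ℂ) (hz : Gn z)
    (j : Fin (2 * k + 1 + 1)) : dB (n := k + 1) g1 Ψ₂ Ψ' (q * z j) y z = 0 := by
  obtain ⟨hq0, hq1, hq3⟩ := q_facts hq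
  rw [← dB_perm hq hg h₂ h' (q * z j) y z hz (swap (Fin.last (2 * k + 1)) j)]
  set z' : Fin (2 * k + 1) → ℂ := Fin.init (z ∘ swap (Fin.last (2 * k + 1)) j) with hz'
  set w := z j with hw
  have e : z ∘ swap (Fin.last (2 * k + 1)) j = (Fin.snoc z' w : Fin (2 * k + 2) → ℂ) := by
    conv_lhs => rw [← Fin.snoc_init_self (z ∘ swap (Fin.last (2 * k + 1)) j)]
    rw [Function.comp_apply, swap_apply_left]
  have hG : Gn (Fin.cons w z' : Fin (2 * k + 2) → ℂ) := by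
    have h1 : Gn (Fin.snoc z' w : Fin (2 * k + 2) → ℂ) := by
      have := hz.comp (swap (Fin.last (2 * k + 1)) j) (swap _ _).injective
      rwa [e] at this
    have h2 := h1.comp (finRotate (2 * k + 2)).symm (finRotate (2 * k + 2)).symm.injective
    have h3 : (Fin.snoc z' w : Fin (2 * k + 2) → ℂ) ∘ (finRotate (2 * k + 2)).symm =
        (Fin.cons w z' : Fin (2 * k + 2) → ℂ) := by
      rw [← cons_comp_rotate]
      funext i
      simp
    rwa [h3] at h2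
  rw [e]
  unfold dB
  have hC := HC w z' hG y
  unfold dC at hC
  rw [sub_eq_zero] at hC
  have hB := BB_from_left hq h h₂ h' w y z'
  rw [hC] at hB
  have p1 : (q * w :: y :: (List.ofFn (n := 2 * (k + 1)) (Fin.snoc z' w : Fin (2 * k + 2) → ℂ) ++
      List.ofFn (n := 2 * (k + 1)) (Fin.snoc z' w : Fin (2 * k + 2) → ℂ))).Perm
      (w :: (q * w) :: y :: w :: (List.ofFn z' ++ List.ofFn z')) := by
    have e1 : (List.ofFn (n := 2 * (k + 1)) (Fin.snoc z' w : Fin (2 * k + 2) → ℂ)).Perm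
        (w :: List.ofFn z') := ofFn_snoc_perm (M := 2 * k + 1) z' w
    refine ((e1.append e1).cons _).cons _ |>.trans ?_
    rw [List.perm_iff_count]
    intro a
    simp only [List.count_cons, List.count_append]
    ring
  rw [hg.perm _ _ p1, g_rec hg w (q * w) y w rfl z']
  rw [sub_eq_zero]
  refine hB.trans ?_
  rw [hg.perm _ _ (List.Perm.swap y w _)]
  unfold Fac
  rw [Finset.prod_pow]
  generalize ∏ j, (z' j - q ^ 2 * w) = P
  generalize g1 (y :: w :: (List.ofFn z' ++ List.ofFn z')) = G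
  linear_combination (w * P ^ 2 * G * (y - q * w)) * hq3

/-- the claim for `B` at generic points -/
theorem dB_zero {q : ℂ} (hq : q ^ 2 + q + 1 = 0) {g1 : List ℂ → ℂ} (hg : GSpec q 1 g1)
    {k : ℕ} {Ψ : Pat (2 * k + 1) → MvPolynomial (Fin (2 * k + 1)) ℂ} (h : PsiSpec q k Ψ)
    {Ψ₂ Ψ' : Pat (2 * (k + 1) + 1) → MvPolynomial (Fin (2 * (k + 1) + 1)) ℂ}
    (h₂ : PsiSpec q (k + 1) Ψ₂) (h' : PsiSpec (q ^ 2) (k + 1) Ψ')
    (HC : ∀ (y1 : ℂ) (z : Fin (2 * k + 1) → ℂ), Gn (Fin.cons y1 z : Fin (2 * k + 2) → ℂ) →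
      ∀ y2 : ℂ, dC (k := k) q g1 Ψ Ψ' y1 y2 z = 0)
    (x y : ℂ) (z : Fin (2 * (k + 1)) → ℂ) (hz : Gn (Fin.cons y z : Fin (2 * (k + 1) + 1) → ℂ)) :
    dB (n := k + 1) g1 Ψ₂ Ψ' x y z = 0 := by
  obtain ⟨hq0, hq1, hq3⟩ := q_facts hq
  have hz' : Gn z := hz.tail
  obtain ⟨Q1, hQ1, hQ1'⟩ := poly_left (fun (σ τ : Pat (2 * (k + 1) + 1)) => pr 0 σ τ)
    (fun t σ => eval (Fin.cons t z : Fin (2 * (k + 1) + 1) → ℂ) (Ψ₂ σ))
    (fun τ => eval (Fin.cons y z : Fin (2 * (k + 1) + 1) → ℂ) (Ψ' τ)) (2 * (k + 1)) (fun σ => by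
    refine poly_in_var (Ψ₂ σ) 0 (2 * (k + 1)) (h₂.deg σ _) (fun t =>
      (Fin.cons t z : Fin (2 * (k + 1) + 1) → ℂ)) (fun t => rfl) ?_
    intro t j
    refine Fin.cases ?_ (fun j => ?_) j
    · intro h; exact absurd rfl h
    · intro _; rfl)
  obtain ⟨P, hP, hP'⟩ := hg.deg (y :: (List.ofFn z ++ List.ofFn z)) (Or.inl rfl)
  have hlen : (y :: (List.ofFn z ++ List.ofFn z)).length / 2 = 2 * (k + 1) := by
    simp only [List.length_cons, List.length_append, List.length_ofFn]; omega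
  rw [hlen] at hP
  set D : Polynomial ℂ := Q1 - P with hD
  have hDe : ∀ t, D.eval t = dB (n := k + 1) g1 Ψ₂ Ψ' t y z := by
    intro t
    rw [hD, dB, Polynomial.eval_sub, hQ1', hP']
    rfl
  have hDd : D.natDegree ≤ 2 * (k + 1) :=
    (Polynomial.natDegree_sub_le _ _).trans (max_le hQ1 hP)
  have hD0 : D = 0 := by
    apply Polynomial.eq_zero_of_natDegree_lt_card_of_eval_eq_zero D
      (f := (Sum.elim (fun j : Fin (2 * (k + 1)) => q * z j)
        (fun j : Fin (2 * (k + 1)) => q ^ 2 * z j)))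
    · have c1 : ∀ a : ℂ, (q * a) ^ 3 = a ^ 3 := fun a => by linear_combination a ^ 3 * hq3
      have c2 : ∀ a : ℂ, (q ^ 2 * a) ^ 3 = a ^ 3 := fun a => by
        linear_combination a ^ 3 * (q ^ 3 + 1) * hq3
      have c3 : ∀ a : ℂ, a ≠ 0 → q * a ≠ q ^ 2 * a := by
        intro a ha h
        apply hq1
        have : q * a * (q - 1) = 0 := by linear_combination -h
        rcases mul_eq_zero.1 this with h | h
        · exact absurd h (mul_ne_zero hq0 ha)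
        · linear_combination h
      have c4 : ∀ i j, z i ^ 3 = z j ^ 3 → i = j := by
        intro i j hij
        by_contra hne
        exact hz'.2 i j hne hij
      rintro (i | i) (j | j) hij
      · simp only [Sum.elim_inl] at hij
        rw [c4 i j (by rw [← c1 (z i), hij, c1])]
      · exfalso
        simp only [Sum.elim_inl, Sum.elim_inr] at hij
        have : i = j := c4 i j (by rw [← c1 (z i), hij, c2])
        subst this
        exact c3 _ (hz'.1 i) hij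
      · exfalso
        simp only [Sum.elim_inl, Sum.elim_inr] at hij
        have : i = j := c4 i j (by rw [← c2 (z i), hij, c1])
        subst this
        exact c3 _ (hz'.1 i) hij.symm
      · simp only [Sum.elim_inr] at hij
        rw [c4 i j (by rw [← c2 (z i), hij, c2])]
    · rintro (j | j)
      · simp only [Sum.elim_inl]
        rw [hDe]
        exact dB_zero_left hq hg h h₂ h' HC y z hz' j
      · simp only [Sum.elim_inr]
        rw [hDe]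
        exact dB_zero_right hq hg h h₂ h' HC y z hz j
    · simp only [Fintype.card_sum, Fintype.card_fin]
      omega
  rw [← hDe, hD0, Polynomial.eval_zero]

/-! ### the case `n = 0` -/

theorem pat_zero (σ : Pat (2 * 0 + 1)) : σ.1 none = some 0 ∧ σ.1 (some 0) = none := by
  constructor
  · rcases h : σ.1 none with _ | j
    · exact absurd h (σ.2.nofix none)
    · congr 1
      exact Subsingleton.elim (α := Fin 1) j 0
  · rcases h : σ.1 (some 0) with _ | j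
    · rfl
    · exfalso
      apply σ.2.nofix (some 0)
      rw [h]
      congr 1
      exact Subsingleton.elim (α := Fin 1) j 0

theorem pat_zero_eq (σ : Pat (2 * 0 + 1)) : σ = base 0 := by
  apply Subtype.ext
  apply Equiv.ext
  intro v
  rcases v with _ | j
  · rw [(pat_zero σ).1, (pat_zero (base 0)).1]
  · obtain rfl : j = 0 := Subsingleton.elim (α := Fin 1) j 0
    rw [(pat_zero σ).2, (pat_zero (base 0)).2]

theorem g_pair {q : ℂ} (hq : q ^ 2 + q + 1 = 0) {g1 : List ℂ → ℂ} (hg : GSpec q 1 g1) (x y : ℂ) :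
    g1 [x, y] = 1 := by
  obtain ⟨hq0, hq1, hq3⟩ := q_facts hq
  obtain ⟨P, hP, hP'⟩ := hg.deg [y] (Or.inl rfl)
  have h0 : P.natDegree = 0 := by simpa using hP
  rw [Polynomial.natDegree_eq_zero] at h0
  obtain ⟨c, rfl⟩ := h0
  simp only [Polynomial.eval_C] at hP'
  rw [← hP' x, hP' (q ^ 2 * y)]
  have h1 := hg.recur (q ^ 2 * y) []
  have h2 : q * (q ^ 2 * y) = y := by linear_combination y * hq3
  rw [h2] at h1
  rw [h1, hg.nil]
  simp

theorem BB_zero {q : ℂ} (hq : q ^ 2 + q + 1 = 0) {g1 : List ℂ → ℂ} (hg : GSpec q 1 g1)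
    {Ψ Ψ' : Pat (2 * 0 + 1) → MvPolynomial (Fin (2 * 0 + 1)) ℂ} (h : PsiSpec q 0 Ψ)
    (h' : PsiSpec (q ^ 2) 0 Ψ') (x y : ℂ) (z : Fin (2 * 0) → ℂ) :
    BB Ψ Ψ' x y z = g1 (x :: y :: (List.ofFn z ++ List.ofFn z)) := by
  have hz : List.ofFn z = [] := rfl
  rw [hz, List.append_nil, g_pair hq hg]
  have hu : (Finset.univ : Finset (Pat (2 * 0 + 1))) = {base 0} := by
    apply Finset.eq_singleton_iff_unique_mem.2
    exact ⟨Finset.mem_univ _, fun σ _ => pat_zero_eq σ⟩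
  unfold BB KK
  rw [hu, Finset.sum_singleton, Finset.sum_singleton]
  have e1 : ∀ q : ℂ, Dl q 0 = 1 := by
    intro q
    simp [Dl]
  have e2 : (pr 0 (base 0) (base 0) : ℂ) = 1 := by
    unfold pr
    rw [if_pos]
    intro k hk _
    have := hk none
    rw [(pat_zero (base 0)).1] at this
    exact this
  have e3 : Ψ (base 0) = Dl q 0 := h.base
  have e4 : Ψ' (base 0) = Dl (q ^ 2) 0 := h'.base
  simp only [e3, e4, e1, map_one, e2, mul_one]

/-! ### extension to all points -/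

/-- the discriminant polynomial -/
noncomputable def Dsc (N : ℕ) : MvPolynomial (Fin N) ℂ :=
  (∏ j, X j) * ∏ i, ∏ j, if i = j then 1 else (X i ^ 3 - X j ^ 3)

theorem Dsc_ne (N : ℕ) : Dsc N ≠ 0 := by
  unfold Dsc
  apply mul_ne_zero
  · exact Finset.prod_ne_zero_iff.2 fun j _ => X_ne_zero j
  · refine Finset.prod_ne_zero_iff.2 fun i _ => Finset.prod_ne_zero_iff.2 fun j _ => ?_
    split_ifs with hij
    · exact one_ne_zero
    · intro h
      have := congrArg (eval (fun l => if l = i then (1 : ℂ) else 0)) h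
      simp [Ne.symm hij] at this

theorem Dsc_gn {N : ℕ} (z : Fin N → ℂ) (h : eval z (Dsc N) ≠ 0) : Gn z := by
  unfold Dsc at h
  rw [map_mul, map_prod, map_prod] at h
  constructor
  · intro j hj
    apply h
    rw [Finset.prod_eq_zero (Finset.mem_univ j) (by rw [eval_X]; exact hj), zero_mul]
  · intro i j hij hc
    apply h
    have hz0 : (∏ a, eval z (∏ b, if a = b then (1 : MvPolynomial (Fin N) ℂ)
        else (X a ^ 3 - X b ^ 3))) = 0 := by
      apply Finset.prod_eq_zero (Finset.mem_univ i)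
      rw [map_prod]
      apply Finset.prod_eq_zero (Finset.mem_univ j)
      rw [if_neg hij]
      simp [hc]
    rw [hz0, mul_zero]

theorem BB_cont {n : ℕ} (Ψ Ψ' : Pat (2 * n + 1) → MvPolynomial (Fin (2 * n + 1)) ℂ) (x : ℂ) :
    Continuous (fun v : Fin (2 * n + 1) → ℂ => BB Ψ Ψ' x (v 0) (Fin.tail v)) := by
  unfold BB KK
  refine continuous_finsetSum _ fun σ _ => continuous_finsetSum _ fun τ _ => ?_
  refine ((continuous_const).mul ?_).mul ?_
  · refine (MvPolynomial.continuous_eval (Ψ σ)).comp ?_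
    refine continuous_pi fun j => ?_
    refine Fin.cases ?_ (fun j => ?_) j
    · exact continuous_const
    · exact continuous_apply _
  · refine (MvPolynomial.continuous_eval (Ψ' τ)).comp ?_
    have : (fun v : Fin (2 * n + 1) → ℂ => (Fin.cons (v 0) (Fin.tail v) : Fin (2 * n + 1) → ℂ)) =
        fun v => v := by
      funext v
      exact Fin.cons_self_tail v
    rw [this]
    exact continuous_id

theorem g_cont {q : ℂ} {g1 : List ℂ → ℂ} (hg : GSpec q 1 g1) (n : ℕ) (x : ℂ) :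
    Continuous (fun v : Fin (2 * n + 1) → ℂ =>
      g1 (x :: v 0 :: (List.ofFn (Fin.tail v) ++ List.ofFn (Fin.tail v)))) := by
  have h1 : ∀ v : Fin (2 * n + 1) → ℂ, x :: v 0 :: (List.ofFn (Fin.tail v) ++ List.ofFn (Fin.tail v)) =
      List.ofFn (Fin.cons x (Fin.cons (v 0) (Fin.append (Fin.tail v) (Fin.tail v)) :
        Fin (2 * n + 2 * n + 1) → ℂ) : Fin (2 * n + 2 * n + 2) → ℂ) := by
    intro v
    rw [List.ofFn_cons, List.ofFn_cons, List.ofFn_fin_append]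
  simp_rw [h1]
  refine (hg.cont (2 * n + 2 * n + 2)).comp ?_
  refine continuous_pi fun j => ?_
  refine Fin.cases ?_ (fun j => ?_) j
  · exact continuous_const
  · refine Fin.cases ?_ (fun j => ?_) j
    · exact continuous_apply _
    · simp only [Fin.cons_succ]
      refine Fin.addCases (fun i => ?_) (fun i => ?_) j
      · simp only [Fin.append_left]
        exact continuous_apply _
      · simp only [Fin.append_right]
        exact continuous_apply _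

/-- the pairing formula for `BB` -/
theorem BB_formula (q : ℂ) (hq : q ^ 2 + q + 1 = 0) (g1 : List ℂ → ℂ) (hg : GSpec q 1 g1) (n : ℕ) :
    ∀ (Ψ Ψ' : Pat (2 * n + 1) → MvPolynomial (Fin (2 * n + 1)) ℂ), PsiSpec q n Ψ →
      PsiSpec (q ^ 2) n Ψ' → ∀ (x y : ℂ) (z : Fin (2 * n) → ℂ),
      BB Ψ Ψ' x y z = g1 (x :: y :: (List.ofFn z ++ List.ofFn z)) := by
  have hq2 : (q ^ 2) ^ 2 + q ^ 2 + 1 = 0 := by linear_combination (q ^ 2 - q + 1) * hq
  induction n with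
  | zero =>
    intro Ψ Ψ' h h' x y z
    exact BB_zero hq hg h h' x y z
  | succ k ih =>
    intro Ψ Ψ' h h' x y z
    obtain ⟨Ψ₀, h₀⟩ := exists_psi q hq k
    obtain ⟨Ψ₁, h₁⟩ := exists_psi (q ^ 2) hq2 k
    have IH := ih Ψ₀ Ψ₁ h₀ h₁
    have HC : ∀ (y1 : ℂ) (z : Fin (2 * k + 1) → ℂ), Gn (Fin.cons y1 z : Fin (2 * k + 2) → ℂ) →
        ∀ y2 : ℂ, dC (k := k) q g1 Ψ₀ Ψ' y1 y2 z = 0 :=
      fun y1 z hz y2 => dC_zero (k := k) hq hg h₀ h₁ h' IH y1 z hz y2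
    have key : (fun v : Fin (2 * (k + 1) + 1) → ℂ => BB Ψ Ψ' x (v 0) (Fin.tail v)) =
        (fun v : Fin (2 * (k + 1) + 1) → ℂ =>
          g1 (x :: v 0 :: (List.ofFn (Fin.tail v) ++ List.ofFn (Fin.tail v)))) := by
      apply dense_agree (Dsc (2 * (k + 1) + 1)) (Dsc_ne _) _ _ (BB_cont Ψ Ψ' x) (g_cont hg (k + 1) x)
      intro v hv
      have hG : Gn (Fin.cons (v 0) (Fin.tail v) : Fin (2 * (k + 1) + 1) → ℂ) := by
        rw [Fin.cons_self_tail]
        exact Dsc_gn v hv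
      have := dB_zero hq hg h₀ h h' HC x (v 0) (Fin.tail v) hG
      unfold dB at this
      exact sub_eq_zero.1 this
    have := congrFun key (Fin.cons y z : Fin (2 * (k + 1) + 1) → ℂ)
    simpa using this

theorem B_formula (q : ℂ) (hq : q ^ 2 + q + 1 = 0) (g1 : List ℂ → ℂ) (h1 : GSpec q 1 g1)
    (n : ℕ) (Ψ : Pat (2 * n + 1) → MvPolynomial (Fin (2 * n + 1)) ℂ) (h : PsiSpec q n Ψ)
    (Ψ' : Pat (2 * n + 1) → MvPolynomial (Fin (2 * n + 1)) ℂ) (h' : PsiSpec (q ^ 2) n Ψ')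
    (x y : ℂ) (z : Fin (2 * n) → ℂ) :
    ∑ σ, ∑ τ, pr 0 σ τ * eval (Fin.cons x z : Fin (2 * n + 1) → ℂ) (Ψ σ)
        * eval (Fin.cons y z : Fin (2 * n + 1) → ℂ) (Ψ' τ)
      = g1 (x :: y :: (List.ofFn z ++ List.ofFn z)) :=
  BB_formula q hq g1 h1 n Ψ Ψ' h h' x y z

end Pool.Agent.H974R3
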