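import Pool.Agent.H974R3.Trans
import Pool.Agent.H974R3.Ins

/-! # Module B3 : the transfer maps and the insertion of a small arc -/

namespace Pool.Agent.H974R3
open Equiv

set_option maxHeartbeats 400000

/-! ### words -/

theorem ti_word_succ (m : ℕ) (c : Fin (m + 1) → Bool) (k j : ℕ) (σ : Pat (m + 1)) :
    word m c k (j + 1) σ = if c (ix m (k + j + 1)) = true then E m (k + j) (word m c k j σ)
      else word m c k j σ := rfl

theorem ti_word_add (m : ℕ) (c : Fin (m + 1) → Bool) (k j1 j2 : ℕ) (σ : Pat (m + 1)) :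
    word m c k (j1 + j2) σ = word m c (k + j1) j2 (word m c k j1 σ) := by
  induction j2 with
  | zero => rfl
  | succ j2 ih =>
    rw [← add_assoc, ti_word_succ, ti_word_succ, ih, ← add_assoc k j1 j2]

theorem ti_word_per (m : ℕ) (c : Fin (m + 1) → Bool) (k j : ℕ) (σ : Pat (m + 1)) :
    word m c (k + (m + 1)) j σ = word m c k j σ := by
  induction j with
  | zero => rfl
  | succ j ih =>
    rw [ti_word_succ, ti_word_succ, ih]
    have h1 : k + (m + 1) + j + 1 = (k + j + 1) + (m + 1) := by ring
    have h2 : k + (m + 1) + j = (k + j) + (m + 1) := by ring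
    rw [h1, h2, ix_add, E_per]

theorem ti_word_comm_E (m : ℕ) (c : Fin (m + 1) → Bool) (i k j : ℕ)
    (h : ∀ t < j, ∀ τ : Pat (m + 1), E m i (E m (k + t) τ) = E m (k + t) (E m i τ))
    (σ : Pat (m + 1)) : E m i (word m c k j σ) = word m c k j (E m i σ) := by
  induction j with
  | zero => rfl
  | succ j ih =>
    rw [ti_word_succ, ti_word_succ]
    have ih' := ih (fun t ht => h t (by omega))
    split_ifs
    · rw [h j (by omega), ih']
    · exact ih'

theorem ti_word_comm (m : ℕ) (c : Fin (m + 1) → Bool) (k j k' j' : ℕ)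
    (h : ∀ t < j, ∀ t' < j', ∀ τ : Pat (m + 1),
      E m (k + t) (E m (k' + t') τ) = E m (k' + t') (E m (k + t) τ))
    (σ : Pat (m + 1)) :
    word m c k j (word m c k' j' σ) = word m c k' j' (word m c k j σ) := by
  induction j with
  | zero => rfl
  | succ j ih =>
    rw [ti_word_succ, ti_word_succ]
    have ih' := ih (fun t ht => h t (by omega))
    split_ifs
    · rw [ih', ti_word_comm_E]
      intro t' ht' τ
      exact h j (by omega) t' ht' τ
    · exact ih'

theorem ti_word_one (m : ℕ) (c : Fin (m + 1) → Bool) (k : ℕ) (hc : c (ix m (k + 1)) = true)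
    (σ : Pat (m + 1)) : word m c k 1 σ = E m k σ := by
  have := ti_word_succ m c k 0 σ
  simp only [zero_add, add_zero] at this
  rw [this, if_pos hc]
  rfl

theorem ti_word_one' (m : ℕ) (c : Fin (m + 1) → Bool) (k : ℕ) (hc : c (ix m (k + 1)) = false)
    (σ : Pat (m + 1)) : word m c k 1 σ = σ := by
  have := ti_word_succ m c k 0 σ
  simp only [zero_add, add_zero] at this
  rw [this, if_neg (by simp [hc])]
  rfl

theorem ti_word_true (m : ℕ) (c : Fin (m + 1) → Bool) (k j : ℕ)
    (h : ∀ t < j, c (ix m (k + t + 1)) = true) (σ : Pat (m + 1)) :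
    word m c k j σ = word m (fun _ => true) k j σ := by
  induction j with
  | zero => rfl
  | succ j ih =>
    rw [ti_word_succ, ti_word_succ, ih (fun t ht => h t (by omega)), if_pos (h j (by omega)),
      if_pos rfl]

theorem ti_ix_ss (m i : ℕ) (hi : i ≤ m) : (ix m i).succ.succ = ix (m + 2) (i + 2) := by
  apply Fin.ext
  simp only [ix, Fin.val_succ]
  rw [Nat.mod_eq_of_lt (by omega), Nat.mod_eq_of_lt (by omega)]

theorem ti_word_ins (m : ℕ) (c : Fin (m + 3) → Bool) (k j : ℕ) (hkj : k + j ≤ m)
    (σ : Pat (m + 1)) :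
    word (m + 2) c (k + 2) j (ins σ) = ins (word m (fun j => c j.succ.succ) k j σ) := by
  induction j with
  | zero => rfl
  | succ j ih =>
    rw [ti_word_succ, ti_word_succ, ih (by omega)]
    have h1 : c (ix (m + 2) (k + 2 + j + 1)) = c (ix m (k + j + 1)).succ.succ := by
      rw [ti_ix_ss m _ (by omega)]
      congr 2
      omega
    rw [h1]
    have h2 : k + 2 + j = (k + j) + 2 := by omega
    rw [h2]
    split_ifs
    · rw [ins_E (by omega)]
    · rfl

theorem ti_rot_word (m : ℕ) (k j : ℕ) (σ : Pat (m + 1)) :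
    rot m (word m (fun _ => true) k j σ) = word m (fun _ => true) (k + 1) j (rot m σ) := by
  induction j with
  | zero => rfl
  | succ j ih =>
    rw [ti_word_succ, ti_word_succ, if_pos rfl, if_pos rfl, rot_E, ih]
    congr 1
    omega

theorem ti_rotInv_E (m i : ℕ) (σ : Pat (m + 1)) :
    rotInv m (E m (i + 1) σ) = E m i (rotInv m σ) := by
  have h := rot_E m i (rotInv m σ)
  rw [rot_rotInv] at h
  rw [← h, rotInv_rot]

theorem ti_rot_word1 (m : ℕ) (σ : Pat (m + 1)) :
    rot m (word m (fun _ => true) 1 m σ) = E m 0 (rotInv m σ) := by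
  have h := rot_long m (rotInv m σ)
  have h2 := ti_rot_word m 0 m (rotInv m σ)
  rw [rot_rotInv] at h2
  rw [← h, h2]

theorem ti_rot_Elast (m : ℕ) (σ : Pat (m + 1)) : rot m (E m m σ) = E m 0 (rot m σ) := by
  rw [rot_E]
  have := E_per m 0 (rot m σ)
  rw [zero_add] at this
  exact this

/-! ### the transfer map on an inserted arc -/

theorem ti_Tc10 {m : ℕ} (c : Fin (m + 3) → Bool) (h0 : c 0 = true) (h1 : c 1 = false)
    (τ : Pat (m + 3)) :
    Tc (m + 2) c τ = E (m + 2) 0 (rot (m + 2) (word (m + 2) c 1 (m + 1) τ)) := by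
  have i0 : ix (m + 2) 0 = 0 := by apply Fin.ext; simp [ix]
  have i1 : ix (m + 2) 1 = 1 := by apply Fin.ext; simp [ix]
  have hex : ∃ k : ℕ, k < m + 2 + 1 ∧ c (ix (m + 2) k) = false := ⟨1, by omega, by rw [i1]; exact h1⟩
  have hfind : Nat.find hex = 1 := by
    rw [Nat.find_eq_iff]
    refine ⟨⟨by omega, by rw [i1]; exact h1⟩, ?_⟩
    intro n hn
    have : n = 0 := by omega
    subst this
    rw [i0, h0]
    simp
  unfold Tc
  rw [dif_pos hex]
  rw [show word (m + 2) c (Nat.find hex) (m + 2) τ = word (m + 2) c 1 (m + 2) τ by rw [hfind]]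
  rw [ti_word_succ (m + 2) c 1 (m + 1) τ]
  have h3 : ix (m + 2) (1 + (m + 1) + 1) = 0 := by
    have := ix_add (m + 2) 0
    rw [i0] at this
    rw [← this]
    congr 1
    omega
  rw [h3, if_pos h0]
  rw [show 1 + (m + 1) = m + 2 by omega, ti_rot_Elast]

theorem Tc_ins {m : ℕ} (c : Fin (m + 3) → Bool) (h0 : c 0 = true) (h1 : c 1 = false)
    (σ : Pat (m + 1)) :
    Tc (m + 2) c (ins σ) = ins (Tc m (fun j => c j.succ.succ) σ) := by
  rw [ti_Tc10 c h0 h1]
  by_cases hex : ∃ k : ℕ, k < m + 1 ∧ (fun j : Fin (m + 1) => c j.succ.succ) (ix m k) = false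
  · -- some state is `false`
    have hT : Tc m (fun j => c j.succ.succ) σ
        = rot m (word m (fun j => c j.succ.succ) (Nat.find hex) m σ) := by
      unfold Tc
      rw [dif_pos hex]
    rw [hT]
    obtain ⟨hk1, hk2⟩ := Nat.find_spec hex
    have hk3 : ∀ t < Nat.find hex, c (ix m t).succ.succ = true := by
      intro t ht
      have := Nat.find_min hex ht
      have h4 : ¬ c (ix m t).succ.succ = false := fun h => this ⟨by omega, h⟩
      simpa using h4
    generalize Nat.find hex = k at hk1 hk2 hk3 ⊢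
    simp only at hk2
    -- splitting of the long word
    have hV : word (m + 2) c 1 (m + 1) (ins σ)
        = word (m + 2) c (k + 2) (m - k) (word (m + 2) c 1 k (ins σ)) := by
      generalize ins σ = τ
      have e1 : ∀ N, N = k + (1 + (m - k)) → word (m + 2) c 1 N τ
          = word (m + 2) c 1 (k + (1 + (m - k))) τ := by
        rintro N rfl
        rfl
      rw [e1 (m + 1) (by omega), ti_word_add, ti_word_add]
      rw [ti_word_one' (m + 2) c (1 + k)]
      · congr 1
        omega
      · rw [← hk2, ti_ix_ss m k (by omega)]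
        congr 2
        omega
    rw [hV]
    rcases Nat.eq_zero_or_pos k with hk0 | hkpos
    · subst hk0
      have e2 : word (m + 2) c 1 0 (ins σ) = ins σ := rfl
      rw [e2, ti_word_ins m c 0 (m - 0) (by omega), ins_rot]
      rfl
    · obtain ⟨k', rfl⟩ : ∃ k', k = k' + 1 := ⟨k - 1, by omega⟩
      -- right hand side
      have hW : word m (fun j => c j.succ.succ) (k' + 1) m σ
          = word m (fun j => c j.succ.succ) 0 k'
            (E m m (word m (fun j => c j.succ.succ) (k' + 1) (m - (k' + 1)) σ)) := by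
        have e1 : m = (m - (k' + 1)) + (1 + k') := by omega
        conv_lhs => rw [show word m (fun j => c j.succ.succ) (k' + 1) m σ
          = word m (fun j => c j.succ.succ) (k' + 1) ((m - (k' + 1)) + (1 + k')) σ by rw [← e1]]
        rw [ti_word_add, ti_word_add]
        have e3 : k' + 1 + (m - (k' + 1)) = m := by omega
        rw [e3]
        rw [ti_word_one m (fun j => c j.succ.succ) m]
        · have e4 : m + 1 = 0 + (m + 1) := by omega
          rw [show word m (fun j => c j.succ.succ) (m + 1) k' = word m (fun j => c j.succ.succ) (0 + (m + 1)) k' by rw [← e4]]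
          rw [ti_word_per]
        · have := ix_add m 0
          rw [zero_add] at this
          rw [this]
          exact hk3 0 (by omega)
      rw [hW]
      rw [← ins_rot, ← ti_word_ins m c 0 k' (by omega), ← ins_Elast,
        ← ti_word_ins m c (k' + 1) (m - (k' + 1)) (by omega)]
      -- left hand side
      have hP : word (m + 2) c 1 (k' + 1) (ins σ)
          = word (m + 2) c (0 + 2) k' (E (m + 2) 1 (ins σ)) := by
        rw [show k' + 1 = 1 + k' by omega, ti_word_add, ti_word_one]
        have := hk3 0 (by omega)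
        rw [ti_ix_ss m 0 (by omega)] at this
        exact this
      rw [hP]
      -- commute `Q` with `P` and `E 1`
      have c1 : ∀ τ, word (m + 2) c (k' + 1 + 2) (m - (k' + 1)) (word (m + 2) c (0 + 2) k' τ)
          = word (m + 2) c (0 + 2) k' (word (m + 2) c (k' + 1 + 2) (m - (k' + 1)) τ) := by
        intro τ
        rw [ti_word_comm]
        intro t ht t' ht' τ
        exact (E_comm (by omega) (by omega) τ).symm
      have c2 : ∀ τ, E (m + 2) 1 (word (m + 2) c (k' + 1 + 2) (m - (k' + 1)) τ)
          = word (m + 2) c (k' + 1 + 2) (m - (k' + 1)) (E (m + 2) 1 τ) := by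
        intro τ
        rw [ti_word_comm_E]
        intro t ht τ
        exact E_comm (by omega) (by omega) τ
      rw [c1, ← c2]
      generalize word (m + 2) c (k' + 1 + 2) (m - (k' + 1)) (ins σ) = ρ
      -- `E0 rot = rot E(m+2)`
      rw [← ti_rot_Elast, ← ti_rot_Elast]
      have c3 : ∀ τ, E (m + 2) (m + 2) (word (m + 2) c (0 + 2) k' τ)
          = word (m + 2) c (0 + 2) k' (E (m + 2) (m + 2) τ) := by
        intro τ
        rw [ti_word_comm_E]
        intro t ht τ
        exact (E_comm (by omega) (by omega) τ).symm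
      rw [c3, c3]
      have c4 : E (m + 2) (m + 2) (E (m + 2) 0 (E (m + 2) (m + 2) (E (m + 2) 1 ρ)))
          = E (m + 2) (m + 2) (E (m + 2) 1 ρ) := by
        have := E_braid (m := m + 2) (by omega) (m + 2) (E (m + 2) 1 ρ)
        have h5 := E_per (m + 2) 0 (E (m + 2) (m + 2) (E (m + 2) 1 ρ))
        rw [zero_add] at h5
        rw [h5] at this
        exact this
      rw [c4]
  · -- all states are `true`
    have hT : Tc m (fun j => c j.succ.succ) σ = rotInv m σ := by
      unfold Tc
      rw [dif_neg hex]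
    have hall : ∀ t ≤ m, c (ix (m + 2) (t + 2)) = true := by
      intro t ht
      by_contra h
      apply hex
      refine ⟨t, by omega, ?_⟩
      simp only
      rw [ti_ix_ss m t ht]
      simpa using h
    rw [hT, ← ins_rotInv]
    rw [ti_word_true (m + 2) c 1 (m + 1)]
    swap
    · intro t ht
      have := hall t (by omega)
      rw [← this]
      congr 2
      omega
    rw [← ti_rot_Elast]
    have h6 : E (m + 2) (m + 2) (word (m + 2) (fun _ => true) 1 (m + 1) (ins σ))
        = word (m + 2) (fun _ => true) 1 (m + 2) (ins σ) := by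
      rw [ti_word_succ (m + 2) (fun _ => true) 1 (m + 1), if_pos rfl]
      rw [show 1 + (m + 1) = m + 2 by omega]
    rw [h6, ti_rot_word1]

/-! ### the transfer operator -/

theorem ti_push_comp {X Y Z : Type*} [Fintype X] [Fintype Y] [DecidableEq Y] [DecidableEq Z]
    {R : Type*} [AddCommMonoid R] (f : Y → Z) (g : X → Y) (v : X → R) :
    push f (push g v) = push (fun x => f (g x)) v := by
  funext z
  unfold push
  have h : ∀ y : Y, (if f y = z then ∑ x, (if g x = y then v x else 0) else 0)
      = ∑ x, (if g x = y then (if f y = z then v x else 0) else 0) := by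
    intro y
    split_ifs with h
    · rfl
    · simp
  simp_rw [h]
  rw [Finset.sum_comm]
  apply Finset.sum_congr rfl
  intro x _
  rw [Finset.sum_eq_single (g x)]
  · simp
  · intro y _ hy
    rw [if_neg (Ne.symm hy)]
  · intro h
    exact absurd (Finset.mem_univ _) h

theorem ti_push_add {X Y : Type*} [Fintype X] [DecidableEq Y] {R : Type*} [AddCommMonoid R]
    (f : X → Y) {ι : Type*} (s : Finset ι) (v : ι → X → R) (y : Y) :
    push f (fun x => ∑ i ∈ s, v i x) y = ∑ i ∈ s, push f (v i) y := by
  unfold push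
  rw [Finset.sum_comm]
  apply Finset.sum_congr rfl
  intro x _
  split_ifs
  · rfl
  · simp

theorem ti_push_mul {X Y : Type*} [Fintype X] [DecidableEq Y] {R : Type*} [CommRing R]
    (f : X → Y) (a : R) (v : X → R) (y : Y) :
    push f (fun x => a * v x) y = a * push f v y := by
  unfold push
  rw [Finset.mul_sum]
  apply Finset.sum_congr rfl
  intro x _
  split_ifs
  · rfl
  · simp

theorem ti_upd2 {m : ℕ} (a b a' b' : Bool) (c : Fin (m + 1) → Bool) :
    upd2 (m := m + 2) (Fin.cons a (Fin.cons b c)) 0 a' b' = Fin.cons a' (Fin.cons b' c) := by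
  have i0 : ix (m + 2) 0 = 0 := by apply Fin.ext; simp [ix]
  have i1 : ix (m + 2) (0 + 1) = 1 := by apply Fin.ext; simp [ix]
  unfold upd2
  rw [i0, i1]
  funext j
  refine Fin.cases ?_ (fun j' => ?_) j
  · rw [Function.update_of_ne (by simp), Function.update_self]
    rfl
  · refine Fin.cases ?_ (fun j'' => ?_) j'
    · have : (Fin.succ (0 : Fin (m + 2))) = 1 := rfl
      rw [this, Function.update_self]
      rfl
    · rw [Function.update_of_ne, Function.update_of_ne]
      · rfl
      · exact Fin.succ_ne_zero _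
      · intro h
        have := congrArg Fin.val h
        simp at this

theorem ti_Tc_ins' {m : ℕ} (a b : Bool) (hab : a = false ∨ b = true) (c : Fin (m + 1) → Bool)
    (σ : Pat (m + 1)) :
    Tc (m + 2) (Fin.cons a (Fin.cons b c)) (ins σ)
      = Tc (m + 2) (Fin.cons false (Fin.cons true c)) (ins σ) := by
  rcases a with _ | _
  · rcases b with _ | _
    · have := Tc_E00 (m := m + 2) (by omega) 0 (Fin.cons false (Fin.cons false c)) (ins σ)
      rw [ti_upd2, ti_upd2, ins_E0] at this
      exact this
    · rfl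
  · rcases b with _ | _
    · simp at hab
    · have := Tc_E11 (m := m + 2) (by omega) 0 (Fin.cons false (Fin.cons false c)) (ins σ)
      rw [ti_upd2, ti_upd2, ins_E0] at this
      exact this

theorem ti_sum_cons {m : ℕ} {R : Type*} [AddCommMonoid R] (F : (Fin (m + 2 + 1) → Bool) → R) :
    ∑ c, F c = ∑ c : Fin (m + 1) → Bool,
      (F (Fin.cons true (Fin.cons false c)) + (F (Fin.cons false (Fin.cons false c))
        + F (Fin.cons false (Fin.cons true c)) + F (Fin.cons true (Fin.cons true c)))) := by
  have e1 : ∑ c, F c = ∑ p : Bool × (Fin (m + 2) → Bool), F (Fin.cons p.1 p.2) :=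
    (Fintype.sum_equiv (Fin.consEquiv (fun _ => Bool)) _ _ (fun p => rfl)).symm
  have e2 : ∀ G : (Fin (m + 2) → Bool) → R, ∑ c, G c
      = ∑ p : Bool × (Fin (m + 1) → Bool), G (Fin.cons p.1 p.2) :=
    fun G => (Fintype.sum_equiv (Fin.consEquiv (fun _ => Bool)) _ _ (fun p => rfl)).symm
  rw [e1, Fintype.sum_prod_type, Fintype.sum_bool, e2, e2, Fintype.sum_prod_type,
    Fintype.sum_prod_type, Fintype.sum_bool, Fintype.sum_bool]
  simp only [Finset.sum_add_distrib]
  abel

theorem Tz_ins {R : Type*} [CommRing R] {m : ℕ} (q : R) (hq : q ^ 2 + q + 1 = 0) (x : R)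
    (z : Fin (m + 1) → R) (v : Pat (m + 1) → R) :
    Tz (m := m + 2) q (Fin.cons x (Fin.cons (q * x) z)) (push ins v)
      = fun τ => ((1 + x) * (1 + q * x)) * push ins (Tz q z v) τ := by
  have hq3 : q ^ 3 = 1 := by linear_combination (q - 1) * hq
  funext τ
  unfold Tz
  rw [ti_sum_cons, ti_push_add]
  rw [Finset.mul_sum]
  apply Finset.sum_congr rfl
  intro c _
  have hprod : ∀ a b : Bool, (∏ j : Fin (m + 2 + 1),
      wt q ((Fin.cons a (Fin.cons b c) : Fin (m + 2 + 1) → Bool) j)
        ((Fin.cons x (Fin.cons (q * x) z) : Fin (m + 2 + 1) → R) j))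
      = wt q a x * (wt q b (q * x) * ∏ j : Fin (m + 1), wt q (c j) (z j)) := by
    intro a b
    rw [Fin.prod_univ_succ, Fin.prod_univ_succ]
    rfl
  rw [hprod, hprod, hprod, hprod]
  have hp1 : push (Tc (m + 2) (Fin.cons true (Fin.cons false c))) (push ins v) τ
      = push ins (push (Tc m c) v) τ := by
    rw [ti_push_comp, ti_push_comp]
    congr 1
    funext σ
    exact Tc_ins (Fin.cons true (Fin.cons false c)) rfl rfl σ
  have hp2 : ∀ a b : Bool, (a = false ∨ b = true) →
      push (Tc (m + 2) (Fin.cons a (Fin.cons b c))) (push ins v) τ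
      = push (Tc (m + 2) (Fin.cons false (Fin.cons true c))) (push ins v) τ := by
    intro a b hab
    rw [ti_push_comp, ti_push_comp]
    congr 1
    funext σ
    exact ti_Tc_ins' a b hab c σ
  rw [hp1, hp2 false false (by simp), hp2 true true (by simp), ti_push_mul]
  generalize push (Tc (m + 2) (Fin.cons false (Fin.cons true c))) (push ins v) τ = A
  generalize push ins (push (Tc m c) v) τ = B
  generalize ∏ j : Fin (m + 1), wt q (c j) (z j) = W
  simp only [wt, if_true, Bool.false_eq_true, if_false]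
  have h4 : (-q - q ^ 2 * x) * (-q ^ 2 - q * (q * x)) = (1 + x) * (1 + q * x) := by
    linear_combination ((1 + x) * (1 + q * x)) * hq3
  have h5 : (-q ^ 2 - q * x) * (-q ^ 2 - q * (q * x)) + (-q ^ 2 - q * x) * (-q - q ^ 2 * (q * x))
      + (-q - q ^ 2 * x) * (-q - q ^ 2 * (q * x)) = 0 := by
    have h6 : (-q ^ 2 - q * x) * (-q ^ 2 - q * (q * x)) + (-q ^ 2 - q * x) * (-q - q ^ 2 * (q * x))
      + (-q - q ^ 2 * x) * (-q - q ^ 2 * (q * x))
      = (q ^ 3 * q + q ^ 3 * q * x + q ^ 3 * x + q ^ 3 * x ^ 2)
        + (q ^ 3 + q ^ 3 * q ^ 2 * x + q ^ 2 * x + q ^ 3 * q * x ^ 2)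
        + (q ^ 2 + q ^ 3 * q * x + q ^ 3 * x + q ^ 3 * q ^ 2 * x ^ 2) := by ring
    rw [h6, hq3]
    linear_combination (1 + 2 * x + x ^ 2) * hq
  linear_combination (W * B) * h4 + (W * A) * h5

end Pool.Agent.H974R3
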