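import Pool.Agent.H974R3.Defs

/-!
# Blueprint: all module statements (with `sorry`).  DO NOT import this file in final proofs.
Each module proves its statements under the same names in its own file
`Pool/Agent/H974R3/<Module>.lean`, namespace `Pool.Agent.H974R3`, importing `Defs` and (if
needed) the modules it depends on.
-/

namespace Pool.Agent.H974R3
open Equiv MvPolynomial

/-! ## Module A : relations (file Rel.lean) -/

theorem E_val (m i : ℕ) (σ : Pat (m + 1)) :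
    (E m i σ).1 = join (some (ix m i)) (some (ix m (i + 1))) σ.1 := sorry
theorem rot_val (m : ℕ) (σ : Pat (m + 1)) : (rot m σ).1 = rotV m * σ.1 * (rotV m)⁻¹ := sorry
theorem rotInv_val (m : ℕ) (σ : Pat (m + 1)) : (rotInv m σ).1 = (rotV m)⁻¹ * σ.1 * rotV m := sorry
theorem rot_rotInv (m : ℕ) (σ : Pat (m + 1)) : rot m (rotInv m σ) = σ := sorry
theorem rotInv_rot (m : ℕ) (σ : Pat (m + 1)) : rotInv m (rot m σ) = σ := sorry
theorem ix_add (m i : ℕ) : ix m (i + (m + 1)) = ix m i := sorry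
theorem E_per (m i : ℕ) (σ : Pat (m + 1)) : E m (i + (m + 1)) σ = E m i σ := sorry
theorem E_arc {m : ℕ} (hm : 1 ≤ m) (i : ℕ) (σ : Pat (m + 1)) :
    (E m i σ).1 (some (ix m i)) = some (ix m (i + 1)) := sorry
theorem E_fix {m : ℕ} (i : ℕ) (σ : Pat (m + 1))
    (h : σ.1 (some (ix m i)) = some (ix m (i + 1))) : E m i σ = σ := sorry
theorem E_idem (m i : ℕ) (σ : Pat (m + 1)) : E m i (E m i σ) = E m i σ := sorry
theorem E_braid {m : ℕ} (hm : 2 ≤ m) (i : ℕ) (σ : Pat (m + 1)) :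
    E m i (E m (i + 1) (E m i σ)) = E m i σ := sorry
theorem E_braid' {m : ℕ} (hm : 2 ≤ m) (i : ℕ) (σ : Pat (m + 1)) :
    E m (i + 1) (E m i (E m (i + 1) σ)) = E m (i + 1) σ := sorry
theorem E_comm {m i j : ℕ} (h1 : i + 2 ≤ j) (h2 : j + 2 ≤ i + (m + 1)) (σ : Pat (m + 1)) :
    E m i (E m j σ) = E m j (E m i σ) := sorry
theorem rot_E (m i : ℕ) (σ : Pat (m + 1)) : rot m (E m i σ) = E m (i + 1) (rot m σ) := sorry
theorem rot_long (m : ℕ) (σ : Pat (m + 1)) :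
    rot m (rot m (word m (fun _ => true) 0 m σ)) = E m 0 σ := sorry

/-! ## Module A2 : insertion relations (file Ins.lean) -/

theorem ins_inj {L : ℕ} {σ τ : Pat L} (h : ins σ = ins τ) : σ = τ := sorry
theorem ins_range {L : ℕ} (τ : Pat (L + 2)) : (∃ σ, ins σ = τ) ↔ τ.1 (some 0) = some 1 := sorry
theorem ins_E {m i : ℕ} (hi : i < m) (σ : Pat (m + 1)) :
    E (m + 2) (i + 2) (ins σ) = ins (E m i σ) := sorry
theorem ins_E0 {m : ℕ} (σ : Pat (m + 1)) : E (m + 2) 0 (ins σ) = ins σ := sorry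
theorem ins_Elast {m : ℕ} (σ : Pat (m + 1)) :
    E (m + 2) 0 (E (m + 2) (m + 2) (E (m + 2) 1 (ins σ))) = ins (E m m σ) := sorry
theorem ins_rot {m : ℕ} (σ : Pat (m + 1)) :
    E (m + 2) 0 (rot (m + 2) (ins σ)) = ins (rot m σ) := sorry
theorem ins_rotInv {m : ℕ} (σ : Pat (m + 1)) :
    E (m + 2) 0 (rotInv (m + 2) (ins σ)) = ins (rotInv m σ) := sorry

/-! ## Module B : the transfer maps (file Trans.lean, imports Rel) -/

/-- the state with the entries at `i`, `i+1` replaced by `a`, `b` -/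
def upd2 {m : ℕ} (c : Fin (m + 1) → Bool) (i : ℕ) (a b : Bool) : Fin (m + 1) → Bool :=
  Function.update (Function.update c (ix m i) a) (ix m (i + 1)) b

theorem Tc_rot (m : ℕ) (c : Fin (m + 1) → Bool) (σ : Pat (m + 1)) :
    Tc m (fun j => c ((finRotate (m + 1)).symm j)) (rot m σ) = rot m (Tc m c σ) := sorry
theorem E_Tc00 {m : ℕ} (hm : 2 ≤ m) (i : ℕ) (c : Fin (m + 1) → Bool) (σ : Pat (m + 1)) :
    E m i (Tc m (upd2 c i false false) σ) = Tc m (upd2 c i true false) σ := sorry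
theorem E_Tc10 {m : ℕ} (hm : 2 ≤ m) (i : ℕ) (c : Fin (m + 1) → Bool) (σ : Pat (m + 1)) :
    E m i (Tc m (upd2 c i true false) σ) = Tc m (upd2 c i true false) σ := sorry
theorem E_Tc11 {m : ℕ} (hm : 2 ≤ m) (i : ℕ) (c : Fin (m + 1) → Bool) (σ : Pat (m + 1)) :
    E m i (Tc m (upd2 c i true true) σ) = Tc m (upd2 c i true false) σ := sorry
theorem E_Tc01 {m : ℕ} (hm : 2 ≤ m) (i : ℕ) (c : Fin (m + 1) → Bool) (σ : Pat (m + 1)) :
    E m i (Tc m (upd2 c i false true) σ) = Tc m (upd2 c i true false) (E m i σ) := sorry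
theorem Tc_E00 {m : ℕ} (hm : 2 ≤ m) (i : ℕ) (c : Fin (m + 1) → Bool) (σ : Pat (m + 1)) :
    Tc m (upd2 c i false false) (E m i σ) = Tc m (upd2 c i false true) σ := sorry
theorem Tc_E01 {m : ℕ} (hm : 2 ≤ m) (i : ℕ) (c : Fin (m + 1) → Bool) (σ : Pat (m + 1)) :
    Tc m (upd2 c i false true) (E m i σ) = Tc m (upd2 c i false true) σ := sorry
theorem Tc_E11 {m : ℕ} (hm : 2 ≤ m) (i : ℕ) (c : Fin (m + 1) → Bool) (σ : Pat (m + 1)) :
    Tc m (upd2 c i true true) (E m i σ) = Tc m (upd2 c i false true) σ := sorry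

/-! ## Module B2 : the inhomogeneous transfer operator (file TransZ.lean, imports Trans, Ins) -/

theorem Rh_Tz {R : Type*} [CommRing R] [NoZeroDivisors R] [CharZero R] {m : ℕ} (hm : 2 ≤ m)
    (q : R) (hq : q ^ 2 + q + 1 = 0) (i : ℕ) (z : Fin (m + 1) → R) (v : Pat (m + 1) → R) :
    Rh q (z (ix m i)) (z (ix m (i + 1))) i (Tz q z v)
      = Tz q (fun j => z (swap (ix m i) (ix m (i + 1)) j))
          (Rh q (z (ix m i)) (z (ix m (i + 1))) i v) := sorry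
theorem push_rot_Tz {R : Type*} [CommRing R] {m : ℕ} (q : R) (z : Fin (m + 1) → R)
    (v : Pat (m + 1) → R) :
    push (rot m) (Tz q z v) = Tz q (fun j => z ((finRotate (m + 1)).symm j)) (push (rot m) v) :=
  sorry
theorem sum_Tz {R : Type*} [CommRing R] {m : ℕ} (q : R) (hq : q ^ 2 + q + 1 = 0)
    (z : Fin (m + 1) → R) (v : Pat (m + 1) → R) :
    ∑ σ, Tz q z v σ = (∏ j, (1 + z j)) * ∑ σ, v σ := sorry
theorem sum_push {X Y : Type*} [Fintype X] [Fintype Y] [DecidableEq Y] {R : Type*}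
    [AddCommMonoid R] (f : X → Y) (v : X → R) : ∑ y, push f v y = ∑ x, v x := sorry
theorem Tc_ins {m : ℕ} (c : Fin (m + 3) → Bool) (h0 : c 0 = true) (h1 : c 1 = false)
    (σ : Pat (m + 1)) :
    Tc (m + 2) c (ins σ) = ins (Tc m (fun j => c j.succ.succ) σ) := sorry
theorem Tz_ins {R : Type*} [CommRing R] {m : ℕ} (q : R) (hq : q ^ 2 + q + 1 = 0) (x : R)
    (z : Fin (m + 1) → R) (v : Pat (m + 1) → R) :
    Tz (m := m + 2) q (Fin.cons x (Fin.cons (q * x) z)) (push ins v)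
      = fun τ => ((1 + x) * (1 + q * x)) * push ins (Tz q z v) τ := sorry

/-! ## Module E : triangular structure (file Tri.lean, imports Rel) -/

/-- total length of the arcs -/
def len {L : ℕ} (σ : Pat L) : ℕ :=
  ∑ k : Fin L, (match σ.1 (some k) with
    | some l => (k.val - l.val) + (l.val - k.val)
    | none => 0)

theorem tri_step (n : ℕ) (σ : Pat (2 * n + 1)) (hd : σ.1 none = some (Fin.last (2 * n)))
    (hσ : σ ≠ base n) : ∃ i, i + 1 < 2 * n ∧ E (2 * n) i σ ≠ σ ∧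
      (E (2 * n) i σ).1 none = some (Fin.last (2 * n)) ∧ len σ < len (E (2 * n) i σ) ∧
      ∀ τ, E (2 * n) i τ = E (2 * n) i σ → τ ≠ σ → τ ≠ E (2 * n) i σ →
        (τ.1 none = some (Fin.last (2 * n)) ∧ len σ < len τ) := sorry
theorem len_le {L : ℕ} (σ : Pat L) : len σ ≤ L * L := sorry
theorem base_no_arc {n i : ℕ} (hi : i < 2 * n + 1) (hn : i + 1 ≠ n) (hn1 : 1 ≤ n)
    (τ : Pat (2 * n + 1)) : E (2 * n) i τ ≠ base n := sorry
theorem rot_to_last (n : ℕ) (σ : Pat (2 * n + 1)) :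
    ∃ k : ℕ, ((rot (2 * n))^[k] σ).1 none = some (Fin.last (2 * n)) := sorry

/-! ## Module C : the homogeneous Markov chain (file Markov.lean, imports Rel, Trans, Tri) -/

/-- compositions of `K` transfer maps -/
inductive IsWord (m : ℕ) : ℕ → (Pat (m + 1) → Pat (m + 1)) → Prop
  | id : IsWord m 0 id
  | step (c : Fin (m + 1) → Bool) (w : Pat (m + 1) → Pat (m + 1)) (K : ℕ) :
      IsWord m K w → IsWord m (K + 1) (Tc m c ∘ w)

theorem exists_word (n : ℕ) : ∃ K w, IsWord (2 * n) K w ∧ ∀ σ, w σ = base n := sorry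
theorem markov_unique (n : ℕ) (v : Pat (2 * n + 1) → ℂ)
    (h : ∀ σ, ∑ c : Fin (2 * n + 1) → Bool, push (Tc (2 * n) c) v σ = 2 ^ (2 * n + 1) * v σ)
    (hs : ∑ σ, v σ = 0) : v = 0 := sorry
theorem markov_exists (n : ℕ) : ∃ μ : Pat (2 * n + 1) → ℝ, (∀ σ, 0 ≤ μ σ) ∧ ∑ σ, μ σ = 1 ∧
    (∀ σ, ∑ c : Fin (2 * n + 1) → Bool, push (Tc (2 * n) c) μ σ = 2 ^ (2 * n + 1) * μ σ) ∧
    0 < μ (base n) ∧ ∀ σ, μ (rot (2 * n) σ) = μ σ := sorry

/-! ## Module D0 : uniqueness at generic points (file Gen.lean, imports Markov, TransZ) -/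

theorem generic_unique (q : ℂ) (hq : q ^ 2 + q + 1 = 0) (n : ℕ) :
    ∃ Z0 : MvPolynomial (Fin (2 * n + 1)) ℂ, Z0 ≠ 0 ∧ ∀ z, eval z Z0 ≠ 0 →
      ∀ v : Pat (2 * n + 1) → ℂ, (Tz q z v = fun σ => (∏ j, (1 + z j)) * v σ) →
        ∑ σ, v σ = 0 → v = 0 := sorry
theorem dense_agree {N : ℕ} (D : MvPolynomial (Fin N) ℂ) (hD : D ≠ 0)
    (f g : (Fin N → ℂ) → ℂ) (hf : Continuous f) (hg : Continuous g)
    (h : ∀ z, eval z D ≠ 0 → f z = g z) : f = g := sorry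

/-! ## Module D1 : rational ground state (file Phi.lean, imports Markov, TransZ) -/

theorem exists_Phi (q : ℂ) (hq : q ^ 2 + q + 1 = 0) (n : ℕ) :
    ∃ Φ : Pat (2 * n + 1) → FractionRing (MvPolynomial (Fin (2 * n + 1)) ℂ),
      (∑ σ, Φ σ = 1) ∧
      (Tz (algebraMap (MvPolynomial (Fin (2 * n + 1)) ℂ) _ (C q))
        (fun j => algebraMap (MvPolynomial (Fin (2 * n + 1)) ℂ) _ (X j)) Φ
          = fun σ => (∏ j, (1 + algebraMap (MvPolynomial (Fin (2 * n + 1)) ℂ) _ (X j))) * Φ σ) ∧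
      Φ (base n) ≠ 0 ∧
      ∀ v : Pat (2 * n + 1) → FractionRing (MvPolynomial (Fin (2 * n + 1)) ℂ),
        (Tz (algebraMap (MvPolynomial (Fin (2 * n + 1)) ℂ) _ (C q))
          (fun j => algebraMap (MvPolynomial (Fin (2 * n + 1)) ℂ) _ (X j)) v
            = fun σ => (∏ j, (1 + algebraMap (MvPolynomial (Fin (2 * n + 1)) ℂ) _ (X j))) * v σ) →
        ∑ σ, v σ = 0 → v = 0 := sorry

/-! ## Module D2 : polynomial ground state (file Psi.lean, imports Phi, Tri) -/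

theorem exists_psi (q : ℂ) (hq : q ^ 2 + q + 1 = 0) (n : ℕ) :
    ∃ Ψ : Pat (2 * n + 1) → MvPolynomial (Fin (2 * n + 1)) ℂ, PsiSpec q n Ψ := sorry

/-! ## Module F : recursion (file Rec.lean, imports Gen, TransZ, Ins) -/

/-- recursion factor -/
noncomputable def Fac {N : ℕ} (q x : ℂ) (z : Fin N → ℂ) : ℂ :=
  -(q - 1) * x * ∏ j, (z j - q ^ 2 * x) ^ 2

theorem psi_rec (q : ℂ) (hq : q ^ 2 + q + 1 = 0) (n : ℕ)
    (Ψ : Pat (2 * n + 1) → MvPolynomial (Fin (2 * n + 1)) ℂ) (h : PsiSpec q n Ψ)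
    (Ψ' : Pat (2 * n + 3) → MvPolynomial (Fin (2 * n + 3)) ℂ) (h' : PsiSpec q (n + 1) Ψ')
    (x : ℂ) (z : Fin (2 * n + 1) → ℂ) :
    (∀ σ : Pat (2 * n + 1), eval (Fin.cons x (Fin.cons (q * x) z)) (Ψ' (ins σ))
      = Fac q x z * eval z (Ψ σ)) ∧
    ∀ τ : Pat (2 * n + 3), (∀ σ : Pat (2 * n + 1), ins σ ≠ τ) →
      eval (Fin.cons x (Fin.cons (q * x) z)) (Ψ' τ) = 0 := sorry

/-! ## Module G : pairings (file Pair.lean, imports Rel, Ins) -/

theorem pr_E {m : ℕ} (i : ℕ) (j : Fin (m + 1)) (h1 : ix m i ≠ j) (h2 : ix m (i + 1) ≠ j)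
    (σ τ : Pat (m + 1)) : pr j (E m i σ) τ = pr j σ (E m i τ) := sorry
theorem pr_ins_E0 {m : ℕ} (σ : Pat (m + 1)) (τ : Pat (m + 3)) :
    pr 0 (ins σ) (E (m + 2) 0 τ) = 0 := sorry
theorem pr_ins_rot {m : ℕ} (σ τ : Pat (m + 1)) :
    pr 0 (ins σ) (rot (m + 2) (ins (rotInv m τ))) = pr 0 σ τ := sorry
theorem pr_ins_rotInv {m : ℕ} (σ τ : Pat (m + 1)) :
    pr 0 (ins σ) (rotInv (m + 2) (ins τ)) = pr 0 (rot m σ) τ := sorry
theorem pr_rot {m : ℕ} (j : Fin (m + 1)) (σ τ : Pat (m + 1)) :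
    pr (finRotate (m + 1) j) (rot m σ) (rot m τ) = pr j σ τ := sorry
theorem pr_one {m : ℕ} (σ : Pat (m + 1)) (τ : Pat (m + 3)) :
    pr 1 (ins σ) τ = pr 0 (ins σ) τ := sorry
theorem sum_pr {m : ℕ} (σ τ : Pat (m + 1)) : ∃ j, pr j σ τ = 1 := sorry

/-! ## Module H : alternants (file Alt.lean) -/

/-- the Schur type polynomials `det (u_i ^ aexp r j) / Vandermonde`, as functions of lists -/
structure GSpec (q : ℂ) (r : ℕ) (g : List ℂ → ℂ) : Prop where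
  perm : ∀ l l' : List ℂ, l.Perm l' → g l = g l'
  nil : g [] = 1
  single : ∀ x, g [x] = 1
  recur : ∀ (t : ℂ) (l : List ℂ), g (t :: (q * t) :: l)
    = (if r = 1 then 1 else -q ^ 2 * t) * (l.map (fun u => u - q ^ 2 * t)).prod * g l
  deg : ∀ l : List ℂ, (r = 1 ∨ Even l.length) →
    ∃ P : Polynomial ℂ, P.natDegree ≤ l.length / 2 ∧ ∀ x, P.eval x = g (x :: l)
  cont : ∀ N : ℕ, Continuous (fun z : Fin N → ℂ => g (List.ofFn z))
  ones : ∀ N : ℕ, (∏ j ∈ Finset.range N, ∏ i ∈ Finset.range j, ((j - i : ℕ) : ℂ))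
      * g (List.replicate N 1)
    = ∏ j ∈ Finset.range N, ∏ i ∈ Finset.range j, ((aexp r j - aexp r i : ℕ) : ℂ)

theorem exists_G (q : ℂ) (hq : q ^ 2 + q + 1 = 0) (r : ℕ) (hr : r = 1 ∨ r = 2) :
    ∃ g : List ℂ → ℂ, GSpec q r g := sorry

/-! ## Module I1 : the sum rule (file SumRule.lean, imports Rec, Psi) -/

theorem Z_formula (q : ℂ) (hq : q ^ 2 + q + 1 = 0) (g1 g2 : List ℂ → ℂ) (h1 : GSpec q 1 g1)
    (h2 : GSpec q 2 g2) (n : ℕ)
    (Ψ : Pat (2 * n + 1) → MvPolynomial (Fin (2 * n + 1)) ℂ) (h : PsiSpec q n Ψ)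
    (z : Fin (2 * n + 1) → ℂ) :
    ∑ σ, eval z (Ψ σ) = (q ^ 2 - q) ^ n * g1 (List.ofFn z) * g2 (List.ofFn z) := sorry

/-! ## Module I2 : the pairing formula (file PairFormula.lean, imports Rec, Psi, Pair) -/

theorem B_formula (q : ℂ) (hq : q ^ 2 + q + 1 = 0) (g1 : List ℂ → ℂ) (h1 : GSpec q 1 g1)
    (n : ℕ) (Ψ : Pat (2 * n + 1) → MvPolynomial (Fin (2 * n + 1)) ℂ) (h : PsiSpec q n Ψ)
    (Ψ' : Pat (2 * n + 1) → MvPolynomial (Fin (2 * n + 1)) ℂ) (h' : PsiSpec (q ^ 2) n Ψ')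
    (x y : ℂ) (z : Fin (2 * n) → ℂ) :
    ∑ σ, ∑ τ, pr 0 σ τ * eval (Fin.cons x z : Fin (2 * n + 1) → ℂ) (Ψ σ)
        * eval (Fin.cons y z : Fin (2 * n + 1) → ℂ) (Ψ' τ)
      = g1 (x :: y :: (List.ofFn z ++ List.ofFn z)) := sorry

/-! ## Module K : evaluation and lower bound (file Value.lean) -/

/-- `∏_{i<j<N} (a_j - a_i)/(j-i)` -/
noncomputable def Dval (r N : ℕ) : ℝ :=
  ∏ j ∈ Finset.range N, ∏ i ∈ Finset.range j, ((aexp r j - aexp r i : ℕ) : ℝ) / ((j - i : ℕ) : ℝ)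

/-- the value `A_L / A_HT(L)^2` -/
noncomputable def pval (n : ℕ) : ℝ :=
  Dval 1 (2 * (2 * n + 1)) / (3 ^ n * (Dval 1 (2 * n + 1) * Dval 2 (2 * n + 1)) ^ 2)

/-- if in addition `pval n ≥ 1/(2n+1)`, then `pval n ≥ (2n+1)^{-1/4}` -/
theorem pval_lower (h : ∀ n : ℕ, 1 / (2 * (n : ℝ) + 1) ≤ pval n) (n : ℕ) :
    1 ≤ pval n ^ 4 * (2 * (n : ℝ) + 1) := sorry

/-! ## Module M : the homogeneous pairing (file Homog.lean, imports everything above) -/

theorem pairing_value (n : ℕ) (μ : Pat (2 * n + 1) → ℝ) (hμ : ∑ σ, μ σ = 1)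
    (hst : ∀ σ, ∑ c : Fin (2 * n + 1) → Bool, push (Tc (2 * n) c) μ σ
      = 2 ^ (2 * n + 1) * μ σ) (j : Fin (2 * n + 1)) :
    ((∑ σ, ∑ τ, (pr j σ τ).re * μ σ * μ τ : ℝ)) = pval n := sorry
theorem pairing_lower (n : ℕ) (μ : Pat (2 * n + 1) → ℝ) (hμ : ∑ σ, μ σ = 1)
    (hst : ∀ σ, ∑ c : Fin (2 * n + 1) → Bool, push (Tc (2 * n) c) μ σ
      = 2 ^ (2 * n + 1) * μ σ) (j : Fin (2 * n + 1)) :
    1 ≤ (∑ σ, ∑ τ, (pr j σ τ).re * μ σ * μ τ : ℝ) ^ 4 * (2 * (n : ℝ) + 1) := sorry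

/-! ## Module P1 : compatibility of patterns with face labellings (file Compat.lean, imports Rel) -/

/-- iterate rows: `rows c M σ0` is the pattern after the rows `c 0, …, c (M-1)` -/
noncomputable def rows (m : ℕ) (c : ℕ → Fin (m + 1) → Bool) : ℕ → Pat (m + 1) → Pat (m + 1)
  | 0, σ => σ
  | (t + 1), σ => Tc m (c t) (rows m c t σ)

/-- label of a vertex at level `t`: the face of parity `ε` adjacent to the strand -/
def lab {m : ℕ} (H : ℕ → ℕ → Bool) (ε t : ℕ) : Vx (m + 1) → Bool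
  | none => false
  | some j => if (j.val + t) % 2 = ε then H j.val t else H (j.val + 1) t

/-- `H` (on the faces `(j,t)`, `0 ≤ j ≤ m+1`, `0 ≤ t ≤ M`, of parity `ε`) is false on the
boundary and constant along open links -/
structure Labelling (m M : ℕ) (c : ℕ → Fin (m + 1) → Bool) (ε : ℕ) (H : ℕ → ℕ → Bool) :
    Prop where
  left : ∀ t ≤ M, t % 2 = ε → H 0 t = false
  right : ∀ t ≤ M, (m + 1 + t) % 2 = ε → H (m + 1) t = false
  bottom : ∀ j ≤ m + 1, j % 2 = ε → H j 0 = false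
  link0 : ∀ t < M, ∀ j : Fin (m + 1), c t j = false → (j.val + t) % 2 = ε →
    H j.val t = H (j.val + 1) (t + 1)
  link1 : ∀ t < M, ∀ j : Fin (m + 1), c t j = true → (j.val + t + 1) % 2 = ε →
    H j.val (t + 1) = H (j.val + 1) t

theorem compat {m M : ℕ} {c : ℕ → Fin (m + 1) → Bool} {ε : ℕ} (hε : ε < 2)
    {H : ℕ → ℕ → Bool} (hH : Labelling m M c ε H) (σ : Pat (m + 1)) (v : Vx (m + 1)) :
    lab H ε M ((rows m c M σ).1 v) = lab H ε M v := sorry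

end Pool.Agent.H974R3
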